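import Pool.Agent.Lib.LS.Base
import Pool.Agent.Lib.LL.Gauss

set_option autoImplicit false

open MeasureTheory Filter Topology Metric
open scoped ComplexConjugate InnerProductSpace ContDiff

namespace Pool.Agent.Lib.LS

open Pool.Agent.Lib.MP_791321_mp

namespace T76

theorem cube_sub_ball {c x : V3} {l : ℝ} (hl : 0 < l) (hx : x ∈ LL.cube c (l / 2)) :
    x ∈ ball c l := by
  rw [mem_ball, EuclideanSpace.dist_eq, Real.sqrt_lt' hl]
  have h : ∀ i, dist (x i) (c i) ^ 2 ≤ (l / 2) ^ 2 := fun i => by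
    obtain ⟨h1, h2⟩ := hx i
    rw [Real.dist_eq, sq_abs]
    nlinarith
  calc ∑ i, dist (x i) (c i) ^ 2 ≤ ∑ _i : Fin 3, (l / 2) ^ 2 :=
        Finset.sum_le_sum fun i _ => h i
    _ < l ^ 2 := by
        simp only [Finset.sum_const, Finset.card_univ, Fintype.card_fin, nsmul_eq_mul]
        push_cast
        nlinarith

theorem kap_kd (a : Fin 3 → V3 → ℝ) (φ : V3 → ℂ) (x : V3) : LL.kap a φ x = kd a φ x := by
  refine Finset.sum_congr rfl fun i _ => ?_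
  have h : -Complex.I * LL.pd i φ x + (a i x : ℂ) * φ x =
      -Complex.I * (pd i φ x + Complex.I * (a i x : ℝ) * φ x) := by
    have h1 : LL.pd i φ x = pd i φ x := rfl
    rw [h1]
    linear_combination ((a i x : ℂ) * φ x) * Complex.I_mul_I
  rw [h, norm_mul, norm_neg, Complex.norm_I, one_mul]

theorem Aq_aF {L Λ : ℝ} (α : ℝ) (ε : V3 → Fin 2 → V3) (q : Mode L Λ → ℝ) :
    LL.Aq (LL.gA α ε) q = aF α ε q := by
  funext i x
  refine Finset.sum_congr rfl fun m _ => ?_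
  rw [gA_eq]
  ring

theorem pg_of {I : Type} [Fintype I] {f : (I → ℝ) → ℝ} (h : LL.PG f) : PG f := LL.pg_iff.1 h

theorem gE_eq {I : Type} [Fintype I] (f : (I → ℝ) → ℝ) : gE f = ∫ q, f q ∂LL.gam I := by
  rw [gE, LL.gam_eq_pi]

theorem pair_of {I : Type} [Fintype I] [DecidableEq I] {κ : I → ℝ} (hκ : ∀ i, 0 ≤ κ i)
    {ρ : (I → ℝ) → ℝ} {δ : I → (I → ℝ) → ℝ} (h : LL.Dens ρ δ) :
    Pair κ ρ fun q => ∑ i, κ i * δ i q where
  pm := ⟨h.c1.1, pg_of h.c1.2.1, fun m => pg_of (h.c1.2.2 m)⟩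
  ph := PG.sum fun i _ => (PG.const _).mul (pg_of (h.pg i))
  m0 := h.nn
  h0 q := Finset.sum_nonneg fun i _ => mul_nonneg (hκ i) (h.nd i q)
  grad q := by
    rw [Finset.mul_sum]
    refine Finset.sum_le_sum fun i _ => ?_
    have h1 : dq i ρ q ^ 2 ≤ 4 * ρ q * δ i q := h.cs i q
    calc κ i * dq i ρ q ^ 2 ≤ κ i * (4 * ρ q * δ i q) := mul_le_mul_of_nonneg_left h1 (hκ i)
      _ = 4 * ρ q * (κ i * δ i q) := by ring

theorem gE_Dr {I : Type} [Fintype I] [DecidableEq I] (κ : I → ℝ)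
    {ρ : (I → ℝ) → ℝ} {δ : I → (I → ℝ) → ℝ} (h : LL.Dens ρ δ) :
    gE (fun q => ∑ i, κ i * δ i q) = LL.Dr κ δ := by
  rw [gE_sum _ fun i _ => (PG.const _).mul (pg_of (h.pg i))]
  exact Finset.sum_congr rfl fun i _ => by rw [gE_mul, gE_eq]

end T76

open T76 in
theorem st_ADP (hNEAR : LL.St_NEAR) (hDEN : LL.St_DEN) (hKAP : LL.St_KAP) : St_ADP := by
  obtain ⟨C, hC, hN⟩ := hNEAR
  refine ⟨4 * C, by positivity, fun L Λ α E l ε hL hl hε hE => ?_⟩
  obtain ⟨c, d, p, e, hp, he, hpos, -, -, hlt⟩ :=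
    hN L Λ α E (l / 2) ε hL (by positivity) hε hE
  obtain ⟨hD, hK⟩ := hDEN (Mode L Λ) LL.TF (Fin d) p e hp
  have hsup : ∀ q, LL.vc p e q ∈ LL.SupS c (l / 2) := fun q =>
    Submodule.sum_mem _ fun b _ => Submodule.smul_mem _ _ (he b)
  refine ⟨c, fun q => (LL.vc p e q).val, LL.rh p e, fun q => ∑ m, om m * LL.de p e m q,
    LL.ke LL.TF.p (LL.M1 (LL.gA α ε)) p e,
    ⟨fun q => (LL.vc p e q).smooth, fun q => (LL.vc p e q).cpt,
      fun q x hx => cube_sub_ball hl (hsup q x hx), fun q => LL.TF.norm_sq_eq _, fun q => ?_,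
      pair_of (fun m => (om_pos m).le) hD, pg_of (hK _ _ _)⟩, ?_, ?_⟩
  · have h1 := (hKAP (Mode L Λ) (LL.gA α ε) q (fun m => LL.gA_sm α ε m)).1 (LL.vc p e q)
    rw [Aq_aF] at h1
    simp only [kap_kd] at h1
    exact h1
  · rw [gE_eq]; exact hpos
  · rw [gE_Dr om hD, gE_eq, gE_eq]
    have h2 : 4 * C / l ^ 2 = C / (l / 2) ^ 2 := by field_simp; ring
    rw [h2]
    exact hlt

end Pool.Agent.Lib.LS
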