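import Pool.Agent.Lib.LS.Base
import Pool.Agent.Lib.LL.B_BES

/-! Row `S_BES`: inequalities of Bessel type on the torus. -/

set_option autoImplicit false

open MeasureTheory Metric
open scoped ComplexConjugate

namespace Pool.Agent.Lib.LS

open Pool.Agent.Lib.MP_791321_mp Pool.Agent.Lib.LL.T33 Pool.Agent.Lib.LL.T12

namespace T33

theorem int_cos {L : ℝ} (hL : 0 < L) (c : V3) (z : Fin 3 → ℤ) :
    ∫ x in LL.cube c L, Real.cos (inner ℝ (mom L z) x) = if z = 0 then L ^ 3 else 0 := by
  have h := Complex.reCLM.integral_comp_comm (intOn c L (wv_cont L z))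
  rw [orth hL] at h
  simp only [Complex.reCLM_apply, wv, mul_comm Complex.I, Complex.exp_ofReal_mul_I_re] at h
  rw [h]
  split_ifs
  · rw [← Complex.ofReal_pow, Complex.ofReal_re]
  · rfl

theorem int_sin {L : ℝ} (hL : 0 < L) (c : V3) (z : Fin 3 → ℤ) :
    ∫ x in LL.cube c L, Real.sin (inner ℝ (mom L z) x) = 0 := by
  have h := Complex.imCLM.integral_comp_comm (intOn c L (wv_cont L z))
  rw [orth hL] at h
  simp only [Complex.imCLM_apply, wv, mul_comm Complex.I, Complex.exp_ofReal_mul_I_im] at h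
  rw [h]
  split_ifs
  · rw [← Complex.ofReal_pow, Complex.ofReal_im]
  · rfl

theorem int_cas {L : ℝ} (hL : 0 < L) (c : V3) (z w : Fin 3 → ℤ) :
    ∫ x in LL.cube c L, (Real.cos (inner ℝ (mom L z) x) + Real.sin (inner ℝ (mom L z) x)) *
      (Real.cos (inner ℝ (mom L w) x) + Real.sin (inner ℝ (mom L w) x)) =
      if z = w then L ^ 3 else 0 := by
  have h1 : mom L (z - w) = mom L z - mom L w := by
    ext i
    simp only [mom, Pi.sub_apply, Int.cast_sub, PiLp.sub_apply]
    ring
  have h2 : mom L (z + w) = mom L z + mom L w := by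
    ext i
    simp only [mom, Pi.add_apply, Int.cast_add, PiLp.add_apply]
    ring
  have e : ∀ x : V3, (Real.cos (inner ℝ (mom L z) x) + Real.sin (inner ℝ (mom L z) x)) *
      (Real.cos (inner ℝ (mom L w) x) + Real.sin (inner ℝ (mom L w) x)) =
      Real.cos (inner ℝ (mom L (z - w)) x) + Real.sin (inner ℝ (mom L (z + w)) x) := fun x => by
    rw [h1, h2, inner_sub_left, inner_add_left, Real.cos_sub, Real.sin_add]
    ring
  simp only [e]
  rw [integral_add (intOn c L (by fun_prop)) (intOn c L (by fun_prop)), int_cos hL, int_sin hL,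
    add_zero]
  simp only [sub_eq_zero]

theorem Pm_cube {L Λ : ℝ} (hL : 0 < L) (c : V3) {ε : V3 → Fin 2 → V3} (hε : IsPolarisation ε)
    (m m' : Mode L Λ) : Pm ε (LL.cube c L) m m' = if m = m' then 1 else 0 := by
  have l3 : 0 < L ^ 3 := by positivity
  have e : ∀ x : V3, ∑ i, tA ε i m x * tA ε i m' x =
      (∑ i, ε (kk m) m.2 i * ε (kk m') m'.2 i) / L ^ 3 *
      ((Real.cos (inner ℝ (mom L m.1) x) + Real.sin (inner ℝ (mom L m.1) x)) *
      (Real.cos (inner ℝ (mom L m'.1) x) + Real.sin (inner ℝ (mom L m'.1) x))) := fun x => by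
    rw [Finset.sum_div, Finset.sum_mul]
    refine Finset.sum_congr rfl fun i _ => ?_
    rw [tA, tA, div_mul_div_comm, Real.mul_self_sqrt l3.le, kk, kk]
    ring
  simp only [Pm, e]
  rw [integral_const_mul, int_cas hL]
  obtain ⟨z, μ⟩ := m
  obtain ⟨w, ν⟩ := m'
  by_cases h : z = w
  · subst h
    have h1 := orthonormal_iff_ite.1 (hε _ (kk_ne (z, μ))).1 ν μ
    rw [PiLp.inner_apply] at h1
    simp only [RCLike.inner_apply, conj_trivial] at h1
    have h2 : kk ((z, ν) : Mode L Λ) = kk (z, μ) := rfl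
    simp only [h2, h1, if_true, Prod.mk.injEq, true_and, eq_comm (a := ν)]
    field_simp
  · simp [h, Subtype.val_inj]

theorem parseval {L Λ : ℝ} (hL : 0 < L) (c : V3) (a : Kset L Λ → ℂ) :
    ∫ x in LL.cube c L, ‖∑ z : Kset L Λ, a z * wv L z x‖ ^ 2 = L ^ 3 * ∑ z, ‖a z‖ ^ 2 := by
  apply Complex.ofReal_injective
  have e : ∀ x, ((‖∑ z : Kset L Λ, a z * wv L z x‖ ^ 2 : ℝ) : ℂ) = ∑ z : Kset L Λ,
      ∑ w : Kset L Λ, a z * conj (a w) * wv L (z.1 - w.1) x := fun x => by
    rw [Complex.ofReal_pow, ← Complex.mul_conj']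
    simp only [map_sum, map_mul, Finset.sum_mul_sum, ← wv_mul]
    exact Finset.sum_congr rfl fun z _ => Finset.sum_congr rfl fun w _ => by ring
  rw [← integral_complex_ofReal]
  simp only [e]
  rw [integral_finsetSum _ fun z _ => intOn c L (by fun_prop)]
  push_cast
  rw [Finset.mul_sum]
  refine Finset.sum_congr rfl fun z _ => ?_
  rw [integral_finsetSum _ fun w _ => intOn c L (by fun_prop)]
  simp only [integral_const_mul, orth hL, sub_eq_zero, Subtype.val_inj, mul_ite, mul_zero,
    Finset.sum_ite_eq, Finset.mem_univ, if_true, Complex.mul_conj']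
  ring

end T33

open T33 in
theorem st_BES : St_BES := by
  intro L Λ a Q hL _ hQ
  set c := LL.sh a (-(L / 2)) with hc
  have hs : Q ⊆ LL.cube c L := fun x hx i => by
    have h1 := (PiLp.norm_apply_le (x - a) i).trans_lt (mem_ball_iff_norm.1 (hQ hx))
    rw [PiLp.sub_apply, Real.norm_eq_abs, abs_lt] at h1
    simp only [hc, LL.sh]
    constructor <;> linarith [h1.1, h1.2]
  have mono : ∀ f : V3 → ℝ, Continuous f → (∀ x, 0 ≤ f x) →
      ∫ x in Q, f x ≤ ∫ x in LL.cube c L, f x := fun f hf h0 =>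
    setIntegral_mono_set (intOn c L hf) (ae_of_all _ h0) hs.eventuallyLE
  refine ⟨fun ε hε v => ?_, fun b => ?_⟩
  · refine (mono (fun x => ∑ i, (∑ m, v m * tA ε i m x) ^ 2)
      (continuous_finsetSum _ fun i _ => (continuous_finsetSum _ fun m _ =>
      continuous_const.mul (tA_cont ε i m)).pow 2) fun x => by positivity).trans_eq ?_
    simp only [sq]
    rw [← bf_Pm ε (isBounded_closedBall.subset (sub_ball c L))]
    simp [bf, Pm_cube hL c hε]
  · refine (mono (fun x => fld kk b x ^ 2) ((fld_cont kk b).pow 2) fun x => sq_nonneg _).trans ?_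
    have h : ∀ x, fld kk b x ^ 2 ≤ 2 * ‖∑ z : Kset L Λ, b (z, 0) * wv L z x‖ ^ 2 +
        2 * ‖∑ z : Kset L Λ, b (z, 1) * wv L z x‖ ^ 2 := fun x => by
      have h1 : |fld kk b x| ≤ ‖∑ z : Kset L Λ, b (z, 0) * wv L z x‖ +
          ‖∑ z : Kset L Λ, b (z, 1) * wv L z x‖ := by
        refine (Complex.abs_re_le_norm _).trans (le_trans (le_of_eq ?_) (norm_add_le _ _))
        rw [Fintype.sum_prod_type_right, Fin.sum_univ_two]
        rfl
      have h2 := pow_le_pow_left₀ (abs_nonneg _) h1 2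
      rw [sq_abs] at h2
      nlinarith [sq_nonneg (‖∑ z : Kset L Λ, b (z, 0) * wv L z x‖ -
        ‖∑ z : Kset L Λ, b (z, 1) * wv L z x‖)]
    refine (integral_mono (intOn c L ((fld_cont kk b).pow 2)) (intOn c L (by fun_prop))
      h).trans_eq ?_
    rw [integral_add (intOn c L (by fun_prop)) (intOn c L (by fun_prop)), integral_const_mul,
      integral_const_mul, parseval hL, parseval hL, Fintype.sum_prod_type_right, Fin.sum_univ_two]
    ring

end Pool.Agent.Lib.LS
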