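import Pool.Agent.Lib.LS.Base
import Pool.Agent.Lib.LL.B_CUB

set_option autoImplicit false

open MeasureTheory Metric

namespace Pool.Agent.Lib.LS

open Pool.Agent.Lib.MP_791321_mp

theorem st_CELL : St_CELL := by
  classical
  intro a l s hs hl
  obtain ⟨M, hM⟩ : ∃ M : ℕ, M = ⌈2 * l / s⌉₊ := ⟨_, rfl⟩
  have l0 : 0 < l := by linarith
  have m1 : 2 * l ≤ M * s := by rw [← div_le_iff₀ hs, hM]; exact Nat.le_ceil _
  have m2 : M * s ≤ 4 * l := by
    have h := (Nat.ceil_lt_add_one (show 0 ≤ 2 * l / s by positivity)).le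
    rw [← hM, div_add_one hs.ne', le_div_iff₀ hs] at h
    linarith
  obtain ⟨S, hS⟩ : ∃ S : Finset (Fin 3 → Fin M), ∀ z, z ∈ S ↔
      (LL.cube (LL.pt (LL.sh a (-l)) s z) s ∩ ball a l).Nonempty :=
    ⟨Finset.univ.filter fun z => (LL.cube (LL.pt (LL.sh a (-l)) s z) s ∩ ball a l).Nonempty,
      fun z => by rw [Finset.mem_filter]; exact and_iff_right (Finset.mem_univ z)⟩
  have hd : ∀ (c : V3), ∀ x ∈ LL.cube c s, ∀ y ∈ LL.cube c s, ‖x - y‖ ≤ 2 * s :=
    fun c x hx y hy => abs_le_of_sq_le_sq' ((LL.T12.dist_le hx hy).trans (by nlinarith))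
      (by positivity) |>.2
  refine ⟨S.card, fun i => LL.cube (LL.pt (LL.sh a (-l)) s (S.equivFin.symm i).1) s,
    fun i => LL.T12.meas _ _, fun i j h => LL.T12.disj _ hs M fun e =>
      h (S.equivFin.symm.injective (Subtype.ext e)), fun i => ?_, fun i => hd _,
    fun i x hx => ?_, fun x hx => ?_, ?_⟩
  · rw [LL.T12.vol, ENNReal.ofReal_pow hs.le]
  · obtain ⟨y, hy, hy'⟩ := (hS _).1 (S.equivFin.symm i).2
    rw [mem_ball_iff_norm] at hy' ⊢
    linarith [hd _ x hx y hy, norm_sub_le_norm_sub_add_norm_sub x y a]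
  · have h1 : x ∈ LL.cube (LL.sh a (-l)) (M * s) := fun i => by
      have h := abs_lt.1 (((PiLp.norm_apply_le (x - a) i).trans_lt (mem_ball_iff_norm.1 hx)))
      simp only [PiLp.sub_apply, LL.sh] at h ⊢
      constructor <;> linarith [h.1, h.2]
    rw [← LL.T12.union_cell _ hs] at h1
    obtain ⟨z, hz⟩ := Set.mem_iUnion.1 h1
    exact Set.mem_iUnion.2 ⟨S.equivFin ⟨z, (hS z).2 ⟨x, hz, hx⟩⟩, by
      rw [Equiv.symm_apply_apply]; exact hz⟩
  · have h1 : (S.card : ℝ) ≤ (M : ℝ) ^ 3 := by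
      exact_mod_cast (Finset.card_le_univ S).trans_eq (by simp)
    have h2 := pow_le_pow_left₀ (by positivity) m2 3
    have h3 := mul_le_mul_of_nonneg_right h1 (pow_pos hs 3).le
    rw [mul_pow, mul_pow] at h2
    linarith

end Pool.Agent.Lib.LS
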