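import Pool.Agent.Lib.LS.Base

set_option autoImplicit false

open MeasureTheory Filter Topology Metric
open scoped ComplexConjugate InnerProductSpace ContDiff

namespace Pool.Agent.Lib.LS

open Pool.Agent.Lib.MP_791321_mp

namespace T56

theorem F1_nonneg : 0 ≤ F1 := by
  refine Real.sInf_nonneg ?_
  rintro _ ⟨u, hu, -, rfl⟩
  have : 0 ≤ ∫ x, u x := integral_nonneg hu.2.2
  have : 0 ≤ ∫ x, ‖fderiv ℝ u x‖ ^ 2 := integral_nonneg fun _ => by positivity
  positivity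

theorem amgm {e r κ X Y C Γ : ℝ} (he : 0 < e) (hr : 0 < r) (hC : 0 < C) (hΓ : 0 < Γ)
    (hX : 0 ≤ X) (hY : 0 ≤ Y) (hκ : κ ≤ 2 / r ^ 7) (h : 2 * X * C ≤ e ^ 2 * Γ * r ^ 10) :
    κ * √(X * (Y / Γ)) ≤ e / (2 * C) * Y + e * (1 / r ^ 4) := by
  have h1 : e / (2 * C) * Y + e * (1 / r ^ 4) ≥ 2 * √(e / (2 * C) * Y * (e * (1 / r ^ 4))) := by
    rw [Real.sqrt_mul (by positivity)]
    nlinarith [sq_nonneg (√(e / (2 * C) * Y) - √(e * (1 / r ^ 4))),
      Real.sq_sqrt (show 0 ≤ e / (2 * C) * Y by positivity),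
      Real.sq_sqrt (show 0 ≤ e * (1 / r ^ 4) by positivity)]
  refine le_trans ?_ h1
  refine (mul_le_mul_of_nonneg_right hκ (Real.sqrt_nonneg _)).trans ?_
  rw [div_mul_eq_mul_div, mul_div_assoc]
  refine mul_le_mul_of_nonneg_left ?_ zero_le_two
  refine Real.le_sqrt_of_sq_le ?_
  rw [div_pow, Real.sq_sqrt (by positivity)]
  have : X * (Y / Γ) / (r ^ 7) ^ 2 = 2 * X * C * (Y / (2 * C * Γ * r ^ 14)) := by field_simp
  rw [this]
  refine (mul_le_mul_of_nonneg_right h (by positivity)).trans (le_of_eq ?_)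
  field_simp

theorem arith {e q κ k T G U V m F S₁ S₂ Z x₁ x₂ x₃ : ℝ} (he : 0 < e) (he' : e ≤ 1 / 10)
    (hq : 0 ≤ q) (hκ : 0 ≤ κ) (hT : 0 ≤ T) (hG : 0 ≤ G) (hV : 0 ≤ V) (hF : 0 ≤ F) (hZ : 0 ≤ Z)
    (hm : 1 - e ≤ m) (hs : F * q * m ≤ 1 / 2 * T + V) (hU : (1 - e) * V ≤ κ * U)
    (hel : T + (1 - 3 * e) * G ≤ (1 + e) * k) (h1 : S₁ ≤ (1 - 6 * e) ^ 2 * (G + 128 * Z))
    (h2 : (1 - 6 * e) * U - x₁ - x₂ - x₃ ≤ S₂) (a1 : κ * x₁ ≤ e * q) (a2 : κ * x₂ ≤ e * q)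
    (a3 : κ * x₃ ≤ e / 2 * (G + Z) + e / 2 * q + e * q) (a4 : 130 * Z ≤ e * q + e * k) :
    ((1 - 9 * e) * F - 4 * e) * q ≤ 1 / 2 * k - (1 - e) * ((1 + e) * (1 / 2 * S₁) - κ * S₂) := by
  have e1 : 0 ≤ 1 - 6 * e := by linarith
  have b1 : (1 - e) * ((1 + e) * (1 / 2 * S₁)) ≤ (1 - 6 * e) * G / 2 + 64 * Z := by
    have c1 : (1 - 6 * e) ^ 2 * (G + 128 * Z) ≤ (1 - 6 * e) * G + 128 * Z := by
      have : (1 - 6 * e) ^ 2 ≤ 1 - 6 * e := by nlinarith
      nlinarith [mul_le_mul_of_nonneg_right this hG, mul_le_mul_of_nonneg_right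
        (this.trans (show 1 - 6 * e ≤ 1 by linarith)) hZ]
    have c2 : 0 ≤ (1 - 6 * e) * G + 128 * Z := by positivity
    have c3 : (1 - e) * (1 + e) * S₁ ≤ (1 - e) * (1 + e) * ((1 - 6 * e) * G + 128 * Z) :=
      mul_le_mul_of_nonneg_left (h1.trans c1) (by nlinarith)
    nlinarith [mul_nonneg (sq_nonneg e) c2]
  have b2 : (1 - 6 * e) * ((1 - e) * V) - (e / 2 * (G + Z) + 7 / 2 * (e * q)) ≤ κ * S₂ := by
    nlinarith [mul_le_mul_of_nonneg_left h2 hκ, mul_le_mul_of_nonneg_left hU e1]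
  have b3 : (1 - 8 * e) * V - (e / 2 * (G + Z) + 7 / 2 * (e * q)) ≤ (1 - e) * (κ * S₂) := by
    refine le_trans ?_ (mul_le_mul_of_nonneg_left b2 (by linarith))
    have c1 : 0 ≤ e * (e / 2 * (G + Z) + 7 / 2 * (e * q)) := by positivity
    have c2 : 0 ≤ e ^ 2 * (13 - 6 * e) * V := mul_nonneg (mul_nonneg (sq_nonneg e) (by linarith)) hV
    nlinarith
  have hk : 0 ≤ k := by
    have : 0 ≤ (1 - 3 * e) * G := mul_nonneg (by linarith) hG
    nlinarith
  have b4 : (1 - 8 * e) * T + (1 - 5 * e) * G ≤ (1 - e) * k := by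
    have c1 := mul_le_mul_of_nonneg_left hel (show 0 ≤ 1 - 2 * e by linarith)
    nlinarith [mul_nonneg he.le hT, mul_nonneg (sq_nonneg e) hG, mul_nonneg (sq_nonneg e) hk]
  have b5 : (1 - 9 * e) * (F * q) ≤ (1 - 8 * e) * (1 / 2 * T + V) := by
    have c1 : 0 ≤ F * q := mul_nonneg hF hq
    have c2 := mul_le_mul_of_nonneg_left ((mul_le_mul_of_nonneg_left hm c1).trans hs)
      (show 0 ≤ 1 - 8 * e by linarith)
    nlinarith [mul_nonneg (sq_nonneg e) c1]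
  nlinarith [mul_le_mul_of_nonneg_right he' hZ]

theorem kd_nonneg (a : Fin 3 → V3 → ℝ) (φ : V3 → ℂ) (x : V3) : 0 ≤ kd a φ x :=
  Finset.sum_nonneg fun _ _ => sq_nonneg _

theorem kd_int {a : Fin 3 → V3 → ℝ} {φ : V3 → ℂ} (ha : ∀ i, Continuous (a i))
    (hφ : ContDiff ℝ ∞ φ) (hc : HasCompactSupport φ) : Integrable (kd a φ) := by
  refine Continuous.integrable_of_hasCompactSupport ?_ (HasCompactSupport.intro hc fun x hx => ?_)
  · have h1 := hφ.continuous_fderiv (by simp)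
    have h2 := hφ.continuous
    unfold kd pd
    fun_prop
  · simp [kd, pd, fderiv_of_notMem_tsupport ℝ hx, image_eq_zero_of_notMem_tsupport hx]

theorem kd_smul (a : Fin 3 → V3 → ℝ) {φ : V3 → ℂ} (hφ : ContDiff ℝ ∞ φ) (c : ℝ) (x : V3) :
    kd a (fun y => c • φ y) x = c ^ 2 * kd a φ x := by
  simp only [kd, pd, Finset.mul_sum]
  refine Finset.sum_congr rfl fun i _ => ?_
  rw [fderiv_fun_const_smul (hφ.differentiable (by simp) x), ← sq_abs c, ← Real.norm_eq_abs,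
    ← mul_pow, ← norm_smul]
  simp only [smul_apply, smul_add, mul_smul_comm]

end T56

open T56 in
theorem st_CLASS (hE : St_ELEC) (hM : St_MOD) (hT : St_TAU) (hN : St_NET) (hS : St_SCAL) :
    St_CLASS := by
  obtain ⟨c₀, hc₀, hT⟩ := hT
  refine ⟨c₀, hc₀, ?_⟩
  intro ν e r κ l s t W Γ K₂ h K n c a₀ a D C φ hν he he' hr hs ht hW hK₂ hh hK hc hF hφ hφc hsup
    k1 k2 hΓ hl g1 g2 g3 g4 g5 g6 g7 hJ1 hJ2
  have key : ∀ φ : V3 → ℂ, ContDiff ℝ ∞ φ → HasCompactSupport φ →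
      (∀ x, φ x ≠ 0 → x ∈ ball a₀ l) → ∫ x, ‖φ x‖ ^ 2 = 1 → ∃ j : Fin n → Fin (K + 1),
      ((1 - 9 * e) * F1 - 4 * e) / r ^ 4 ≤ 1 / 2 * (∫ x, kd a φ x) - (1 - e) *
          ((1 + e) * (1 / 2 * ∑ i, (h * (j i : ℕ)) ^ 2 * ∫ y in c i, ∑ b, D b y ^ 2) -
            κ * (s ^ 3 * ∑ i, h * (j i : ℕ))) := by
    clear hφ hφc hsup
    intro φ hφ hφc hsup h1
    have hq : 0 < 1 / r ^ 4 := by positivity
    have hΓ0 : 0 < Γ := hq.trans_le hΓ
    have hsl : s ≤ l := by nlinarith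
    have cD : Continuous fun y => ∑ b, D b y ^ 2 :=
      continuous_finsetSum _ fun b _ => (hF.sD b).continuous.pow 2
    have cC : Continuous fun y => ∑ i, ∑ j, C i j y ^ 2 :=
      continuous_finsetSum _ fun i _ => continuous_finsetSum _ fun j _ =>
        (hF.sC i j).continuous.pow 2
    have cJ : Continuous (inten ν D C) := cD.add (continuous_const.mul cC)
    have D0 : ∀ y, 0 ≤ ∑ b, D b y ^ 2 := fun y => by positivity
    have C0 : ∀ y, 0 ≤ ν * ∑ i, ∑ j, C i j y ^ 2 := fun y => by positivity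
    have J0 : ∀ y, 0 ≤ inten ν D C y := fun y => add_nonneg (D0 y) (C0 y)
    obtain ⟨τ, t1, t2, t3, t4, t5⟩ := hT _ a₀ l s t W Γ _ K₂ cJ J0 hs hsl ht hW hΓ0 hq.le hΓ hK₂
      hJ1 hJ2
    obtain ⟨m1, m2⟩ := hM φ hφ hφc
    obtain ⟨u, hu, u1, u2, u3, u4⟩ := m2 e he
    have hts : tsupport φ ⊆ ball a₀ (2 * l) :=
      (closure_minimal (fun x hx => ball_subset_closedBall (hsup x hx)) isClosed_closedBall).trans
        (closedBall_subset_ball (by linarith))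
    have el := hE ν e (1 / s) a D C τ φ hν he (by linarith) hF hφ hφc t1
      (fun x => ⟨(t2 x).1.le, (t2 x).2⟩) (by positivity)
      (by rw [div_pow, div_le_iff₀ (by positivity)]; linarith) (fun x hx => t3 x (hts hx))
      (fun x hx => by
        have a1 := t4 x (hts hx)
        have a2 := mul_nonneg (t2 x).1.le (D0 x)
        unfold inten at a1
        refine le_of_mul_le_mul_left ?_ hν
        nlinarith) u hu u3 u4
    have cρ : ContDiff ℝ 1 fun x => ‖φ x‖ ^ 2 := (hφ.norm_sq ℂ).of_le (by simp)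
    have sρ : HasCompactSupport fun x => ‖φ x‖ ^ 2 :=
      HasCompactSupport.intro hφc fun x hx => by simp [image_eq_zero_of_notMem_tsupport hx]
    have iρ := cρ.continuous.integrable_of_hasCompactSupport (μ := volume) sρ
    have ik := kd_int (fun i => (hF.sa i).continuous) hφ hφc
    have uρ : ∀ x, u x ^ 2 ≤ ‖φ x‖ ^ 2 := fun x => pow_le_pow_left₀ (hu.2.2 x) (u1 x) 2
    have hB : 0 ≤ c₀ * (K₂ + 1) * Γ := by positivity
    obtain ⟨j, n1, n2⟩ := hN _ u τ _ _ a₀ l s (t * s) _ (c₀ * W) Γ _ (1 - 6 * e) h K n c hs hc cρ sρ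
      (fun x hx => hsup x fun e => hx (by simp [e])) h1 hu.1.continuous hu.2.2 uρ t1.continuous t2
      cD cJ (fun x => ⟨D0 x, le_add_of_nonneg_right (C0 x)⟩) (by positivity) (by linarith) hB
      (by positivity) hΓ0 hq.le (by linarith) (by linarith) hh hK t4 t5
    refine ⟨j, ?_⟩
    rw [show t * s + 2 * s = (t + 2) * s by ring] at n2
    have hP : ∫ x, ‖fderiv ℝ (fun y => ‖φ y‖ ^ 2) x‖ ≤ 1 / r ^ 2 + r ^ 2 * ∫ x, kd a φ x := by
      have : ∫ x, (1 / r ^ 2 * ‖φ x‖ ^ 2 + r ^ 2 * kd a φ x) =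
          1 / r ^ 2 + r ^ 2 * ∫ x, kd a φ x := by
        rw [integral_add (iρ.const_mul _) (ik.const_mul _), integral_const_mul, integral_const_mul,
          h1, mul_one]
      rw [← this]
      refine integral_mono_of_nonneg (Eventually.of_forall fun x => norm_nonneg _)
        ((iρ.const_mul _).add (ik.const_mul _)) (Eventually.of_forall fun x => ?_)
      have := kd_nonneg a φ x
      refine le_of_sq_le_sq ((m1 a x).trans ?_) (by positivity)
      have e1 : 1 / r ^ 2 * ‖φ x‖ ^ 2 * (r ^ 2 * kd a φ x) = ‖φ x‖ ^ 2 * kd a φ x := by field_simp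
      nlinarith [sq_nonneg (1 / r ^ 2 * ‖φ x‖ ^ 2 - r ^ 2 * kd a φ x)]
    have hm : ∫ x, u x ^ 2 ≤ 1 := h1 ▸ integral_mono_of_nonneg
      (Eventually.of_forall fun x => sq_nonneg _) iρ (Eventually.of_forall uρ)
    have sc := hS.2.1 u r hu hr
    have U0 : 0 ≤ ∫ x, u x := integral_nonneg hu.2.2
    have G0 : 0 ≤ ∫ x, ‖φ x‖ ^ 2 * (τ x * inten ν D C x) := integral_nonneg fun x =>
      mul_nonneg (sq_nonneg _) (mul_nonneg (t2 x).1.le (J0 x))
    have P0 : 0 ≤ ∫ x, ‖fderiv ℝ (fun y => ‖φ y‖ ^ 2) x‖ := integral_nonneg fun _ => norm_nonneg _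
    have T0 : 0 ≤ ∫ x, ‖fderiv ℝ u x‖ ^ 2 := integral_nonneg fun _ => sq_nonneg _
    rw [h1] at u2
    generalize ∫ x, ‖fderiv ℝ (fun y => ‖φ y‖ ^ 2) x‖ = P at *
    generalize ∫ x, ‖φ x‖ ^ 2 * (τ x * inten ν D C x) = G at *
    generalize ∫ x, ‖fderiv ℝ u x‖ ^ 2 = T at *
    generalize ∫ x, u x ^ 2 = m at *
    generalize ∫ x, u x = U at *
    generalize ∫ x, kd a φ x = k at *
    generalize c₀ * (K₂ + 1) * Γ = B at *
    have hκ : 0 ≤ κ := le_trans (div_nonneg (by linarith) (by positivity)) k1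
    have hK0 : (0 : ℝ) < K := by exact_mod_cast hK
    have hl0 : 0 < l := hs.trans_le hsl
    have hC : 1 ≤ (2 * ((t + 2) * s)) ^ 3 * (c₀ * W) := by
      have a1 : s ^ 3 ≤ (2 * ((t + 2) * s)) ^ 3 := pow_le_pow_left₀ hs.le (by nlinarith) 3
      have a2 : W ≤ c₀ * W := le_mul_of_one_le_left hW.le hc₀
      calc 1 ≤ s ^ 3 * W := by linarith
        _ ≤ _ := mul_le_mul a1 a2 hW.le (by positivity)
    generalize (2 * ((t + 2) * s)) ^ 3 * (c₀ * W) = C₁ at *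
    have hZ : 0 ≤ B * ((t + 2) * s) * P := by positivity
    rw [div_eq_mul_one_div]
    refine arith (V := U / r ^ 7) (Z := B * ((t + 2) * s) * P) (m := m) he he' hq.le hκ T0 G0
      (by positivity) F1_nonneg hZ u2 ?_ ?_ el (n1.trans ?_) n2 ?_ ?_ ?_ ?_
    · rw [← div_eq_mul_one_div]
      refine sc.trans (add_le_add_right (div_le_div_of_nonneg_right ?_ (by positivity)) _)
      exact mul_le_of_le_one_left U0 (Real.sqrt_le_one.2 hm)
    · rw [← mul_div_assoc, mul_div_right_comm]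
      exact mul_le_mul_of_nonneg_right k1 U0
    · refine mul_le_mul_of_nonneg_left ?_ (sq_nonneg _)
      have : 0 ≤ B * ((t + 1) * s) * P := by positivity
      nlinarith
    · refine (mul_le_mul_of_nonneg_right k2 (by positivity)).trans ?_
      rw [div_mul_div_comm, mul_one_div, div_le_div_iff₀ (by positivity) (by positivity)]
      nlinarith [mul_le_mul_of_nonneg_right g5 (show 0 ≤ r ^ 4 by positivity)]
    · refine (mul_le_mul_of_nonneg_right k2 (by positivity)).trans ?_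
      rw [div_mul_eq_mul_div, mul_one_div, div_le_div_iff₀ (by positivity) (by positivity)]
      nlinarith [mul_le_mul_of_nonneg_right g6 (show 0 ≤ r ^ 4 by positivity)]
    · refine (amgm (C := C₁) he hr (by linarith) hΓ0 (by positivity) (by positivity) k2
        (by linarith)).trans (add_le_add_left ?_ _)
      have a1 : e / (2 * C₁) * (C₁ * (G + B * ((t + 2) * s) * P) + 1 / r ^ 4) =
          e / 2 * (G + B * ((t + 2) * s) * P) + e / 2 * (1 / r ^ 4) / C₁ := by field_simp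
      rw [a1]
      exact add_le_add_right (div_le_self (by positivity) hC) _
    · have hk : 0 ≤ 1 / r ^ 2 + r ^ 2 * k := P0.trans hP
      have a1 : 130 * B * ((t + 2) * s) ≤ e / r ^ 2 := by rwa [le_div_iff₀ (by positivity)]
      calc _ = 130 * B * ((t + 2) * s) * P := by ring
        _ ≤ e / r ^ 2 * (1 / r ^ 2 + r ^ 2 * k) := mul_le_mul a1 hP P0 (by positivity)
        _ = _ := by field_simp
  have k0 : 0 ≤ ∫ x, kd a φ x := integral_nonneg (kd_nonneg a φ)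
  rcases (show 0 ≤ ∫ x, ‖φ x‖ ^ 2 from integral_nonneg fun _ => sq_nonneg _).eq_or_lt with h0 | h0
  · refine ⟨fun _ => 0, ?_⟩
    rw [← h0, mul_zero, mul_zero]
    linarith
  have e1 : (√(∫ x, ‖φ x‖ ^ 2))⁻¹ ^ 2 = (∫ x, ‖φ x‖ ^ 2)⁻¹ := by rw [inv_pow, Real.sq_sqrt h0.le]
  obtain ⟨j, hj⟩ := key (fun x => (√(∫ x, ‖φ x‖ ^ 2))⁻¹ • φ x) (hφ.const_smul _)
    (HasCompactSupport.intro hφc fun x hx => by simp [image_eq_zero_of_notMem_tsupport hx])
    (fun x hx => hsup x fun e => hx (by simp [e])) (by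
      simp only [norm_smul, mul_pow, Real.norm_eq_abs, sq_abs, integral_const_mul, e1]
      exact inv_mul_cancel₀ h0.ne')
  refine ⟨j, (mul_le_mul_of_nonneg_right hj h0.le).trans (le_of_eq ?_)⟩
  simp only [kd_smul a hφ, integral_const_mul, e1]
  field_simp

end Pool.Agent.Lib.LS
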