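import Pool.Agent.Lib.LS.Base

set_option autoImplicit false

open Finset

namespace Pool.Agent.Lib.LS

namespace T39

theorem amgm {a b c : ℝ} (hb : 0 ≤ b) (hc : 0 ≤ c) (h : a ^ 2 ≤ 4 * b * c) : -a ≤ b + c :=
  (neg_le_abs a).trans (abs_le_of_sq_le_sq (by nlinarith [sq_nonneg (b - c)]) (add_nonneg hb hc))

end T39

theorem st_COMM : St_COMM := by
  intro I _ _ κ μ h _ hp W S hW hS S0 hcs
  have p1 : ∀ i, PG fun q => dq i (W i) q * μ q + W i q * dq i μ q := fun i =>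
    (((hW i).2.2 i).mul hp.pm.2.1).add ((hW i).2.1.mul (hp.pm.2.2 i))
  have p2 : ∀ i, PG fun q => q i * (W i q * μ q) := fun i =>
    (PG.coord i).mul ((hW i).2.1.mul hp.pm.2.1)
  have e1 : ∀ i, gE (fun q => dq i (W i) q * μ q + W i q * dq i μ q - q i * (W i q * μ q)) = 0 :=
    fun i => by
      rw [gE_sub (p1 i) (p2 i), ← gE_ibp ((hW i).mul hp.pm) i, sub_eq_zero]
      exact congrArg gE (funext fun q => (dq_mul i ((hW i).1 q) (hp.pm.1 q)).symm)
  have p3 : PG fun q => ∑ i, (dq i (W i) q * μ q + W i q * dq i μ q - q i * (W i q * μ q)) :=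
    PG.sum fun i _ => (p1 i).sub (p2 i)
  have e2 : gE (fun q => h q + ∑ i, (dq i (W i) q * μ q + W i q * dq i μ q -
      q i * (W i q * μ q))) = gE h := by
    rw [gE_add hp.ph p3, gE_sum _ fun i _ => (p1 i).sub (p2 i), sum_eq_zero fun i _ => e1 i,
      add_zero]
  rw [← e2]
  refine gE_mono ((((PG.sum fun i _ => (hW i).2.2 i).sub (PG.sum fun i _ =>
    (PG.coord i).mul (hW i).2.1)).sub hS).mul hp.pm.2.1) (hp.ph.add p3) fun q => ?_
  have a1 := T39.amgm (mul_nonneg (S0 q) (hp.m0 q)) (hp.h0 q) (a := ∑ i, W i q * dq i μ q)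
    ((hcs q fun i => dq i μ q).trans
      ((mul_le_mul_of_nonneg_left (hp.grad q) (S0 q)).trans_eq (by ring)))
  simp only [sum_sub_distrib, sum_add_distrib, ← mul_assoc, ← sum_mul]
  linarith

end Pool.Agent.Lib.LS
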