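import Pool.Agent.Lib.LS.Base

set_option autoImplicit false

open MeasureTheory
open scoped ContDiff

namespace Pool.Agent.Lib.LS

open Pool.Agent.Lib.MP_791321_mp

namespace T65

variable {I : Type} [Fintype I]

theorem fld_eq (k : I → V3) (c : I → ℂ) (x : V3) : fld k c x =
    ∑ m, ((c m).re * Real.cos (inner ℝ (k m) x) - (c m).im * Real.sin (inner ℝ (k m) x)) := by
  rw [fld, Complex.re_sum]
  refine Finset.sum_congr rfl fun m _ => ?_
  rw [mul_comm Complex.I, Complex.exp_mul_I, ← Complex.ofReal_cos, ← Complex.ofReal_sin]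
  simp only [Complex.mul_re, Complex.mul_im, Complex.add_re, Complex.add_im, Complex.ofReal_re,
    Complex.ofReal_im, Complex.I_re, Complex.I_im]
  ring

variable {L Λ : ℝ}

theorem sum_fun (ε : V3 → Fin 2 → V3) (i : Fin 3) (v : Mode L Λ → ℝ) :
    (fun x => ∑ m, v m * tA ε i m x) =
      fld kk (fun m => (1 - Complex.I) * ((v m * ε (kk m) m.2 i / √(L ^ 3) : ℝ) : ℂ)) :=
  funext (sum_tA ε i v)

theorem om_sq (m : Mode L Λ) : om m ^ 2 = ∑ i, kk m i ^ 2 := by
  rw [om, EuclideanSpace.norm_sq_eq]
  simp only [Real.norm_eq_abs, sq_abs]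

end T65

open T65 in
theorem st_FLD1 : St_FLD1 := by
  intro L Λ α ν ε hν hε q
  have ha : ∀ i, aF α ε q i = _ := fun i => sum_fun ε i fun m => √α / √(2 * om m) * q m
  have hD : ∀ i, DF α ν ε q i = _ := fun i => sum_fun ε i fun m => lD α ν m * q m
  have hC : ∀ i j, CF α ν ε q i j = fld kk (fun m => cC α ν ε i j m * (q m : ℝ)) :=
    fun i j => rfl
  have hp : ∀ m : Mode L Λ, om m ^ 2 + ν ≠ 0 := fun m => by positivity
  refine ⟨fun i => ?_, fun i => ?_, fun i j => ?_, fun i j x => ?_, fun j x => ?_,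
    fun i j x => ?_⟩
  · rw [ha]; exact fld_smooth _ _
  · rw [hD]; exact fld_smooth _ _
  · rw [hC]; exact fld_smooth _ _
  · rw [hC, hC, fld_eq, fld_eq, ← Finset.sum_neg_distrib]
    refine Finset.sum_congr rfl fun m _ => ?_
    simp only [cC, Complex.mul_re, Complex.mul_im, Complex.add_re, Complex.add_im,
      Complex.ofReal_re, Complex.ofReal_im, Complex.I_re, Complex.I_im, Complex.one_re,
      Complex.one_im]
    ring
  · simp only [hC, pd_fld]
    rw [hD]
    simp only [fld_eq]
    rw [Finset.sum_comm, ← Finset.sum_neg_distrib]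
    refine Finset.sum_congr rfl fun m _ => ?_
    have h1 := om_sq m
    have h2 := pol_trans hε (kk_ne m) m.2
    simp only [Fin.sum_univ_three] at h1 h2 ⊢
    simp only [cC, lD, Complex.mul_re, Complex.mul_im, Complex.add_re, Complex.add_im,
      Complex.sub_re, Complex.sub_im, Complex.ofReal_re, Complex.ofReal_im, Complex.I_re,
      Complex.I_im, Complex.one_re, Complex.one_im]
    linear_combination (√α / √(2 * om m) / √(L ^ 3) / (om m ^ 2 + ν) * q m *
      (Real.cos (inner ℝ (kk m) x) + Real.sin (inner ℝ (kk m) x))) *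
        (ε (kk m) m.2 j * h1 + kk m j * h2)
  · rw [ha, ha, hD, hD, hC]
    simp only [pd_fld, fld_eq]
    rw [Finset.mul_sum, ← Finset.sum_sub_distrib, ← Finset.sum_sub_distrib,
      ← Finset.sum_add_distrib]
    refine Finset.sum_congr rfl fun m _ => ?_
    have h1 := hp m
    simp only [cC, lD, Complex.mul_re, Complex.mul_im, Complex.add_re, Complex.add_im,
      Complex.sub_re, Complex.sub_im, Complex.ofReal_re, Complex.ofReal_im, Complex.I_re,
      Complex.I_im, Complex.one_re, Complex.one_im]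
    generalize √α / √(2 * om m) = A
    generalize √(L ^ 3) = W
    field_simp
    ring

end Pool.Agent.Lib.LS
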