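import Pool.Agent.Lib.LS.Base

set_option autoImplicit false

open MeasureTheory Filter Topology Metric
open scoped ComplexConjugate InnerProductSpace ContDiff

namespace Pool.Agent.Lib.LS

open Pool.Agent.Lib.MP_791321_mp

namespace T73

section

variable {I J : Type} [Fintype I] [Fintype J]

/-- one real wave -/
noncomputable def wv (z : ℂ) (k x : V3) : ℝ :=
  (z * Complex.exp (Complex.I * (inner ℝ k x : ℝ))).re

theorem wv_cont (z : ℂ) (k : V3) : Continuous (wv z k) := by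
  unfold wv; fun_prop

theorem wv_sq (z : ℂ) (k x : V3) : wv z k x ^ 2 ≤ ‖z‖ ^ 2 := by
  have h := Complex.abs_re_le_norm (z * Complex.exp (Complex.I * (inner ℝ k x : ℝ)))
  rw [norm_mul, mul_comm Complex.I, Complex.norm_exp_ofReal_mul_I, mul_one] at h
  rw [← sq_abs, wv, mul_comm Complex.I]
  exact pow_le_pow_left₀ (abs_nonneg _) h 2

theorem fld_eq (k : I → V3) (c : I → ℂ) (q : I → ℝ) (x : V3) :
    fld k (fun m => c m * (q m : ℝ)) x = ∑ m, q m * wv (c m) (k m) x := by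
  rw [fld, Complex.re_sum]
  refine Finset.sum_congr rfl fun m _ => ?_
  rw [wv, mul_right_comm, Complex.re_mul_ofReal, mul_comm]

theorem intOn {f : V3 → ℝ} (hf : Continuous f) (a : V3) (r : ℝ) : IntegrableOn f (ball a r) :=
  (hf.continuousOn.integrableOn_compact (isCompact_closedBall a r)).mono_set
    ball_subset_closedBall

theorem int_mono {f : V3 → ℝ} (hf : Continuous f) (h0 : ∀ x, 0 ≤ f x) {a b : V3} {r s : ℝ}
    (h : ball a r ⊆ ball b s) : ∫ x in ball a r, f x ≤ ∫ x in ball b s, f x :=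
  setIntegral_mono_set (intOn hf b s) (Eventually.of_forall h0) h.eventuallyLE

/-- the Gram matrix of a weighted family of fields -/
noncomputable def Gm (k : I → V3) (w : J → ℝ) (c : J → I → ℂ) (a : V3) (r : ℝ) : Matrix I I ℝ :=
  fun m m' => ∫ x in ball a r, ∑ j, w j * (wv (c j m) (k m) x * wv (c j m') (k m') x)

theorem bf_Gm (k : I → V3) (w : J → ℝ) (c : J → I → ℂ) (a : V3) (r : ℝ) (q : I → ℝ) :
    bf (Gm k w c a r) q q =
      ∑ j, w j * ∫ x in ball a r, fld k (fun m => c j m * (q m : ℝ)) x ^ 2 := by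
  have hi : ∀ m m' : I, IntegrableOn (fun x => q m *
      (∑ j, w j * (wv (c j m) (k m) x * wv (c j m') (k m') x)) * q m') (ball a r) := fun m m' =>
    intOn ((continuous_const.mul (continuous_finsetSum _ fun j _ =>
      continuous_const.mul ((wv_cont _ _).mul (wv_cont _ _)))).mul continuous_const) a r
  simp only [bf, Gm, ← integral_const_mul, ← integral_mul_const]
  have h2 : ∀ m, ∑ m', ∫ x in ball a r,
      q m * (∑ j, w j * (wv (c j m) (k m) x * wv (c j m') (k m') x)) * q m' =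
      ∫ x in ball a r, ∑ m',
        q m * (∑ j, w j * (wv (c j m) (k m) x * wv (c j m') (k m') x)) * q m' := fun m =>
    (integral_finsetSum _ fun m' _ => hi m m').symm
  have h3 : ∀ j, IntegrableOn (fun x => w j * fld k (fun m => c j m * (q m : ℝ)) x ^ 2)
      (ball a r) := fun j => intOn (continuous_const.mul ((fld_cont _ _).pow 2)) a r
  simp only [h2]
  rw [← integral_finsetSum _ fun m _ => integrable_finsetSum _ fun m' _ => hi m m',
    ← integral_finsetSum _ fun j _ => h3 j]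
  congr 1
  ext x
  simp only [fld_eq, sq, Finset.sum_mul_sum]
  simp only [Finset.mul_sum, Finset.sum_mul]
  conv_rhs => rw [Finset.sum_comm]
  refine Finset.sum_congr rfl fun m _ => ?_
  rw [Finset.sum_comm]
  exact Finset.sum_congr rfl fun i _ => Finset.sum_congr rfl fun m' _ => by ring

end

variable {L Λ : ℝ}

theorem vol_le (a : V3) {l : ℝ} (hl : 0 < l) : volume.real (ball a (4 * l)) ≤ 512 * l ^ 3 := by
  rw [Measure.real, EuclideanSpace.volume_ball_fin_three, ENNReal.toReal_mul,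
    ENNReal.toReal_pow, ENNReal.toReal_ofReal (by positivity),
    ENNReal.toReal_ofReal (by positivity)]
  have h1 := Real.pi_le_four
  have h2 : 0 < l ^ 3 := by positivity
  nlinarith

theorem core (hB : St_BES) (hF : St_FLOOR) {J : Type} [Fintype J] (w : J → ℝ)
    (hw : ∀ j, 0 ≤ w j) (c : J → Mode L Λ → ℂ) (a : V3) {l : ℝ} (hL : 0 < L) (hΛ : 0 < Λ)
    (hl : 0 < l) (hlL : 8 * l ≤ L) (hc : ∀ m, 2 * L ^ 3 * ∑ j, w j * ‖c j m‖ ^ 2 ≤ om m)
    (μ h : (Mode L Λ → ℝ) → ℝ) (hp : Pair om μ h) :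
    gE (fun q => (1 / 4 * bf (Gm kk w c a (4 * l)) q q - 512 * l ^ 3 * Λ * rho L Λ) * μ q) ≤
      gE h := by
  have psd : PSD (Gm kk w c a (4 * l)) := ⟨fun m m' => by simp only [Gm, mul_comm], fun v => by
    rw [bf_Gm]
    exact Finset.sum_nonneg fun j _ => mul_nonneg (hw j) (integral_nonneg fun x => sq_nonneg _)⟩
  have up : ∀ v : Mode L Λ → ℝ, bf (Gm kk w c a (4 * l)) v v ≤ ∑ m, om m * v m ^ 2 := fun v => by
    rw [bf_Gm]
    calc _ ≤ ∑ j, w j * (2 * L ^ 3 * ∑ m, ‖c j m * (v m : ℝ)‖ ^ 2) :=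
          Finset.sum_le_sum fun j _ => mul_le_mul_of_nonneg_left
            ((hB L Λ a _ hL measurableSet_ball (ball_subset_ball (by linarith))).2 _) (hw j)
      _ = ∑ m, (2 * L ^ 3 * ∑ j, w j * ‖c j m‖ ^ 2) * v m ^ 2 := by
          simp only [Finset.mul_sum, Finset.sum_mul]
          rw [Finset.sum_comm]
          refine Finset.sum_congr rfl fun m _ => Finset.sum_congr rfl fun j _ => ?_
          rw [norm_mul, mul_pow, Complex.norm_real, Real.norm_eq_abs, sq_abs]
          ring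
      _ ≤ _ := Finset.sum_le_sum fun m _ => mul_le_mul_of_nonneg_right (hc m) (sq_nonneg _)
  have hL3 : 0 < L ^ 3 := by positivity
  have dg : ∀ m, Gm kk w c a (4 * l) m m ≤ 512 * l ^ 3 * (Λ / (2 * L ^ 3)) := fun m => by
    have h1 : ∑ j, w j * ‖c j m‖ ^ 2 ≤ Λ / (2 * L ^ 3) := by
      rw [le_div_iff₀ (by positivity)]
      linarith [hc m, om_lt m]
    calc _ ≤ ∫ _x in ball a (4 * l), Λ / (2 * L ^ 3) :=
          setIntegral_mono_on (intOn (continuous_finsetSum _ fun j _ =>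
            continuous_const.mul ((wv_cont _ _).mul (wv_cont _ _))) _ _)
            (intOn continuous_const _ _) measurableSet_ball fun x _ =>
            (Finset.sum_le_sum fun j _ => mul_le_mul_of_nonneg_left
              (by rw [← sq]; exact wv_sq _ _ _) (hw j)).trans h1
      _ = volume.real (ball a (4 * l)) * (Λ / (2 * L ^ 3)) := by simp
      _ ≤ _ := mul_le_mul_of_nonneg_right (vol_le a hl) (by positivity)
  have tr : ∑ m, Gm kk w c a (4 * l) m m ≤ 512 * l ^ 3 * Λ * rho L Λ := by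
    have h1 := sum_one_mode (L := L) (Λ := Λ)
    calc _ ≤ ∑ _m : Mode L Λ, 512 * l ^ 3 * (Λ / (2 * L ^ 3)) * 1 :=
          Finset.sum_le_sum fun m _ => by rw [mul_one]; exact dg m
      _ = 256 * l ^ 3 * Λ * ((∑ _m : Mode L Λ, (1 : ℝ)) / L ^ 3) := by
          rw [← Finset.mul_sum]; field_simp; ring
      _ = _ := by rw [h1]; ring
  have r0 : 0 ≤ 512 * l ^ 3 * Λ * rho L Λ := by unfold rho; positivity
  refine le_trans (gE_mono ?_ ?_ fun q => ?_) (hF _ om μ h (fun m => (om_pos m).le) hp _ psd up)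
  · exact (((PG.const _).mul (PG_bf' _)).sub (PG.const _)).mul hp.pm.2.1
  · exact (((PG.const _).mul (PG_bf' _)).sub (PG.const _)).mul hp.pm.2.1
  · exact mul_le_mul_of_nonneg_right (by linarith) (hp.m0 q)

/-- the twelve fields -/
abbrev J0 : Type := Fin 3 ⊕ Fin 3 × Fin 3

/-- weights -/
def u0 (ν : ℝ) : J0 → ℝ := Sum.elim (fun _ => 1) fun _ => ν

/-- coefficients -/
noncomputable def c0 (α ν : ℝ) (ε : V3 → Fin 2 → V3) : J0 → Mode L Λ → ℂ :=
  Sum.elim (fun i m => (1 - Complex.I) * ((lD α ν m * ε (kk m) m.2 i / √(L ^ 3) : ℝ) : ℂ))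
    fun p m => cC α ν ε p.1 p.2 m

theorem inten_eq (α ν : ℝ) (ε : V3 → Fin 2 → V3) (q : Mode L Λ → ℝ) (x : V3) :
    inten ν (DF α ν ε q) (CF α ν ε q) x =
      ∑ j, u0 ν j * fld kk (fun m => c0 α ν ε j m * (q m : ℝ)) x ^ 2 := by
  simp only [inten, Fintype.sum_sum_type, u0, c0, Sum.elim_inl, Sum.elim_inr, one_mul,
    Fintype.sum_prod_type, CF, Finset.mul_sum]
  congr 1
  refine Finset.sum_congr rfl fun i _ => ?_
  rw [DF, sum_tA]
  congr 2
  funext m
  push_cast
  ring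

theorem u0_nonneg {ν : ℝ} (hν : 0 < ν) (j : J0) : 0 ≤ u0 ν j := by
  rcases j with i | p
  · exact zero_le_one
  · exact hν.le

theorem comp_sq (k : V3) (i : Fin 3) : k i ^ 2 ≤ ‖k‖ ^ 2 := by
  rw [V3_norm_sq]
  exact Finset.single_le_sum (f := fun i => k i ^ 2) (fun _ _ => sq_nonneg _) (Finset.mem_univ i)

theorem c0_le {α ν : ℝ} {ε : V3 → Fin 2 → V3} (hL : 0 < L) (hα : 0 < α) (hν : 0 < ν)
    (hε : IsPolarisation ε) (j : J0) (m : Mode L Λ) :
    2 * L ^ 3 * (u0 ν j * ‖c0 α ν ε j m‖ ^ 2) ≤ 8 * α / ν * om m := by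
  have ho := om_pos m
  have he : ∀ i, ε (kk m) m.2 i ^ 2 ≤ 1 := fun i => by
    rw [← pol_sq hε (kk_ne m) m.2]
    exact Finset.single_le_sum (f := fun i => ε (kk m) m.2 i ^ 2) (fun _ _ => sq_nonneg _)
      (Finset.mem_univ i)
  have hk : ∀ i, kk m i ^ 2 ≤ om m ^ 2 := comp_sq _
  have n1 : ‖(1 - Complex.I : ℂ)‖ ^ 2 = 2 := by
    rw [Complex.sq_norm, Complex.normSq_apply]; norm_num
  have n2 : ‖(1 + Complex.I : ℂ)‖ ^ 2 = 2 := by
    rw [Complex.sq_norm, Complex.normSq_apply]; norm_num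
  have s1 : √α ^ 2 = α := Real.sq_sqrt hα.le
  have s2 : √(2 * om m) ^ 2 = 2 * om m := Real.sq_sqrt (by positivity)
  have s3 : √(L ^ 3) ^ 2 = L ^ 3 := Real.sq_sqrt (by positivity)
  have hd : 0 < om m ^ 2 + ν := by positivity
  rcases j with i | ⟨i, j⟩
  · simp only [u0, c0, Sum.elim_inl, norm_mul, mul_pow, n1, Complex.norm_real, Real.norm_eq_abs,
      sq_abs, lD, div_pow, s1, s2, s3, one_mul]
    have h1 : (om m ^ 2) ^ 2 / (om m ^ 2 + ν) ^ 2 ≤ om m ^ 2 / ν := by
      rw [div_le_div_iff₀ (by positivity) hν]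
      have : 0 < om m ^ 2 := by positivity
      nlinarith [mul_pos this hν, mul_pos this this, mul_pos (mul_pos this hν) hν,
        mul_pos (mul_pos this this) hν, mul_pos (mul_pos this this) this]
    calc _ = 2 * α / om m * ((om m ^ 2) ^ 2 / (om m ^ 2 + ν) ^ 2) * ε (kk m) m.2 i ^ 2 := by
          field_simp
      _ ≤ 2 * α / om m * (om m ^ 2 / ν) * 1 := by gcongr; exact he i
      _ = 2 * (α / ν * om m) := by field_simp
      _ ≤ 8 * (α / ν * om m) := by gcongr; norm_num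
      _ = _ := by ring
  · simp only [u0, c0, Sum.elim_inr, cC, norm_mul, mul_pow, n2, Complex.norm_real,
      Real.norm_eq_abs, sq_abs, div_pow, s1, s2, s3]
    have h1 : ν / (om m ^ 2 + ν) ^ 2 ≤ 1 / ν := by
      rw [div_le_div_iff₀ (by positivity) hν]
      have : 0 < om m ^ 2 := by positivity
      nlinarith [mul_pos this hν, mul_pos this this]
    have h2 : (kk m i * ε (kk m) m.2 j - kk m j * ε (kk m) m.2 i) ^ 2 ≤ 4 * om m ^ 2 := by
      have a1 : (kk m i * ε (kk m) m.2 j) ^ 2 ≤ om m ^ 2 * 1 := by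
        rw [mul_pow]; exact mul_le_mul (hk i) (he j) (sq_nonneg _) (sq_nonneg _)
      have a2 : (kk m j * ε (kk m) m.2 i) ^ 2 ≤ om m ^ 2 * 1 := by
        rw [mul_pow]; exact mul_le_mul (hk j) (he i) (sq_nonneg _) (sq_nonneg _)
      nlinarith [sq_nonneg (kk m i * ε (kk m) m.2 j + kk m j * ε (kk m) m.2 i)]
    calc _ = 2 * α / om m * (ν / (om m ^ 2 + ν) ^ 2) *
          (kk m i * ε (kk m) m.2 j - kk m j * ε (kk m) m.2 i) ^ 2 := by field_simp
      _ ≤ 2 * α / om m * (1 / ν) * (4 * om m ^ 2) := by gcongr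
      _ = _ := by field_simp; ring

/-- the multiplier of a mixed derivative -/
noncomputable def mb (b : Finset (Fin 3)) (m : Mode L Λ) : ℂ :=
  ∏ i ∈ b, (Complex.I * ((1 / Λ * kk m i : ℝ) : ℂ))

theorem mb_le (hΛ : 0 < Λ) (b : Finset (Fin 3)) (m : Mode L Λ) : ‖mb b m‖ ≤ 1 := by
  rw [mb, norm_prod]
  refine Finset.prod_le_one (fun _ _ => norm_nonneg _) fun i _ => ?_
  have h1 : |kk m i| ≤ Λ :=
    (abs_le_of_sq_le_sq (comp_sq _ i) (norm_nonneg _)).trans (kk_lt m).le
  rw [norm_mul, Complex.norm_I, one_mul, Complex.norm_real, Real.norm_eq_abs, abs_mul,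
    abs_of_pos (by positivity), one_div, inv_mul_le_iff₀ hΛ, mul_one]
  exact h1

end T73

open T73 in
theorem st_FLD2 (hB : St_BES) (hR : St_REP) (hS : St_SUPF) (hF : St_FLOOR) : St_FLD2 := by
  refine ⟨98304, by norm_num,
    fun L Λ α ν ε a l s r M hL hΛ hα hν hε hr hΛr hM hΛl hlL => ?_⟩
  obtain ⟨β, hβ, hR⟩ := hR M r hr
  have hl : 0 < l := by
    by_contra h
    nlinarith [mul_nonneg hΛ.le (neg_nonneg.2 (not_lt.1 h))]
  set P : ℝ := (Λ * r) ^ (2 * M) with hP
  have hP0 : 0 < P := by positivity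
  set κ : ℝ := ν / (192 * α) with hκ
  have hκ0 : 0 < κ := by positivity
  let w : J0 ⊕ J0 × Finset (Fin 3) → ℝ :=
    Sum.elim (fun j => κ * u0 ν j) fun p => κ / (8 * P) * u0 ν p.1
  let c : J0 ⊕ J0 × Finset (Fin 3) → Mode L Λ → ℂ :=
    Sum.elim (c0 α ν ε) fun p m => c0 α ν ε p.1 m * β (kk m) * mb p.2 m
  have hu := u0_nonneg hν
  have hw : ∀ j, 0 ≤ w j := by
    rintro (j | p)
    · exact mul_nonneg hκ0.le (hu j)
    · exact mul_nonneg (by positivity) (hu p.1)
  have hc : ∀ m, 2 * L ^ 3 * ∑ j, w j * ‖c j m‖ ^ 2 ≤ om m := fun m => by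
    have ho := om_pos m
    have hb : ‖β (kk m)‖ ^ 2 ≤ P := by
      rw [hP, mul_comm 2 M, pow_mul]
      refine pow_le_pow_left₀ (norm_nonneg _) ((hβ _).trans ?_) 2
      gcongr
      exact (kk_lt m).le
    have h1 : ∀ j : J0, 2 * L ^ 3 * (κ * u0 ν j * ‖c0 α ν ε j m‖ ^ 2) ≤ om m / 24 := fun j =>
      calc _ = κ * (2 * L ^ 3 * (u0 ν j * ‖c0 α ν ε j m‖ ^ 2)) := by ring
        _ ≤ κ * (8 * α / ν * om m) := mul_le_mul_of_nonneg_left (c0_le hL hα hν hε j m) hκ0.le
        _ = _ := by rw [hκ]; field_simp; ring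
    have h2 : ∀ p : J0 × Finset (Fin 3), 2 * L ^ 3 * (κ / (8 * P) * u0 ν p.1 *
        ‖c0 α ν ε p.1 m * β (kk m) * mb p.2 m‖ ^ 2) ≤ om m / 192 := fun p => by
      have h3 : ‖mb p.2 m‖ ^ 2 ≤ 1 := pow_le_one₀ (norm_nonneg _) (mb_le hΛ _ m)
      have h4 := hu p.1
      calc _ = 2 * L ^ 3 * (κ * u0 ν p.1 * ‖c0 α ν ε p.1 m‖ ^ 2) / (8 * P) *
            (‖β (kk m)‖ ^ 2 * ‖mb p.2 m‖ ^ 2) := by
            rw [norm_mul, norm_mul, mul_pow, mul_pow]; ring
        _ ≤ om m / 24 / (8 * P) * (P * 1) := by gcongr; exact h1 _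
        _ = _ := by field_simp; ring
    rw [Fintype.sum_sum_type, mul_add, Finset.mul_sum, Finset.mul_sum]
    have s1 := Finset.sum_le_sum fun j (_ : j ∈ Finset.univ) => h1 j
    have s2 := Finset.sum_le_sum fun p (_ : p ∈ Finset.univ) => h2 p
    simp only [Finset.sum_const, Finset.card_univ, Fintype.card_prod, Fintype.card_sum,
      Fintype.card_fin, Fintype.card_finset, nsmul_eq_mul] at s1 s2
    simp only [w, c, Sum.elim_inl, Sum.elim_inr]
    norm_num at s1 s2 ⊢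
    linarith
  let A : (Mode L Λ → ℝ) → ℝ := fun q => ∑ j, u0 ν j *
    ∫ x in ball a (4 * l), fld kk (fun m => c0 α ν ε j m * (q m : ℝ)) x ^ 2
  let B : (Mode L Λ → ℝ) → ℝ := fun q => ∑ j, u0 ν j * ∑ b, ∫ x in ball a (4 * l),
    fld kk (fun m => c0 α ν ε j m * β (kk m) * mb b m * (q m : ℝ)) x ^ 2
  have hA : ∀ q, 0 ≤ A q := fun q => Finset.sum_nonneg fun j _ =>
    mul_nonneg (hu j) (integral_nonneg fun x => sq_nonneg _)
  have hBn : ∀ q, 0 ≤ B q := fun q => Finset.sum_nonneg fun j _ =>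
    mul_nonneg (hu j) (Finset.sum_nonneg fun b _ => integral_nonneg fun x => sq_nonneg _)
  have hΦ : ∀ q, bf (Gm kk w c a (4 * l)) q q = κ * A q + κ / (8 * P) * B q := fun q => by
    rw [bf_Gm, Fintype.sum_sum_type, Fintype.sum_prod_type]
    simp only [w, c, A, B, Sum.elim_inl, Sum.elim_inr, Finset.mul_sum, mul_assoc]
  have hI : ∀ (q : Mode L Λ → ℝ) (x : V3) (t : ℝ),
      ∫ y in ball x t, inten ν (DF α ν ε q) (CF α ν ε q) y =
      ∑ j, u0 ν j * ∫ y in ball x t, fld kk (fun m => c0 α ν ε j m * (q m : ℝ)) y ^ 2 := by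
    intro q x t
    simp only [inten_eq, ← integral_const_mul]
    exact integral_finsetSum _ fun j _ =>
      intOn (continuous_const.mul ((fld_cont _ _).pow 2)) x t
  refine ⟨fun q => 1 / 4 * bf (Gm kk w c a (4 * l)) q q, (PG.const _).mul (PG_bf' _),
    fun q => ?_, core hB hF w hw c a hL hΛ hl hlL hc, fun q x hx => ?_, fun q => ?_⟩
  · have := hA q
    have := hBn q
    simp only [hΦ]
    positivity
  · have sub : ball x (2 * (1 / Λ)) ⊆ ball a (4 * l) := by
      refine ball_subset_ball' ?_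
      have h1 : 2 * (1 / Λ) ≤ l := by
        rw [mul_one_div, div_le_iff₀ hΛ]; linarith
      have h2 := mem_ball.1 hx
      linarith
    have key : ∀ j : J0, fld kk (fun m => c0 α ν ε j m * (q m : ℝ)) x ^ 2 ≤
        2 * 4 ^ M * (1 / r ^ 3) *
          (∫ y in ball x s, fld kk (fun m => c0 α ν ε j m * (q m : ℝ)) y ^ 2) +
        16 * Λ ^ 3 * ∑ b, ∫ y in ball a (4 * l),
          fld kk (fun m => c0 α ν ε j m * β (kk m) * mb b m * (q m : ℝ)) y ^ 2 := fun j => by
      have h1 := hR _ kk (fun m => c0 α ν ε j m * (q m : ℝ)) x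
      have h2 := hS _ kk (fun m => c0 α ν ε j m * (q m : ℝ) * β (kk m)) x (1 / Λ) (by positivity)
      have h3 := int_mono ((fld_cont kk fun m => c0 α ν ε j m * (q m : ℝ)).pow 2)
        (fun y => sq_nonneg _) (ball_subset_ball (x := x) hM)
      have h4 : ∑ b : Finset (Fin 3), ∫ y in ball x (2 * (1 / Λ)),
          fld kk (fun m => c0 α ν ε j m * (q m : ℝ) * β (kk m) *
            ∏ i ∈ b, (Complex.I * ((1 / Λ * kk m i : ℝ) : ℂ))) y ^ 2 ≤
          ∑ b, ∫ y in ball a (4 * l),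
            fld kk (fun m => c0 α ν ε j m * β (kk m) * mb b m * (q m : ℝ)) y ^ 2 :=
        Finset.sum_le_sum fun b _ => by
          have e : (fun m : Mode L Λ => c0 α ν ε j m * (q m : ℝ) * β (kk m) *
              ∏ i ∈ b, (Complex.I * ((1 / Λ * kk m i : ℝ) : ℂ))) =
              fun m => c0 α ν ε j m * β (kk m) * mb b m * (q m : ℝ) := by
            funext m; rw [mb]; ring
          rw [e]
          exact int_mono ((fld_cont _ _).pow 2) (fun y => sq_nonneg _) sub
      have h5 := h1.trans (mul_le_mul_of_nonneg_left h3 (by positivity))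
      have h6 := h2.trans (mul_le_mul_of_nonneg_left h4 (by positivity))
      have e1 : 8 / (1 / Λ) ^ 3 = 8 * Λ ^ 3 := by field_simp
      have e2 : (4 : ℝ) ^ M / r ^ 3 = 4 ^ M * (1 / r ^ 3) := by ring
      rw [e1] at h6
      rw [e2] at h5
      simp only [Pi.pow_apply] at h5
      nlinarith [sq_nonneg (fld kk (fun m => c0 α ν ε j m * (q m : ℝ)) x -
        2 * fld kk (fun m => c0 α ν ε j m * (q m : ℝ) * β (kk m)) x)]
    have h7 := Finset.sum_le_sum fun j (_ : j ∈ Finset.univ) =>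
      mul_le_mul_of_nonneg_left (key j) (hu j)
    have h8 : 16 * Λ ^ 3 * B q ≤ 98304 * α * Λ ^ 3 * P / ν *
        (1 / 4 * bf (Gm kk w c a (4 * l)) q q) := by
      have h9 : 0 ≤ κ * A q := mul_nonneg hκ0.le (hA q)
      calc _ = 98304 * α * Λ ^ 3 * P / ν * (1 / 4 * (0 + κ / (8 * P) * B q)) := by
            rw [hκ]; field_simp; ring
        _ ≤ _ := by rw [hΦ]; gcongr
    rw [hI, inten_eq]
    refine h7.trans (le_trans (le_of_eq ?_) (add_le_add_right h8 _))
    simp only [B, mul_add, Finset.sum_add_distrib, Finset.mul_sum]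
    congr 1
    · exact Finset.sum_congr rfl fun j _ => by ring
    · exact Finset.sum_congr rfl fun j _ => Finset.sum_congr rfl fun b _ => by ring
  · have h9 : 0 ≤ κ / (8 * P) * B q := mul_nonneg (by positivity) (hBn q)
    have h10 := hA q
    simp only [hI, hΦ]
    calc _ = 768 * α / ν * (1 / 4 * (κ * A q + 0)) := by
          rw [hκ]; field_simp; simp only [A]; ring
      _ ≤ _ := by gcongr; norm_num

end Pool.Agent.Lib.LS
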