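import Pool.Agent.Lib.LS.Base

set_option autoImplicit false

open MeasureTheory Filter Topology Metric
open scoped ComplexConjugate InnerProductSpace ContDiff

namespace Pool.Agent.Lib.LS

open Pool.Agent.Lib.MP_791321_mp

namespace T21

noncomputable def Cg (g : V3 → ℝ) (p : V3) : ℝ := ∫ x, g x * Real.cos (inner ℝ p x)
noncomputable def Sg (g : V3 → ℝ) (p : V3) : ℝ := ∫ x, g x * Real.sin (inner ℝ p x)
noncomputable def Fg (g : V3 → ℝ) (p : V3) : ℝ := Cg g p ^ 2 + Sg g p ^ 2
noncomputable def tt (k k' : V3) : ℝ := 1 + (inner ℝ k k') ^ 2 / (‖k‖ ^ 2 * ‖k'‖ ^ 2)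

variable {g : V3 → ℝ} {L Λ : ℝ}

theorem c_in (p : V3) : Continuous fun x : V3 => inner ℝ p x := (innerSL ℝ p).continuous

theorem intC (hg : Continuous g) (hc : HasCompactSupport g) (p : V3) :
    Integrable fun x => g x * Real.cos (inner ℝ p x) :=
  (hg.mul (Real.continuous_cos.comp (c_in p))).integrable_of_hasCompactSupport hc.mul_right

theorem intS (hg : Continuous g) (hc : HasCompactSupport g) (p : V3) :
    Integrable fun x => g x * Real.sin (inner ℝ p x) :=
  (hg.mul (Real.continuous_sin.comp (c_in p))).integrable_of_hasCompactSupport hc.mul_right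

theorem Cg_neg (p : V3) : Cg g (-p) = Cg g p := by simp [Cg, inner_neg_left]

theorem Sg_neg (p : V3) : Sg g (-p) = -Sg g p := by
  simp [Sg, inner_neg_left, integral_neg]

theorem Fg_nonneg (p : V3) : 0 ≤ Fg g p := by unfold Fg; positivity

theorem ft_sq (hg : Continuous g) (hc : HasCompactSupport g) (p : V3) :
    ‖∫ x, (g x : ℂ) * Complex.exp (Complex.I * (inner ℝ p x : ℝ))‖ ^ 2 = Fg g p := by
  have h : ∀ x, (g x : ℂ) * Complex.exp (Complex.I * (inner ℝ p x : ℝ)) =
      ((g x * Real.cos (inner ℝ p x) : ℝ) : ℂ) +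
        ((g x * Real.sin (inner ℝ p x) : ℝ) : ℂ) * Complex.I := fun x => by
    rw [mul_comm Complex.I, Complex.exp_mul_I]; push_cast; ring
  simp only [h]
  rw [integral_add (intC hg hc p).ofReal ((intS hg hc p).ofReal.mul_const _), integral_mul_const,
    integral_complex_ofReal, integral_complex_ofReal, Complex.sq_norm]
  exact Complex.normSq_add_mul_I _ _

theorem d_in (p : V3) (x : V3) : HasFDerivAt (fun x : V3 => inner ℝ p x) (innerSL ℝ p) x :=
  (innerSL ℝ p).hasFDerivAt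

theorem Fg_pd (hg : ContDiff ℝ 1 g) (hc : HasCompactSupport g) (i : Fin 3) (p : V3) :
    Fg (pd i g) p = p i ^ 2 * Fg g p := by
  have hd : Continuous (pd i g) :=
    (hg.continuous_fderiv one_ne_zero).clm_apply continuous_const
  have hs : HasCompactSupport (pd i g) := hc.fderiv_apply ℝ _
  have hp : inner ℝ p (EuclideanSpace.single i (1 : ℝ)) = p i := by
    simp [EuclideanSpace.inner_single_right]
  have e1 : ∀ x, fderiv ℝ (fun x : V3 => Real.cos (inner ℝ p x)) x (EuclideanSpace.single i 1) =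
      -p i * Real.sin (inner ℝ p x) := fun x => by
    rw [(d_in p x).cos.fderiv]; simp only [smul_apply, innerSL_apply_apply, hp, smul_eq_mul]; ring
  have e2 : ∀ x, fderiv ℝ (fun x : V3 => Real.sin (inner ℝ p x)) x (EuclideanSpace.single i 1) =
      p i * Real.cos (inner ℝ p x) := fun x => by
    rw [(d_in p x).sin.fderiv]; simp only [smul_apply, innerSL_apply_apply, hp, smul_eq_mul]; ring
  have h1 := integral_mul_fderiv_eq_neg_fderiv_mul_of_integrable (μ := volume) (f := g)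
    (g := fun x : V3 => Real.cos (inner ℝ p x)) (v := EuclideanSpace.single i 1)
    (intC hd hs p) (by
      simp only [e1, mul_left_comm (g _)]; exact (intS hg.continuous hc p).const_mul _)
    (intC hg.continuous hc p) (fun x _ => hg.differentiable one_ne_zero x)
    (fun x _ => (d_in p x).cos.differentiableAt)
  have h2 := integral_mul_fderiv_eq_neg_fderiv_mul_of_integrable (μ := volume) (f := g)
    (g := fun x : V3 => Real.sin (inner ℝ p x)) (v := EuclideanSpace.single i 1)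
    (intS hd hs p) (by
      simp only [e2, mul_left_comm (g _)]; exact (intC hg.continuous hc p).const_mul _)
    (intS hg.continuous hc p) (fun x _ => hg.differentiable one_ne_zero x)
    (fun x _ => (d_in p x).sin.differentiableAt)
  simp only [e1, e2, mul_left_comm (g _), integral_const_mul] at h1 h2
  have h3 : Cg (pd i g) p = p i * Sg g p := by
    change (∫ x, fderiv ℝ g x _ * _) = p i * ∫ x, _
    linarith
  have h4 : Sg (pd i g) p = -p i * Cg g p := by
    change (∫ x, fderiv ℝ g x _ * _) = -p i * ∫ x, _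
    linarith
  rw [Fg, Fg, h3, h4]; ring

theorem Am_eq (hL : 0 < L) (hg : Continuous g) (hc : HasCompactSupport g) (ε : V3 → Fin 2 → V3)
    (m m' : Mode L Λ) : Am ε g m m' = (∑ i, ε (kk m) m.2 i * ε (kk m') m'.2 i) / L ^ 3 *
      (Cg g (kk m - kk m') + Sg g (kk m + kk m')) := by
  rw [Cg, Sg, ← integral_add (intC hg hc _) (intS hg hc _), ← integral_const_mul, Am]
  congr 1
  ext x
  have h : √(L ^ 3) * √(L ^ 3) = L ^ 3 := Real.mul_self_sqrt (by positivity)
  simp only [tA, div_mul_div_comm, h, inner_sub_left, inner_add_left, Real.cos_sub, Real.sin_add,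
    Fin.sum_univ_three]
  ring

theorem inner3 (k k' : V3) : inner ℝ k k' = k 0 * k' 0 + k 1 * k' 1 + k 2 * k' 2 := by
  simp [PiLp.inner_apply, Fin.sum_univ_three, mul_comm]

theorem pol2 {ε : V3 → Fin 2 → V3} (hε : IsPolarisation ε) {k k' : V3} (hk : k ≠ 0)
    (hk' : k' ≠ 0) : ∑ μ, ∑ μ', (∑ i, ε k μ i * ε k' μ' i) ^ 2 = tt k k' := by
  have h : ∑ μ, ∑ μ', (∑ i, ε k μ i * ε k' μ' i) ^ 2 =
      ∑ i, ∑ j, (∑ μ, ε k μ i * ε k μ j) * ∑ μ', ε k' μ' i * ε k' μ' j := by
    simp only [Fin.sum_univ_two, Fin.sum_univ_three]; ring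
  have a := V3_norm_sq k
  have b := V3_norm_sq k'
  have ha : ‖k‖ ^ 2 ≠ 0 := pow_ne_zero _ (norm_ne_zero_iff.2 hk)
  have hb : ‖k'‖ ^ 2 ≠ 0 := pow_ne_zero _ (norm_ne_zero_iff.2 hk')
  rw [h]
  simp only [pol_complete hε hk, pol_complete hε hk']
  rw [tt, inner3]
  generalize ‖k‖ ^ 2 = A at a ha ⊢
  generalize ‖k'‖ ^ 2 = B at b hb ⊢
  simp only [Fin.sum_univ_three] at a b ⊢
  simp only [Fin.isValue, if_true, Fin.reduceEq, if_false]
  field_simp
  rw [a, b]
  ring

theorem tt_neg_left (k k' : V3) : tt (-k) k' = tt k k' := by simp [tt, inner_neg_left]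
theorem tt_neg_right (k k' : V3) : tt k (-k') = tt k k' := by simp [tt, inner_neg_right]

theorem tt_bound {k k' : V3} (hk : k ≠ 0) (hk' : k' ≠ 0) :
    2 - tt k k' ≤ ‖k - k'‖ ^ 2 / ‖k‖ ^ 2 := by
  have ha : 0 < ‖k‖ ^ 2 := pow_pos (norm_pos_iff.2 hk) _
  have hb : 0 < ‖k'‖ ^ 2 := pow_pos (norm_pos_iff.2 hk') _
  rw [norm_sub_sq_real, tt]
  generalize ‖k‖ ^ 2 = A at ha ⊢
  generalize ‖k'‖ ^ 2 = B at hb ⊢
  generalize inner ℝ k k' = d
  have : (A - 2 * d + B) / A - (2 - (1 + d ^ 2 / (A * B))) = (B - d) ^ 2 / (A * B) := by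
    field_simp; ring
  have h2 : 0 ≤ (B - d) ^ 2 / (A * B) := by positivity
  linarith

theorem flip (f : V3 → ℝ) : ∑ z : Kset L Λ, f (mom L z) = ∑ z : Kset L Λ, f (-mom L z) := by
  rw [sum_flip (fun _ => -1) (fun _ => by simp)]
  simp only [mom_neg]

theorem sym (hL : 0 < L) (hg : Continuous g) (hc : HasCompactSupport g) {ε : V3 → Fin 2 → V3}
    (hε : IsPolarisation ε) (w : ℝ → ℝ) :
    ∑ m : Mode L Λ, w (om m) * ∑ m', Am ε g m m' * Am ε g m' m =
      ∑ z : Kset L Λ, w ‖mom L z‖ *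
        (∑ z' : Kset L Λ, tt (mom L z) (mom L z') * Fg g (mom L z - mom L z')) / (L ^ 3) ^ 2 := by
  have hs : ∀ m m' : Mode L Λ, Am ε g m' m = Am ε g m m' := fun m m' => by
    simp only [Am, mul_comm (tA ε _ m' _)]
  have h1 : ∑ m : Mode L Λ, w (om m) * ∑ m', Am ε g m m' * Am ε g m' m =
      ∑ z : Kset L Λ, ∑ z' : Kset L Λ, w ‖mom L z‖ * tt (mom L z) (mom L z') *
        (Cg g (mom L z - mom L z') + Sg g (mom L z + mom L z')) ^ 2 / (L ^ 3) ^ 2 := by
    rw [Fintype.sum_prod_type]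
    refine Finset.sum_congr rfl fun z _ => ?_
    simp only [Fintype.sum_prod_type, Finset.mul_sum]
    rw [Finset.sum_comm]
    refine Finset.sum_congr rfl fun z' _ => ?_
    rw [← pol2 hε z.2.1 z'.2.1]
    simp only [Finset.mul_sum, Finset.sum_mul, Finset.sum_div]
    refine Finset.sum_congr rfl fun μ _ => Finset.sum_congr rfl fun μ' _ => ?_
    rw [hs (z, μ) (z', μ'), Am_eq hL hg hc]
    simp only [om, kk]
    ring
  have h2 : ∑ z : Kset L Λ, ∑ z' : Kset L Λ, w ‖mom L z‖ * tt (mom L z) (mom L z') *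
      (Cg g (mom L z - mom L z') * Sg g (mom L z + mom L z')) = 0 := by
    have e := flip (L := L) (Λ := Λ) fun k => ∑ z' : Kset L Λ, w ‖k‖ * tt k (mom L z') *
      (Cg g (k - mom L z') * Sg g (k + mom L z'))
    have e' : ∀ k : V3, ∑ z' : Kset L Λ, w ‖-k‖ * tt (-k) (mom L z') *
        (Cg g (-k - mom L z') * Sg g (-k + mom L z')) = -∑ z' : Kset L Λ, w ‖k‖ * tt k (mom L z') *
        (Cg g (k - mom L z') * Sg g (k + mom L z')) := fun k => by
      rw [flip fun k' => w ‖-k‖ * tt (-k) k' * (Cg g (-k - k') * Sg g (-k + k')),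
        ← Finset.sum_neg_distrib]
      refine Finset.sum_congr rfl fun z' _ => ?_
      rw [norm_neg, tt_neg_left, tt_neg_right, ← neg_sub', ← neg_add, Cg_neg, Sg_neg]
      ring
    simp only [e', Finset.sum_neg_distrib] at e
    linarith
  have h3 : ∀ k : V3, ∑ z' : Kset L Λ, w ‖k‖ * tt k (mom L z') * Sg g (k + mom L z') ^ 2 =
      ∑ z' : Kset L Λ, w ‖k‖ * tt k (mom L z') * Sg g (k - mom L z') ^ 2 := fun k => by
    rw [flip fun k' => w ‖k‖ * tt k k' * Sg g (k + k') ^ 2]
    simp only [tt_neg_right, sub_eq_add_neg]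
  rw [h1]
  simp only [← Finset.sum_div]
  congr 1
  simp only [add_sq, mul_add, Finset.sum_add_distrib, h3, Fg, Finset.mul_sum]
  have h4 : ∑ z : Kset L Λ, ∑ z' : Kset L Λ, w ‖mom L z‖ * tt (mom L z) (mom L z') *
      (2 * Cg g (mom L z - mom L z') * Sg g (mom L z + mom L z')) = 0 := by
    have := congrArg (fun t => 2 * t) h2
    simp only [Finset.mul_sum, mul_zero] at this
    rw [← this]
    exact Finset.sum_congr rfl fun z _ => Finset.sum_congr rfl fun z' _ => by ring
  rw [h4, add_zero]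
  simp only [mul_assoc]

theorem mom_sub (z z' : Fin 3 → ℤ) : mom L (z - z') = mom L z - mom L z' := by
  ext i; simp [mom]; ring

/-- the estimate at one good momentum -/
theorem good {θ A B : ℝ} (hθ : 0 < θ * Λ) (z : Kset L Λ) (h1 : θ * Λ ≤ ‖mom L z‖)
    (h2 : ‖mom L z‖ < (1 - θ) * Λ) (hA : HasSum (fun y : Fin 3 → ℤ => Fg g (mom L y)) A)
    (hB : HasSum (fun y : Fin 3 → ℤ => ‖mom L y‖ ^ 2 * Fg g (mom L y)) B) :
    2 * A - ∑ z' : Kset L Λ, tt (mom L z) (mom L z') * Fg g (mom L z - mom L z') ≤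
      2 / (θ * Λ) ^ 2 * B := by
  classical
  have hA' := (Equiv.subLeft z.1).hasSum_iff.2 hA
  have hB' := (Equiv.subLeft z.1).hasSum_iff.2 hB
  have hK := hasSum_subtype_iff_indicator.1 (hasSum_fintype
    ((fun y : Fin 3 → ℤ => tt (mom L z) (mom L y) * Fg g (mom L z - mom L y)) ∘
      ((↑) : Kset L Λ → Fin 3 → ℤ)))
  refine hasSum_le (fun y => ?_) ((hA'.mul_left 2).sub hK) (hB'.mul_left _)
  simp only [Function.comp_apply, Equiv.subLeft_apply, mom_sub]
  have hF := Fg_nonneg (g := g) (mom L z - mom L y)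
  have hq : 0 < (θ * Λ) ^ 2 := by positivity
  by_cases hy : y ∈ Kset L Λ
  · rw [Set.indicator_of_mem hy]
    have h3 := tt_bound z.2.1 hy.1
    have h4 : ‖mom L z - mom L y‖ ^ 2 / ‖mom L z‖ ^ 2 ≤
        2 / (θ * Λ) ^ 2 * ‖mom L z - mom L y‖ ^ 2 := by
      have : ‖mom L z - mom L y‖ ^ 2 / ‖mom L z‖ ^ 2 ≤ ‖mom L z - mom L y‖ ^ 2 / (θ * Λ) ^ 2 := by
        gcongr
      have h5 : 0 ≤ ‖mom L z - mom L y‖ ^ 2 / (θ * Λ) ^ 2 := by positivity
      have h6 : 2 / (θ * Λ) ^ 2 * ‖mom L z - mom L y‖ ^ 2 =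
          2 * (‖mom L z - mom L y‖ ^ 2 / (θ * Λ) ^ 2) := by ring
      linarith
    have := mul_le_mul_of_nonneg_right (h3.trans h4) hF
    linarith
  · rw [Set.indicator_of_notMem hy, sub_zero]
    have h3 : θ * Λ ≤ ‖mom L z - mom L y‖ := by
      by_cases h0 : mom L y = 0
      · rwa [h0, sub_zero]
      · have h4 : Λ ≤ ‖mom L y‖ := not_lt.1 fun h => hy ⟨h0, h⟩
        have h5 := norm_sub_norm_le (mom L y) (mom L z)
        rw [norm_sub_rev] at h5
        linarith
    have h4 : 1 ≤ ‖mom L z - mom L y‖ ^ 2 / (θ * Λ) ^ 2 := by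
      rw [one_le_div hq]; gcongr
    have := mul_le_mul_of_nonneg_right h4 hF
    have h6 : 2 / (θ * Λ) ^ 2 * (‖mom L z - mom L y‖ ^ 2 * Fg g (mom L z - mom L y)) =
        2 * (‖mom L z - mom L y‖ ^ 2 / (θ * Λ) ^ 2 * Fg g (mom L z - mom L y)) := by ring
    linarith

end T21

open T21 in
theorem st_LEAK (hP : St_PARS) (hT : St_TR) (hLa : St_LAT) : St_LEAK := by
  intro L Λ r θ ε a g hL hΛ hε hr hg hsup hθ hθ2
  have hV : 0 < L ^ 3 := by positivity
  have hts : tsupport g ⊆ closedBall a r :=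
    closure_minimal (fun x hx => ball_subset_closedBall (hsup x hx)) isClosed_closedBall
  have hc : HasCompactSupport g := (isCompact_closedBall a r).of_isClosed_subset isClosed_closure hts
  have hg0 := hg.continuous
  have hA : HasSum (fun y : Fin 3 → ℤ => Fg g (mom L y)) (L ^ 3 * ∫ x, g x ^ 2) := by
    simpa only [ft_sq hg0 hc] using hP L r a g hL hr hg0 hsup
  have hd : ∀ i, Continuous (pd i g) := fun i =>
    (hg.continuous_fderiv one_ne_zero).clm_apply continuous_const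
  have hs : ∀ i, HasCompactSupport (pd i g) := fun i => hc.fderiv_apply ℝ _
  have hB : HasSum (fun y : Fin 3 → ℤ => ‖mom L y‖ ^ 2 * Fg g (mom L y))
      (L ^ 3 * ∫ x, ‖fderiv ℝ g x‖ ^ 2) := by
    have h1 : ∀ i, HasSum (fun y : Fin 3 → ℤ => mom L y i ^ 2 * Fg g (mom L y))
        (L ^ 3 * ∫ x, pd i g x ^ 2) := fun i => by
      have := hP L ((r + L / 2) / 2) a (pd i g) hL (by linarith) (hd i) fun x hx => by
        have h2 : x ∈ tsupport g := support_fderiv_subset ℝ (f := g) fun h0 => hx (by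
          rw [pd, h0]; rfl)
        exact closedBall_subset_ball (by linarith) (hts h2)
      simpa only [ft_sq (hd i) (hs i), Fg_pd hg hc] using this
    have h2 := hasSum_sum (s := Finset.univ) fun i _ => h1 i
    simp only [← Finset.sum_mul, ← V3_norm_sq, ← Finset.mul_sum] at h2
    have h3 : ∀ i, Integrable fun x => pd i g x ^ 2 := fun i => by
      simp only [sq]
      exact ((hd i).mul (hd i)).integrable_of_hasCompactSupport (hs i).mul_right
    rw [← integral_finsetSum _ fun i _ => h3 i] at h2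
    simpa only [norm_fderiv_sq] using h2
  set A := ∫ x, g x ^ 2 with hAd
  set B := ∫ x, ‖fderiv ℝ g x‖ ^ 2 with hBd
  have hA0 : 0 ≤ A := integral_nonneg fun x => sq_nonneg _
  have hB0 : 0 ≤ B := integral_nonneg fun x => sq_nonneg _
  have hg2 : HasCompactSupport fun x => g x ^ 2 := by
    simp only [sq]
    exact hc.mul_right
  have tr2 : ∀ w : ℝ → ℝ, ∑ m : Mode L Λ, w (om m) * Am ε (fun x => g x ^ 2) m m =
      (∑ m : Mode L Λ, w (om m)) / L ^ 3 * A := fun w => by
    have hi : ∀ m : Mode L Λ,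
        Integrable fun x => w (om m) * (g x ^ 2 * ∑ i, tA ε i m x * tA ε i m x) := fun m =>
      (((hg0.pow 2).mul (continuous_finsetSum _ fun i _ =>
        (tA_cont ε i m).mul (tA_cont ε i m))).integrable_of_hasCompactSupport
          hg2.mul_right).const_mul _
    simp only [Am, ← integral_const_mul, hAd]
    rw [← integral_finsetSum _ fun m _ => hi m]
    congr 1
    ext x
    rw [← hT L Λ ε hL hε w x, Finset.sum_mul]
    exact Finset.sum_congr rfl fun m _ => by simp only [sq]; ring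
  let gd : ℝ → ℝ := fun s => if θ * Λ ≤ s ∧ s < (1 - θ) * Λ then 1 / s else 0
  let bd : ℝ → ℝ := fun s => (if s < θ * Λ then 1 / s else 0) +
    2 / Λ * (1 - if s < (1 - θ) * Λ then 1 else 0)
  have hθΛ : 0 < θ * Λ := by positivity
  have hpsd : ∀ m : Mode L Λ, 0 ≤ Am ε (fun x => g x ^ 2) m m := fun m =>
    integral_nonneg fun x => mul_nonneg (sq_nonneg _)
      (Finset.sum_nonneg fun i _ => mul_self_nonneg _)
  have hsq : ∀ m : Mode L Λ, 0 ≤ ∑ m', Am ε g m m' * Am ε g m' m := fun m =>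
    Finset.sum_nonneg fun m' _ => by
      have : Am ε g m' m = Am ε g m m' := by simp only [Am, mul_comm (tA ε _ m' _)]
      rw [this]; exact mul_self_nonneg _
  have split : ∀ m : Mode L Λ,
      (Am ε (fun x => g x ^ 2) m m - ∑ m', Am ε g m m' * Am ε g m' m) / om m ≤
        bd (om m) * Am ε (fun x => g x ^ 2) m m + (gd (om m) * Am ε (fun x => g x ^ 2) m m -
          gd (om m) * ∑ m', Am ε g m m' * Am ε g m' m) := fun m => by
    have h0 := om_pos m
    have h1 := hpsd m
    have h2 := hsq m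
    generalize Am ε (fun x => g x ^ 2) m m = P at h1 ⊢
    generalize ∑ m', Am ε g m m' * Am ε g m' m = Q at h2 ⊢
    generalize om m = s at h0 ⊢
    have h3 : (P - Q) / s ≤ 1 / s * P := by
      rw [div_le_iff₀ h0]; field_simp; linarith
    simp only [gd, bd]
    by_cases c1 : s < θ * Λ
    · have c2 : s < (1 - θ) * Λ := by nlinarith
      rw [if_pos c1, if_pos c2, if_neg fun h => absurd h.1 (not_le.2 c1)]
      linarith
    · by_cases c2 : s < (1 - θ) * Λ
      · rw [if_neg c1, if_pos c2, if_pos ⟨not_lt.1 c1, c2⟩]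
        exact le_of_eq (by ring)
      · rw [if_neg c1, if_neg c2, if_neg fun h => c2 h.2]
        have h4 : 1 / s ≤ 2 / Λ := by
          rw [div_le_div_iff₀ h0 hΛ]; nlinarith [not_lt.1 c2]
        have := mul_le_mul_of_nonneg_right h4 h1
        linarith
  have bad : (∑ m : Mode L Λ, bd (om m)) / L ^ 3 ≤
      θ ^ 2 * Λ ^ 2 + 4 * (rho L Λ - rho L ((1 - θ) * Λ)) / Λ := by
    have h1 := hLa.2.2.1 L Λ (θ * Λ) hL hθΛ.le
    have h2 := hLa.2.2.2 L Λ ((1 - θ) * Λ) hL (by nlinarith)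
    have h3 := sum_one_mode (L := L) (Λ := Λ)
    simp only [bd, Finset.sum_add_distrib, ← Finset.mul_sum, Finset.sum_sub_distrib]
    rw [add_div, mul_div_assoc, sub_div, h2, h3]
    have : 2 / Λ * (2 * rho L Λ - 2 * rho L ((1 - θ) * Λ)) =
        4 * (rho L Λ - rho L ((1 - θ) * Λ)) / Λ := by ring
    nlinarith
  have hgd : (∑ m : Mode L Λ, gd (om m)) / L ^ 3 ≤ Λ ^ 2 := by
    refine le_trans ?_ (hLa.2.2.1 L Λ Λ hL hΛ.le)
    gcongr with m
    rw [if_pos (om_lt m)]
    have := om_pos m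
    simp only [gd]
    split_ifs
    · exact le_rfl
    · positivity
  have e2 : ∑ m : Mode L Λ, gd (om m) = 2 * ∑ z : Kset L Λ, gd ‖mom L z‖ := by
    rw [Fintype.sum_prod_type, Finset.mul_sum]
    exact Finset.sum_congr rfl fun z _ => by simp only [om, kk, Fin.sum_univ_two]; ring
  have gsum : (∑ m : Mode L Λ, gd (om m)) / L ^ 3 * A -
      ∑ m : Mode L Λ, gd (om m) * ∑ m', Am ε g m m' * Am ε g m' m ≤ B / θ ^ 2 := by
    have h1 : (∑ m : Mode L Λ, gd (om m)) / L ^ 3 * A -
        ∑ m : Mode L Λ, gd (om m) * ∑ m', Am ε g m m' * Am ε g m' m ≤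
        (∑ m : Mode L Λ, gd (om m)) / L ^ 3 * (B / (θ * Λ) ^ 2) := by
      rw [sym hL hg0 hc hε, e2]
      simp only [Finset.mul_sum, Finset.sum_div, Finset.sum_mul, ← Finset.sum_sub_distrib]
      simp only [← Finset.mul_sum, ← Finset.sum_div]
      refine Finset.sum_le_sum fun z _ => ?_
      simp only [gd]
      split_ifs with h
      · have h2 := good hθΛ z h.1 h.2 hA hB
        have h3 : 0 ≤ 1 / ‖mom L z‖ / (L ^ 3) ^ 2 := by positivity
        have h4 := mul_le_mul_of_nonneg_left h2 h3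
        refine le_of_eq_of_le ?_ (h4.trans_eq ?_)
        · field_simp
        · field_simp
      · simp
    refine h1.trans ?_
    have h2 : 0 ≤ B / (θ * Λ) ^ 2 := by positivity
    refine (mul_le_mul_of_nonneg_right hgd h2).trans_eq ?_
    field_simp
  refine (Finset.sum_le_sum fun m _ => split m).trans ?_
  rw [Finset.sum_add_distrib, Finset.sum_sub_distrib, tr2 bd, tr2 gd]
  have := mul_le_mul_of_nonneg_right bad hA0
  linarith

end Pool.Agent.Lib.LS
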