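import Pool.Agent.Lib.LS.Base

set_option autoImplicit false

open MeasureTheory Filter Topology Metric
open scoped ComplexConjugate InnerProductSpace ContDiff

namespace Pool.Agent.Lib.LS

open Pool.Agent.Lib.MP_791321_mp

namespace T30

variable {L Λ : ℝ}

theorem intOn {f : V3 → ℝ} (hf : Continuous f) {Q : Set V3} (hQ : Bornology.IsBounded Q) :
    IntegrableOn f Q :=
  (hf.continuousOn.integrableOn_compact hQ.isCompact_closure).mono_set subset_closure

theorem trP (hT : St_TR) (hL : 0 < L) {ε : V3 → Fin 2 → V3} (hε : IsPolarisation ε) (g : ℝ → ℝ)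
    {Q : Set V3} (hQ : Bornology.IsBounded Q) {s : ℝ} (hs : 0 ≤ s)
    (hv : volume Q = ENNReal.ofReal s) :
    ∑ m : Mode L Λ, g (om m) * Pm ε Q m m = s * ((∑ m : Mode L Λ, g (om m)) / L ^ 3) := by
  have h1 : ∀ m : Mode L Λ, g (om m) * Pm ε Q m m =
      ∫ x in Q, g (om m) * ∑ i, tA ε i m x ^ 2 := fun m => by
    rw [Pm, ← integral_const_mul]; simp only [sq]
  simp only [h1]
  have h2 : ∀ m : Mode L Λ, IntegrableOn (fun x => g (om m) * ∑ i, tA ε i m x ^ 2) Q :=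
    fun m => intOn (continuous_const.mul
      (continuous_finsetSum _ fun i _ => (tA_cont ε i m).pow 2)) hQ
  rw [← integral_finsetSum _ fun m _ => h2 m]
  simp only [hT L Λ ε hL hε g]
  rw [setIntegral_const, Measure.real, hv, ENNReal.toReal_ofReal hs, smul_eq_mul]

theorem lD_le {α ν : ℝ} (hν : 0 < ν) (m : Mode L Λ) :
    0 ≤ √(2 * om m) * lD α ν m ∧ √(2 * om m) * lD α ν m ≤ √α := by
  have h0 := om_pos m
  have h1 : 0 < √(2 * om m) := Real.sqrt_pos.mpr (by positivity)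
  have h2 : √(2 * om m) * lD α ν m = √α * (om m ^ 2 / (om m ^ 2 + ν)) := by
    rw [lD]; field_simp
  rw [h2]
  refine ⟨by positivity, mul_le_of_le_one_right (Real.sqrt_nonneg _) ?_⟩
  rw [div_le_one (by positivity)]; linarith

theorem rho_nonneg (hL : 0 < L) : 0 ≤ rho L Λ := by unfold rho; positivity

theorem sum_le (hL : 0 < L) (g : Mode L Λ → ℝ) (B : ℝ) (h : ∀ m, g m ≤ B) :
    (∑ m, g m) / L ^ 3 ≤ B * (2 * rho L Λ) := by
  rw [← sum_one_mode, ← mul_div_assoc, Finset.mul_sum]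
  gcongr with m
  simpa using h m

end T30

open T30

theorem st_LOC (hS : St_SOFT) (hB : St_BES) (hT : St_TR) (h1 : St_FLD1) (h2 : St_FLD2)
    (hC : St_CELL) (hK : St_CLASS) : St_LOC := by
  obtain ⟨cK, hcK, hK⟩ := hK
  obtain ⟨cF, hcF, h2⟩ := h2
  have hF := F1_nonneg
  have hcc : 0 ≤ cF * F1 := by positivity
  refine ⟨3 * cK + cF * F1, by linarith, ?_⟩
  intro L Λ α ν e r l s t r₀ Γ h K M ε hL hΛ hα hν he he1 hr hs ht hr₀ hh hK0 hε c1 c2 c3 c4 c5
    c6 c7 c8 c9 c10 c11 c12 c13 c14 c15 c16 c17 c18 c19 a φ μ f k P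
  set c₀ := 3 * cK + cF * F1 with hc₀
  have hl : 0 < l := lt_of_lt_of_le (by positivity) c9
  have hΓ : 0 < Γ := lt_of_lt_of_le (by positivity) c8
  have hsa : 0 < √α := Real.sqrt_pos.mpr hα
  have hρ := rho_nonneg (Λ := Λ) hL
  have hK1 : (1 : ℝ) ≤ K := by exact_mod_cast hK0
  obtain ⟨n, c, hc⟩ := hC a l s hs (le_trans (by gcongr; linarith) c9)
  have hbd : ∀ i, Bornology.IsBounded (c i) := fun i => isBounded_ball.subset (hc.sub i)
  obtain ⟨Φ, pΦ, Φ0, fΦ, aΦ, bΦ⟩ := h2 L Λ α ν ε a l s r₀ M hL hΛ hα hν hε hr₀ c1 c2 c4 c5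
  have hbes : ∀ v : Mode L Λ → ℝ, ∑ i, bf (Pm ε (c i)) v v ≤ ∑ m, v m ^ 2 := by
    intro v
    have hcont : Continuous fun x => ∑ i, (∑ m, v m * tA ε i m x) ^ 2 :=
      continuous_finsetSum _ fun i _ =>
        (continuous_finsetSum _ fun m _ => continuous_const.mul (tA_cont ε i m)).pow 2
    have e1 : ∀ i, bf (Pm ε (c i)) v v = ∫ x in c i, ∑ i, (∑ m, v m * tA ε i m x) ^ 2 :=
      fun i => by rw [bf_Pm ε (hbd i)]; simp only [sq]
    simp only [e1]
    rw [← integral_iUnion_fintype hc.meas hc.disj fun i => intOn hcont (hbd i)]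
    refine (hB L Λ a _ hL (MeasurableSet.iUnion hc.meas) ?_).1 ε hε v
    exact Set.iUnion_subset fun i => (hc.sub i).trans (ball_subset_ball (by linarith))
  obtain ⟨U, pU, hU, fU⟩ := hS (Mode L Λ) om (lD α ν) n (fun i => Pm ε (c i))
    (Fin n → Fin (K + 1)) (fun j i => h * (j i : ℕ)) (h * K) (√α) e (fun m => (om_pos m).le)
    (fun m => by rw [abs_of_nonneg (lD_le hν m).1]; exact (lD_le hν m).2) hsa (by positivity) he
    (fun i => PSD_Pm ε (hbd i)) hbes (fun j i => ⟨by positivity, by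
      have : ((j i : ℕ) : ℝ) ≤ K := by exact_mod_cast Nat.lt_succ_iff.mp (j i).2
      gcongr⟩)
  set κ' := 1 / 2 * (∑ m : Mode L Λ, √(2 * om m) * lD α ν m) / L ^ 3 with hκ'
  set Z := 1 / 2 * ∑ i, ∑ m : Mode L Λ, om m * Pm ε (c i) m m with hZ
  set ent := Real.log (Fintype.card (Fin n → Fin (K + 1))) * ((1 + e) * (h * K) * √α / e)
    with hent
  have hs3 : 0 < s ^ 3 := by positivity
  have tr1 : ∀ i, ∑ m : Mode L Λ, √(2 * om m) * lD α ν m * Pm ε (c i) m m = s ^ 3 * (2 * κ') := by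
    intro i
    have := trP (Λ := Λ) hT hL hε
      (fun y => √(2 * y) * (√α / √(2 * y) * (y ^ 2 / (y ^ 2 + ν)))) (hbd i) hs3.le (hc.vol i)
    rw [hκ']
    simp only [lD]
    rw [this]; ring
  have hZ1 : 0 ≤ Z ∧ Z ≤ 64 * l ^ 3 * Λ * rho L Λ := by
    have e1 : ∀ i, ∑ m : Mode L Λ, om m * Pm ε (c i) m m =
        s ^ 3 * ((∑ m : Mode L Λ, om m) / L ^ 3) := fun i =>
      trP (Λ := Λ) hT hL hε (fun y => y) (hbd i) hs3.le (hc.vol i)
    have e2 := sum_le hL (fun m : Mode L Λ => om m) Λ fun m => (om_lt m).le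
    have e3 : 0 ≤ (∑ m : Mode L Λ, om m) / L ^ 3 :=
      div_nonneg (Finset.sum_nonneg fun m _ => (om_pos m).le) (by positivity)
    simp only [hZ, e1, Finset.sum_const, Finset.card_univ, Fintype.card_fin, nsmul_eq_mul]
    refine ⟨by positivity, ?_⟩
    calc _ = 1 / 2 * ((n * s ^ 3) * ((∑ m : Mode L Λ, om m) / L ^ 3)) := by ring
      _ ≤ 1 / 2 * ((64 * l ^ 3) * (Λ * (2 * rho L Λ))) := by
          gcongr 1 / 2 * (?_ * ?_)
          exact hc.card
      _ = _ := by ring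
  have hent1 : 0 ≤ ent ∧ ent ≤ e / r ^ 4 := by
    have e1 : Real.log (Fintype.card (Fin n → Fin (K + 1))) = n * Real.log (K + 1) := by
      simp
    have e2 : Real.log ((K : ℝ) + 1) ≤ K := by
      have := Real.log_le_sub_one_of_pos (x := (K : ℝ) + 1) (by positivity)
      linarith
    have e3 : 0 ≤ Real.log ((K : ℝ) + 1) := Real.log_nonneg (by linarith)
    rw [hent, e1]
    refine ⟨by positivity, ?_⟩
    have e4 : (n : ℝ) ≤ 64 * l ^ 3 / s ^ 3 := by rw [le_div_iff₀ hs3]; exact hc.card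
    calc _ ≤ 64 * l ^ 3 / s ^ 3 * K * (2 * (h * K) * √α / e) := by gcongr; linarith
      _ = 128 * l ^ 3 * K ^ 2 * h * √α * r ^ 4 / (e * s ^ 3 * r ^ 4) := by field_simp; ring
      _ ≤ e ^ 2 * s ^ 3 / (e * s ^ 3 * r ^ 4) := by gcongr
      _ = _ := by field_simp
  have hκ2 : κ' ≤ 2 / r ^ 7 := by
    have := sum_le hL (fun m : Mode L Λ => √(2 * om m) * lD α ν m) (√α) fun m => (lD_le hν m).2
    rw [hκ', mul_div_assoc]
    linarith
  have hZ2 : 600 * l ^ 3 * Λ * rho L Λ ≤ e / r ^ 4 := by rw [le_div_iff₀ (by positivity)]; exact c18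
  have hp : 0 ≤ l ^ 3 * Λ * rho L Λ := by positivity
  have h4M : (1 : ℝ) ≤ 4 ^ M := one_le_pow₀ (by norm_num)
  have hB1 : cK * (2 * 4 ^ M + 1) * Γ ≤ c₀ * 4 ^ M * Γ := by
    gcongr ?_ * Γ
    rw [hc₀]; nlinarith only [hcK, hcc, h4M]
  have key : ∀ q, ((1 - 9 * e) * F1 - 6 * e) / r ^ 4 * μ q ≤
      1 / 2 * k q + (e * ((Φ q - 512 * l ^ 3 * Λ * rho L Λ) * μ q) -
        (1 - e) * ((U q + Z) * μ q)) := by
    intro q
    have m0 := P.pair.m0 q
    have k0 : 0 ≤ k q := by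
      rw [P.kin]; exact integral_nonneg fun x => Finset.sum_nonneg fun i _ => sq_nonneg _
    have e5 : e * (512 * l ^ 3 * Λ * rho L Λ) + (1 - e) * (ent + Z) ≤ 2 * (e / r ^ 4) := by
      nlinarith only [hent1.1, hent1.2, hZ1.1, hZ1.2, hZ2, hp, he, he1, mul_nonneg he.le hent1.1,
        mul_nonneg he.le hZ1.1, mul_nonneg (sub_nonneg.2 he1) hp]
    by_cases hq : F1 / r ^ 4 ≤ e * Φ q
    · have e1 := hU q fun _ => 0
      simp only [Fin.val_zero, Nat.cast_zero, mul_zero, ne_eq, OfNat.ofNat_ne_zero,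
        not_false_eq_true, zero_pow, zero_mul, Finset.sum_const_zero, sub_zero, zero_add] at e1
      have e2 : ((1 - 9 * e) * F1 - 6 * e) / r ^ 4 ≤
          e * (Φ q - 512 * l ^ 3 * Λ * rho L Λ) - (1 - e) * (U q + Z) := by
        have e3 : ((1 - 9 * e) * F1 - 6 * e) / r ^ 4 =
            F1 / r ^ 4 - 9 * e * (F1 / r ^ 4) - 6 * (e / r ^ 4) := by ring
        have e4 : 0 ≤ e * (F1 / r ^ 4) := by positivity
        have e6 : 0 ≤ e / r ^ 4 := by positivity
        have e7 : (1 - e) * (U q + Z) ≤ (1 - e) * (ent + Z) := by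
          gcongr; linarith
        rw [e3]; linarith only [e4, e5, e6, e7, hq]
      linarith only [mul_le_mul_of_nonneg_right e2 m0, k0]
    · push Not at hq
      have hq2 : Φ q ≤ F1 / (e * r ^ 4) := by
        rw [le_div_iff₀ (by positivity)]
        rw [lt_div_iff₀ (by positivity)] at hq
        linarith
      have hcF : cF * F1 ≤ c₀ := by rw [hc₀]; linarith
      have ha : cF * α * Λ ^ 3 * (Λ * r₀) ^ (2 * M) / ν * Φ q ≤ 1 / r ^ 4 := by
        calc _ ≤ cF * α * Λ ^ 3 * (Λ * r₀) ^ (2 * M) / ν * (F1 / (e * r ^ 4)) := by gcongr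
          _ = cF * F1 * α * Λ ^ 3 * (Λ * r₀) ^ (2 * M) / (e * ν) * (1 / r ^ 4) := by
            field_simp
          _ ≤ c₀ * α * Λ ^ 3 * (Λ * r₀) ^ (2 * M) / (e * ν) * (1 / r ^ 4) := by gcongr
          _ ≤ 1 * (1 / r ^ 4) := by
            gcongr; rw [div_le_one (by positivity)]; exact c16
          _ = _ := one_mul _
      have hb : Real.exp (-t) * (1 / r₀ ^ 3) *
          ∫ y in ball a (4 * l), inten ν (DF α ν ε q) (CF α ν ε q) y ≤ 1 / r ^ 4 := by
        calc _ ≤ Real.exp (-t) * (1 / r₀ ^ 3) * (cF * α / ν * (F1 / (e * r ^ 4))) := by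
              gcongr
              exact (bΦ q).trans (by gcongr)
          _ = cF * F1 * α * Real.exp (-t) / (e * ν * r₀ ^ 3) * (1 / r ^ 4) := by field_simp
          _ ≤ c₀ * α * Real.exp (-t) / (e * ν * r₀ ^ 3) * (1 / r ^ 4) := by gcongr
          _ ≤ 1 * (1 / r ^ 4) := by
            gcongr; rw [div_le_one (by positivity)]; exact c17
          _ = _ := one_mul _
      have hW : 1 ≤ 1 / r₀ ^ 3 * s ^ 3 := by
        rw [one_div_mul_eq_div, one_le_div (by positivity)]; gcongr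
      obtain ⟨j, hj⟩ := hK ν e r κ' l s t (1 / r₀ ^ 3) Γ (2 * 4 ^ M) h K n c a (aF α ε q)
        (DF α ν ε q) (CF α ν ε q) (φ q) hν he he1 hr hs ht (by positivity) (by positivity) hh hK0
        hc (h1 L Λ α ν ε hν hε q) (P.sm q) (P.cpt q) (P.supp q) c6 hκ2 c8 c9 c10
        (le_trans (by gcongr) c11) hW (le_trans (by gcongr) c12) c13 c14
        (le_trans (by
          rw [mul_one_div]
          gcongr
          rw [hc₀]; linarith) c15)
        (fun x hx => (aΦ q x hx).trans (by gcongr)) hb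
      rw [← P.mu, ← P.kin] at hj
      have e1 := hU q j
      have e2 : ∀ i, bf (Pm ε (c i)) (fun m => lD α ν m * q m) (fun m => lD α ν m * q m) =
          ∫ y in c i, ∑ b, DF α ν ε q b y ^ 2 := fun i => by
        rw [bf_Pm ε (hbd i)]; simp only [sq, DF]
      simp only [e2, tr1] at e1
      have e3 : 1 / 2 * ∑ i, h * (j i : ℕ) * (s ^ 3 * (2 * κ')) =
          κ' * (s ^ 3 * ∑ i, h * (j i : ℕ)) := by
        rw [← Finset.sum_mul]; ring
      rw [e3] at e1
      set X := (1 + e) * (1 / 2 * ∑ i, (h * (j i : ℕ)) ^ 2 * ∫ y in c i, ∑ b, DF α ν ε q b y ^ 2) -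
        κ' * (s ^ 3 * ∑ i, h * (j i : ℕ))
      have e4 : ((1 - 9 * e) * F1 - 6 * e) / r ^ 4 ≤
          ((1 - 9 * e) * F1 - 4 * e) / r ^ 4 +
            (e * (Φ q - 512 * l ^ 3 * Λ * rho L Λ) - (1 - e) * (U q + Z)) + (1 - e) * X := by
        have e6 : ((1 - 9 * e) * F1 - 6 * e) / r ^ 4 =
            ((1 - 9 * e) * F1 - 4 * e) / r ^ 4 - 2 * (e / r ^ 4) := by ring
        have e7 : (1 - e) * (U q + Z) ≤ (1 - e) * (X + ent + Z) := by
          gcongr; linarith
        have e8 : 0 ≤ e * Φ q := mul_nonneg he.le (Φ0 q)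
        rw [e6]; linarith only [e5, e7, e8]
      linarith only [mul_le_mul_of_nonneg_right e4 m0, hj]
  have pμ := P.pair.pm.2.1
  have p1 : PG fun q => (Φ q - 512 * l ^ 3 * Λ * rho L Λ) * μ q := (pΦ.sub (PG.const _)).mul pμ
  have p2 : PG fun q => (U q + Z) * μ q := (pU.add (PG.const _)).mul pμ
  have g1 := gE_mono ((PG.const _).mul pμ) (((PG.const _).mul P.pk).add
    (((PG.const _).mul p1).sub ((PG.const _).mul p2))) key
  rw [gE_add ((PG.const _).mul P.pk) (((PG.const _).mul p1).sub ((PG.const _).mul p2)),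
    gE_sub ((PG.const _).mul p1) ((PG.const _).mul p2), gE_mul, gE_mul, gE_mul, gE_mul] at g1
  have g2 := mul_le_mul_of_nonneg_left (fΦ μ f P.pair) he.le
  have g3 := mul_le_mul_of_nonneg_left (fU μ f P.pair) (show 0 ≤ 1 - e by linarith)
  linarith

end Pool.Agent.Lib.LS
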