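import Pool.Agent.Lib.LS.Base

set_option autoImplicit false

open MeasureTheory Filter Topology

namespace Pool.Agent.Lib.LS

open Pool.Agent.Lib.MP_791321_mp

namespace T90

theorem tr_low (hT : St_LAT) {L Λ α x : ℝ} (hL : 0 < L) (hΛ : 0 < Λ) (hx : 0 < x) :
    √α * (2 * rho L Λ * (1 - 1 / x) - Λ ^ 3 / x ^ 3) ≤
      (∑ m : Mode L Λ, √(2 * om m) * lD α (Λ ^ 2 / x ^ 3) m) / L ^ 3 := by
  have h1 := hT.2.1 L Λ (Λ / x) hL (by positivity)
  have h2 : ∀ m : Mode L Λ, √α * ((1 - 1 / x) - if om m < Λ / x then 1 else 0) ≤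
      √(2 * om m) * lD α (Λ ^ 2 / x ^ 3) m := fun m => by
    have h0 : 0 < om m := kk_pos m
    have h3 : 0 < √(2 * om m) := Real.sqrt_pos.2 (by positivity)
    rw [lD, ← mul_assoc, mul_div_cancel₀ _ h3.ne']
    refine mul_le_mul_of_nonneg_left ?_ (Real.sqrt_nonneg _)
    split_ifs with h
    · have : 0 ≤ om m ^ 2 / (om m ^ 2 + Λ ^ 2 / x ^ 3) := by positivity
      have : 0 < 1 / x := by positivity
      linarith
    · have h4 : (Λ / x) ^ 2 ≤ om m ^ 2 := pow_le_pow_left₀ (by positivity) (not_lt.1 h) 2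
      have h5 : Λ ^ 2 / x ^ 3 = 1 / x * (Λ / x) ^ 2 := by field_simp
      have h6 : 0 < 1 / x := by positivity
      rw [le_div_iff₀ (by positivity), h5]
      generalize 1 / x = y at *
      nlinarith [mul_le_mul_of_nonneg_left h4 h6.le, mul_nonneg (sq_nonneg y) (sq_nonneg (Λ / x))]
  have h3 := sum_const_mode (L := L) (Λ := Λ) (2 * (1 - 1 / x))
  have h4 : ∑ _m : Mode L Λ, (1 - 1 / x) = 2 * rho L Λ * (1 - 1 / x) * L ^ 3 := by
    rw [show 2 * rho L Λ * (1 - 1 / x) = 2 * (1 - 1 / x) * rho L Λ by ring, ← h3, Finset.sum_mul]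
    exact Finset.sum_congr rfl fun _ _ => by field_simp
  have h5 := Finset.sum_le_sum fun m (_ : m ∈ Finset.univ) => h2 m
  rw [← Finset.mul_sum, Finset.sum_sub_distrib, h4] at h5
  rw [div_le_iff₀ (by positivity), div_pow] at h1
  rw [le_div_iff₀ (by positivity)]
  refine le_trans ?_ h5
  rw [mul_assoc]
  exact mul_le_mul_of_nonneg_left (by linarith) (Real.sqrt_nonneg _)

end T90

open T90

theorem st_LOW (hA : St_ADP) (hC : St_LOC) (hT : St_LAT) : St_LOW := by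
  obtain ⟨c, hc, hA⟩ := hA
  obtain ⟨c₀, hc₀, hC⟩ := hC
  intro b δ hb hδ
  have hπ := Real.pi_gt_three
  have hF := abs_nonneg F1
  obtain ⟨e, he0, he1, he2⟩ : ∃ e : ℝ, 0 < e ∧ e ≤ 1 / 10 ∧ e * (9 * |F1| + 6) ≤ δ / 2 :=
    ⟨min (1 / 10) (δ / 2 / (9 * |F1| + 6)), by positivity, min_le_left _ _,
      (le_div_iff₀ (by positivity)).1 (min_le_right _ _)⟩
  obtain ⟨α, hα⟩ : ∃ α : ℝ, α = (6 * Real.pi ^ 2 * b) ^ 2 := ⟨_, rfl⟩
  have hα0 : 0 < α := by rw [hα]; positivity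
  have hs : √α = 6 * Real.pi ^ 2 * b := by rw [hα, Real.sqrt_sq (by positivity)]
  obtain ⟨Q, hQ⟩ : ∃ Q : ℝ, Q = 4 ^ 100 := ⟨_, rfl⟩
  have hQ0 : 0 < Q := by rw [hQ]; positivity
  have ev : ∀ C : ℝ, ∀ᶠ x : ℝ in atTop, C ≤ e ^ 2 * x := fun C =>
    (tendsto_id.const_mul_atTop (by positivity)).eventually_ge_atTop C
  have ex : ∀ᶠ x : ℝ in atTop, c₀ * α * b ^ 2 * (x ^ 202 * Real.exp (-x)) < e := by
    have := (Real.tendsto_pow_mul_exp_neg_atTop_nhds_zero 202).const_mul (c₀ * α * b ^ 2)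
    rw [mul_zero] at this
    exact this.eventually (gt_mem_nhds he0)
  rw [← hα]
  filter_upwards [ev 3, ev (390 * (c₀ * Q)), ev (27648 * c₀), ev (c₀ * α * b ^ 2),
    ev (600 / b ^ 2), ev (394754 * Real.pi ^ 2), ex, eventually_ge_atTop (2 * c / δ)]
    with x x1 x2 x3 x4 x5 x6 x7 x8
  have e2 : e ^ 2 ≤ e := by nlinarith
  have e3 : e ^ 2 ≤ 1 / 100 := by nlinarith
  have hx0 : 0 < x := (mul_pos_iff_of_pos_left (pow_pos he0 2)).1 (by linarith)
  have hx : 300 ≤ x := by nlinarith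
  have hx1 : 1 ≤ x := by linarith
  have up : ∀ {C : ℝ}, C ≤ e ^ 2 * x → ∀ n : ℕ, C ≤ e ^ 2 * x ^ (n + 1) := fun h n =>
    h.trans (mul_le_mul_of_nonneg_left (le_self_pow₀ hx1 n.succ_ne_zero) (sq_nonneg e))
  have up' : ∀ {C : ℝ}, C ≤ e ^ 2 * x → ∀ n : ℕ, C ≤ e * x ^ (n + 1) := fun h n =>
    (up h n).trans (mul_le_mul_of_nonneg_right e2 (by positivity))
  obtain ⟨Λ, hΛ⟩ : ∃ Λ : ℝ, Λ = b ^ 2 * x ^ 196 := ⟨_, rfl⟩
  have hΛ0 : 0 < Λ := by rw [hΛ]; positivity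
  obtain ⟨K, K1, K2⟩ : ∃ K : ℕ, 512 * x ^ 5 ≤ K ∧ (K : ℝ) ≤ 513 * x ^ 5 :=
    ⟨⌈512 * x ^ 5⌉₊, Nat.le_ceil _, by
      linarith [Nat.ceil_lt_add_one (show 0 ≤ 512 * x ^ 5 by positivity), one_le_pow₀ hx1 (n := 5)]⟩
  have K0 : 0 < K := by exact_mod_cast (show (0 : ℝ) < K from lt_of_lt_of_le (by positivity) K1)
  have hρ : 0 < Λ ^ 3 / (6 * Real.pi ^ 2) := by positivity
  rw [← hΛ]
  filter_upwards [eventually_gt_atTop 0, eventually_ge_atTop (8 * (x ^ 29 / Λ)),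
    (hT.1 Λ hΛ0).eventually (lt_mem_nhds (show (1 - e / 3) * (Λ ^ 3 / (6 * Real.pi ^ 2)) < _ by
      nlinarith)),
    (hT.1 Λ hΛ0).eventually (gt_mem_nhds (show _ < 2 * (Λ ^ 3 / (6 * Real.pi ^ 2)) by linarith))]
    with L hL l1 l2 l3 ε hε
  by_contra hcon
  obtain ⟨a, φ, μ, f, k, hP, hμ, hE⟩ := hA L Λ α _ (x ^ 29 / Λ) ε hL (by positivity) hε
    (not_le.1 hcon)
  have r7 : ∀ t : ℝ, t / (1 / (b * x ^ 84)) ^ 7 = t * (√α * (Λ ^ 3 / (6 * Real.pi ^ 2))) :=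
    fun t => by rw [hs, hΛ]; field_simp
  have x3' : x + 2 ≤ 3 * x := by linarith
  have key := hC L Λ α (Λ ^ 2 / x ^ 3) e (1 / (b * x ^ 84)) (x ^ 29 / Λ) (x ^ 4 / Λ) x
    (1 / (x * Λ)) (Λ ^ 2 / x ^ 34) (b ^ 3 * x ^ 248 / 512) K 100 ε hL hΛ0 hα0 (by positivity) he0
    he1 (by positivity) (by positivity) hx1 (by positivity) (by positivity) K0 hε
    (by rw [mul_one_div, div_le_one (by positivity)]; nlinarith)
    (by
      rw [mul_one_div, div_le_div_iff₀ (by positivity) hΛ0]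
      have : (100 : ℝ) ≤ x ^ 5 := le_trans (by linarith) (le_self_pow₀ hx1 (by norm_num))
      push_cast; nlinarith)
    (by
      rw [div_le_div_iff₀ (by positivity) hΛ0]
      nlinarith [one_le_pow₀ hx1 (n := 5)])
    (by
      rw [mul_div_cancel₀ _ hΛ0.ne']
      exact le_trans (by linarith) (le_self_pow₀ hx1 (by norm_num)))
    l1
    (by
      have h1 := tr_low (α := α) hT hL hΛ0 hx0
      have h2 : 1 / x ≤ e / 3 := by
        rw [div_le_div_iff₀ hx0 (by norm_num)]; nlinarith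
      have h3 : Λ ^ 3 / x ^ 3 ≤ 2 * (e / 3) * (Λ ^ 3 / (6 * Real.pi ^ 2)) := by
        have h4 : 394754 * Real.pi ^ 2 ≤ e * x ^ 3 := up' x6 2
        have h5 : 2 * (e / 3) * (Λ ^ 3 / (6 * Real.pi ^ 2)) = Λ ^ 3 / (9 * Real.pi ^ 2 / e) := by
          field_simp; ring
        rw [h5]
        refine div_le_div_of_nonneg_left (by positivity) (by positivity) ?_
        rw [div_le_iff₀ he0]; linarith only [sq_nonneg Real.pi, h4]
      have h6 : (1 - e / 3) * (Λ ^ 3 / (6 * Real.pi ^ 2)) * (1 - e / 3) ≤ rho L Λ * (1 - 1 / x) :=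
        mul_le_mul l2.le (by linarith) (by linarith) (le_trans (by nlinarith) l2.le)
      have h7 : 2 * ((1 - e) * (Λ ^ 3 / (6 * Real.pi ^ 2))) ≤
          2 * rho L Λ * (1 - 1 / x) - Λ ^ 3 / x ^ 3 := by
        nlinarith [mul_nonneg (sq_nonneg e) hρ.le]
      rw [r7, mul_div_assoc]
      nlinarith [mul_le_mul_of_nonneg_left h7 (Real.sqrt_nonneg α)])
    (by rw [r7]; nlinarith [mul_le_mul_of_nonneg_left l3.le (Real.sqrt_nonneg α)])
    (by
      rw [hΛ, div_le_div_iff₀ (by positivity) (by positivity)]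
      field_simp
      exact one_le_pow₀ hx1)
    (by
      rw [← mul_div_assoc]
      refine div_le_div_of_nonneg_right ?_ hΛ0.le
      have : 3 ≤ x ^ 24 := le_trans (by linarith) (le_self_pow₀ hx1 (by norm_num))
      calc _ ≤ 3 * x * x ^ 4 := by gcongr
        _ ≤ x ^ 24 * x * x ^ 4 := by gcongr
        _ = _ := by ring)
    (by
      rw [show e ^ 2 * (Λ ^ 2 / x ^ 3) * (x ^ 4 / Λ) ^ 2 = e ^ 2 * x ^ (4 + 1) by field_simp]
      linarith [up x1 4])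
    (by
      rw [← hQ, show e ^ 2 * (Λ ^ 2 / x ^ 3) = e ^ 2 * x ^ (30 + 1) * (Λ ^ 2 / x ^ 34) by field_simp,
        ← mul_assoc]
      refine mul_le_mul_of_nonneg_right (le_trans ?_ (up x2 30)) (by positivity)
      nlinarith [mul_pos (show 0 < c₀ by linarith) hQ0])
    (by
      rw [← hQ, show 130 * (c₀ * Q * (Λ ^ 2 / x ^ 34)) * ((x + 2) * (x ^ 4 / Λ)) *
        (1 / (b * x ^ 84)) ^ 2 = 130 * (c₀ * Q) * (x + 2) / x ^ 2 by rw [hΛ]; field_simp,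
        div_le_iff₀ (by positivity)]
      have h1 := up' x2 0
      have h2 : 0 < c₀ * Q := mul_pos (by linarith) hQ0
      calc _ ≤ 130 * (c₀ * Q) * (3 * x) := by gcongr
        _ = 390 * (c₀ * Q) * x := by ring
        _ ≤ e * x ^ (0 + 1) * x := by gcongr
        _ = _ := by ring)
    (by
      rw [show e * (1 / (b * x ^ 84)) ^ 3 * (b ^ 3 * x ^ 248 / 512 * K) = e * K / (512 * x ^ 4) by
        field_simp, le_div_iff₀ (by positivity)]
      have h1 := up' x1 0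
      calc _ ≤ 3 * (512 * x ^ 4) := by gcongr; norm_num
        _ ≤ e * x ^ (0 + 1) * (512 * x ^ 4) := by gcongr
        _ = e * (512 * x ^ 5) := by ring
        _ ≤ _ := by gcongr)
    (by
      rw [show 128 * (x ^ 29 / Λ) ^ 3 * (b ^ 3 * x ^ 248 / 512) =
        1 / (4 * x) * (1 / (b * x ^ 84)) ^ 3 by rw [hΛ]; field_simp; norm_num]
      refine mul_le_mul_of_nonneg_right ?_ (by positivity)
      rw [div_le_iff₀ (by positivity)]
      nlinarith)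
    (by
      rw [show 128 * (x ^ 29 / Λ) ^ 3 * ((2 * ((x + 2) * (x ^ 4 / Λ))) ^ 3 *
          (c₀ / (1 / (x * Λ)) ^ 3)) = 1024 * c₀ * (x + 2) ^ 3 * (x ^ 102 / Λ ^ 3) by
          field_simp; norm_num,
        show e ^ 2 * (Λ ^ 2 / x ^ 34) * (1 / (b * x ^ 84)) ^ 10 =
          e ^ 2 * x * x ^ 3 * (x ^ 102 / Λ ^ 3) by rw [hΛ]; field_simp]
      refine mul_le_mul_of_nonneg_right ?_ (by positivity)
      calc _ ≤ 1024 * c₀ * (3 * x) ^ 3 := by gcongr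
        _ = 27648 * c₀ * x ^ 3 := by ring
        _ ≤ _ := by gcongr)
    (by
      rw [show c₀ * α * Λ ^ 3 * (Λ * (1 / (x * Λ))) ^ (2 * 100) =
          c₀ * α * b ^ 2 * (Λ ^ 2 / x ^ 4) by
          rw [show Λ * (1 / (x * Λ)) = 1 / x by field_simp, hΛ, one_div_pow]; field_simp,
        show e * (Λ ^ 2 / x ^ 3) = e * x ^ (0 + 1) * (Λ ^ 2 / x ^ 4) by field_simp; ring]
      exact mul_le_mul_of_nonneg_right (up' x4 0) (by positivity))
    (by
      rw [show e * (Λ ^ 2 / x ^ 3) * (1 / (x * Λ)) ^ 3 = e / (b ^ 2 * x ^ 202) by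
        rw [hΛ]; field_simp, le_div_iff₀ (by positivity)]
      linarith)
    (by
      have h1 : rho L Λ ≤ Λ ^ 3 := by
        refine l3.le.trans ?_
        rw [← mul_div_assoc, div_le_iff₀ (by positivity)]
        nlinarith [pow_pos hΛ0 3, mul_pos (pow_pos hΛ0 3) (show 0 < Real.pi ^ 2 - 9 by nlinarith)]
      calc _ ≤ 600 * (x ^ 29 / Λ) ^ 3 * Λ * Λ ^ 3 * (1 / (b * x ^ 84)) ^ 4 := by gcongr
        _ = 600 / b ^ 2 / x ^ (52 + 1) := by rw [hΛ]; field_simp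
        _ ≤ _ := (div_le_iff₀ (by positivity)).2 (up' x5 52))
    (by
      rw [hs]
      calc _ ≤ 128 * (x ^ 29 / Λ) ^ 3 * (513 * x ^ 5) ^ 2 * (b ^ 3 * x ^ 248 / 512) *
            (6 * Real.pi ^ 2 * b) * (1 / (b * x ^ 84)) ^ 4 := by gcongr
        _ = 789507 / 2 * Real.pi ^ 2 * (x ^ 9 / Λ ^ 3) := by field_simp; norm_num
        _ ≤ e ^ 2 * x ^ (2 + 1) * (x ^ 9 / Λ ^ 3) :=
          mul_le_mul_of_nonneg_right (le_trans (by nlinarith) (up x6 2)) (by positivity)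
        _ = _ := by field_simp)
    a φ μ f k hP
  have h1 := lt_of_mul_lt_mul_right (key.trans_lt hE) hμ.le
  rw [show c / (x ^ 29 / Λ) ^ 2 = c / x ^ 2 * (b ^ 4 * x ^ 336) by rw [hΛ]; field_simp,
    show ((1 - 9 * e) * F1 - 6 * e) / (1 / (b * x ^ 84)) ^ 4 =
      ((1 - 9 * e) * F1 - 6 * e) * (b ^ 4 * x ^ 336) by field_simp, ← add_mul] at h1
  have h2 := lt_of_mul_lt_mul_right h1 (by positivity)
  have h3 : c / x ^ 2 ≤ δ / 2 := by
    rw [div_le_iff₀ hδ] at x8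
    rw [div_le_iff₀ (by positivity)]
    nlinarith [mul_le_mul_of_nonneg_left (le_self_pow₀ hx1 two_ne_zero) hδ.le]
  nlinarith [mul_le_mul_of_nonneg_left (le_abs_self F1) he0.le]

end Pool.Agent.Lib.LS
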