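import Pool.Agent.Lib.LS.Base
import Pool.Agent.Lib.LL.Mat

set_option autoImplicit false

open Matrix

namespace Pool.Agent.Lib.LS

namespace T47

variable {I : Type} [Fintype I]

theorem bf_dot (P : Matrix I I ℝ) (v w : I → ℝ) : bf P v w = v ⬝ᵥ P *ᵥ w := by
  simp only [bf, dotProduct, mulVec, Finset.mul_sum, mul_assoc]

theorem psd_of {P : Matrix I I ℝ} (h : PSD P) : P.PosSemidef :=
  PosSemidef.of_dotProduct_mulVec_nonneg (by ext i j; simpa using h.1 j i) fun v => by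
    simpa [bf_dot] using h.2 v

end T47

open T47

theorem st_MAT : St_MAT := by
  intro I _ _ κ Λ η A₁ A₂ Pr hκ hη h1 h2 h3 hP hPP
  have h4 : PSD (A₂ - A₁ * A₁) := by
    refine ⟨fun m m' => ?_, fun v => ?_⟩
    · simp only [Matrix.sub_apply, Matrix.mul_apply, h2.1 m m']
      exact congrArg _ (Finset.sum_congr rfl fun j _ => by rw [h1.1 m j, h1.1 j m', mul_comm])
    · have e : v ⬝ᵥ (A₁ * A₁) *ᵥ v = ∑ m, (∑ m', A₁ m m' * v m') ^ 2 := by
        rw [← mulVec_mulVec, dotProduct_mulVec, ← mulVec_transpose, LL.T47.psd_tr (psd_of h1)]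
        simp only [dotProduct, mulVec, sq]
      rw [bf_dot, sub_mulVec, dotProduct_sub, e, ← bf_dot]
      exact sub_nonneg.2 (h3 v)
  obtain ⟨v, σ, a1, -, a2, a3⟩ := LL.T47.mat κ (fun m => (hκ m).1) Λ η (fun m => (hκ m).2) hη
    A₁ A₂ Pr (psd_of h1) (psd_of h4) hP hPP
  refine ⟨v, σ, a1, a2, ?_⟩
  have e1 : ∀ u : I → ℝ, bf A₂ (fun m => u m / √(κ m)) (fun m => u m / √(κ m)) =
      ∑ m, ∑ m', u m * (A₂ m m' / (√(κ m) * √(κ m'))) * u m' := fun u =>
    Finset.sum_congr rfl fun m _ => Finset.sum_congr rfl fun m' _ => by ring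
  have e2 : ∑ l, bf A₂ (fun m => (1 - Pr) l m / √(κ m)) (fun m => (1 - Pr) l m / √(κ m)) =
      ((1 - Pr) * of fun m m' => A₂ m m' / (√(κ m) * √(κ m'))).trace := by
    have hQ : (1 - Pr)ᵀ * (1 - Pr) = 1 - Pr := by
      rw [transpose_sub, transpose_one, hP, Matrix.sub_mul, Matrix.one_mul, Matrix.mul_sub Pr,
        Matrix.mul_one, hPP, sub_self, sub_zero]
    conv_rhs => rw [← hQ, Matrix.mul_assoc, trace_mul_comm]
    refine Finset.sum_congr rfl fun l _ => ?_
    rw [e1, Finset.sum_comm]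
    simp only [diag_apply, mul_apply, transpose_apply, of_apply, Finset.sum_mul]
  simp only [e2]
  simp only [e1, div_eq_inv_mul _ (σ _)]
  simpa only [trace, diag_apply, Matrix.sub_apply, Matrix.mul_apply] using a3

end Pool.Agent.Lib.LS
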