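import Pool.Agent.Lib.LS.Base

/-! Row `MOD`: the regularised modulus. -/

set_option autoImplicit false

open MeasureTheory
open scoped ContDiff

namespace Pool.Agent.Lib.LS

open Pool.Agent.Lib.MP_791321_mp

namespace T12

theorem dia {φ : V3 → ℂ} (hφ : ContDiff ℝ ∞ φ) (a : Fin 3 → V3 → ℝ) (x : V3) :
    ‖fderiv ℝ (fun y => ‖φ y‖ ^ 2) x‖ ^ 2 ≤ 4 * ‖φ x‖ ^ 2 * kd a φ x := by
  rw [norm_fderiv_sq, kd, Finset.mul_sum]
  refine Finset.sum_le_sum fun i _ => ?_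
  have h := (hφ.differentiable (by simp) x).hasFDerivAt.norm_sq
  have h1 : pd i (fun y => ‖φ y‖ ^ 2) x =
      2 * inner ℝ (φ x) (pd i φ x + Complex.I * (a i x : ℝ) * φ x) := by
    have h0 : inner ℝ (φ x) (Complex.I * (a i x : ℝ) * φ x) = 0 := by
      simp [Complex.inner]
      ring
    rw [inner_add_right, h0, add_zero, pd, h.fderiv]
    simp [pd, mul_add]
  have h2 := abs_real_inner_le_norm (φ x) (pd i φ x + Complex.I * (a i x : ℝ) * φ x)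
  have h3 := pow_le_pow_left₀ (abs_nonneg _) h2 2
  rw [sq_abs, mul_pow] at h3
  rw [h1]
  linarith

theorem sqrt_le {r η : ℝ} (hr : 0 ≤ r) (hη : 0 < η) : √(r ^ 2 + η ^ 2) ≤ r + η :=
  Real.sqrt_le_iff.2 ⟨by positivity, by nlinarith [mul_nonneg hr hη.le]⟩

theorem sm {φ : V3 → ℂ} (hφ : ContDiff ℝ ∞ φ) {η : ℝ} (hη : 0 < η) :
    ContDiff ℝ ∞ fun y => √(‖φ y‖ ^ 2 + η ^ 2) - η :=
  (((hφ.norm_sq ℝ).add contDiff_const).sqrt fun x => by positivity).sub contDiff_const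

theorem cpt {φ : V3 → ℂ} (hc : HasCompactSupport φ) {η : ℝ} (hη : 0 < η) :
    HasCompactSupport fun y => √(‖φ y‖ ^ 2 + η ^ 2) - η :=
  hc.comp_left (g := fun z : ℂ => √(‖z‖ ^ 2 + η ^ 2) - η) (by simp [hη.le])

theorem der {ρ : V3 → ℝ} {η : ℝ} {x : V3} (hρ : DifferentiableAt ℝ ρ x) (h : ρ x + η ^ 2 ≠ 0) :
    fderiv ℝ (fun y => √(ρ y + η ^ 2) - η) x = (1 / (2 * √(ρ x + η ^ 2))) • fderiv ℝ ρ x :=
  (((hρ.hasFDerivAt.add_const (η ^ 2)).sqrt h).sub_const η).fderiv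

theorem low {r η : ℝ} (hr : 0 ≤ r) (hη : 0 < η) :
    r ^ 2 - 2 * η * r ≤ (√(r ^ 2 + η ^ 2) - η) ^ 2 := by
  have h2 := sqrt_le hr hη
  have h3 := Real.sq_sqrt (show 0 ≤ r ^ 2 + η ^ 2 by positivity)
  nlinarith

theorem int_sq {u : V3 → ℝ} (hu : Continuous u) (hc : HasCompactSupport u) :
    Integrable fun x => u x ^ 2 :=
  Continuous.integrable_of_hasCompactSupport (hu.pow 2)
    (hc.comp_left (g := fun t : ℝ => t ^ 2) (by simp))

theorem mass {φ : V3 → ℂ} (hφ : ContDiff ℝ ∞ φ) (hc : HasCompactSupport φ) {η : ℝ}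
    (hη : 0 < η) :
    (∫ x, ‖φ x‖ ^ 2) - 2 * η * ∫ x, ‖φ x‖ ≤ ∫ x, (√(‖φ x‖ ^ 2 + η ^ 2) - η) ^ 2 := by
  have hi1 : Integrable fun x => 2 * η * ‖φ x‖ :=
    (hφ.continuous.norm.integrable_of_hasCompactSupport hc.norm).const_mul _
  have hi2 := int_sq hφ.continuous.norm hc.norm
  have hi3 := int_sq (sm hφ hη).continuous (cpt hc hη)
  rw [← integral_const_mul, ← integral_sub hi2 hi1]
  exact integral_mono (hi2.sub hi1) hi3 fun x => low (norm_nonneg _) hη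

theorem quo {r η : ℝ} (hη : 0 < η) (n : ℝ) :
    4 * r ^ 2 * (|1 / (2 * √(r ^ 2 + η ^ 2))| * n) ^ 2 ≤ n ^ 2 := by
  have h : 0 < r ^ 2 + η ^ 2 := by positivity
  rw [mul_pow, sq_abs, div_pow, mul_pow, Real.sq_sqrt h.le, ← mul_assoc]
  refine mul_le_of_le_one_left (sq_nonneg _) ?_
  rw [one_pow, mul_one_div, div_le_one (by positivity)]
  nlinarith [sq_nonneg η]

end T12

open T12 in
theorem st_MOD : St_MOD := by
  intro φ hφ hc
  refine ⟨dia hφ, fun e he => ?_⟩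
  have h0 : 0 ≤ ∫ x, ‖φ x‖ := integral_nonneg fun x => norm_nonneg _
  obtain ⟨η, hη, hηe⟩ : ∃ η : ℝ, 0 < η ∧ 2 * η * ∫ x, ‖φ x‖ ≤ e := by
    generalize ∫ x, ‖φ x‖ = m at h0
    refine ⟨e / (2 * (m + 1)), by positivity, ?_⟩
    rw [mul_div_assoc', div_mul_eq_mul_div, div_le_iff₀ (by positivity)]
    nlinarith
  have hd : ∀ x, fderiv ℝ (fun y => √(‖φ y‖ ^ 2 + η ^ 2) - η) x =
      (1 / (2 * √(‖φ x‖ ^ 2 + η ^ 2))) • fderiv ℝ (fun y => ‖φ y‖ ^ 2) x := fun x =>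
    der (ρ := fun y => ‖φ y‖ ^ 2) ((hφ.norm_sq ℝ).differentiable (by simp) x) (by positivity)
  refine ⟨fun y => √(‖φ y‖ ^ 2 + η ^ 2) - η, ⟨sm hφ hη, cpt hc hη, fun x => ?_⟩, fun x => ?_,
    le_trans (sub_le_sub_left hηe _) (mass hφ hc hη), fun x => ?_, fun x hx => ?_⟩
  · exact sub_nonneg.2 (Real.le_sqrt_of_sq_le (le_add_of_nonneg_left (sq_nonneg _)))
  · exact sub_le_iff_le_add.2 (sqrt_le (norm_nonneg _) hη)
  · rw [hd, norm_smul, Real.norm_eq_abs]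
    exact quo hη _
  · have h1 := dia hφ 0 x
    rw [hx, norm_zero, zero_pow two_ne_zero, mul_zero, zero_mul] at h1
    rw [hd, norm_eq_zero.1 ((pow_eq_zero_iff two_ne_zero).1 (le_antisymm h1 (sq_nonneg _))),
      smul_zero]

end Pool.Agent.Lib.LS
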