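import Pool.Agent.Lib.LS.Base

set_option autoImplicit false

open MeasureTheory Filter Topology Metric

namespace Pool.Agent.Lib.LS

open Pool.Agent.Lib.MP_791321_mp

namespace T59

/-- the choice of the level on one cell -/
theorem net_cell (V m A t θ h : ℝ) (K : ℕ) (hV : 0 < V) (hm : 0 ≤ m) (hA : A ^ 2 ≤ V * m)
    (ht0 : 0 ≤ t) (ht1 : t ≤ 1) (hθ0 : 0 ≤ θ) (hθ1 : θ ≤ 1) (hh : 0 < h) (hK : 0 < K) :
    ∃ j : Fin (K + 1), (h * (j : ℕ)) ^ 2 ≤ θ ^ 2 * (m / V * t) ∧
      θ * A - m / (h * K) - V * h - √(V * (m * (1 - t))) ≤ V * (h * (j : ℕ)) := by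
  have hKr : (0 : ℝ) < K := by exact_mod_cast hK
  have hhK : 0 < h * K := mul_pos hh hKr
  set y : ℝ := √(m / V) with hy
  set w : ℝ := √t with hw
  have hy0 : 0 ≤ y := Real.sqrt_nonneg _
  have hw0 : 0 ≤ w := Real.sqrt_nonneg _
  have hy2 : y ^ 2 = m / V := Real.sq_sqrt (div_nonneg hm hV.le)
  have hw2 : w ^ 2 = t := Real.sq_sqrt ht0
  have hw1 : w ≤ 1 := by
    rw [hw]
    exact Real.sqrt_le_one.mpr ht1
  have hm' : m = V * y ^ 2 := by
    rw [hy2]; field_simp
  have hAy : A ≤ V * y := by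
    apply le_trans (le_abs_self A)
    apply abs_le_of_sq_le_sq _ (mul_nonneg hV.le hy0)
    calc A ^ 2 ≤ V * m := hA
      _ = (V * y) ^ 2 := by rw [hm']; ring
  set x : ℝ := θ * y * w with hx
  have hx0 : 0 ≤ x := mul_nonneg (mul_nonneg hθ0 hy0) hw0
  set z : ℝ := min x (h * K) with hz
  have hz0 : 0 ≤ z := le_min hx0 hhK.le
  have hzh : 0 ≤ z / h := div_nonneg hz0 hh.le
  have hjK : ⌊z / h⌋₊ < K + 1 := by
    apply Nat.lt_succ_of_le
    apply Nat.floor_le_of_le
    rw [div_le_iff₀ hh]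
    calc z ≤ h * K := min_le_right _ _
      _ = K * h := mul_comm _ _
  have hlo : h * (⌊z / h⌋₊ : ℝ) ≤ z := by
    have := Nat.floor_le hzh
    rw [le_div_iff₀ hh] at this
    linarith
  have hhi : z - h ≤ h * (⌊z / h⌋₊ : ℝ) := by
    have := (Nat.lt_floor_add_one (z / h)).le
    rw [div_le_iff₀ hh] at this
    linarith
  refine ⟨⟨⌊z / h⌋₊, hjK⟩, ?_, ?_⟩
  · have h1 : h * (⌊z / h⌋₊ : ℝ) ≤ x := hlo.trans (min_le_left _ _)
    have h0 : 0 ≤ h * (⌊z / h⌋₊ : ℝ) := by positivity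
    calc (h * (⌊z / h⌋₊ : ℝ)) ^ 2 ≤ x ^ 2 := pow_le_pow_left₀ h0 h1 2
      _ = θ ^ 2 * (m / V * t) := by rw [hx, ← hy2, ← hw2]; ring
  · have hs0 : 0 ≤ √(V * (m * (1 - t))) := Real.sqrt_nonneg _
    have hmK : 0 ≤ m / (h * K) := div_nonneg hm hhK.le
    have hVz : V * (z - h) ≤ V * (h * (⌊z / h⌋₊ : ℝ)) := mul_le_mul_of_nonneg_left hhi hV.le
    have hθA : θ * A ≤ θ * (V * y) := mul_le_mul_of_nonneg_left hAy hθ0
    have hVy : 0 ≤ V * y := mul_nonneg hV.le hy0
    show θ * A - m / (h * K) - V * h - √(V * (m * (1 - t))) ≤ V * (h * (⌊z / h⌋₊ : ℝ))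
    rcases le_total x (h * K) with hc | hc
    · have hzx : z = x := min_eq_left hc
      have hs : V * y * (1 - w) ≤ √(V * (m * (1 - t))) := by
        apply Real.le_sqrt_of_sq_le
        have h1 : (1 - w) ^ 2 ≤ 1 - t := by rw [← hw2]; nlinarith
        calc (V * y * (1 - w)) ^ 2 = (V * y) ^ 2 * (1 - w) ^ 2 := by ring
          _ ≤ (V * y) ^ 2 * (1 - t) := mul_le_mul_of_nonneg_left h1 (sq_nonneg _)
          _ = V * (m * (1 - t)) := by rw [hm']; ring
      have h2 : θ * (V * y * (1 - w)) ≤ V * y * (1 - w) :=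
        mul_le_of_le_one_left (mul_nonneg hVy (by linarith)) hθ1
      have h3 : V * (z - h) = θ * (V * y) - θ * (V * y * (1 - w)) - V * h := by
        rw [hzx, hx]; ring
      linarith
    · have hzx : z = h * K := min_eq_right hc
      have hxy : x ≤ y := by
        rw [hx]
        calc θ * y * w ≤ θ * y := mul_le_of_le_one_right (mul_nonneg hθ0 hy0) hw1
          _ ≤ y := mul_le_of_le_one_left hy0 hθ1
      have h1 : V * y ≤ m / (h * K) := by
        rw [le_div_iff₀ hhK, hm']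
        calc V * y * (h * K) ≤ V * y * y := mul_le_mul_of_nonneg_left (hc.trans hxy) hVy
          _ = V * y ^ 2 := by ring
      have h2 : θ * (V * y) ≤ V * y := mul_le_of_le_one_left hVy hθ1
      have h3 : 0 ≤ V * z := mul_nonneg hV.le hz0
      have h4 : V * (z - h) = V * z - V * h := by ring
      linarith

theorem net_intOn {f : V3 → ℝ} (hf : Continuous f) {a : V3} {R : ℝ} {S : Set V3}
    (hS : S ⊆ ball a R) : IntegrableOn f S volume :=
  (hf.continuousOn.integrableOn_compact (isCompact_closedBall a R)).mono_set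
    (hS.trans ball_subset_closedBall)

theorem net_split {a : V3} {l s : ℝ} {n : ℕ} {c : Fin n → Set V3} (hc : Cells a l s n c)
    {f : V3 → ℝ} (hf : Continuous f) (h0 : ∀ x, f x ≠ 0 → x ∈ ball a l) :
    ∫ x, f x = ∑ i, ∫ x in c i, f x := by
  rw [← integral_iUnion_fintype hc.meas hc.disj (fun i => net_intOn hf (hc.sub i))]
  symm
  apply setIntegral_eq_integral_of_forall_compl_eq_zero
  intro x hx
  by_contra hne
  exact hx (hc.cover (h0 x hne))

theorem net_real {a : V3} {l s : ℝ} {n : ℕ} {c : Fin n → Set V3} (hc : Cells a l s n c)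
    (hs : 0 < s) (i : Fin n) : (volume : Measure V3).real (c i) = s ^ 3 := by
  rw [measureReal_def, hc.vol i, ENNReal.toReal_ofReal (by positivity)]

theorem net_const {a : V3} {l s : ℝ} {n : ℕ} {c : Fin n → Set V3} (hc : Cells a l s n c)
    (hs : 0 < s) (i : Fin n) (k : ℝ) : ∫ _x in c i, k = s ^ 3 * k := by
  rw [setIntegral_const, net_real hc hs i, smul_eq_mul]

theorem net_nonempty {a : V3} {l s : ℝ} {n : ℕ} {c : Fin n → Set V3} (hc : Cells a l s n c)
    (hs : 0 < s) (i : Fin n) : (c i).Nonempty := by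
  apply nonempty_of_measure_ne_zero (μ := volume)
  rw [hc.vol i]
  have : 0 < s ^ 3 := by positivity
  simpa using this

theorem net_cs {a : V3} {l s : ℝ} {n : ℕ} {c : Fin n → Set V3} (hc : Cells a l s n c)
    (hs : 0 < s) (i : Fin n) {u ρ : V3 → ℝ} (hu : Continuous u) (hρ : Continuous ρ)
    (h : ∀ x, u x ^ 2 ≤ ρ x) : (∫ x in c i, u x) ^ 2 ≤ s ^ 3 * ∫ x in c i, ρ x := by
  have hV : 0 < s ^ 3 := by positivity
  set A : ℝ := ∫ x in c i, u x with hA
  set t : ℝ := A / s ^ 3 with ht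
  have h1 : ∫ x in c i, (2 * t * u x - t ^ 2) ≤ ∫ x in c i, ρ x := by
    apply setIntegral_mono_on (net_intOn (by fun_prop) (hc.sub i)) (net_intOn hρ (hc.sub i))
      (hc.meas i)
    intro x _
    nlinarith [h x, sq_nonneg (u x - t)]
  have h2 : ∫ x in c i, (2 * t * u x - t ^ 2) = 2 * t * A - s ^ 3 * t ^ 2 := by
    rw [integral_sub (net_intOn (f := fun x => 2 * t * u x) (by fun_prop) (hc.sub i))
      (net_intOn (f := fun _ => t ^ 2) (by fun_prop) (hc.sub i)), integral_const_mul,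
      net_const hc hs i]
  have h3 : s ^ 3 * (2 * t * A - s ^ 3 * t ^ 2) = A ^ 2 := by
    rw [ht]; field_simp; ring
  rw [← h3]
  exact mul_le_mul_of_nonneg_left (h2 ▸ h1) hV.le

end T59

open T59 in
theorem st_NET (h1 : St_POI1) (h2 : St_POI2) : St_NET := by
  intro ρ u τ J₀ J a l s r B W Γ E θ h K n c hs hc hρ hρc hρs hρ1 hu hu0 huρ hτ hτ01 hJ₀ hJ hJJ
    hr hrl hB hW hΓ hE hθ0 hθ1 hh hK hτJ hΓτ
  have hV : 0 < s ^ 3 := by positivity
  have hρ0 : ∀ x, 0 ≤ ρ x := fun x => (sq_nonneg _).trans (huρ x)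
  have hρC : Continuous ρ := hρ.continuous
  have hg : Continuous fun x => τ x * J x := hτ.mul hJ
  have hg0 : ∀ x, 0 ≤ τ x * J x := fun x =>
    mul_nonneg (hτ01 x).1.le ((hJJ x).1.trans (hJJ x).2)
  have hR : 0 < r + 2 * s := by positivity
  obtain ⟨hGc, hP1⟩ := h1 ρ (fun x => τ x * J x) a l (r + 2 * s) B hρ hρc hρ0 hρs hg hg0 hR hB
    (fun y hy => hτJ y (ball_subset_ball (by linarith) hy))
  have hP2 := h2 ρ (fun x => τ x * J x) a l s B n c hs hc hρ hρc hρ0 hg hg0 hB hτJ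
  set G : V3 → ℝ := fun x => ∫ y in ball x (r + 2 * s), τ y * J y with hG
  set m : Fin n → ℝ := fun i => ∫ x in c i, ρ x with hm
  set t : Fin n → ℝ := fun i => sInf (τ '' c i) with ht
  have hm0 : ∀ i, 0 ≤ m i := fun i => integral_nonneg hρ0
  have hbdd : ∀ i, BddBelow (τ '' c i) := fun i =>
    ⟨0, by rintro _ ⟨x, _, rfl⟩; exact (hτ01 x).1.le⟩
  have htle : ∀ i, ∀ x ∈ c i, t i ≤ τ x := fun i x hx => csInf_le (hbdd i) ⟨x, hx, rfl⟩
  have hlet : ∀ i (b : ℝ), (∀ x ∈ c i, b ≤ τ x) → b ≤ t i := fun i b hb =>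
    le_csInf ((net_nonempty hc hs i).image τ) (by rintro _ ⟨x, hx, rfl⟩; exact hb x hx)
  have ht0 : ∀ i, 0 ≤ t i := fun i => hlet i 0 fun x _ => (hτ01 x).1.le
  have ht1 : ∀ i, t i ≤ 1 := fun i => by
    obtain ⟨x, hx⟩ := net_nonempty hc hs i
    exact (htle i x hx).trans (hτ01 x).2
  have hcell := fun i => net_cell (s ^ 3) (m i) (∫ x in c i, u x) (t i) θ h K hV (hm0 i)
    (net_cs hc hs i hu hρC huρ) (ht0 i) (ht1 i) hθ0 hθ1 hh hK
  choose j hj1 hj2 using hcell
  refine ⟨j, ?_, ?_⟩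
  · refine le_trans ?_ (mul_le_mul_of_nonneg_left hP2 (sq_nonneg θ))
    rw [Finset.mul_sum]
    apply Finset.sum_le_sum
    intro i _
    have hI0 : 0 ≤ ∫ y in c i, J₀ y := integral_nonneg fun y => (hJJ y).1
    have hI : t i * ∫ y in c i, J₀ y ≤ ∫ y in c i, τ y * J y := by
      rw [← integral_const_mul]
      apply setIntegral_mono_on (net_intOn (by fun_prop) (hc.sub i)) (net_intOn hg (hc.sub i))
        (hc.meas i)
      intro y hy
      exact mul_le_mul (htle i y hy) (hJJ y).2 (hJJ y).1 (hτ01 y).1.le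
    have hq : 0 ≤ θ ^ 2 * (m i / s ^ 3) := mul_nonneg (sq_nonneg _) (div_nonneg (hm0 i) hV.le)
    calc (h * (j i : ℕ)) ^ 2 * ∫ y in c i, J₀ y
        ≤ θ ^ 2 * (m i / s ^ 3 * t i) * ∫ y in c i, J₀ y :=
          mul_le_mul_of_nonneg_right (hj1 i) hI0
      _ = θ ^ 2 * (m i / s ^ 3) * (t i * ∫ y in c i, J₀ y) := by ring
      _ ≤ θ ^ 2 * (m i / s ^ 3) * ∫ y in c i, τ y * J y := mul_le_mul_of_nonneg_left hI hq
      _ = θ ^ 2 * (m i / s ^ 3 * ∫ y in c i, τ y * J y) := by ring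
  · have hsm : ∑ i, m i = 1 := by rw [← hρ1, net_split hc hρC hρs]
    have hsu : ∫ x, u x = ∑ i, ∫ x in c i, u x := by
      apply net_split hc hu
      intro x hx
      apply hρs x
      have : 0 < u x ^ 2 := by positivity
      exact (this.trans_le (huρ x)).ne'
    have hpt : ∀ i, ∀ x ∈ c i, Γ * (1 - t i) ≤ W * G x + E := by
      intro i x hx
      have hb : 1 - (W * G x + E) / Γ ≤ t i := by
        apply hlet
        intro z hz
        have hsub : ball z r ⊆ ball x (r + 2 * s) := by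
          intro y hy
          rw [mem_ball] at hy ⊢
          have hd : dist z x ≤ 2 * s := by rw [dist_eq_norm]; exact hc.diam i z hz x hx
          linarith [dist_triangle y z x]
        have hmono : ∫ y in ball z r, τ y * J y ≤ G x :=
          setIntegral_mono_set (net_intOn hg (subset_refl _)) (Eventually.of_forall hg0)
            hsub.eventuallyLE
        have h3 := hΓτ z (hc.sub i hz)
        have h4 : Γ * (1 - τ z) ≤ W * G x + E :=
          h3.trans (by linarith [mul_le_mul_of_nonneg_left hmono hW])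
        have h5 : 1 - τ z ≤ (W * G x + E) / Γ := by
          rw [le_div_iff₀ hΓ]; linarith
        linarith
      have h6 : 1 - t i ≤ (W * G x + E) / Γ := by linarith
      rw [le_div_iff₀ hΓ] at h6
      linarith
    have hρG : Continuous fun x => ρ x * G x := hρC.mul hGc
    have hY1 : ∀ i, Γ * (m i * (1 - t i)) ≤ W * (∫ x in c i, ρ x * G x) + E * m i := by
      intro i
      have e1 : Γ * (m i * (1 - t i)) = ∫ x in c i, Γ * (1 - t i) * ρ x := by
        rw [integral_const_mul]; ring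
      have e2 : W * (∫ x in c i, ρ x * G x) + E * m i =
          ∫ x in c i, (W * (ρ x * G x) + E * ρ x) := by
        rw [integral_add (net_intOn (f := fun x => W * (ρ x * G x)) (by fun_prop) (hc.sub i))
          (net_intOn (f := fun x => E * ρ x) (by fun_prop) (hc.sub i)), integral_const_mul,
          integral_const_mul]
      rw [e1, e2]
      apply setIntegral_mono_on (net_intOn (by fun_prop) (hc.sub i))
        (net_intOn (by fun_prop) (hc.sub i)) (hc.meas i)
      intro x hx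
      nlinarith [mul_le_mul_of_nonneg_right (hpt i x hx) (hρ0 x)]
    have hsG : ∫ x, ρ x * G x = ∑ i, ∫ x in c i, ρ x * G x :=
      net_split hc hρG fun x hx => hρs x (left_ne_zero_of_mul hx)
    set Y : ℝ := ∑ i, m i * (1 - t i) with hY
    have hY0 : 0 ≤ Y := Finset.sum_nonneg fun i _ => mul_nonneg (hm0 i) (by linarith [ht1 i])
    have hY2 : Y ≤ ((2 * (r + 2 * s)) ^ 3 * W * ((∫ x, ρ x * (τ x * J x)) +
        B * (r + 2 * s) * ∫ x, ‖fderiv ℝ ρ x‖) + E) / Γ := by
      rw [le_div_iff₀ hΓ]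
      have h7 : Γ * Y ≤ W * (∫ x, ρ x * G x) + E := by
        rw [hY, Finset.mul_sum, hsG, Finset.mul_sum]
        calc ∑ i, Γ * (m i * (1 - t i))
            ≤ ∑ i, (W * (∫ x in c i, ρ x * G x) + E * m i) := Finset.sum_le_sum fun i _ => hY1 i
          _ = ∑ i, W * (∫ x in c i, ρ x * G x) + E := by
            rw [Finset.sum_add_distrib, ← Finset.mul_sum (s := Finset.univ) (f := m), hsm, mul_one]
      have h8 := mul_le_mul_of_nonneg_left hP1 hW
      calc Y * Γ = Γ * Y := mul_comm _ _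
        _ ≤ W * (∫ x, ρ x * G x) + E := h7
        _ ≤ W * ((2 * (r + 2 * s)) ^ 3 * ((∫ x, ρ x * (τ x * J x)) +
              B * (r + 2 * s) * ∫ x, ‖fderiv ℝ ρ x‖)) + E := by linarith
        _ = _ := by ring
    have hl3 : 0 ≤ 64 * l ^ 3 := le_trans (by positivity) hc.card
    have hCS : ∑ i, √(s ^ 3 * (m i * (1 - t i))) ≤
        √(64 * l ^ 3 * (((2 * (r + 2 * s)) ^ 3 * W * ((∫ x, ρ x * (τ x * J x)) +
          B * (r + 2 * s) * ∫ x, ‖fderiv ℝ ρ x‖) + E) / Γ)) := by
      apply Real.le_sqrt_of_sq_le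
      calc (∑ i, √(s ^ 3 * (m i * (1 - t i)))) ^ 2
          ≤ (Finset.univ : Finset (Fin n)).card * ∑ i, √(s ^ 3 * (m i * (1 - t i))) ^ 2 :=
            sq_sum_le_card_mul_sum_sq
        _ = n * s ^ 3 * Y := by
            rw [Finset.card_univ, Fintype.card_fin, hY, mul_assoc, Finset.mul_sum (a := s ^ 3)]
            congr 1
            apply Finset.sum_congr rfl
            intro i _
            exact Real.sq_sqrt (mul_nonneg hV.le (mul_nonneg (hm0 i) (by linarith [ht1 i])))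
        _ ≤ 64 * l ^ 3 * Y := mul_le_mul_of_nonneg_right hc.card hY0
        _ ≤ _ := mul_le_mul_of_nonneg_left hY2 hl3
    have hsum := Finset.sum_le_sum fun i (_ : i ∈ (Finset.univ : Finset (Fin n))) => hj2 i
    rw [Finset.sum_sub_distrib, Finset.sum_sub_distrib, Finset.sum_sub_distrib, ← Finset.mul_sum,
      ← hsu, ← Finset.sum_div, hsm, ← Finset.mul_sum, Finset.sum_const, Finset.card_univ,
      Fintype.card_fin, nsmul_eq_mul] at hsum
    have hn : s ^ 3 * ((n : ℝ) * h) ≤ 64 * l ^ 3 * h := by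
      rw [← mul_assoc, mul_comm (s ^ 3)]; exact mul_le_mul_of_nonneg_right hc.card hh.le
    rw [Finset.mul_sum]
    linarith

end Pool.Agent.Lib.LS
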