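import Pool.Agent.Lib.LS.Base

/-! Row `PARS`: Parseval's identity on the torus for a function with small support. -/

set_option autoImplicit false

open MeasureTheory Filter Topology Metric Set UnitAddTorus
open scoped ComplexConjugate InnerProductSpace ContDiff

namespace Pool.Agent.Lib.LS

open Pool.Agent.Lib.MP_791321_mp

namespace T50

theorem unit (G : (Fin 3 → ℝ) → ℂ) (hG : Measurable G) (C : ℝ) (hC : ∀ y, ‖G y‖ ≤ C)
    (b : Fin 3 → ℝ) (h0 : ∀ y, G y ≠ 0 → ∀ i, y i ∈ Ioc (b i) (b i + 1)) :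
    HasSum (fun z : Fin 3 → ℤ => ‖∫ y : Fin 3 → ℝ, mFourier z (fun i => y i) * G y‖ ^ 2)
      (∫ y, ‖G y‖ ^ 2) := by
  letI : MeasureSpace UnitAddCircle := ⟨AddCircle.haarAddCircle⟩
  haveI : IsProbabilityMeasure (volume : Measure UnitAddCircle) :=
    inferInstanceAs (IsProbabilityMeasure AddCircle.haarAddCircle)
  let F : UnitAddTorus (Fin 3) → ℂ := fun t => G (measurableEquivPiIoc b t).1
  have hm : Measurable F :=
    hG.comp (measurable_subtype_coe.comp (measurableEquivPiIoc b).measurable)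
  have hF : MemLp F 2 volume :=
    MemLp.of_bound hm.aestronglyMeasurable C (Eventually.of_forall fun t => hC _)
  have hB : MeasurableSet {x : Fin 3 → ℝ | ∀ i, x i ∈ Ioc (b i) (b i + 1)} :=
    MeasurableSet.univ_pi' fun i => measurableSet_Ioc
  have e : ∀ x ∈ {x : Fin 3 → ℝ | ∀ i, x i ∈ Ioc (b i) (b i + 1)}, F (fun i => x i) = G x :=
    fun x hx => congrArg (fun u => G u.1) ((measurableEquivPiIoc b).apply_symm_apply ⟨x, hx⟩)
  have z : ∀ x ∉ {x : Fin 3 → ℝ | ∀ i, x i ∈ Ioc (b i) (b i + 1)}, G x = 0 :=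
    fun x hx => by_contra fun h => hx (h0 x h)
  have h := (Equiv.neg (Fin 3 → ℤ)).hasSum_iff.2 (hasSum_sq_mFourierCoeff (hF.toLp F))
  have e1 : ∫ t, ‖(hF.toLp F) t‖ ^ 2 = ∫ y, ‖G y‖ ^ 2 := by
    rw [integral_congr_ae (hF.coeFn_toLp.mono fun t ht => by beta_reduce; rw [ht])]
    refine (integral_preimage (fun t => ‖F t‖ ^ 2) b).trans ?_
    rw [setIntegral_congr_fun hB fun x hx => by beta_reduce; rw [e x hx]]
    exact setIntegral_eq_integral_of_forall_compl_eq_zero fun x hx => by simp [z x hx]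
  have e2 : ∀ n : Fin 3 → ℤ, mFourierCoeff (hF.toLp F) (-n) =
      ∫ y : Fin 3 → ℝ, mFourier n (fun i => y i) * G y := fun n => by
    have : mFourierCoeff (hF.toLp F) (-n) = mFourierCoeff F (-n) :=
      integral_congr_ae (hF.coeFn_toLp.mono fun t ht => by beta_reduce; rw [ht])
    rw [this, mFourierCoeff_eq_integral F _ b, neg_neg,
      setIntegral_congr_fun hB fun x hx => by beta_reduce; rw [e x hx]]
    exact setIntegral_eq_integral_of_forall_compl_eq_zero fun x hx => by simp [z x hx]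
  rw [← e1]
  simp only [← e2]
  exact h

theorem scale {E : Type} [NormedAddCommGroup E] [NormedSpace ℝ E] (h : V3 → E) {L : ℝ}
    (hL : 0 < L) : ∫ x, h x = L ^ 3 • ∫ y : Fin 3 → ℝ, h (L • WithLp.toLp 2 y) := by
  have e : ∫ y : Fin 3 → ℝ, h (L • WithLp.toLp 2 y) = ∫ x : V3, h (L • x) :=
    (PiLp.volume_preserving_toLp (Fin 3)).integral_comp
      (MeasurableEquiv.toLp 2 _).measurableEmbedding fun x => h (L • x)
  rw [e, Measure.integral_comp_smul, finrank_euclideanSpace_fin, abs_of_pos (by positivity),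
    smul_smul, mul_inv_cancel₀ (by positivity), one_smul]

theorem phase {L : ℝ} (hL : 0 < L) (z : Fin 3 → ℤ) (y : Fin 3 → ℝ) :
    Complex.exp (Complex.I * (inner ℝ (mom L z) (L • WithLp.toLp 2 y) : ℝ)) =
      mFourier z (fun i => y i) := by
  have h : (L : ℂ) ≠ 0 := by exact_mod_cast hL.ne'
  simp only [mFourier, ContinuousMap.coe_mk, fourier_coe_apply, ← Complex.exp_sum, mom,
    PiLp.inner_apply, PiLp.smul_apply, smul_eq_mul, RCLike.inner_apply, conj_trivial]
  push_cast
  rw [Finset.mul_sum]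
  congr 1
  exact Finset.sum_congr rfl fun i _ => by field_simp

end T50

open T50 in
theorem st_PARS : St_PARS := by
  intro L r a g hL hr hg h0
  have hc : HasCompactSupport g :=
    HasCompactSupport.intro (isCompact_closedBall a r) fun x hx =>
      by_contra fun h => hx (ball_subset_closedBall (h0 x h))
  obtain ⟨C, hC⟩ := hg.bounded_above_of_compact_support hc
  have h := unit (fun y => (g (L • WithLp.toLp 2 y) : ℂ)) (by fun_prop) C
    (fun y => by simpa using hC _) (fun i => a i / L - 1 / 2) fun y hy i => by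
      have h1 := h0 _ (by simpa using hy)
      have h2 := (PiLp.dist_apply_le (L • WithLp.toLp 2 y) a i).trans_lt (h1.trans hr)
      rw [Real.dist_eq, abs_lt] at h2
      simp only [PiLp.smul_apply, smul_eq_mul] at h2
      have h3 : a i / L * L = a i := by field_simp
      constructor <;> nlinarith [h2.1, h2.2]
  have h2 := h.mul_left ((L ^ 3) ^ 2)
  have e1 : L ^ 3 * ∫ x, g x ^ 2 =
      (L ^ 3) ^ 2 * ∫ y : Fin 3 → ℝ, ‖(g (L • WithLp.toLp 2 y) : ℂ)‖ ^ 2 := by
    rw [scale _ hL]
    simp only [Complex.norm_real, Real.norm_eq_abs, sq_abs, smul_eq_mul]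
    ring
  rw [e1]
  refine h2.congr_fun fun z => ?_
  rw [scale _ hL, norm_smul, mul_pow, Real.norm_eq_abs, sq_abs]
  simp only [phase hL, mul_comm]

end Pool.Agent.Lib.LS
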