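import Pool.Agent.Lib.LS.SDefs

set_option autoImplicit false

open MeasureTheory Filter Topology Metric

namespace Pool.Agent.Lib.LS

open Pool.Agent.Lib.MP_791321_mp

namespace T97

theorem grad_cont {ρ : V3 → ℝ} (hρ : ContDiff ℝ 1 ρ) : Continuous fun x => ‖fderiv ℝ ρ x‖ :=
  (hρ.continuous_fderiv (by norm_num)).norm

theorem grad_int {ρ : V3 → ℝ} (hρ : ContDiff ℝ 1 ρ) (hc : HasCompactSupport ρ) :
    Integrable fun x => ‖fderiv ℝ ρ x‖ :=
  (grad_cont hρ).integrable_of_hasCompactSupport (hc.fderiv ℝ).norm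

theorem seg_le {ρ : V3 → ℝ} (hρ : ContDiff ℝ 1 ρ) (x h : V3) :
    |ρ x - ρ (x + h)| ≤ ∫ t in Set.Ioc (0 : ℝ) 1, ‖h‖ * ‖fderiv ℝ ρ (x + t • h)‖ := by
  have hd : ∀ t : ℝ, HasDerivAt (fun t : ℝ => ρ (x + t • h)) (fderiv ℝ ρ (x + t • h) h) t := by
    intro t
    have h1 : HasDerivAt (fun t : ℝ => x + t • h) h t := by
      simpa using ((hasDerivAt_id t).smul_const h).const_add x
    exact ((hρ.differentiable (by norm_num)) _).hasFDerivAt.comp_hasDerivAt t h1
  have hline : Continuous fun t : ℝ => x + t • h := by fun_prop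
  have hcf : Continuous fun t : ℝ => fderiv ℝ ρ (x + t • h) :=
    (hρ.continuous_fderiv (by norm_num)).comp hline
  have hcont : Continuous fun t : ℝ => fderiv ℝ ρ (x + t • h) h :=
    hcf.clm_apply continuous_const
  have hftc := intervalIntegral.integral_eq_sub_of_hasDerivAt (a := 0) (b := 1)
    (fun t _ => hd t) (hcont.intervalIntegrable 0 1)
  have h01 : (0 : ℝ) ≤ 1 := zero_le_one
  have he : ρ (x + h) - ρ x = ∫ t in Set.Ioc (0 : ℝ) 1, fderiv ℝ ρ (x + t • h) h := by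
    rw [← intervalIntegral.integral_of_le h01, hftc]
    simp
  rw [abs_sub_comm, he]
  refine (abs_integral_le_integral_abs).trans ?_
  refine integral_mono ?_ ?_ ?_
  · exact (hcont.abs.integrableOn_Icc).mono_set Set.Ioc_subset_Icc_self
  · exact ((continuous_const.mul hcf.norm).integrableOn_Icc).mono_set Set.Ioc_subset_Icc_self
  · intro t
    have := (fderiv ℝ ρ (x + t • h)).le_opNorm h
    rw [Real.norm_eq_abs] at this
    simpa [mul_comm] using this

end T97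

/-- `x ↦ |ρ x - ρ (x + h)|` is integrable. -/
theorem trans_int {ρ : V3 → ℝ} (hρ : ContDiff ℝ 1 ρ) (hc : HasCompactSupport ρ) (h : V3) :
    Integrable fun x => |ρ x - ρ (x + h)| := by
  have hi : Integrable ρ := hρ.continuous.integrable_of_hasCompactSupport hc
  exact (hi.sub (hi.comp_add_right h)).abs

/-- The translation bound `∫ |ρ x - ρ (x + h)| dx ≤ ‖h‖ ∫ ‖∇ρ‖`. -/
theorem trans_le {ρ : V3 → ℝ} (hρ : ContDiff ℝ 1 ρ) (hc : HasCompactSupport ρ) (h : V3) :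
    ∫ x, |ρ x - ρ (x + h)| ≤ ‖h‖ * ∫ x, ‖fderiv ℝ ρ x‖ := by
  have hDc := T97.grad_cont hρ
  have hDi := T97.grad_int hρ hc
  have hF : Continuous fun p : V3 × ℝ => ‖h‖ * ‖fderiv ℝ ρ (p.1 + p.2 • h)‖ :=
    continuous_const.mul (hDc.comp (by fun_prop : Continuous fun p : V3 × ℝ => p.1 + p.2 • h))
  have hin : ∀ t : ℝ, ∫ x, ‖h‖ * ‖fderiv ℝ ρ (x + t • h)‖ = ‖h‖ * ∫ x, ‖fderiv ℝ ρ x‖ := by
    intro t
    rw [integral_const_mul,
      integral_add_right_eq_self (fun x => ‖fderiv ℝ ρ x‖) (t • h)]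
  have hI : Integrable (Function.uncurry fun (x : V3) (t : ℝ) => ‖h‖ * ‖fderiv ℝ ρ (x + t • h)‖)
      ((volume : Measure V3).prod ((volume : Measure ℝ).restrict (Set.Ioc (0 : ℝ) 1))) := by
    refine (integrable_prod_iff' hF.aestronglyMeasurable).2 ⟨?_, ?_⟩
    · exact Eventually.of_forall fun t => (hDi.comp_add_right (t • h)).const_mul ‖h‖
    · have : (fun t : ℝ => ∫ x, ‖‖h‖ * ‖fderiv ℝ ρ (x + t • h)‖‖) =
          fun _ => ‖h‖ * ∫ x, ‖fderiv ℝ ρ x‖ := by
        funext t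
        rw [← hin t]
        refine integral_congr_ae (Eventually.of_forall fun x => ?_)
        exact Real.norm_of_nonneg (mul_nonneg (norm_nonneg _) (norm_nonneg _))
      exact this ▸ integrable_const _
  calc ∫ x, |ρ x - ρ (x + h)|
      ≤ ∫ x, ∫ t in Set.Ioc (0 : ℝ) 1, ‖h‖ * ‖fderiv ℝ ρ (x + t • h)‖ :=
        integral_mono (trans_int hρ hc h) hI.integral_prod_left fun x => T97.seg_le hρ x h
    _ = ∫ t in Set.Ioc (0 : ℝ) 1, ∫ x, ‖h‖ * ‖fderiv ℝ ρ (x + t • h)‖ :=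
        integral_integral_swap hI
    _ = ‖h‖ * ∫ x, ‖fderiv ℝ ρ x‖ := by
        simp only [hin]
        simp

end Pool.Agent.Lib.LS
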