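import Pool.Agent.Lib.LS.Base
import Pool.Agent.Lib.LS.Trans

set_option autoImplicit false

open MeasureTheory Filter Topology Metric

namespace Pool.Agent.Lib.LS

open Pool.Agent.Lib.MP_791321_mp

namespace T97

theorem ball_shift (g : V3 → ℝ) (x : V3) (r : ℝ) :
    ∫ y in ball x r, g y = ∫ h in closedBall (0 : V3) r, g (x + h) := by
  have h1 : ∫ y in ball x r, g y = ∫ h in ball (0 : V3) r, g (x + h) := by
    rw [← integral_indicator measurableSet_ball, ← integral_indicator measurableSet_ball,
      ← integral_add_left_eq_self (fun y => (ball x r).indicator g y) x]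
    refine integral_congr_ae (Eventually.of_forall fun h => ?_)
    have hm : x + h ∈ ball x r ↔ h ∈ ball (0 : V3) r := by
      simp [mem_ball, dist_eq_norm]
    by_cases hh : h ∈ ball (0 : V3) r
    · simp only [Set.indicator_of_mem hh, Set.indicator_of_mem (hm.2 hh)]
    · simp only [Set.indicator_of_notMem hh, Set.indicator_of_notMem (fun k => hh (hm.1 k))]
  rw [h1]
  refine setIntegral_congr_set ?_
  refine ae_eq_of_subset_of_measure_ge ball_subset_closedBall ?_
    measurableSet_ball.nullMeasurableSet measure_closedBall_lt_top.ne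
  rw [Measure.addHaar_closedBall_eq_addHaar_ball]

theorem vol_le {r : ℝ} (hr : 0 < r) : (volume : Measure V3).real (closedBall (0 : V3) r) ≤ (2 * r) ^ 3 := by
  rw [measureReal_def, EuclideanSpace.volume_closedBall_fin_three, ENNReal.toReal_mul,
    ENNReal.toReal_pow, ENNReal.toReal_ofReal hr.le, ENNReal.toReal_ofReal (by positivity)]
  have h4 := Real.pi_le_four
  have h3 : 0 < r ^ 3 := by positivity
  nlinarith

end T97

theorem st_POI1 : St_POI1 := by
  intro ρ g a l r M hρ hc hρ0 hsup hg hg0 hr hM hgM
  have hρc := hρ.continuous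
  have hK : IsCompact (closedBall (0 : V3) r) := isCompact_closedBall 0 r
  have hKm : MeasurableSet (closedBall (0 : V3) r) := measurableSet_closedBall
  have hga : Continuous fun p : V3 × V3 => g (p.1 + p.2) :=
    hg.comp (continuous_fst.add continuous_snd)
  simp only [T97.ball_shift g]
  refine ⟨continuous_parametric_integral_of_continuous (f := fun x h => g (x + h)) hga hK, ?_⟩
  set G : ℝ := ∫ x, ‖fderiv ℝ ρ x‖ with hG
  set C : ℝ := (∫ x, ρ x * g x) + M * r * G with hC
  have hG0 : 0 ≤ G := integral_nonneg fun x => norm_nonneg _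
  have hC0 : 0 ≤ C :=
    add_nonneg (integral_nonneg fun x => mul_nonneg (hρ0 x) (hg0 x)) (by positivity)
  have hρg : Integrable fun x => ρ x * g x :=
    (hρc.mul hg).integrable_of_hasCompactSupport hc.mul_right
  have hFi : ∀ h : V3, Integrable fun x => ρ x * g (x + h) := fun h =>
    (hρc.mul (hg.comp (continuous_id.add continuous_const))).integrable_of_hasCompactSupport
      hc.mul_right
  have hle : ∀ h ∈ closedBall (0 : V3) r, ∫ x, ρ x * g (x + h) ≤ C := by
    intro h hh
    have hn : ‖h‖ ≤ r := by simpa using hh
    have h1 : ∫ x, ρ x * g (x + h) ≤ ∫ x, (ρ (x + h) * g (x + h) + M * |ρ x - ρ (x + h)|) := by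
      refine integral_mono (hFi h) ((hρg.comp_add_right h).add ((trans_int hρ hc h).const_mul M))
        fun x => ?_
      have a1 := hρ0 (x + h)
      have a2 := hg0 (x + h)
      have a3 := abs_nonneg (ρ x - ρ (x + h))
      by_cases hx : ρ x = 0
      · have : 0 ≤ ρ (x + h) * g (x + h) + M * |ρ x - ρ (x + h)| := by positivity
        simpa [hx] using this
      · have hxb := hsup x hx
        have hy : x + h ∈ ball a (l + r) := by
          rw [mem_ball, dist_eq_norm] at hxb ⊢
          have e : x + h - a = (x - a) + h := by abel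
          rw [e]
          exact (norm_add_le _ _).trans_lt (by linarith)
        have a4 := hgM _ hy
        have a5 := le_abs_self (ρ x - ρ (x + h))
        show ρ x * g (x + h) ≤ ρ (x + h) * g (x + h) + M * |ρ x - ρ (x + h)|
        nlinarith [mul_le_mul_of_nonneg_right a5 a2, mul_le_mul_of_nonneg_left a4 a3]
    rw [integral_add (hρg.comp_add_right h) ((trans_int hρ hc h).const_mul M), integral_const_mul,
      integral_add_right_eq_self (fun x => ρ x * g x) h] at h1
    have h2 := trans_le hρ hc h
    have h3 : ‖h‖ * G ≤ r * G := mul_le_mul_of_nonneg_right hn hG0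
    have h4 : M * ∫ x, |ρ x - ρ (x + h)| ≤ M * (r * G) :=
      mul_le_mul_of_nonneg_left (h2.trans h3) hM
    rw [hC]
    linarith
  have hF : Continuous fun p : V3 × V3 => ρ p.1 * g (p.1 + p.2) :=
    (hρc.comp continuous_fst).mul hga
  have : IsFiniteMeasure ((volume : Measure V3).restrict (closedBall (0 : V3) r)) :=
    isFiniteMeasure_restrict.2 measure_closedBall_lt_top.ne
  have hI : Integrable (Function.uncurry fun (x h : V3) => ρ x * g (x + h))
      ((volume : Measure V3).prod ((volume : Measure V3).restrict (closedBall (0 : V3) r))) := by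
    refine (integrable_prod_iff' hF.aestronglyMeasurable).2
      ⟨Eventually.of_forall fun h => hFi h, ?_⟩
    refine Integrable.mono' (integrable_const C)
      (hF.aestronglyMeasurable.norm.prod_swap.integral_prod_right') ?_
    refine (ae_restrict_iff' hKm).2 (Eventually.of_forall fun h hh => ?_)
    have e : ∫ x, ‖ρ x * g (x + h)‖ = ∫ x, ρ x * g (x + h) :=
      integral_congr_ae (Eventually.of_forall fun x =>
        Real.norm_of_nonneg (mul_nonneg (hρ0 x) (hg0 _)))
    show ‖∫ x, ‖ρ x * g (x + h)‖‖ ≤ C
    rw [Real.norm_of_nonneg (integral_nonneg fun x => norm_nonneg _), e]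
    exact hle h hh
  calc ∫ x, ρ x * ∫ h in closedBall (0 : V3) r, g (x + h)
      = ∫ x, ∫ h in closedBall (0 : V3) r, ρ x * g (x + h) := by
        simp only [integral_const_mul]
    _ = ∫ h in closedBall (0 : V3) r, ∫ x, ρ x * g (x + h) := integral_integral_swap hI
    _ ≤ ∫ _h in closedBall (0 : V3) r, C :=
        setIntegral_mono_on hI.integral_prod_right (integrable_const C) hKm hle
    _ = (volume : Measure V3).real (closedBall (0 : V3) r) * C := by
        rw [setIntegral_const, smul_eq_mul]
    _ ≤ (2 * r) ^ 3 * C := mul_le_mul_of_nonneg_right (T97.vol_le hr) hC0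

end Pool.Agent.Lib.LS
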