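import Pool.Agent.Lib.LS.Base

set_option autoImplicit false

open MeasureTheory Filter Topology Metric Set
open scoped ENNReal

namespace Pool.Agent.Lib.LS

open Pool.Agent.Lib.MP_791321_mp

namespace T66

theorem trans_l {ρ : V3 → ℝ} (hρ : ContDiff ℝ 1 ρ) (h : V3) :
    ∫⁻ y, ‖ρ (y + h) - ρ y‖ₑ ≤ ‖h‖ₑ * ∫⁻ x, ‖fderiv ℝ ρ x‖ₑ := by
  have hD : Continuous (fderiv ℝ ρ) := hρ.continuous_fderiv one_ne_zero
  have h1 : ∀ y, ‖ρ (y + h) - ρ y‖ₑ ≤
      ∫⁻ t in Icc (0 : ℝ) 1, ‖h‖ₑ * ‖fderiv ℝ ρ (y + t • h)‖ₑ := fun y => by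
    have hc : ContDiff ℝ 1 fun t : ℝ => ρ (y + t • h) := hρ.comp (by fun_prop)
    have := enorm_sub_le_lintegral_deriv_of_contDiffOn_Icc (a := 0) (b := 1) hc.contDiffOn
      zero_le_one
    simp only [one_smul, zero_smul, add_zero] at this
    refine this.trans (lintegral_mono fun t => ?_)
    have hd : HasDerivAt (fun t : ℝ => ρ (y + t • h)) (fderiv ℝ ρ (y + t • h) h) t := by
      have h2 : HasDerivAt (fun t : ℝ => y + t • h) h t := by
        simpa using ((hasDerivAt_id t).smul_const h).const_add y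
      exact (hρ.differentiable one_ne_zero _).hasFDerivAt.comp_hasDerivAt t h2
    rw [hd.deriv, mul_comm]
    exact ContinuousLinearMap.le_opENorm _ _
  refine (lintegral_mono h1).trans (le_of_eq ?_)
  rw [lintegral_lintegral_swap (by fun_prop)]
  have h3 : ∀ t : ℝ, ∫⁻ y, ‖h‖ₑ * ‖fderiv ℝ ρ (y + t • h)‖ₑ = ‖h‖ₑ * ∫⁻ x, ‖fderiv ℝ ρ x‖ₑ :=
    fun t => by
      rw [lintegral_const_mul' _ _ enorm_ne_top,
        lintegral_add_right_eq_self (fun x => ‖fderiv ℝ ρ x‖ₑ) (t • h)]
  simp [h3]

/-- translations in `L¹` -/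
theorem trans_le {ρ : V3 → ℝ} (hρ : ContDiff ℝ 1 ρ) (hc : HasCompactSupport ρ) (h : V3) :
    ∫ y, ‖ρ (y + h) - ρ y‖ ≤ ‖h‖ * ∫ x, ‖fderiv ℝ ρ x‖ := by
  have hD : Integrable (fderiv ℝ ρ) :=
    (hρ.continuous_fderiv one_ne_zero).integrable_of_hasCompactSupport (hc.fderiv ℝ)
  have hρc := hρ.continuous
  rw [integral_norm_eq_lintegral_enorm (by fun_prop), integral_norm_eq_lintegral_enorm hD.1,
    ← toReal_enorm, ← ENNReal.toReal_mul]
  exact ENNReal.toReal_mono (ENNReal.mul_ne_top enorm_ne_top hD.2.ne) (trans_l hρ h)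

/-- the local oscillation -/
theorem osc {ρ : V3 → ℝ} (hρ : ContDiff ℝ 1 ρ) (hc : HasCompactSupport ρ) {r : ℝ} (hr : 0 ≤ r) :
    Integrable (fun y => ∫ h in closedBall (0 : V3) r, ‖ρ (y + h) - ρ y‖) ∧
    ∫ y, ∫ h in closedBall (0 : V3) r, ‖ρ (y + h) - ρ y‖ ≤
      8 * r ^ 4 * ∫ x, ‖fderiv ℝ ρ x‖ := by
  have hρc := hρ.continuous
  have hi : Integrable ρ := hρc.integrable_of_hasCompactSupport hc
  have hG : 0 ≤ ∫ x, ‖fderiv ℝ ρ x‖ := integral_nonneg fun x => norm_nonneg _
  have hfin : volume (closedBall (0 : V3) r) < ⊤ := measure_closedBall_lt_top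
  have : IsFiniteMeasure (volume.restrict (closedBall (0 : V3) r)) := ⟨by simpa using hfin⟩
  have hb : ∀ᵐ h ∂(volume.restrict (closedBall (0 : V3) r)),
      ‖∫ y, ‖ρ (y + h) - ρ y‖‖ ≤ r * ∫ x, ‖fderiv ℝ ρ x‖ := by
    refine (ae_restrict_mem measurableSet_closedBall).mono fun h hh => ?_
    rw [Real.norm_of_nonneg (integral_nonneg fun y => norm_nonneg _)]
    exact (trans_le hρ hc h).trans
      (mul_le_mul_of_nonneg_right (mem_closedBall_zero_iff.1 hh) hG)
  have hm : Continuous fun p : V3 × V3 => ‖ρ (p.1 + p.2) - ρ p.1‖ := by fun_prop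
  have hI : Integrable (fun p : V3 × V3 => ‖ρ (p.1 + p.2) - ρ p.1‖)
      (volume.prod (volume.restrict (closedBall (0 : V3) r))) := by
    rw [integrable_prod_iff' hm.aestronglyMeasurable]
    refine ⟨ae_of_all _ fun h => ((hi.comp_add_right h).sub hi).norm, ?_⟩
    simp only [norm_norm]
    exact Integrable.mono' (integrable_const _)
      hm.stronglyMeasurable.integral_prod_left'.aestronglyMeasurable hb
  refine ⟨hI.integral_prod_left, ?_⟩
  rw [integral_integral_swap hI]
  refine (le_abs_self _).trans ((norm_integral_le_of_norm_le_const hb).trans ?_)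
  have hv : (volume.restrict (closedBall (0 : V3) r)).real univ ≤ 8 * r ^ 3 := by
    rw [measureReal_restrict_apply_univ, Measure.real, EuclideanSpace.volume_closedBall_fin_three,
      ENNReal.toReal_mul, ENNReal.toReal_pow, ENNReal.toReal_ofReal hr,
      ENNReal.toReal_ofReal (by positivity)]
    nlinarith [Real.pi_le_four, pow_nonneg hr 3]
  refine (mul_le_mul_of_nonneg_left hv (by positivity)).trans (le_of_eq ?_)
  ring

end T66

open T66 in
theorem st_POI2 : St_POI2 := by
  intro ρ g a l s M n c hs hc hρ hcpt h0 hg hg0 hM hgM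
  have hρc := hρ.continuous
  have hi : Integrable ρ := hρc.integrable_of_hasCompactSupport hcpt
  obtain ⟨hFi, hF⟩ := osc hρ hcpt (r := 2 * s) (by positivity)
  set F : V3 → ℝ := fun y => ∫ h in closedBall (0 : V3) (2 * s), ‖ρ (y + h) - ρ y‖ with hFd
  have hF0 : ∀ y, 0 ≤ F y := fun y => integral_nonneg fun h => norm_nonneg _
  have hs3 : 0 < s ^ 3 := by positivity
  have hfin : ∀ i, volume (c i) ≠ ⊤ := fun i => by rw [hc.vol]; exact ENNReal.ofReal_ne_top
  have hmean : ∀ i, ∀ y ∈ c i, ∫ x in c i, ρ x ≤ s ^ 3 * ρ y + F y := fun i y hy => by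
    have hsub : c i ⊆ closedBall y (2 * s) := fun x hx => by
      rw [mem_closedBall, dist_eq_norm]; exact hc.diam i x hx y hy
    have hn : IntegrableOn (fun x => ‖ρ x - ρ y‖) (closedBall y (2 * s)) :=
      (Continuous.continuousOn (by fun_prop)).integrableOn_compact (isCompact_closedBall _ _)
    have hk : IntegrableOn (fun _ : V3 => ρ y) (c i) := integrableOn_const (hfin i)
    have h1 : ∫ x in c i, ρ x ≤ ∫ x in c i, (ρ y + ‖ρ x - ρ y‖) :=
      integral_mono hi.integrableOn (hk.add (hn.mono_set hsub))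
        fun x => by
          have := le_abs_self (ρ x - ρ y)
          simp only [Real.norm_eq_abs]
          linarith
    rw [integral_add hk (hn.mono_set hsub), setIntegral_const,
      Measure.real, hc.vol, ENNReal.toReal_ofReal hs3.le, smul_eq_mul] at h1
    have h2 : ∫ x in c i, ‖ρ x - ρ y‖ ≤ ∫ x in closedBall y (2 * s), ‖ρ x - ρ y‖ :=
      setIntegral_mono_set hn (ae_of_all _ fun x => norm_nonneg _) hsub.eventuallyLE
    have h3 : F y = ∫ x in closedBall y (2 * s), ‖ρ x - ρ y‖ := by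
      rw [hFd, ← integral_indicator measurableSet_closedBall]
      simp only
      rw [← integral_indicator measurableSet_closedBall, ← integral_add_left_eq_self
        (fun x => (closedBall y (2 * s)).indicator (fun x => ‖ρ x - ρ y‖) x) y]
      refine integral_congr_ae (ae_of_all _ fun h => ?_)
      simp only [indicator, mem_closedBall, dist_eq_norm, add_sub_cancel_left, sub_zero]
    linarith
  have hρg : Integrable fun x => ρ x * g x :=
    (hρc.mul hg).integrable_of_hasCompactSupport hcpt.mul_right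
  have hH : Integrable fun y => ρ y * g y + M / s ^ 3 * F y := hρg.add (hFi.const_mul _)
  have hcell : ∀ i, (∫ x in c i, ρ x) / s ^ 3 * ∫ y in c i, g y ≤
      ∫ y in c i, (ρ y * g y + M / s ^ 3 * F y) := fun i => by
    have hgi : IntegrableOn g (c i) :=
      (hg.continuousOn.integrableOn_compact (isCompact_closedBall a (2 * l))).mono_set
        ((hc.sub i).trans ball_subset_closedBall)
    rw [← integral_const_mul]
    refine setIntegral_mono_on (hgi.const_mul _) hH.integrableOn (hc.meas i) fun y hy => ?_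
    have h1 := mul_le_mul_of_nonneg_right (hmean i y hy) (hg0 y)
    have h2 := mul_le_mul_of_nonneg_left (hgM y (hc.sub i hy)) (hF0 y)
    rw [div_mul_eq_mul_div, div_le_iff₀ hs3]
    have e : (ρ y * g y + M / s ^ 3 * F y) * s ^ 3 = s ^ 3 * ρ y * g y + F y * M := by field_simp
    rw [e]
    linarith
  refine (Finset.sum_le_sum fun i _ => hcell i).trans ?_
  rw [← integral_iUnion_fintype hc.meas hc.disj fun i => hH.integrableOn]
  refine (setIntegral_le_integral hH (ae_of_all _ fun y =>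
    add_nonneg (mul_nonneg (h0 y) (hg0 y)) (mul_nonneg (by positivity) (hF0 y)))).trans ?_
  rw [integral_add hρg (hFi.const_mul _), integral_const_mul]
  refine add_le_add le_rfl ((mul_le_mul_of_nonneg_left hF (by positivity)).trans (le_of_eq ?_))
  field_simp
  ring

end Pool.Agent.Lib.LS
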