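import Pool.Agent.Lib.LS.Base

set_option autoImplicit false

open MeasureTheory Filter Topology Metric
open scoped ComplexConjugate InnerProductSpace ContDiff Pointwise

namespace Pool.Agent.Lib.LS

open Pool.Agent.Lib.MP_791321_mp

namespace T4

theorem ball_int {F : Type} [NormedAddCommGroup F] {f : V3 → F} (hf : Continuous f) (x : V3)
    (r : ℝ) : IntegrableOn f (ball x r) :=
  (hf.continuousOn.integrableOn_compact (isCompact_closedBall x r)).mono_set ball_subset_closedBall

theorem vol_ge {r : ℝ} (hr : 0 < r) : r ^ 3 ≤ volume.real (ball (0 : V3) r) := by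
  have hp := Real.pi_gt_three
  rw [Measure.real, EuclideanSpace.volume_ball_fin_three, ENNReal.toReal_mul, ENNReal.toReal_pow,
    ENNReal.toReal_ofReal hr.le, ENNReal.toReal_ofReal (by positivity)]
  have : 0 < r ^ 3 := by positivity
  nlinarith

/-- Cauchy-Schwarz on a ball -/
theorem cs {u : V3 → ℝ} (hu : Continuous u) {r : ℝ} (hr : 0 < r) :
    (∫ h in ball (0 : V3) r, u h) ^ 2 ≤
      volume.real (ball (0 : V3) r) * ∫ h in ball (0 : V3) r, u h ^ 2 := by
  have hv : 0 < volume.real (ball (0 : V3) r) := lt_of_lt_of_le (by positivity) (vol_ge hr)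
  obtain ⟨t, ht⟩ : ∃ t : ℝ, ∫ h in ball (0 : V3) r, u h = t * volume.real (ball (0 : V3) r) :=
    ⟨_, (div_mul_cancel₀ _ hv.ne').symm⟩
  have h0 : 0 ≤ ∫ h in ball (0 : V3) r, (u h ^ 2 - 2 * t * u h + t ^ 2) :=
    integral_nonneg fun h => by
      have := sq_nonneg (u h - t)
      simp only [Pi.zero_apply]
      linarith
  have i1 : IntegrableOn (fun h => u h ^ 2) (ball (0 : V3) r) := ball_int (by fun_prop) 0 r
  have i2 : IntegrableOn (fun h => 2 * t * u h) (ball (0 : V3) r) := ball_int (by fun_prop) 0 r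
  have i3 : IntegrableOn (fun h => u h ^ 2 - 2 * t * u h) (ball (0 : V3) r) := i1.sub i2
  rw [integral_add i3 (ball_int continuous_const 0 r), integral_sub i1 i2, integral_const_mul,
    setIntegral_const, smul_eq_mul, ht] at h0
  rw [ht]
  nlinarith

/-- change of variables -/
theorem cv {F : V3 → ℝ} (hF : Continuous F) (h0 : ∀ y, 0 ≤ F y) (x : V3) {r t R : ℝ}
    (ht : 1 ≤ t) (hR : t * r ≤ R) :
    ∫ h in ball (0 : V3) r, F (x + t • h) ≤ ∫ y in ball x R, F y := by
  have t0 : 0 < t := by linarith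
  have e1 := Measure.setIntegral_comp_smul_of_pos volume (fun y => F (x + y)) (ball (0 : V3) r) t0
  have e2 : t • ball (0 : V3) r = (fun y => x + y) ⁻¹' ball x (t * r) := by
    rw [_root_.smul_ball t0.ne', smul_zero, Real.norm_of_nonneg t0.le]
    ext y
    simp
  have e3 := (measurePreserving_add_left (volume : Measure V3) x).setIntegral_preimage_emb
    (measurableEmbedding_addLeft x) F (ball x (t * r))
  rw [e1, e2, e3, smul_eq_mul]
  have a0 : 0 ≤ ∫ y in ball x (t * r), F y := integral_nonneg h0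
  have a1 : ∫ y in ball x (t * r), F y ≤ ∫ y in ball x R, F y :=
    setIntegral_mono_set (ball_int hF x R) (Eventually.of_forall h0)
      (ball_subset_ball hR).eventuallyLE
  have a2 : (t ^ Module.finrank ℝ V3)⁻¹ ≤ 1 := inv_le_one_of_one_le₀ (one_le_pow₀ ht)
  nlinarith

/-- the character -/
noncomputable def ex (k x : V3) : ℂ := Complex.exp (Complex.I * (inner ℝ k x : ℝ))

theorem ex_cont (k : V3) : Continuous (ex k) := by
  unfold ex
  fun_prop

theorem ex_add (k x h : V3) (j : ℕ) : ex k (x + (j : ℝ) • h) = ex k x * ex k h ^ j := by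
  unfold ex
  rw [inner_add_right, real_inner_smul_right, ← Complex.exp_nat_mul, ← Complex.exp_add]
  congr 1
  push_cast
  ring

theorem ex_le (k h : V3) : ‖1 - ex k h‖ ≤ ‖k‖ * ‖h‖ := by
  rw [norm_sub_rev]
  exact Real.norm_exp_I_mul_ofReal_sub_one_le.trans (norm_inner_le_norm (𝕜 := ℝ) k h)

variable {I : Type} [Fintype I]

theorem binom (k : I → V3) (c : I → ℂ) (x h : V3) (M : ℕ) :
    fld k (fun m => c m * (1 - ex (k m) h) ^ M) x =
      ∑ j ∈ Finset.range (M + 1), (-1) ^ j * (M.choose j : ℝ) * fld k c (x + (j : ℝ) • h) := by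
  have e : ∀ j : ℕ, (-1) ^ j * (M.choose j : ℝ) * fld k c (x + (j : ℝ) • h) =
      (∑ m, (((-1) ^ j * (M.choose j : ℝ) : ℝ) : ℂ) * (c m * ex (k m) (x + (j : ℝ) • h))).re := by
    intro j
    rw [← Finset.mul_sum, Complex.re_ofReal_mul]
    rfl
  simp only [e]
  rw [← Complex.re_sum, Finset.sum_comm, fld]
  congr 1
  refine Finset.sum_congr rfl fun m _ => ?_
  change c m * (1 - ex (k m) h) ^ M * ex (k m) x = _
  rw [sub_eq_neg_add, add_pow, Finset.mul_sum, Finset.sum_mul]
  refine Finset.sum_congr rfl fun j _ => ?_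
  rw [ex_add, neg_pow]
  push_cast
  ring

theorem avg (k : I → V3) (c : I → ℂ) (x : V3) (M : ℕ) (r w : ℝ) :
    fld k (fun m => c m * ((w : ℂ) * ∫ h in ball (0 : V3) r, (1 - ex (k m) h) ^ M)) x =
      w * ∫ h in ball (0 : V3) r, fld k (fun m => c m * (1 - ex (k m) h) ^ M) x := by
  have hc : ∀ m, Continuous fun h => c m * (1 - ex (k m) h) ^ M * ex (k m) x := fun m =>
    (continuous_const.mul ((continuous_const.sub (ex_cont _)).pow M)).mul continuous_const
  have e1 := Complex.reCLM.integral_comp_comm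
    (ball_int (continuous_finsetSum Finset.univ fun m _ => hc m) 0 r)
  simp only [Complex.reCLM_apply] at e1
  change (∑ m, c m * ((w : ℂ) * ∫ h in ball (0 : V3) r, (1 - ex (k m) h) ^ M) * ex (k m) x).re =
    w * ∫ h in ball (0 : V3) r, (∑ m, c m * (1 - ex (k m) h) ^ M * ex (k m) x).re
  rw [e1, integral_finsetSum _ fun m _ => ball_int (hc m) 0 r, ← Complex.re_ofReal_mul,
    Finset.mul_sum]
  congr 1
  refine Finset.sum_congr rfl fun m _ => ?_
  rw [integral_mul_const, integral_const_mul]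
  ring

end T4

open T4

theorem st_REP : St_REP := by
  intro M r hr
  have hv3 := vol_ge hr
  have r3 : 0 < r ^ 3 := by positivity
  have hv : 0 < volume.real (ball (0 : V3) r) := lt_of_lt_of_le r3 hv3
  refine ⟨fun k => (((volume.real (ball (0 : V3) r))⁻¹ : ℝ) : ℂ) *
    ∫ h in ball (0 : V3) r, (1 - ex k h) ^ M, fun k => ?_, fun I _ k c x => ?_⟩
  · have a : ‖∫ h in ball (0 : V3) r, (1 - ex k h) ^ M‖ ≤
        (‖k‖ * r) ^ M * volume.real (ball (0 : V3) r) :=
      norm_setIntegral_le_of_norm_le_const measure_ball_lt_top fun h hh => by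
        rw [norm_pow]
        refine pow_le_pow_left₀ (norm_nonneg _) ((ex_le k h).trans ?_) M
        exact mul_le_mul_of_nonneg_left (mem_ball_zero_iff.1 hh).le (norm_nonneg _)
    rw [norm_mul, Complex.norm_real, Real.norm_of_nonneg (inv_nonneg.2 hv.le),
      inv_mul_le_iff₀ hv]
    linarith
  have hf := fld_cont k c
  have hj : ∀ t : ℝ, Continuous fun h : V3 => fld k c (x + t • h) := fun t =>
    hf.comp (continuous_const.add (continuous_id.const_smul t))
  obtain ⟨Q, hQ⟩ : ∃ Q, Q = ∫ y in ball x (M * r), fld k c y ^ 2 := ⟨_, rfl⟩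
  have Q0 : 0 ≤ Q := hQ ▸ integral_nonneg fun y => sq_nonneg _
  obtain ⟨v, hvv⟩ : ∃ v, v = volume.real (ball (0 : V3) r) := ⟨_, rfl⟩
  have key : ∀ j ∈ Finset.range M,
      |v⁻¹ * ∫ h in ball (0 : V3) r, fld k c (x + ((j + 1 : ℕ) : ℝ) • h)| ≤ √(Q / r ^ 3) := by
    intro j hj'
    have j1 : ((j + 1 : ℕ) : ℝ) ≤ M := by exact_mod_cast Finset.mem_range.1 hj'
    have a := cs (hj ((j + 1 : ℕ) : ℝ)) hr
    have b := cv (F := fun y => fld k c y ^ 2) (hf.pow 2) (fun y => sq_nonneg _) x (r := r)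
      (t := ((j + 1 : ℕ) : ℝ)) (R := M * r) (by exact_mod_cast Nat.le_add_left 1 j)
      (mul_le_mul_of_nonneg_right j1 hr.le)
    rw [← hQ] at b
    rw [← hvv] at a hv hv3
    refine Real.abs_le_sqrt ?_
    have d := a.trans (mul_le_mul_of_nonneg_left b hv.le)
    calc _ ≤ v⁻¹ ^ 2 * (v * Q) := by
          rw [mul_pow]
          exact mul_le_mul_of_nonneg_left d (sq_nonneg _)
      _ = Q / v := by field_simp
      _ ≤ Q / r ^ 3 := by gcongr
  rw [avg, ← hQ, ← hvv]
  simp only [binom]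
  have ij : ∀ j : ℕ, IntegrableOn (fun h : V3 => (-1) ^ j * (M.choose j : ℝ) *
      fld k c (x + (j : ℝ) • h)) (ball (0 : V3) r) := fun j =>
    ball_int (continuous_const.mul (hj _)) 0 r
  rw [integral_finsetSum _ fun j _ => ij j, Finset.sum_range_succ']
  simp only [integral_const_mul]
  have e0 : ∫ h in ball (0 : V3) r, fld k c (x + ((0 : ℕ) : ℝ) • h) = v * fld k c x := by
    simp [hvv]
  rw [← hvv] at hv
  rw [e0, mul_add, Finset.mul_sum]
  have e1 : v⁻¹ * ((-1) ^ 0 * (M.choose 0 : ℝ) * (v * fld k c x)) = fld k c x := by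
    simp only [pow_zero, Nat.choose_zero_right, Nat.cast_one, one_mul]
    field_simp
  rw [e1, sub_add_cancel_right, neg_sq]
  have s1 : ∑ j ∈ Finset.range M, (M.choose (j + 1) : ℝ) ≤ 2 ^ M := by
    have := Nat.sum_range_choose M
    rw [Finset.sum_range_succ'] at this
    exact_mod_cast (Nat.le_add_right _ _).trans this.le
  have s2 : |∑ j ∈ Finset.range M, v⁻¹ * ((-1) ^ (j + 1) * (M.choose (j + 1) : ℝ) *
      ∫ h in ball (0 : V3) r, fld k c (x + ((j + 1 : ℕ) : ℝ) • h))| ≤ 2 ^ M * √(Q / r ^ 3) := by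
    refine (Finset.abs_sum_le_sum_abs _ _).trans (le_trans ?_
      (mul_le_mul_of_nonneg_right s1 (Real.sqrt_nonneg _)))
    rw [Finset.sum_mul]
    refine Finset.sum_le_sum fun j hj' => ?_
    rw [mul_left_comm, abs_mul, abs_mul, abs_pow, abs_neg, abs_one, one_pow, one_mul,
      Nat.abs_cast]
    exact mul_le_mul_of_nonneg_left (key j hj') (Nat.cast_nonneg _)
  have s3 := pow_le_pow_left₀ (abs_nonneg _) s2 2
  rw [sq_abs, mul_pow, Real.sq_sqrt (by positivity), ← pow_mul, mul_comm M 2, pow_mul] at s3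
  refine s3.trans (le_of_eq ?_)
  norm_num
  ring

end Pool.Agent.Lib.LS
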