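import Pool.Agent.Lib.LS.Base

set_option autoImplicit false

open MeasureTheory Filter Topology Metric
open scoped ContDiff

namespace Pool.Agent.Lib.LS

open Pool.Agent.Lib.MP_791321_mp

namespace T84

theorem int_smul (f : V3 → ℝ) {c : ℝ} (hc : 0 < c) : ∫ x, f (c • x) = (∫ x, f x) / c ^ 3 := by
  rw [Measure.integral_comp_smul, finrank_euclideanSpace_fin, abs_of_pos (by positivity),
    smul_eq_mul, inv_mul_eq_div]

theorem dil {u : V3 → ℝ} (hu : Adm u) {a c : ℝ} (ha : 0 < a) (hc : 0 < c) :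
    ∃ v : V3 → ℝ, Adm v ∧ (∀ x ∈ tsupport v, c • x ∈ tsupport u) ∧
      ∫ x, v x ^ 2 = a ^ 2 / c ^ 3 * ∫ x, u x ^ 2 ∧
      ∫ x, ‖fderiv ℝ v x‖ ^ 2 = a ^ 2 / c * ∫ x, ‖fderiv ℝ u x‖ ^ 2 ∧
      ∫ x, v x = a / c ^ 3 * ∫ x, u x := by
  have hd : ∀ x, fderiv ℝ (fun x => a * u (c • x)) x = (a * c) • fderiv ℝ u (c • x) := fun x => by
    have h := ((hu.1.differentiable (by simp) (c • x)).hasFDerivAt.comp x
      ((hasFDerivAt_id x).const_smul c)).const_mul a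
    refine h.fderiv.trans ?_
    ext y; simp [mul_assoc]
  refine ⟨fun x => a * u (c • x), ⟨contDiff_const.mul (hu.1.comp (contDiff_const_smul c)),
    (hu.2.1.comp_smul hc.ne').mul_left, fun x => mul_nonneg ha.le (hu.2.2 _)⟩, ?_, ?_, ?_, ?_⟩
  · refine closure_minimal (t := (fun x : V3 => c • x) ⁻¹' tsupport u) (fun x hx => ?_)
      ((isClosed_tsupport u).preimage (continuous_const_smul c))
    exact subset_tsupport u (right_ne_zero_of_mul hx)
  · simp only [mul_pow]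
    rw [integral_const_mul, int_smul (fun x => u x ^ 2) hc]; ring
  · simp only [hd, norm_smul, mul_pow, Real.norm_eq_abs, sq_abs]
    rw [integral_const_mul, int_smul (fun x => ‖fderiv ℝ u x‖ ^ 2) hc]; field_simp
  · rw [integral_const_mul, int_smul u hc]; ring

theorem F1_le {u : V3 → ℝ} (hu : Adm u) (h1 : ∫ x, u x ^ 2 = 1) :
    F1 ≤ 1 / 2 * (∫ x, ‖fderiv ℝ u x‖ ^ 2) + ∫ x, u x := by
  refine csInf_le ⟨0, ?_⟩ ⟨u, hu, h1, rfl⟩
  rintro e ⟨u, hu, -, rfl⟩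
  have h1 : 0 ≤ ∫ x, ‖fderiv ℝ u x‖ ^ 2 := integral_nonneg fun x => sq_nonneg _
  have h2 : 0 ≤ ∫ x, u x := integral_nonneg hu.2.2
  positivity

theorem exists_adm : ∃ u : V3 → ℝ, Adm u ∧ ∫ x, u x ^ 2 = 1 := by
  let b : ContDiffBump (0 : V3) := ⟨1, 2, one_pos, one_lt_two⟩
  have hb : Adm b := ⟨b.contDiff, b.hasCompactSupport, fun _ => b.nonneg⟩
  have hN : 0 < ∫ x, b x ^ 2 :=
    Continuous.integral_pos_of_hasCompactSupport_nonneg_nonzero (x := 0) (b.continuous.pow 2)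
      (b.hasCompactSupport.comp_left (g := fun z : ℝ => z ^ 2) (by simp)) (fun x => sq_nonneg _)
      (by rw [b.one_of_mem_closedBall (mem_closedBall_self b.rIn_pos.le)]; norm_num)
  obtain ⟨v, hv, -, h, -⟩ := dil hb (inv_pos.mpr (Real.sqrt_pos.mpr hN)) one_pos
  refine ⟨v, hv, ?_⟩
  rw [h, inv_pow, Real.sq_sqrt hN.le]; field_simp

end T84

open T84 in
theorem st_SCAL : St_SCAL := by
  refine ⟨fun u r R hu hr hR => ?_, fun u r hu hr => ?_, fun δ hδ => ?_⟩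
  · obtain ⟨v, hv, hs, h1, h2, h3⟩ := dil hu (a := (r ^ 3)⁻¹) (c := (r ^ 2)⁻¹) (by positivity)
      (by positivity)
    refine ⟨v, hv, fun x hx => ?_, ?_, ?_, ?_⟩
    · have h := hR _ (hs x hx)
      rwa [norm_smul, Real.norm_of_nonneg (by positivity), inv_mul_lt_iff₀ (by positivity)] at h
    · rw [h1]; field_simp
    · rw [h2]; field_simp
    · rw [h3]; field_simp
  · have g1 : 0 ≤ ∫ x, ‖fderiv ℝ u x‖ ^ 2 := integral_nonneg fun x => sq_nonneg _
    have g2 : 0 ≤ ∫ x, u x := integral_nonneg hu.2.2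
    have g3 : 0 ≤ ∫ x, u x ^ 2 := integral_nonneg fun x => sq_nonneg _
    rcases g3.eq_or_lt with h0 | hN
    · rw [← h0, mul_zero]; positivity
    have hs := Real.sqrt_pos.mpr hN
    obtain ⟨v, hv, -, h1, h2, h3⟩ := dil hu (a := r ^ 3 / √(∫ x, u x ^ 2)) (c := r ^ 2)
      (by positivity) (by positivity)
    have hq := Real.sq_sqrt g3
    have h := F1_le hv (by rw [h1, div_pow, hq]; field_simp)
    rw [h2, h3] at h
    generalize √(∫ x, u x ^ 2) = s at hs hq h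
    rw [← hq]
    refine (mul_le_mul_of_nonneg_right (div_le_div_of_nonneg_right h (by positivity))
      (sq_nonneg s)).trans_eq ?_
    field_simp
  · obtain ⟨u, hu, h1⟩ := exists_adm
    obtain ⟨e, ⟨w, hw, h2, rfl⟩, h3⟩ := exists_lt_of_csInf_lt
      (s := {e | ∃ u : V3 → ℝ, Adm u ∧ ∫ x, u x ^ 2 = 1 ∧
        e = 1 / 2 * (∫ x, ‖fderiv ℝ u x‖ ^ 2) + ∫ x, u x}) ⟨_, u, hu, h1, rfl⟩
      (lt_add_of_pos_right F1 hδ)
    exact ⟨w, hw, h2, h3.le⟩

end Pool.Agent.Lib.LS
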