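import Pool.Agent.Lib.LS.Base

set_option autoImplicit false

open MeasureTheory Filter Topology Metric Finset
open scoped ComplexConjugate InnerProductSpace ContDiff

namespace Pool.Agent.Lib.LS

open Pool.Agent.Lib.MP_791321_mp

namespace T69

variable {N : ℕ}

/-- spin factor of orbital `k` in slot `j` -/
noncomputable def cc (s σ : Fin N → Fin 2) (k j : Fin N) : ℝ := if σ j = s k then 1 else 0

/-- Slater determinant; `a j k` is the function of orbital `k` used in slot `j` -/
noncomputable def DD (s : Fin N → Fin 2) (a : Fin N → Fin N → V3 → ℝ) (σ : Fin N → Fin 2)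
    (x : Fin N → V3) : ℝ := (Matrix.of fun k j => cc s σ k j * a j k (x j)).det

variable {s : Fin N → Fin 2} {a : Fin N → Fin N → V3 → ℝ} {S : Fin N → Set V3}

lemma DD_eq (σ : Fin N → Fin 2) (x : Fin N → V3) : DD s a σ x =
    ∑ π : Equiv.Perm (Fin N), ((Equiv.Perm.sign π : ℤ) : ℝ) *
      ∏ j, cc s σ (π j) j * a j (π j) (x j) := Matrix.det_apply' _

lemma DD_sq (hS : ∀ j k y, a j k y ≠ 0 → y ∈ S k)
    (hd : ∀ k k', k ≠ k' → s k = s k' → Disjoint (S k) (S k')) (σ : Fin N → Fin 2)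
    (x : Fin N → V3) : DD s a σ x ^ 2 =
      ∑ π : Equiv.Perm (Fin N), ∏ j, cc s σ (π j) j * a j (π j) (x j) ^ 2 := by
  rw [DD_eq, sq, sum_mul_sum]
  refine sum_congr rfl fun π _ => ?_
  rw [sum_eq_single π (fun π' _ hne => ?_) (by simp)]
  · have h1 : ((Equiv.Perm.sign π : ℤ) : ℝ) * ((Equiv.Perm.sign π : ℤ) : ℝ) = 1 := by
      rcases Int.units_eq_one_or (Equiv.Perm.sign π) with h | h <;> simp [h]
    rw [mul_mul_mul_comm, h1, one_mul, ← prod_mul_distrib]
    refine prod_congr rfl fun j _ => ?_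
    unfold cc; split_ifs <;> ring
  · obtain ⟨j, hj⟩ : ∃ j, π j ≠ π' j := by
      by_contra hc
      exact hne (Equiv.ext fun j => (not_not.mp (not_exists.mp hc j)).symm)
    rw [mul_mul_mul_comm, ← prod_mul_distrib, prod_eq_zero (mem_univ j), mul_zero]
    by_contra hc
    obtain ⟨h1, h2⟩ := mul_ne_zero_iff.mp hc
    obtain ⟨h3, h4⟩ := mul_ne_zero_iff.mp h1
    obtain ⟨h5, h6⟩ := mul_ne_zero_iff.mp h2
    have h7 : σ j = s (π j) := by by_contra h; exact h3 (if_neg h)
    have h8 : σ j = s (π' j) := by by_contra h; exact h5 (if_neg h)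
    exact Set.disjoint_left.mp (hd _ _ hj (h7.symm.trans h8)) (hS _ _ _ h4) (hS _ _ _ h6)

lemma key (hS : ∀ j k y, a j k y ≠ 0 → y ∈ S k)
    (hd : ∀ k k', k ≠ k' → s k = s k' → Disjoint (S k) (S k')) {w : Fin N → V3 → ℝ}
    (hi : ∀ j k, Integrable fun y => a j k y ^ 2 * w j y) :
    ∑ σ, ∫ x, DD s a σ x ^ 2 * ∏ j, w j (x j) =
      ∑ π : Equiv.Perm (Fin N), ∏ j, ∫ y, a j (π j) y ^ 2 * w j y := by
  have h1 : ∀ σ, ∫ x, DD s a σ x ^ 2 * ∏ j, w j (x j) =
      ∑ π : Equiv.Perm (Fin N), ∏ j, cc s σ (π j) j * ∫ y, a j (π j) y ^ 2 * w j y := by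
    intro σ
    have h2 : ∀ x : Fin N → V3, DD s a σ x ^ 2 * ∏ j, w j (x j) = ∑ π : Equiv.Perm (Fin N),
        ∏ j, (fun y => cc s σ (π j) j * (a j (π j) y ^ 2 * w j y)) (x j) := fun x => by
      rw [DD_sq hS hd, sum_mul]
      refine sum_congr rfl fun π _ => ?_
      rw [← prod_mul_distrib]
      exact prod_congr rfl fun j _ => mul_assoc _ _ _
    simp only [h2]
    rw [integral_finsetSum _ fun π _ => ?_]
    · refine sum_congr rfl fun π _ => ?_
      rw [integral_fintype_prod_volume_eq_prod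
        (fun j (y : V3) => cc s σ (π j) j * (a j (π j) y ^ 2 * w j y))]
      exact prod_congr rfl fun j _ => integral_const_mul _ _
    · exact Integrable.fintype_prod (μ := fun _ => (volume : Measure V3))
        (f := fun j (y : V3) => cc s σ (π j) j * (a j (π j) y ^ 2 * w j y))
        fun j => (hi j (π j)).const_mul _
  simp only [h1]
  rw [sum_comm]
  refine sum_congr rfl fun π _ => ?_
  have h3 := Fintype.prod_sum (fun (j : Fin N) (t : Fin 2) =>
    (if t = s (π j) then (1 : ℝ) else 0) * ∫ y, a j (π j) y ^ 2 * w j y)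
  simp only [cc]
  rw [← h3]
  exact prod_congr rfl fun j _ => by simp

variable {ψ : Fin N → V3 → ℝ}

lemma int_sq {b F : V3 → ℝ} (hb : Continuous b) (hc : HasCompactSupport b) (hF : Continuous F) :
    Integrable fun y => b y ^ 2 * F y := by
  have h1 : Continuous fun y => b y ^ 2 * F y := (hb.pow 2).mul hF
  refine h1.integrable_of_hasCompactSupport (HasCompactSupport.intro hc fun y hy => ?_)
  rw [image_eq_zero_of_notMem_tsupport hy]; simp

/-- one slot carries other functions and a weight -/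
lemma slot (hψ : ∀ j, Continuous (ψ j)) (hc : ∀ j, HasCompactSupport (ψ j))
    (hn : ∀ j, ∫ x, ψ j x ^ 2 = 1)
    (hd : ∀ k k', k ≠ k' → s k = s k' → Disjoint (tsupport (ψ k)) (tsupport (ψ k')))
    {b : Fin N → V3 → ℝ} (hb : ∀ k, Continuous (b k))
    (hs : ∀ k y, b k y ≠ 0 → y ∈ tsupport (ψ k)) {F : V3 → ℝ} (hF : Continuous F) :
    ∑ j₀, ∑ σ, ∫ x, DD s (fun j => if j = j₀ then b else ψ) σ x ^ 2 * F (x j₀) =
      N.factorial * ∑ k, ∫ y, b k y ^ 2 * F y := by
  have hbc : ∀ k, HasCompactSupport (b k) := fun k =>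
    HasCompactSupport.intro (hc k) fun y hy => by by_contra h; exact hy (hs k y h)
  have h1 : ∀ j₀, ∑ σ, ∫ x, DD s (fun j => if j = j₀ then b else ψ) σ x ^ 2 * F (x j₀) =
      ∑ π : Equiv.Perm (Fin N), ∫ y, b (π j₀) y ^ 2 * F y := fun j₀ => by
    have h2 := key (s := s) (a := fun j => if j = j₀ then b else ψ) (S := fun k => tsupport (ψ k))
      (fun j k y h => by
        by_cases hj : j = j₀
        · exact hs k y (by simpa [hj] using h)
        · exact subset_tsupport _ (by simpa [hj] using h)) hd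
      (w := fun j => if j = j₀ then F else fun _ => 1) (fun j k => by
        by_cases hj : j = j₀
        · simpa [hj] using int_sq (hb k) (hbc k) hF
        · simpa [hj] using int_sq (hψ k) (hc k) (continuous_const (y := (1 : ℝ))))
    have h3 : ∀ x : Fin N → V3, ∏ j, (if j = j₀ then F else fun _ => 1) (x j) = F (x j₀) :=
      fun x => by rw [prod_eq_single j₀ (fun j _ hj => by simp [hj]) (by simp)]; simp
    simp only [h3] at h2
    rw [h2]
    refine sum_congr rfl fun π _ => ?_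
    rw [prod_eq_single j₀ (fun j _ hj => by simp [hj, hn]) (by simp)]; simp
  simp only [h1]
  rw [sum_comm, sum_congr rfl fun π _ => Equiv.sum_comp π fun k => ∫ y, b k y ^ 2 * F y]
  simp [Fintype.card_perm]

lemma DD_smooth (hψ : ∀ j, ContDiff ℝ ∞ (ψ j)) (σ : Fin N → Fin 2) :
    ContDiff ℝ ∞ (DD s (fun _ => ψ) σ) := by
  have : DD s (fun _ => ψ) σ = fun x => ∑ π : Equiv.Perm (Fin N),
      ((Equiv.Perm.sign π : ℤ) : ℝ) * ∏ j, cc s σ (π j) j * ψ (π j) (x j) :=
    funext fun x => DD_eq σ x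
  rw [this]
  exact ContDiff.sum fun π _ => contDiff_const.mul (contDiff_prod fun j _ =>
    contDiff_const.mul ((hψ _).comp (contDiff_apply ℝ V3 j)))

lemma DD_supp {σ : Fin N → Fin 2} {x : Fin N → V3} (h : DD s (fun _ => ψ) σ x ≠ 0) (j : Fin N) :
    x j ∈ ⋃ k, tsupport (ψ k) := by
  rw [DD_eq] at h
  obtain ⟨π, -, h1⟩ := exists_ne_zero_of_sum_ne_zero h
  have h2 := prod_ne_zero_iff.mp (right_ne_zero_of_mul h1) j (mem_univ j)
  exact Set.mem_iUnion.mpr ⟨π j, subset_tsupport _ (right_ne_zero_of_mul h2)⟩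

lemma DD_fderiv (hψ : ∀ j, ContDiff ℝ ∞ (ψ j)) (σ : Fin N → Fin 2) (x : Fin N → V3)
    (j₀ : Fin N) (i : Fin 3) : fderiv ℝ (DD s (fun _ => ψ) σ) x (dir j₀ i) =
      DD s (fun j => if j = j₀ then fun k => pd i (ψ k) else ψ) σ x := by
  have e : DD s (fun _ => ψ) σ = fun x => ∑ π : Equiv.Perm (Fin N),
      ((Equiv.Perm.sign π : ℤ) : ℝ) * ∏ j, cc s σ (π j) j * ψ (π j) (x j) :=
    funext fun x => DD_eq σ x
  have h1 : ∀ (k j : Fin N), HasFDerivAt (fun x : Fin N → V3 => cc s σ k j * ψ k (x j))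
      (cc s σ k j • (fderiv ℝ (ψ k) (x j)).comp (ContinuousLinearMap.proj j)) x := fun k j =>
    ((((hψ k).differentiable (by simp)) (x j)).hasFDerivAt.comp x
      (hasFDerivAt_apply j x)).const_mul _
  have h2 := HasFDerivAt.fun_sum (u := univ) fun (π : Equiv.Perm (Fin N)) _ =>
    (HasFDerivAt.finsetProd (u := univ) fun j _ => h1 (π j) j).const_mul
      ((Equiv.Perm.sign π : ℤ) : ℝ)
  rw [e, h2.fderiv, DD_eq, _root_.sum_apply]
  refine sum_congr rfl fun π _ => ?_
  rw [_root_.smul_apply, smul_eq_mul, _root_.sum_apply,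
    sum_eq_single j₀ (fun j _ hj => by simp [dir, hj]) (by simp),
    ← mul_prod_erase univ _ (mem_univ j₀), mul_comm (cc s σ (π j₀) j₀ * _)]
  congr 1
  rw [_root_.smul_apply, smul_eq_mul]
  congr 1
  · exact prod_congr rfl fun j hj => by simp [ne_of_mem_erase hj]
  · simp [dir, pd]

end T69

open T69 in
theorem st_SL1 : St_SL1 := by
  intro N ψ s hψ hc hn hd
  have hψc : ∀ j, Continuous (ψ j) := fun j => (hψ j).continuous
  let φ : Tst N := Tst.mk (fun σ x => (DD s (fun _ => ψ) σ x : ℂ)) fun σ =>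
    ⟨Complex.ofRealCLM.contDiff.comp (DD_smooth hψ σ),
      HasCompactSupport.intro (isCompact_univ_pi fun _ : Fin N => isCompact_iUnion fun k => hc k)
        fun x hx => by
          by_contra h
          exact hx fun j _ => DD_supp (by simpa using h) j⟩
  have hv : ∀ σ x, ‖φ.val σ x‖ ^ 2 = DD s (fun _ => ψ) σ x ^ 2 := fun σ x => by
    simp [φ]
  have hnorm : ‖φ‖ ^ 2 = N.factorial := by
    have h := key (s := s) (a := fun _ => ψ) (S := fun k => tsupport (ψ k))
      (fun _ _ _ h => subset_tsupport _ h) hd (w := fun _ _ => 1)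
      (fun _ k => int_sq (hψc k) (hc k) continuous_const)
    rw [Tst.norm_sq_eq]
    simpa [hv, hn, Fintype.card_perm] using h
  have hpd : ∀ i k, Continuous (pd i (ψ k)) := fun i k =>
    ((hψ k).continuous_fderiv (by simp)).clm_apply continuous_const
  have hpds : ∀ i k y, pd i (ψ k) y ≠ 0 → y ∈ tsupport (ψ k) := fun i k y h =>
    support_fderiv_subset ℝ (f := ψ k) fun h0 => h (by simp [pd, h0])
  refine ⟨φ, fun π σ x => ?_, fun σ x => by simp [φ], ?_, ?_, fun F hF => ?_⟩
  · have h1 : (Matrix.of fun k j => cc s (σ ∘ π) k j * ψ k ((x ∘ π) j)) =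
        (Matrix.of fun k j => cc s σ k j * ψ k (x j)).submatrix id π := rfl
    simp only [φ, Tst.val_mk, DD]
    rw [h1, Matrix.det_permute']
    push_cast; rfl
  · have h1 : 0 < ‖φ‖ ^ 2 := by rw [hnorm]; exact_mod_cast N.factorial_pos
    exact lt_of_le_of_ne (norm_nonneg _) fun h => by simp [← h] at h1
  · have h1 : ∀ j i, ‖Tst.p (dir j i) φ‖ ^ 2 = ∑ σ, ∫ x,
        DD s (fun j' => if j' = j then fun k => pd i (ψ k) else ψ) σ x ^ 2 * 1 := fun j i => by
      rw [Tst.norm_sq_eq]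
      refine sum_congr rfl fun σ _ => integral_congr_ae (Eventually.of_forall fun x => ?_)
      have h2 : HasFDerivAt (φ.val σ)
          (Complex.ofRealCLM.comp (fderiv ℝ (DD s (fun _ => ψ) σ) x)) x :=
        Complex.ofRealCLM.hasFDerivAt.comp x
          (((DD_smooth hψ σ).differentiable (by simp)) x).hasFDerivAt
      simp [Tst.val_p, h2.fderiv, DD_fderiv hψ]
    simp only [h1]
    rw [sum_comm, sum_congr rfl fun i _ =>
      slot hψc hc hn hd (hpd i) (hpds i) (continuous_const (y := (1 : ℝ))), ← mul_sum, hnorm,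
      mul_comm, sum_comm]
    congr 1
    refine sum_congr rfl fun k _ => ?_
    simp only [norm_fderiv_sq, mul_one]
    rw [integral_finsetSum]
    intro i _
    simpa using int_sq (hpd i k) ((hc k).fderiv_apply ℝ _) (continuous_const (y := (1 : ℝ)))
  · have h1 := slot hψc hc hn hd hψc (fun k y h => subset_tsupport _ h) hF
    simp only [ite_self] at h1
    simp only [hv, sum_mul]
    rw [h1, hnorm, integral_finsetSum _ fun k _ => int_sq (hψc k) (hc k) hF]

end Pool.Agent.Lib.LS
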