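import Pool.Agent.Lib.LS.Base

set_option autoImplicit false

open MeasureTheory Filter Topology Metric
open scoped ComplexConjugate InnerProductSpace ContDiff

namespace Pool.Agent.Lib.LS

open Pool.Agent.Lib.MP_791321_mp

namespace T10

/-- centre of blob `b` -/
noncomputable def ctr (R : ℝ) (b : ℕ) : V3 := EuclideanSpace.single 0 (2 * R * b)

/-- amplitude of blob `b` -/
noncomputable def amp (N b : ℕ) : ℝ := if b < N / 2 then √2 else ((N % 2 : ℕ) : ℝ)

theorem amp_nonneg (N b : ℕ) : 0 ≤ amp N b := by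
  unfold amp; split_ifs <;> positivity

theorem sum_half (N : ℕ) (f : ℕ → ℝ) :
    ∑ j ∈ Finset.range N, f (j / 2) =
      ∑ b ∈ Finset.range (N / 2), 2 * f b + ((N % 2 : ℕ) : ℝ) * f (N / 2) := by
  induction N with
  | zero => simp
  | succ n ih =>
    rw [Finset.sum_range_succ, ih]
    rcases Nat.mod_two_eq_zero_or_one n with h | h
    · have h1 : (n + 1) / 2 = n / 2 := by omega
      have h2 : (n + 1) % 2 = 1 := by omega
      rw [h1, h2, h]
      push_cast
      ring
    · have h1 : (n + 1) / 2 = n / 2 + 1 := by omega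
      have h2 : (n + 1) % 2 = 0 := by omega
      rw [h1, h2, h, Finset.sum_range_succ]
      push_cast
      ring

theorem sum_amp_sq (N : ℕ) (f : ℕ → ℝ) :
    ∑ b ∈ Finset.range (N / 2 + 1), amp N b ^ 2 * f b = ∑ j : Fin N, f (j / 2) := by
  rw [Fin.sum_univ_eq_sum_range (fun j => f (j / 2)) N, sum_half, Finset.sum_range_succ]
  congr 1
  · refine Finset.sum_congr rfl fun b hb => ?_
    rw [amp, if_pos (Finset.mem_range.1 hb), Real.sq_sqrt (by norm_num)]
  · rw [amp, if_neg (lt_irrefl _)]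
    rcases Nat.mod_two_eq_zero_or_one N with h | h <;> rw [h] <;> simp

theorem sum_amp (N : ℕ) :
    ∑ b ∈ Finset.range (N / 2 + 1), amp N b =
      √2 * ((N / 2 : ℕ) : ℝ) + ((N % 2 : ℕ) : ℝ) := by
  rw [Finset.sum_range_succ]
  congr 1
  · rw [Finset.sum_congr rfl (g := fun _ => √2) fun b hb => by
      rw [amp, if_pos (Finset.mem_range.1 hb)]]
    simp [mul_comm]
  · rw [amp, if_neg (lt_irrefl _)]

theorem norm_sum_sq {E : Type} [NormedAddCommGroup E] (s : Finset ℕ) (v : ℕ → E)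
    (h : ∀ b b', b ≠ b' → v b = 0 ∨ v b' = 0) :
    ‖∑ b ∈ s, v b‖ ^ 2 = ∑ b ∈ s, ‖v b‖ ^ 2 := by
  by_cases h0 : ∀ b ∈ s, v b = 0
  · rw [Finset.sum_eq_zero h0, Finset.sum_eq_zero fun b hb => by rw [h0 b hb]; simp]
    simp
  · push Not at h0
    obtain ⟨b, hb, hv⟩ := h0
    have h1 : ∀ b', b' ≠ b → v b' = 0 := fun b' hb' => (h b' b hb').resolve_right hv
    rw [Finset.sum_eq_single b (fun b' _ hb' => h1 b' hb') (fun hn => absurd hb hn),
      Finset.sum_eq_single b (fun b' _ hb' => by rw [h1 b' hb']; simp) (fun hn => absurd hb hn)]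

theorem norm_ctr {R : ℝ} (hR : 0 < R) (b : ℕ) : ‖ctr R b‖ = 2 * R * b := by
  rw [ctr, PiLp.norm_single, Real.norm_eq_abs, abs_of_nonneg (by positivity)]

theorem ctr_sep {R : ℝ} (hR : 0 < R) {b b' : ℕ} (h : b ≠ b') :
    2 * R ≤ ‖ctr R b - ctr R b'‖ := by
  have h1 := abs_norm_sub_norm_le (ctr R b) (ctr R b')
  rw [norm_ctr hR, norm_ctr hR] at h1
  refine le_trans ?_ h1
  rcases lt_or_gt_of_ne h with h2 | h2
  · have h3 : (b : ℝ) + 1 ≤ b' := by exact_mod_cast h2
    rw [abs_sub_comm]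
    refine le_trans ?_ (le_abs_self _)
    nlinarith
  · have h3 : (b' : ℝ) + 1 ≤ b := by exact_mod_cast h2
    refine le_trans ?_ (le_abs_self _)
    nlinarith

theorem mem_ts {u : V3 → ℝ} {a x : V3} (h : x ∈ tsupport fun y => u (y - a)) :
    x - a ∈ tsupport u :=
  (continuous_id.sub continuous_const : Continuous fun y : V3 => y - a).closure_preimage_subset
    (Function.support u) h

theorem not_both {u : V3 → ℝ} {R : ℝ} (hR : 0 < R) (hs : ∀ x ∈ tsupport u, ‖x‖ < R)
    {b b' : ℕ} (h : b ≠ b') (x : V3) :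
    x - ctr R b ∉ tsupport u ∨ x - ctr R b' ∉ tsupport u := by
  by_contra hc
  push Not at hc
  have h1 := hs _ hc.1
  have h2 := hs _ hc.2
  have h3 := ctr_sep hR h
  have h4 : ctr R b - ctr R b' = (x - ctr R b') - (x - ctr R b) := by abel
  have h5 := norm_sub_le (x - ctr R b') (x - ctr R b)
  rw [h4] at h3
  linarith

theorem tr_smooth {u : V3 → ℝ} (hu : Adm u) (a : V3) : ContDiff ℝ ∞ fun y => u (y - a) :=
  hu.1.comp (contDiff_id.sub contDiff_const)

theorem tr_cs {u : V3 → ℝ} (hu : Adm u) (a : V3) : HasCompactSupport fun y => u (y - a) :=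
  hu.2.1.comp_homeomorph (Homeomorph.subRight a)

theorem int_sq {u : V3 → ℝ} (hu : Adm u) : Integrable fun x => u x ^ 2 := by
  have h : HasCompactSupport fun x => u x * u x := hu.2.1.mul_right
  simp only [sq]
  exact (hu.1.continuous.mul hu.1.continuous).integrable_of_hasCompactSupport h

theorem int_dsq {u : V3 → ℝ} (hu : Adm u) : Integrable fun x => ‖fderiv ℝ u x‖ ^ 2 := by
  have hc : Continuous fun x => ‖fderiv ℝ u x‖ := (hu.1.continuous_fderiv (by simp)).norm
  have h : HasCompactSupport fun x => ‖fderiv ℝ u x‖ * ‖fderiv ℝ u x‖ :=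
    (hu.2.1.fderiv ℝ).norm.mul_right
  simp only [sq]
  exact (hc.mul hc).integrable_of_hasCompactSupport h

/-- the combined profile -/
noncomputable def prof (N : ℕ) (R : ℝ) (u : V3 → ℝ) (x : V3) : ℝ :=
  ∑ b ∈ Finset.range (N / 2 + 1), amp N b * u (x - ctr R b)

theorem prof_adm (N : ℕ) (R : ℝ) {u : V3 → ℝ} (hu : Adm u) : Adm (prof N R u) := by
  refine ⟨ContDiff.sum fun b _ => contDiff_const.mul (tr_smooth hu _), ?_,
    fun x => Finset.sum_nonneg fun b _ => mul_nonneg (amp_nonneg N b) (hu.2.2 _)⟩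
  have h : ∀ s : Finset ℕ,
      HasCompactSupport fun x => ∑ b ∈ s, amp N b * u (x - ctr R b) := fun s => by
    induction s using Finset.induction_on with
    | empty =>
      simp only [Finset.sum_empty]
      exact HasCompactSupport.zero
    | insert b s hb ih =>
      simp only [Finset.sum_insert hb]
      exact (tr_cs hu (ctr R b)).mul_left.add ih
  exact h _

theorem prof_sq (N : ℕ) {R : ℝ} (hR : 0 < R) {u : V3 → ℝ} (hs : ∀ x ∈ tsupport u, ‖x‖ < R)
    (x : V3) : prof N R u x ^ 2 = ∑ j : Fin N, u (x - ctr R (j / 2)) ^ 2 := by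
  have h := norm_sum_sq (Finset.range (N / 2 + 1)) (fun b => amp N b * u (x - ctr R b))
    fun b b' hb => (not_both hR hs hb x).imp
      (fun h => by simp [image_eq_zero_of_notMem_tsupport h])
      (fun h => by simp [image_eq_zero_of_notMem_tsupport h])
  simp only [Real.norm_eq_abs, sq_abs, mul_pow] at h
  rw [prof, h, sum_amp_sq N fun b => u (x - ctr R b) ^ 2]

theorem prof_fderiv (N : ℕ) (R : ℝ) {u : V3 → ℝ} (hu : Adm u) (x : V3) :
    fderiv ℝ (prof N R u) x =
      ∑ b ∈ Finset.range (N / 2 + 1), amp N b • fderiv ℝ u (x - ctr R b) := by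
  have h : ∀ b, HasFDerivAt (fun y => amp N b * u (y - ctr R b))
      (amp N b • fderiv ℝ u (x - ctr R b)) x := fun b => by
    have h1 := ((tr_smooth hu (ctr R b)).differentiable (by simp) x).hasFDerivAt
    rw [fderiv_comp_sub] at h1
    exact h1.const_mul _
  exact (HasFDerivAt.fun_sum fun b _ => h b).fderiv

theorem prof_dsq (N : ℕ) {R : ℝ} (hR : 0 < R) {u : V3 → ℝ} (hu : Adm u)
    (hs : ∀ x ∈ tsupport u, ‖x‖ < R) (x : V3) :
    ‖fderiv ℝ (prof N R u) x‖ ^ 2 = ∑ j : Fin N, ‖fderiv ℝ u (x - ctr R (j / 2))‖ ^ 2 := by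
  have h0 : ∀ y, y ∉ tsupport u → fderiv ℝ u y = 0 := fun y hy =>
    Function.notMem_support.1 fun h => hy (support_fderiv_subset ℝ h)
  have h := norm_sum_sq (Finset.range (N / 2 + 1))
    (fun b => amp N b • fderiv ℝ u (x - ctr R b))
    fun b b' hb => (not_both hR hs hb x).imp
      (fun h => by simp [h0 _ h]) (fun h => by simp [h0 _ h])
  simp only [norm_smul, Real.norm_eq_abs, sq_abs, mul_pow] at h
  rw [prof_fderiv N R hu, h, sum_amp_sq N fun b => ‖fderiv ℝ u (x - ctr R b)‖ ^ 2]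

theorem prof_supp (N : ℕ) {R : ℝ} (hR : 0 < R) {u : V3 → ℝ} (hs : ∀ x ∈ tsupport u, ‖x‖ < R)
    (x : V3) (hx : prof N R u x ≠ 0) : x ∈ ball (0 : V3) ((2 * N + 1) * R) := by
  obtain ⟨b, hb, hv⟩ := Finset.exists_ne_zero_of_sum_ne_zero hx
  have h1 : ‖x - ctr R b‖ < R := hs _ (subset_tsupport u (right_ne_zero_of_mul hv))
  have h2 : (b : ℝ) ≤ N := by
    have := Finset.mem_range.1 hb
    exact_mod_cast (by omega : b ≤ N)
  have h3 := norm_add_le (x - ctr R b) (ctr R b)
  rw [sub_add_cancel, norm_ctr hR] at h3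
  rw [mem_ball_zero_iff]
  nlinarith

end T10

open T10 in
theorem st_SL2 (hS : St_SL1) : St_SL2 := by
  intro N u R hu h1 hR hs
  have e1 : ∀ a : V3, ∫ x, u (x - a) ^ 2 = 1 := fun a => by
    rw [integral_sub_right_eq_self (fun x => u x ^ 2) a, h1]
  have e2 : ∀ a : V3, ∫ x, ‖fderiv ℝ u (x - a)‖ ^ 2 = ∫ x, ‖fderiv ℝ u x‖ ^ 2 := fun a =>
    integral_sub_right_eq_self (fun x => ‖fderiv ℝ u x‖ ^ 2) a
  obtain ⟨φ, hφ⟩ := hS N (fun j x => u (x - ctr R (j / 2)))
    (fun j => ⟨j % 2, Nat.mod_lt _ (by norm_num)⟩) (fun j => tr_smooth hu _)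
    (fun j => tr_cs hu _) (fun j => e1 _) fun j j' hj hsj => by
      have h2 : (j : ℕ) % 2 = j' % 2 := congrArg Fin.val hsj
      have h3 : (j : ℕ) ≠ j' := fun h => hj (Fin.ext h)
      have h4 : (j : ℕ) / 2 ≠ j' / 2 := by omega
      exact Set.disjoint_left.2 fun x hx hx' =>
        (not_both hR hs h4 x).elim (fun h => h (mem_ts hx)) fun h => h (mem_ts hx')
  simp only [fderiv_comp_sub, e2, Finset.sum_const, Finset.card_univ, Fintype.card_fin,
    nsmul_eq_mul] at hφ
  refine ⟨φ, prof N R u, prof_adm N R hu, prof_supp N hR hs, ?_, ?_, ?_, ?_⟩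
  · simp only [prof_sq N hR hs]
    exact hφ
  · simp only [prof_sq N hR hs]
    rw [integral_finsetSum _ fun j _ => (int_sq hu).comp_sub_right _]
    simp [e1]
  · simp only [prof_dsq N hR hu hs]
    rw [integral_finsetSum _ fun j _ => (int_dsq hu).comp_sub_right _]
    simp [e2]
  · have hi : Integrable u := hu.1.continuous.integrable_of_hasCompactSupport hu.2.1
    simp only [prof]
    rw [integral_finsetSum _ fun b _ => (hi.comp_sub_right _).const_mul _]
    simp only [integral_const_mul, integral_sub_right_eq_self u]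
    rw [← Finset.sum_mul, sum_amp]

end Pool.Agent.Lib.LS
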