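import Pool.Agent.Lib.LS.Base
import Pool.Agent.Lib.LL39.Soft

set_option autoImplicit false

open Finset
open scoped Matrix

namespace Pool.Agent.Lib.LS

namespace T39

variable {I : Type} [Fintype I]

theorem pg_of {f : (I → ℝ) → ℝ} (h : LL.PG f) : PG f := by
  obtain ⟨hc, C, k, hC⟩ := h
  exact ⟨hc, |C|, k, abs_nonneg C, fun q =>
    (hC q).trans (mul_le_mul_of_nonneg_right (le_abs_self C) (by positivity))⟩

theorem bf_eq (P : Matrix I I ℝ) (v w : I → ℝ) : bf P v w = v ⬝ᵥ P *ᵥ w := by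
  simp only [bf, dotProduct, Matrix.mulVec, mul_sum, mul_assoc]

variable [DecidableEq I]

theorem pg1_of {f : (I → ℝ) → ℝ} (h : LL.C1 f) : PG1 f :=
  ⟨h.1, pg_of h.2.1, fun m => pg_of (h.2.2 m)⟩

theorem psd_of {P : Matrix I I ℝ} (h1 : ∀ m m', P m m' = P m' m) (h2 : ∀ v, 0 ≤ v ⬝ᵥ P *ᵥ v) :
    P.PosSemidef :=
  Matrix.PosSemidef.of_dotProduct_mulVec_nonneg
    (Matrix.IsHermitian.ext fun i j => by simpa using h1 j i) fun v => by simpa using h2 v

end T39

theorem st_SOFT (hC : St_COMM) : St_SOFT := by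
  intro I _ _ κ l n P ι _ _ w Ω D e hκ hl hD hΩ he hP hS hw
  have hP' : ∀ c, (P c).PosSemidef := fun c =>
    T39.psd_of (hP c).1 fun v => T39.bf_eq (P c) v v ▸ (hP c).2 v
  have hS' : (1 - ∑ c, P c).PosSemidef := T39.psd_of
    (fun m m' => by
      simp only [Matrix.sub_apply, Matrix.one_apply, Matrix.sum_apply, eq_comm (a := m),
        fun c => (hP c).1 m m'])
    fun v => by
      have := hS v
      rw [Matrix.sub_mulVec, Matrix.one_mulVec, dotProduct_sub, Matrix.sum_mulVec, dotProduct_sum]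
      simp only [T39.bf_eq] at this
      simpa only [sub_nonneg, dotProduct, sq] using this
  have s2 : √2 * √2 = 2 := Real.mul_self_sqrt zero_le_two
  have s0 : √2 ≠ 0 := by positivity
  have e1 : ∀ i, √(κ i) * (l i / √2) = √(2 * κ i) * l i / 2 := fun i => by
    rw [Real.sqrt_mul zero_le_two]
    field_simp
    linear_combination (√(κ i) * l i) * s2.symm
  obtain ⟨U, pU, hU, x, cx, hx⟩ := LL.T39.soft (ν := κ) (l := fun i => l i / √2) (om := w)
    (D := D / 2) hκ hP' hS' he hΩ (half_pos hD)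
    (fun m => by rw [e1, abs_div, abs_two]; exact div_le_div_of_nonneg_right (hl m) zero_le_two)
    fun j c => abs_le.2 ⟨by linarith [(hw j c).1], (hw j c).2⟩
  refine ⟨U, T39.pg_of pU, fun q j => (hU q j).trans_eq ?_, fun μ h hp => ?_⟩
  · have e2 : (fun m => l m / √2 * q m) = (1 / √2) • fun m => l m * q m :=
      funext fun m => by simp only [Pi.smul_apply, smul_eq_mul]; ring
    have e3 : 1 / √2 * (1 / √2) = 1 / 2 := by rw [div_mul_div_comm, s2, mul_one]
    simp only [LL.T39.uu, e1, e2, T39.bf_eq, Matrix.mulVec_smul, smul_dotProduct, dotProduct_smul,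
      smul_eq_mul, ← mul_assoc (1 / √2), e3]
    refine congrArg₂ _ (congrArg₂ _ (congrArg _ ?_) ?_) (by ring)
    · rw [mul_sum]; exact sum_congr rfl fun c _ => by ring
    · simp only [mul_sum]
      exact sum_congr rfl fun c _ => sum_congr rfl fun i _ => by ring
  have px := fun m => T39.pg1_of (cx m)
  have k := hC I κ μ h hκ hp (fun i q => √(κ i) * x i q) (fun q => ∑ i, x i q ^ 2)
    (fun i => (PG1.const _).mul (px i)) (PG.sum fun i _ => (px i).2.1.pow 2)
    (fun q => sum_nonneg fun i _ => sq_nonneg _) fun q v => by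
      have := sum_mul_sq_le_sq_mul_sq univ (fun i => x i q) fun i => √(κ i) * v i
      simp only [mul_pow, fun i => Real.sq_sqrt (hκ i)] at this
      refine le_of_eq_of_le (congrArg (· ^ 2) (sum_congr rfl fun i _ => ?_)) this
      ring
  refine le_trans ?_ k
  rw [← gE_neg]
  refine gE_mono (((T39.pg_of pU).add (PG.const _)).mul hp.pm.2.1).neg
    ((((PG.sum fun i _ => ((PG1.const _).mul (px i)).2.2 i).sub (PG.sum fun i _ =>
      (PG.coord i).mul ((PG.const _).mul (px i).2.1))).sub
        (PG.sum fun i _ => (px i).2.1.pow 2)).mul hp.pm.2.1) fun q => ?_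
  rw [← neg_mul]
  refine mul_le_mul_of_nonneg_right ((hx q).trans_eq ?_) (hp.m0 q)
  rw [← sum_sub_distrib, ← sum_sub_distrib]
  refine sum_congr rfl fun i _ => ?_
  rw [dq_mul i (differentiableAt_const _) ((px i).1 q), dq_const]
  change √(κ i) * dq i (x i) q - _ - _ = _
  ring

end Pool.Agent.Lib.LS
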