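import Pool.Agent.Lib.LS.Base

set_option autoImplicit false

open MeasureTheory Filter Topology Metric
open scoped ComplexConjugate InnerProductSpace ContDiff

namespace Pool.Agent.Lib.LS

open Pool.Agent.Lib.MP_791321_mp

namespace T45

section abs

variable {I S : Type} [Fintype I] [DecidableEq I] [SeminormedAddCommGroup S]
  [InnerProductSpace ℂ S]

/-- the commutation relations in a rotated basis -/
noncomputable def rot (C : CCR I S) (w : I → EuclideanSpace ℂ I) (hw : Orthonormal ℂ w) :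
    CCR I S where
  a l := C.An (w l)
  c l := C.Cr (w l)
  adj l u v := C.Cr_adj _ u v
  ac l l' u := by
    rw [C.An_Cr, orthonormal_iff_ite.mp hw]
    split_ifs <;> simp
  cc l l' u := C.Cr_Cr _ _ u
  aa l l' u := C.An_An _ _ u

/-- a real vector -/
noncomputable def rv (g : I → ℝ) : EuclideanSpace ℂ I := WithLp.toLp 2 fun m => (g m : ℂ)

theorem rv_on {v : I → I → ℝ} (hv : ∀ r r', ∑ m, v r m * v r' m = if r = r' then 1 else 0) :
    Orthonormal ℂ fun r => rv (v r) := by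
  rw [orthonormal_iff_ite]
  intro r r'
  have h := congrArg (fun t : ℝ => (t : ℂ)) (hv r' r)
  simp only [Complex.ofReal_sum, Complex.ofReal_mul] at h
  simp only [rv, PiLp.inner_apply, RCLike.inner_apply, Complex.conj_ofReal, h, eq_comm (a := r')]
  split_ifs <;> simp

theorem cols {v : I → I → ℝ} (hv : ∀ r r', ∑ m, v r m * v r' m = if r = r' then 1 else 0)
    (m m' : I) : ∑ r, v r m * v r m' = if m = m' then 1 else 0 := by
  have h1 : Matrix.of v * (Matrix.of v).transpose = 1 := by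
    ext r r'
    simp [Matrix.mul_apply, Matrix.one_apply, hv]
  have h3 : (Matrix.of v).transpose * Matrix.of v = 1 := mul_eq_one_comm.mp h1
  have h2 := congrFun (congrFun h3 m) m'
  simpa [Matrix.mul_apply, Matrix.one_apply] using h2

theorem expand {v : I → I → ℝ} (hv : ∀ r r', ∑ m, v r m * v r' m = if r = r' then 1 else 0)
    (g : I → ℝ) : ∑ r, ((∑ m, v r m * g m : ℝ) : ℂ) • rv (v r) = rv g := by
  ext m
  have h : ∑ r, (∑ m', v r m' * g m') * v r m = g m := by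
    simp only [Finset.sum_mul]
    rw [Finset.sum_comm]
    have h2 : ∀ m', ∑ r, v r m' * g m' * v r m = g m' * if m' = m then 1 else 0 := fun m' => by
      rw [← cols hv m' m, Finset.mul_sum]
      exact Finset.sum_congr rfl fun r _ => by ring
    simp [h2]
  simp only [rv, WithLp.ofLp_sum, WithLp.ofLp_smul, Finset.sum_apply, Pi.smul_apply, smul_eq_mul]
  exact_mod_cast h

theorem field_eq (C : CCR I S) (g : I → ℝ) (u : S) :
    C.An (rv g) u + C.Cr (rv g) u = ∑ l, (g l : ℂ) • (C.a l u + C.c l u) := by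
  simp [CCR.An_apply, CCR.Cr_apply, rv, Finset.sum_add_distrib]

theorem field_real (C : CCR I S) (g : EuclideanSpace ℂ I) (u : S) :
    (⟪u, C.An g u + C.Cr g u⟫_ℂ).im = 0 := by
  rw [inner_add_right, ← C.An_adj, ← inner_conj_symm (C.An g u) u, Complex.add_im,
    Complex.conj_im, add_neg_cancel]

omit [Fintype I] [DecidableEq I] in
theorem norm_cross (z₁ z₂ : ℂ) (u y : S) (h1 : z₁.re = 0) (h2 : z₂.im = 0)
    (h3 : (⟪u, y⟫_ℂ).im = 0) :
    ‖z₁ • u + z₂ • y‖ ^ 2 = ‖z₁‖ ^ 2 * ‖u‖ ^ 2 + ‖z₂‖ ^ 2 * ‖y‖ ^ 2 := by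
  rw [@norm_add_sq ℂ, inner_smul_left, inner_smul_right, norm_smul, norm_smul, mul_pow, mul_pow]
  simp [h1, h2, h3]

theorem sq_le {X Y κ : ℝ} (hX : 0 ≤ X) (hXY : X ≤ Y) (h0 : 0 < κ) (h1 : κ ≤ 1) :
    (√X + κ * √Y) ^ 2 ≤ X + 3 * κ * Y := by
  have hY : 0 ≤ Y := hX.trans hXY
  have a1 := Real.sq_sqrt hX
  have a2 := Real.sq_sqrt hY
  have a3 := Real.sqrt_le_sqrt hXY
  have a4 := Real.sqrt_nonneg X
  have a5 := Real.sqrt_nonneg Y
  have a6 : √X * √Y ≤ Y := by nlinarith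
  have a7 : κ * κ * Y ≤ κ * Y := by
    have := mul_nonneg h0.le hY
    nlinarith
  have a8 : κ * (√X * √Y) ≤ κ * Y := by gcongr
  calc _ = √X ^ 2 + 2 * (κ * (√X * √Y)) + κ * κ * √Y ^ 2 := by ring
    _ ≤ _ := by rw [a1, a2]; linarith

/-- squeezed states in terms of `σ` -/
theorem sqz (C : CCR I S) {Ω : S} (hΩ : ∀ m, C.a m Ω = 0) (h1 : ‖Ω‖ = 1) {v : I → I → ℝ}
    (hv : ∀ r r', ∑ m, v r m * v r' m = if r = r' then 1 else 0) {σ : I → ℝ} (hσ : ∀ r, 1 ≤ σ r)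
    {ν : I → ℝ} (hν : ∀ m, 0 ≤ ν m) {κ : ℝ} (h0 : 0 < κ) (hκ : κ ≤ 1) :
    ∃ Φ : S, 1 ≤ ‖Φ‖ ∧
      ∑ m, ν m * ‖C.a m Φ‖ ^ 2 ≤ 1 / 4 * (∑ r, (σ r - 1) * ∑ m, ν m * v r m ^ 2) * ‖Φ‖ ^ 2 ∧
      ∀ g : I → ℝ, ‖C.An (rv g) Φ + C.Cr (rv g) Φ‖ ^ 2 ≤
        (∑ r, (∑ m, v r m * g m) ^ 2 / σ r + 3 * κ * ∑ r, (∑ m, v r m * g m) ^ 2) * ‖Φ‖ ^ 2 := by
  have hs : ∀ r, 0 ≤ (σ r - 1) / (σ r + 1) ∧ (σ r - 1) / (σ r + 1) < 1 := fun r => by
    have := hσ r
    refine ⟨div_nonneg (by linarith) (by linarith), ?_⟩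
    rw [div_lt_one (by linarith)]; linarith
  obtain ⟨Φ, p1, p2, p3, -⟩ := C.squeeze (fun r => (σ r - 1) / (σ r + 1)) (rv_on hv) hΩ h1 hs h0
  refine ⟨Φ, p1, (p2 ν hν).trans (mul_le_mul_of_nonneg_right ?_ (sq_nonneg _)), fun g => ?_⟩
  · rw [Finset.mul_sum]
    refine Finset.sum_le_sum fun r _ => ?_
    have h2 := hσ r
    have h3 : ∑ m, ν m * ‖rv (v r) m‖ ^ 2 = ∑ m, ν m * v r m ^ 2 := by simp [rv]
    have h4 : ((σ r - 1) / (σ r + 1)) ^ 2 / (1 - ((σ r - 1) / (σ r + 1)) ^ 2) =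
        (σ r - 1) ^ 2 / (4 * σ r) := by
      have e : 1 - ((σ r - 1) / (σ r + 1)) ^ 2 = 4 * σ r / (σ r + 1) ^ 2 := by
        field_simp; ring
      rw [e]; field_simp
    rw [h3, h4, ← mul_assoc]
    refine mul_le_mul_of_nonneg_right ?_
      (Finset.sum_nonneg fun m _ => mul_nonneg (hν m) (sq_nonneg _))
    rw [div_le_iff₀ (by positivity)]
    nlinarith
  · have h2 := p3 fun r => ∑ m, v r m * g m
    rw [expand hv g] at h2
    have h3 : ∀ r, (∑ m, v r m * g m) ^ 2 *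
        ((1 - (σ r - 1) / (σ r + 1)) / (1 + (σ r - 1) / (σ r + 1))) =
        (∑ m, v r m * g m) ^ 2 / σ r := fun r => by
      have := hσ r
      have e1 : 1 - (σ r - 1) / (σ r + 1) = 2 / (σ r + 1) := by field_simp; ring
      have e2 : 1 + (σ r - 1) / (σ r + 1) = 2 * σ r / (σ r + 1) := by field_simp; ring
      rw [e1, e2]; field_simp
    simp only [h3] at h2
    refine (pow_le_pow_left₀ (norm_nonneg _) h2 2).trans ?_
    rw [mul_pow]
    refine mul_le_mul_of_nonneg_right (sq_le ?_ ?_ h0 hκ) (sq_nonneg _)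
    · exact Finset.sum_nonneg fun r _ => div_nonneg (sq_nonneg _) (by linarith [hσ r])
    · exact Finset.sum_le_sum fun r _ => div_le_self (sq_nonneg _) (hσ r)

end abs

variable {L Λ : ℝ} {N : ℕ}

theorem An_prodS (g : EuclideanSpace ℂ (Mode L Λ)) (Φ : Fk (Mode L Λ) ℂ) (φ : Tst N) :
    Fk.ccr.An g (prodS Φ φ) = prodS (Fk.ccr.An g Φ) φ := by
  simp only [CCR.An_apply, prodS, map_sum, map_smul, Fk.ccr, Fk.lift_a]

theorem Cr_prodS (g : EuclideanSpace ℂ (Mode L Λ)) (Φ : Fk (Mode L Λ) ℂ) (φ : Tst N) :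
    Fk.ccr.Cr g (prodS Φ φ) = prodS (Fk.ccr.Cr g Φ) φ := by
  simp only [CCR.Cr_apply, prodS, map_sum, map_smul, Fk.ccr, Fk.lift_c]

theorem ev_fD (w : Mode L Λ → EuclideanSpace ℂ (Mode L Λ)) {g : Mode L Λ → Fin 3 → V3 → ℝ}
    (hg : ∀ l, LL.Sm (g l)) (r : Fin N × Fin 3) (Φ : Fk (Mode L Λ) ℂ) (φ : Tst N)
    (σ : Fin N → Fin 2) (x : Fin N → V3) :
    Fk.lift (Tst.ev σ x) (LL.fD w (LL.PN N r) (LL.MN N g r) (prodS Φ φ)) =
      (Tst.p (dir r.1 r.2) φ).val σ x • Φ + φ.val σ x •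
        ∑ l, (g l r.2 (x r.1) : ℂ) • (Fk.ccr.An (w l) Φ + Fk.ccr.Cr (w l) Φ) := by
  simp only [LL.fD, An_prodS, Cr_prodS, map_add, map_sum, Finset.smul_sum]
  congr 1
  · ext n
    simp [LL.PN, val_prodS, mul_comm]
  · refine Finset.sum_congr rfl fun l _ => ?_
    ext n
    simp only [Fk.val_add, Fk.val_lift, Tst.ev_apply, LL.MN, LL.val_mulN (hg l r.2), val_prodS,
      Tst.val_smul, Pi.smul_apply, smul_eq_mul, Fk.val_smul]
    ring

theorem p_re {φ : Tst N} (h : ∀ σ x, (φ.val σ x).im = 0) (v : Fin N → V3) (σ : Fin N → Fin 2)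
    (x : Fin N → V3) : ((Tst.p v φ).val σ x).re = 0 := by
  have h1 := (Complex.imCLM.hasFDerivAt.comp x (φ.diff σ x).hasFDerivAt).fderiv
  have h2 : Complex.imCLM ∘ φ.val σ = fun _ => 0 := funext fun y => h σ y
  rw [h2, fderiv_fun_const] at h1
  have h3 : (fderiv ℝ (φ.val σ) x v).im = 0 := by
    simpa using (congrArg (fun A : (Fin N → V3) →L[ℝ] ℝ => A v) h1).symm
  simp [Tst.val_p, h3]

theorem int_F (φ : Tst N) {F : V3 → ℝ} (hF : Continuous F) (j : Fin N) (σ : Fin N → Fin 2) :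
    Integrable fun x => ‖φ.val σ x‖ ^ 2 * F (x j) := by
  have h1 : Continuous fun x => ‖φ.val σ x‖ ^ 2 := (φ.cont σ).norm.pow 2
  have h2 : Continuous fun x : Fin N → V3 => F (x j) := hF.comp (continuous_apply j)
  have h3 : HasCompactSupport fun x => ‖φ.val σ x‖ ^ 2 :=
    (φ.cpt σ).comp_left (g := fun z : ℂ => ‖z‖ ^ 2) (by simp)
  exact (h1.mul h2).integrable_of_hasCompactSupport h3.mul_right

theorem norm_fD (w : Mode L Λ → EuclideanSpace ℂ (Mode L Λ)) (hw : Orthonormal ℂ w)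
    {g : Mode L Λ → Fin 3 → V3 → ℝ} (hg : ∀ l, LL.Sm (g l)) (r : Fin N × Fin 3)
    (Φ : Fk (Mode L Λ) ℂ) {φ : Tst N} (h : ∀ σ x, (φ.val σ x).im = 0) {F : V3 → ℝ}
    (hF : Continuous F)
    (hb : ∀ y, ‖(rot Fk.ccr w hw).An (rv fun l => g l r.2 y) Φ +
      (rot Fk.ccr w hw).Cr (rv fun l => g l r.2 y) Φ‖ ^ 2 ≤ F y * ‖Φ‖ ^ 2) :
    ‖LL.fD w (LL.PN N r) (LL.MN N g r) (prodS Φ φ)‖ ^ 2 ≤
      (‖Tst.p (dir r.1 r.2) φ‖ ^ 2 + ∑ σ, ∫ x, ‖φ.val σ x‖ ^ 2 * F (x r.1)) * ‖Φ‖ ^ 2 := by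
  obtain ⟨h1, h2⟩ := norm_sq_fibre (LL.fD w (LL.PN N r) (LL.MN N g r) (prodS Φ φ))
  rw [h2, Tst.norm_sq_eq, ← Finset.sum_add_distrib, Finset.sum_mul]
  refine Finset.sum_le_sum fun σ _ => ?_
  have i1 := Tst.integrable_normSq (Tst.p (dir r.1 r.2) φ) σ
  have i2 := int_F φ hF r.1 σ
  rw [← integral_add i1 i2, ← integral_mul_const]
  refine integral_mono (h1 σ) ((i1.add i2).mul_const _) fun x => ?_
  have e := field_eq (rot Fk.ccr w hw) (fun l => g l r.2 (x r.1)) Φ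
  have e2 : ∑ l, (g l r.2 (x r.1) : ℂ) • (Fk.ccr.An (w l) Φ + Fk.ccr.Cr (w l) Φ) =
      (rot Fk.ccr w hw).An (rv fun l => g l r.2 (x r.1)) Φ +
        (rot Fk.ccr w hw).Cr (rv fun l => g l r.2 (x r.1)) Φ := e.symm
  simp only [ev_fD w hg, e2]
  rw [norm_cross _ _ _ _ (p_re h _ σ x) (h σ x) (field_real _ _ _), add_mul, mul_assoc]
  gcongr
  exact hb _

theorem c_eq {α : ℝ} (hα : 0 ≤ α) (ε : V3 → Fin 2 → V3) (u : Mode L Λ → ℝ) (i : Fin 3) (y : V3) :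
    (∑ m, u m * LL.gA α ε m i y) ^ 2 =
      α / 2 * ((∑ m, u m / √(om m) * tA ε i m y) * ∑ m, u m / √(om m) * tA ε i m y) := by
  have h1 : ∑ m, u m * LL.gA α ε m i y = √α / √2 * ∑ m, u m / √(om m) * tA ε i m y := by
    rw [Finset.mul_sum]
    refine Finset.sum_congr rfl fun m _ => ?_
    rw [gA_eq, Real.sqrt_mul (by norm_num : (0 : ℝ) ≤ 2)]
    ring
  rw [h1, mul_pow, div_pow, Real.sq_sqrt hα, Real.sq_sqrt (by norm_num : (0 : ℝ) ≤ 2), pow_two]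

end T45

open T45 in
theorem st_SQ (hRM : LL.St_RM) : St_SQ := by
  intro N L Λ α T ε φ ρ v σ hL hα hε hφ hρ hc h0 hv hσ
  obtain ⟨w, hw, hE⟩ := hRM L Λ ε hL hε
  set B : Mode L Λ → ℝ := fun r => bf (Am ε fun x => α * ρ x) (fun m => v r m / √(om m))
    (fun m => v r m / √(om m)) with hB
  set c : Mode L Λ → Fin 3 → V3 → ℝ := fun r i y => (∑ m, v r m * LL.gA α ε m i y) ^ 2 with hcd
  have cc : ∀ r i, Continuous (c r i) := fun r i =>
    (continuous_finsetSum _ fun m _ => continuous_const.mul (LL.gA_sm α ε m i).continuous).pow 2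
  have hi : ∀ r, Integrable fun y => ρ y * ∑ i, c r i y := fun r =>
    (hρ.mul (continuous_finsetSum _ fun i _ => cc r i)).integrable_of_hasCompactSupport
      hc.mul_right
  have hI : ∀ r, ∫ y, ρ y * ∑ i, c r i y = B r / 2 := fun r => by
    rw [hB]
    simp only
    rw [bf_Am ε (g := fun x => α * ρ x) (continuous_const.mul hρ) hc.mul_left, ← integral_div]
    congr 1
    ext y
    simp only [hcd, c_eq hα, ← Finset.mul_sum]
    ring
  have key : ∀ κ : ℝ, 0 < κ → κ ≤ 1 → E0 N α Λ L ε ≤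
      ((1 / 2 * T + 1 / 4 * (∑ r, (σ r - 1) * ∑ m, om m * v r m ^ 2 + ∑ r, B r / σ r) +
        κ * (3 / 4 * ∑ r, B r) : ℝ) : EReal) := by
    intro κ k0 k1
    obtain ⟨Φ, p1, p2, p3⟩ := sqz (rot Fk.ccr w hw) (Ω := Fk.vac)
      (fun m => Fk.ccr.An_vac Fk.a_vac _) Fk.norm_vac hv hσ (ν := om) (fun m => (om_pos m).le) k0 k1
    have hn := norm_prodS Φ φ
    have hp := hφ.pos
    refine E0_le α ε _ (prodS Φ φ) (isCore_prodS Φ φ hφ.anti) ?_ ?_
    · have h1 : 0 < ‖prodS Φ φ‖ ^ 2 := by rw [hn]; positivity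
      exact lt_of_le_of_ne (norm_nonneg _) fun h => by simp [← h] at h1
    set F : Fin 3 → V3 → ℝ := fun i y => ∑ r, c r i y / σ r + 3 * κ * ∑ r, c r i y with hF
    have cF : ∀ i, Continuous (F i) := fun i =>
      (continuous_finsetSum _ fun r _ => (cc r i).div_const _).add
        (continuous_const.mul (continuous_finsetSum _ fun r _ => cc r i))
    have e1 : ∑ l, LL.om l * ‖Fk.ccr.An (w l) (prodS Φ φ)‖ ^ 2 ≤
        1 / 4 * (∑ r, (σ r - 1) * ∑ m, om m * v r m ^ 2) * ‖Φ‖ ^ 2 * ‖φ‖ ^ 2 := by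
      simp only [An_prodS, norm_prodS, ← mul_assoc, ← Finset.sum_mul]
      exact mul_le_mul_of_nonneg_right p2 (sq_nonneg _)
    have e2 : ∑ r : Fin N × Fin 3,
        ‖LL.fD w (LL.PN N r) (LL.MN N (LL.gA α ε) r) (prodS Φ φ)‖ ^ 2 ≤ _ :=
      Finset.sum_le_sum fun r _ =>
        norm_fD w hw (LL.gA_sm α ε) r Φ hφ.real (cF r.2) fun y => p3 _
    have e3 : ∑ r : Fin N × Fin 3, ∑ s, ∫ x, ‖φ.val s x‖ ^ 2 * F r.2 (x r.1) =
        ‖φ‖ ^ 2 * ∫ y, ρ y * ∑ i, F i y := by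
      rw [← hφ.dens _ (continuous_finsetSum _ fun i _ => cF i), Fintype.sum_prod_type]
      refine Finset.sum_congr rfl fun j _ => ?_
      rw [Finset.sum_comm]
      refine Finset.sum_congr rfl fun s _ => ?_
      simp only [Finset.mul_sum]
      exact (integral_finsetSum _ fun i _ => int_F φ (cF i) j s).symm
    have e4 : ∫ y, ρ y * ∑ i, F i y = 1 / 2 * ∑ r, B r / σ r + κ * (3 / 2 * ∑ r, B r) := by
      have h1 : ∀ y, ρ y * ∑ i, F i y = ∑ r, (1 / σ r + 3 * κ) * (ρ y * ∑ i, c r i y) := fun y => by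
        simp only [hF, Finset.mul_sum, ← Finset.sum_add_distrib]
        rw [Finset.sum_comm]
        exact Finset.sum_congr rfl fun r _ => Finset.sum_congr rfl fun i _ => by ring
      simp only [h1]
      rw [integral_finsetSum _ fun r _ => (hi r).const_mul _]
      simp only [integral_const_mul, hI]
      simp only [Finset.mul_sum, ← Finset.sum_add_distrib]
      exact Finset.sum_congr rfl fun r _ => by ring
    have e5 : ∑ r : Fin N × Fin 3, ‖Tst.p (dir r.1 r.2) φ‖ ^ 2 = T * ‖φ‖ ^ 2 := by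
      rw [Fintype.sum_prod_type, hφ.kin]
    rw [← Finset.sum_mul, Finset.sum_add_distrib, e3, e4, e5] at e2
    rw [hE, LL.fE, hn]
    linarith
  have ht : Tendsto (fun κ : ℝ =>
      ((1 / 2 * T + 1 / 4 * (∑ r, (σ r - 1) * ∑ m, om m * v r m ^ 2 + ∑ r, B r / σ r) +
        κ * (3 / 4 * ∑ r, B r) : ℝ) : EReal)) (𝓝[>] 0) (𝓝 ((1 / 2 * T +
          1 / 4 * (∑ r, (σ r - 1) * ∑ m, om m * v r m ^ 2 + ∑ r, B r / σ r) : ℝ) : EReal)) := by
    refine (continuous_coe_real_ereal.tendsto _).comp (tendsto_nhdsWithin_of_tendsto_nhds ?_)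
    exact Continuous.tendsto' (by fun_prop) _ _ (by simp)
  refine ge_of_tendsto ht ?_
  filter_upwards [Ioc_mem_nhdsGT (zero_lt_one' ℝ)] with κ hκ using key κ hκ.1 hκ.2

end Pool.Agent.Lib.LS
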