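import Pool.Agent.Lib.LS.Base

set_option autoImplicit false

open MeasureTheory Filter Topology Metric Set
open scoped ComplexConjugate InnerProductSpace ContDiff

namespace Pool.Agent.Lib.LS

open Pool.Agent.Lib.MP_791321_mp

namespace T35

lemma one_dim {r : ℝ} (hr : 0 < r) (κ : ℝ) :
    ∫ h in Icc 0 r, Complex.exp (Complex.I * ((κ * h : ℝ) : ℂ)) *
      (1 + Complex.I * ((r * κ : ℝ) : ℂ) * ((h / r - 1 : ℝ) : ℂ)) = r := by
  have hd : ∀ h ∈ uIcc 0 r, HasDerivAt
      (fun h : ℝ => ((h : ℂ) - r) * Complex.exp (Complex.I * κ * h))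
      (Complex.exp (Complex.I * ((κ * h : ℝ) : ℂ)) *
        (1 + Complex.I * ((r * κ : ℝ) : ℂ) * ((h / r - 1 : ℝ) : ℂ))) h := fun h _ => by
    have h1 : HasDerivAt (fun h : ℝ => (h : ℂ)) 1 h := Complex.ofRealCLM.hasDerivAt
    have h2 := (h1.sub_const (r : ℂ)).mul (h1.const_mul (Complex.I * κ)).cexp
    have hr' : (r : ℂ) ≠ 0 := by exact_mod_cast hr.ne'
    refine HasDerivAt.congr_deriv h2 ?_
    push_cast
    rw [mul_assoc Complex.I κ h]
    field_simp
  rw [integral_Icc_eq_integral_Ioc, ← intervalIntegral.integral_of_le hr.le,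
    intervalIntegral.integral_eq_sub_of_hasDerivAt hd (Continuous.intervalIntegrable (by fun_prop) _ _)]
  simp

/-- the cube of displacements -/
def Q (r : ℝ) : Set (Fin 3 → ℝ) := Set.pi univ fun _ => Icc 0 r

lemma Q_cpt (r : ℝ) : IsCompact (Q r) := isCompact_univ_pi fun _ => isCompact_Icc

lemma three_dim {r : ℝ} (hr : 0 < r) (k : V3) :
    ∫ h in Q r, Complex.exp (Complex.I * (inner ℝ k (WithLp.toLp 2 h : V3) : ℝ)) *
      ∑ b : Finset (Fin 3), (∏ i ∈ b, (Complex.I * ((r * k i : ℝ) : ℂ))) *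
        ((∏ i ∈ b, (h i / r - 1) : ℝ) : ℂ) = ((r ^ 3 : ℝ) : ℂ) := by
  have h1 := integral_fintype_prod_eq_prod (𝕜 := ℂ) (E := fun _ : Fin 3 => ℝ)
    (μ := fun _ => volume.restrict (Icc 0 r))
    fun i h => Complex.exp (Complex.I * ((k i * h : ℝ) : ℂ)) *
      (1 + Complex.I * ((r * k i : ℝ) : ℂ) * ((h / r - 1 : ℝ) : ℂ))
  simp only [one_dim hr] at h1
  rw [← Measure.restrict_pi_pi, ← volume_pi, Finset.prod_const] at h1
  refine Eq.trans ?_ (h1.trans (by simp))
  refine integral_congr_ae (ae_of_all _ fun h => ?_)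
  simp only []
  rw [Finset.prod_mul_distrib, ← Complex.exp_sum, Finset.prod_one_add, Finset.powerset_univ]
  congr 1
  · congr 1
    rw [← Finset.mul_sum, ← Complex.ofReal_sum, PiLp.inner_apply]
    simp [mul_comm]
  · refine Finset.sum_congr rfl fun b _ => ?_
    rw [Complex.ofReal_prod, ← Finset.prod_mul_distrib]

variable {I : Type} [Fintype I]

lemma repro (k : I → V3) (c : I → ℂ) (x : V3) {r : ℝ} (hr : 0 < r) :
    ∫ h in Q r, ∑ b : Finset (Fin 3), (∏ i ∈ b, (h i / r - 1)) *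
      fld k (fun m => c m * ∏ i ∈ b, (Complex.I * ((r * k m i : ℝ) : ℂ))) (x + WithLp.toLp 2 h) =
      r ^ 3 * fld k c x := by
  let g : I → (Fin 3 → ℝ) → ℂ := fun m h =>
    c m * Complex.exp (Complex.I * (inner ℝ (k m) x : ℝ)) *
      (Complex.exp (Complex.I * (inner ℝ (k m) (WithLp.toLp 2 h : V3) : ℝ)) *
      ∑ b : Finset (Fin 3), (∏ i ∈ b, (Complex.I * ((r * k m i : ℝ) : ℂ))) *
        ((∏ i ∈ b, (h i / r - 1) : ℝ) : ℂ))
  have hg : ∀ m, IntegrableOn (g m) (Q r) := fun m =>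
    ContinuousOn.integrableOn_compact (Q_cpt r) (Continuous.continuousOn (by fun_prop))
  have e : ∀ h : Fin 3 → ℝ, ∑ b : Finset (Fin 3), (∏ i ∈ b, (h i / r - 1)) *
      fld k (fun m => c m * ∏ i ∈ b, (Complex.I * ((r * k m i : ℝ) : ℂ))) (x + WithLp.toLp 2 h) =
      Complex.reCLM (∑ m, g m h) := fun h => by
    simp only [fld, ← Complex.re_ofReal_mul, ← Complex.re_sum, Complex.reCLM_apply, g,
      Finset.mul_sum]
    rw [Finset.sum_comm]
    congr 1
    refine Finset.sum_congr rfl fun m _ => Finset.sum_congr rfl fun b _ => ?_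
    rw [inner_add_right, Complex.ofReal_add, mul_add, Complex.exp_add]
    ring
  simp only [e]
  rw [ContinuousLinearMap.integral_comp_comm _ (integrable_finsetSum _ fun m _ => hg m),
    integral_finsetSum _ fun m _ => hg m]
  simp only [g, integral_const_mul, three_dim hr]
  rw [← Finset.sum_mul, mul_comm, Complex.reCLM_apply, Complex.re_ofReal_mul, fld]

lemma move {g : V3 → ℝ} (hg : Continuous g) (h0 : ∀ y, 0 ≤ g y) (x : V3) {r : ℝ} (hr : 0 < r) :
    ∫ h in Q r, g (x + WithLp.toLp 2 h) ≤ ∫ y in ball x (2 * r), g y := by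
  have mp : MeasurePreserving (fun h : Fin 3 → ℝ => x + (WithLp.toLp 2 h : V3)) :=
    (measurePreserving_add_left volume x).comp (PiLp.volume_preserving_toLp (Fin 3))
  have me : MeasurableEmbedding (fun h : Fin 3 → ℝ => x + (WithLp.toLp 2 h : V3)) :=
    (measurableEmbedding_addLeft x).comp (MeasurableEquiv.toLp 2 (Fin 3 → ℝ)).measurableEmbedding
  have hi : IntegrableOn g (ball x (2 * r)) :=
    (hg.continuousOn.integrableOn_compact (isCompact_closedBall x (2 * r))).mono_set
      ball_subset_closedBall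
  rw [← mp.setIntegral_preimage_emb me]
  refine setIntegral_mono_set ((mp.integrableOn_comp_preimage me).2 hi) (ae_of_all _ fun h => h0 _)
    (LE.le.eventuallyLE fun h hh => ?_)
  rw [mem_preimage, mem_ball, dist_eq_norm, add_sub_cancel_left]
  refine lt_of_pow_lt_pow_left₀ 2 (by positivity) ?_
  rw [EuclideanSpace.real_norm_sq_eq, Fin.sum_univ_three]
  have a0 := hh 0 trivial
  have a1 := hh 1 trivial
  have a2 := hh 2 trivial
  simp only [mem_Icc] at a0 a1 a2
  nlinarith [a0.1, a0.2, a1.1, a1.2, a2.1, a2.2]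

end T35
open T35

theorem st_SUPF : St_SUPF := by
  intro I _ k c x r hr
  set f : Finset (Fin 3) → V3 → ℝ := fun b =>
    fld k (fun m => c m * ∏ i ∈ b, (Complex.I * ((r * k m i : ℝ) : ℂ))) with hf
  have fc : ∀ b, Continuous (f b) := fun b => fld_cont _ _
  set t := fld k c x
  let F : (Fin 3 → ℝ) → ℝ := fun h =>
    ∑ b : Finset (Fin 3), (∏ i ∈ b, (h i / r - 1)) * f b (x + WithLp.toLp 2 h)
  have hF : ∫ h in Q r, F h = r ^ 3 * t := repro k c x hr
  have iF : IntegrableOn F (Q r) :=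
    ContinuousOn.integrableOn_compact (Q_cpt r) (Continuous.continuousOn (by fun_prop))
  have ib : ∀ b, IntegrableOn (fun h : Fin 3 → ℝ => f b (x + WithLp.toLp 2 h) ^ 2) (Q r) := fun b =>
    ContinuousOn.integrableOn_compact (Q_cpt r) (Continuous.continuousOn (by fun_prop))
  have ic : IntegrableOn (fun _ : Fin 3 → ℝ => t ^ 2) (Q r) :=
    continuousOn_const.integrableOn_compact (Q_cpt r)
  have vol : volume.real (Q r) = r ^ 3 := by
    rw [measureReal_def, Q, volume_pi_pi]
    simp [hr.le]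
  have key : ∫ h in Q r, (2 * t * F h - t ^ 2) ≤
      ∫ h in Q r, 8 * ∑ b : Finset (Fin 3), f b (x + WithLp.toLp 2 h) ^ 2 := by
    refine setIntegral_mono_on ((iF.const_mul _).sub ic)
      ((integrable_finsetSum _ fun b _ => ib b).const_mul _) (Q_cpt r).measurableSet fun h hh => ?_
    have h1 : F h ^ 2 ≤ _ := sq_sum_le_card_mul_sum_sq
    have h2 : ∑ b : Finset (Fin 3), ((∏ i ∈ b, (h i / r - 1)) * f b (x + WithLp.toLp 2 h)) ^ 2 ≤
        ∑ b : Finset (Fin 3), f b (x + WithLp.toLp 2 h) ^ 2 := by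
      refine Finset.sum_le_sum fun b _ => ?_
      rw [mul_pow, ← Finset.prod_pow]
      refine mul_le_of_le_one_left (sq_nonneg _)
        (Finset.prod_le_one (fun i _ => sq_nonneg _) fun i _ => ?_)
      have a := hh i trivial
      have a1 : 0 ≤ h i / r := div_nonneg a.1 hr.le
      have a2 : h i / r ≤ 1 := (div_le_one hr).2 a.2
      nlinarith
    simp only [Finset.card_univ, Fintype.card_finset, Fintype.card_fin] at h1
    norm_num at h1
    nlinarith [sq_nonneg (F h - t)]
  rw [integral_sub (iF.const_mul _) ic, integral_const_mul, integral_const_mul, hF,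
    setIntegral_const, vol, smul_eq_mul, integral_finsetSum _ fun b _ => ib b] at key
  have h3 : ∑ b : Finset (Fin 3), ∫ h in Q r, f b (x + WithLp.toLp 2 h) ^ 2 ≤
      ∑ b : Finset (Fin 3), ∫ y in ball x (2 * r), f b y ^ 2 :=
    Finset.sum_le_sum fun b _ => move ((fc b).pow 2) (fun y => sq_nonneg _) x hr
  rw [div_mul_eq_mul_div, le_div_iff₀ (by positivity)]
  nlinarith

end Pool.Agent.Lib.LS
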