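import Pool.Agent.Lib.LS.Base

set_option autoImplicit false

open MeasureTheory Filter Topology Metric
open scoped ComplexConjugate InnerProductSpace ContDiff

namespace Pool.Agent.Lib.LS

open Pool.Agent.Lib.MP_791321_mp

namespace T91

/-- the smoothed distance -/
noncomputable def rho (s : ℝ) (y : V3) : ℝ := √(1 + (‖y‖ / s) ^ 2)

lemma rho_ge (s : ℝ) (y : V3) : ‖y‖ / s ≤ rho s y :=
  Real.le_sqrt_of_sq_le (by linarith)

lemma rho_nonneg (s : ℝ) (y : V3) : 0 ≤ rho s y := Real.sqrt_nonneg _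

lemma rho_add {s : ℝ} (hs : 0 < s) (a b : V3) : rho s (a + b) ≤ rho s a + ‖b‖ / s := by
  have hu : 0 ≤ ‖a‖ / s := by positivity
  have hv : 0 ≤ ‖b‖ / s := by positivity
  have h1 : ‖a + b‖ / s ≤ ‖a‖ / s + ‖b‖ / s := by
    rw [← add_div]; exact div_le_div_of_nonneg_right (norm_add_le a b) hs.le
  have h0 : 0 ≤ ‖a + b‖ / s := by positivity
  have h2 := rho_ge s a
  have h3 : rho s a ^ 2 = 1 + (‖a‖ / s) ^ 2 := Real.sq_sqrt (by positivity)
  have h4 := rho_nonneg s a
  unfold rho at h2 h3 h4 ⊢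
  refine Real.sqrt_le_iff.2 ⟨by positivity, ?_⟩
  nlinarith [mul_le_mul_of_nonneg_right h2 hv, pow_le_pow_left₀ h0 h1 2]

lemma rho_lip {s : ℝ} (hs : 0 < s) : LipschitzWith (Real.toNNReal (1 / s)) (rho s) := by
  refine LipschitzWith.of_le_add_mul' _ fun x y => ?_
  have := rho_add hs y (x - y)
  rw [add_sub_cancel] at this
  rw [dist_eq_norm]
  calc _ ≤ _ := this
    _ = _ := by ring

lemma rho_smooth (s : ℝ) : ContDiff ℝ 1 (rho s) := by
  have h : ContDiff ℝ 1 fun y : V3 => 1 + (‖y‖ / s) ^ 2 := by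
    simp only [div_pow]
    exact contDiff_const.add ((contDiff_norm_sq ℝ).div_const _)
  exact h.sqrt fun y => by positivity

/-- the kernel -/
noncomputable def w0 (s : ℝ) (y : V3) : ℝ := Real.exp (-rho s y)

lemma w0_pos (s : ℝ) (y : V3) : 0 < w0 s y := Real.exp_pos _

lemma w0_le_one (s : ℝ) (y : V3) : w0 s y ≤ 1 :=
  Real.exp_le_one_iff.2 (by linarith [rho_nonneg s y])

lemma w0_smooth (s : ℝ) : ContDiff ℝ 1 (w0 s) := (rho_smooth s).neg.exp

lemma w0_fderiv {s : ℝ} (hs : 0 < s) (y : V3) : ‖fderiv ℝ (w0 s) y‖ ≤ 1 / s * w0 s y := by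
  have hd : HasFDerivAt (rho s) (fderiv ℝ (rho s) y) y :=
    ((rho_smooth s).differentiable (by simp) y).hasFDerivAt
  have h1 : HasFDerivAt (w0 s) (Real.exp (-rho s y) • -fderiv ℝ (rho s) y) y := hd.neg.exp
  have h2 : ‖fderiv ℝ (rho s) y‖ ≤ 1 / s := by
    have := norm_fderiv_le_of_lipschitz ℝ (x₀ := y) (rho_lip hs)
    rwa [Real.coe_toNNReal _ (by positivity)] at this
  rw [h1.fderiv, norm_smul, norm_neg, Real.norm_eq_abs, abs_of_pos (Real.exp_pos _), mul_comm]
  exact mul_le_mul_of_nonneg_right h2 (Real.exp_pos _).le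

lemma w0_mul {s : ℝ} (hs : 0 < s) (a b : V3) : w0 s a * w0 s b ≤ w0 s (a + b) := by
  unfold w0
  rw [← Real.exp_add]
  exact Real.exp_le_exp.2 (by linarith [rho_add hs a b, rho_ge s b])

lemma w0_near {s : ℝ} (hs : 0 < s) {y : V3} (hy : ‖y‖ ≤ s) : 1 ≤ Real.exp 2 * w0 s y := by
  unfold w0
  rw [← Real.exp_add]
  refine Real.one_le_exp ?_
  have h1 : ‖y‖ / s ≤ 1 := (div_le_one hs).2 hy
  have h0 : 0 ≤ ‖y‖ / s := by positivity
  have : rho s y ≤ 2 := Real.sqrt_le_iff.2 ⟨by norm_num, by nlinarith⟩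
  linarith

lemma w0_far {s t : ℝ} (hs : 0 < s) {y : V3} (hy : t * s ≤ ‖y‖) : w0 s y ≤ Real.exp (-t) :=
  Real.exp_le_exp.2 (by linarith [rho_ge s y, (le_div_iff₀ hs).2 hy])

lemma intOn {g : V3 → ℝ} (hg : Continuous g) (a : V3) (r : ℝ) : IntegrableOn g (ball a r) :=
  (hg.continuousOn.integrableOn_compact (isCompact_closedBall a r)).mono_set ball_subset_closedBall

/-- the smoothed intensity -/
noncomputable def NN (s : ℝ) (J : V3 → ℝ) (a : V3) (r : ℝ) (x : V3) : ℝ :=
  ∫ z in ball a r, J z * w0 s (x - z)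

lemma cont_ker (s : ℝ) {J : V3 → ℝ} (hJ : Continuous J) (x : V3) :
    Continuous fun z => J z * w0 s (x - z) :=
  hJ.mul ((w0_smooth s).continuous.comp (continuous_const.sub continuous_id))

lemma cont_der (s : ℝ) : Continuous (fderiv ℝ (w0 s)) :=
  (w0_smooth s).continuous_fderiv (by simp)

lemma der_le {s : ℝ} (hs : 0 < s) {J : V3 → ℝ} (hJ0 : ∀ x, 0 ≤ J x) (x z : V3) :
    ‖J z • fderiv ℝ (w0 s) (x - z)‖ ≤ 1 / s * (J z * w0 s (x - z)) := by
  rw [norm_smul, Real.norm_eq_abs, abs_of_nonneg (hJ0 z)]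
  calc _ ≤ J z * (1 / s * w0 s (x - z)) := mul_le_mul_of_nonneg_left (w0_fderiv hs _) (hJ0 z)
    _ = _ := by ring

lemma der_le' {s : ℝ} (hs : 0 < s) {J : V3 → ℝ} (hJ0 : ∀ x, 0 ≤ J x) (x z : V3) :
    ‖J z • fderiv ℝ (w0 s) (x - z)‖ ≤ 1 / s * J z := by
  refine (der_le hs hJ0 x z).trans (mul_le_mul_of_nonneg_left ?_ (by positivity))
  exact mul_le_of_le_one_right (hJ0 z) (w0_le_one s _)

lemma NN_hasFDeriv {s : ℝ} (hs : 0 < s) {J : V3 → ℝ} (hJ : Continuous J) (hJ0 : ∀ x, 0 ≤ J x)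
    (a : V3) (r : ℝ) (x : V3) :
    HasFDerivAt (NN s J a r) (∫ z in ball a r, J z • fderiv ℝ (w0 s) (x - z)) x := by
  refine hasFDerivAt_integral_of_dominated_of_fderiv_le (𝕜 := ℝ) (s := Set.univ)
    (F := fun x z => J z * w0 s (x - z)) (F' := fun x z => J z • fderiv ℝ (w0 s) (x - z))
    (bound := fun z => 1 / s * J z) Filter.univ_mem
    (Eventually.of_forall fun y => (cont_ker s hJ y).aestronglyMeasurable)
    (intOn (cont_ker s hJ x) a r)
    ((hJ.smul ((cont_der s).comp (continuous_const.sub continuous_id))).aestronglyMeasurable)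
    (Eventually.of_forall fun z y _ => der_le' hs hJ0 y z)
    ((intOn hJ a r).const_mul _) (Eventually.of_forall fun z y _ => ?_)
  have h1 : HasFDerivAt (w0 s) (fderiv ℝ (w0 s) (y - z)) (y - z) :=
    ((w0_smooth s).differentiable (by simp) _).hasFDerivAt
  have h2 : HasFDerivAt (fun y : V3 => w0 s (y - z)) (fderiv ℝ (w0 s) (y - z)) y := by
    have h3 := h1.comp y ((hasFDerivAt_id y).sub_const z)
    rw [ContinuousLinearMap.comp_id] at h3
    exact h3
  exact h2.const_mul (J z)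

lemma NN_smooth {s : ℝ} (hs : 0 < s) {J : V3 → ℝ} (hJ : Continuous J) (hJ0 : ∀ x, 0 ≤ J x)
    (a : V3) (r : ℝ) : ContDiff ℝ 1 (NN s J a r) := by
  rw [contDiff_one_iff_fderiv]
  refine ⟨fun x => (NN_hasFDeriv hs hJ hJ0 a r x).differentiableAt, ?_⟩
  have e : fderiv ℝ (NN s J a r) = fun x => ∫ z in ball a r, J z • fderiv ℝ (w0 s) (x - z) :=
    funext fun x => (NN_hasFDeriv hs hJ hJ0 a r x).fderiv
  rw [e]
  exact continuous_of_dominated (bound := fun z => 1 / s * J z)
    (fun x => (hJ.smul ((cont_der s).comp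
      (continuous_const.sub continuous_id))).aestronglyMeasurable)
    (fun x => Eventually.of_forall fun z => der_le' hs hJ0 x z)
    ((intOn hJ a r).const_mul _)
    (Eventually.of_forall fun z => ((cont_der s).comp
      (continuous_id.sub continuous_const)).const_smul (J z))

lemma NN_nonneg (s : ℝ) {J : V3 → ℝ} (hJ0 : ∀ x, 0 ≤ J x) (a : V3) (r : ℝ) (x : V3) :
    0 ≤ NN s J a r x :=
  integral_nonneg fun z => mul_nonneg (hJ0 z) (w0_pos s _).le

lemma NN_fderiv {s : ℝ} (hs : 0 < s) {J : V3 → ℝ} (hJ : Continuous J) (hJ0 : ∀ x, 0 ≤ J x)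
    (a : V3) (r : ℝ) (x : V3) : ‖fderiv ℝ (NN s J a r) x‖ ≤ 1 / s * NN s J a r x := by
  rw [(NN_hasFDeriv hs hJ hJ0 a r x).fderiv, NN, ← integral_const_mul]
  exact norm_integral_le_of_norm_le ((intOn (cont_ker s hJ x) a r).const_mul _)
    (Eventually.of_forall fun z => der_le hs hJ0 x z)

lemma NN_shift {s : ℝ} (hs : 0 < s) {J : V3 → ℝ} (hJ : Continuous J) (hJ0 : ∀ x, 0 ≤ J x)
    (a : V3) (r : ℝ) (x y : V3) : w0 s (x - y) * NN s J a r y ≤ NN s J a r x := by
  rw [NN, NN, ← integral_const_mul]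
  refine integral_mono ((intOn (cont_ker s hJ y) a r).const_mul _) (intOn (cont_ker s hJ x) a r)
    fun z => ?_
  have h := w0_mul hs (x - y) (y - z)
  rw [sub_add_sub_cancel] at h
  calc w0 s (x - y) * (J z * w0 s (y - z)) = J z * (w0 s (x - y) * w0 s (y - z)) := by ring
    _ ≤ _ := mul_le_mul_of_nonneg_left h (hJ0 z)

lemma NN_near {s : ℝ} (hs : 0 < s) {J : V3 → ℝ} (hJ : Continuous J) (hJ0 : ∀ x, 0 ≤ J x)
    {a : V3} {r : ℝ} {x : V3} (hx : ball x s ⊆ ball a r) :
    ∫ y in ball x s, J y ≤ Real.exp 2 * NN s J a r x := by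
  calc ∫ y in ball x s, J y ≤ ∫ y in ball x s, Real.exp 2 * (J y * w0 s (x - y)) := by
        refine setIntegral_mono_on (intOn hJ x s) ((intOn (cont_ker s hJ x) x s).const_mul _)
          measurableSet_ball fun y hy => ?_
        have h1 : ‖x - y‖ ≤ s := by
          rw [mem_ball, dist_comm, dist_eq_norm] at hy; exact hy.le
        have := mul_le_mul_of_nonneg_left (w0_near hs h1) (hJ0 y)
        linarith
    _ ≤ ∫ y in ball a r, Real.exp 2 * (J y * w0 s (x - y)) :=
        setIntegral_mono_set ((intOn (cont_ker s hJ x) a r).const_mul _)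
          (Eventually.of_forall fun y =>
            mul_nonneg (Real.exp_pos _).le (mul_nonneg (hJ0 y) (w0_pos s _).le))
          hx.eventuallyLE
    _ = _ := by rw [integral_const_mul, NN]

lemma NN_split {s t : ℝ} (hs : 0 < s) {J τ : V3 → ℝ} (hJ : Continuous J) (hJ0 : ∀ x, 0 ≤ J x)
    (hτ : Continuous τ) (hτ0 : ∀ x, 0 < τ x ∧ τ x ≤ 1) (a : V3) {r r' : ℝ} (hr : r ≤ r') (x : V3)
    (h : ∀ y, w0 s (x - y) * τ x ≤ τ y) :
    τ x * NN s J a r x ≤ (∫ y in ball x (t * s), τ y * J y) +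
      Real.exp (-t) * ∫ y in ball a r', J y := by
  have i1 : IntegrableOn (fun y => τ y * J y) (ball x (t * s)) := intOn (hτ.mul hJ) _ _
  have i2 : Integrable ((ball x (t * s)).indicator fun y => τ y * J y) :=
    (integrable_indicator_iff measurableSet_ball).2 i1
  have p1 : ∀ y, 0 ≤ (ball x (t * s)).indicator (fun y => τ y * J y) y := fun y =>
    Set.indicator_nonneg (fun z _ => mul_nonneg (hτ0 z).1.le (hJ0 z)) y
  calc τ x * NN s J a r x = ∫ z in ball a r, τ x * (J z * w0 s (x - z)) := by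
        rw [integral_const_mul, NN]
    _ ≤ ∫ z in ball a r, ((ball x (t * s)).indicator (fun y => τ y * J y) z +
          Real.exp (-t) * J z) := by
        refine integral_mono ((intOn (cont_ker s hJ x) a r).const_mul _)
          (i2.integrableOn.add ((intOn hJ a r).const_mul _)) fun z => ?_
        have hz := hJ0 z
        by_cases hb : z ∈ ball x (t * s)
        · simp only [Set.indicator_of_mem hb]
          have := mul_le_mul_of_nonneg_right (h z) hz
          have h2 : 0 ≤ Real.exp (-t) * J z := mul_nonneg (Real.exp_pos _).le hz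
          linarith
        · simp only [Set.indicator_of_notMem hb, zero_add]
          have h1 : t * s ≤ ‖x - z‖ := by
            rw [mem_ball, dist_comm, dist_eq_norm, not_lt] at hb; exact hb
          have h2 := mul_le_mul_of_nonneg_right (w0_far hs h1) hz
          have h3 : τ x * (J z * w0 s (x - z)) ≤ J z * w0 s (x - z) :=
            mul_le_of_le_one_left (mul_nonneg hz (w0_pos s _).le) (hτ0 x).2
          linarith
    _ = (∫ z in ball a r, (ball x (t * s)).indicator (fun y => τ y * J y) z) +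
          Real.exp (-t) * ∫ z in ball a r, J z := by
        rw [integral_add i2.integrableOn ((intOn hJ a r).const_mul _), integral_const_mul]
    _ ≤ _ := by
        refine add_le_add ?_ (mul_le_mul_of_nonneg_left ?_ (Real.exp_pos _).le)
        · rw [← integral_indicator measurableSet_ball (s := ball x (t * s))]
          exact setIntegral_le_integral i2 (Eventually.of_forall p1)
        · exact setIntegral_mono_set (intOn hJ a r') (Eventually.of_forall hJ0)
            (ball_subset_ball hr).eventuallyLE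

end T91

open T91 in
theorem st_TAU : St_TAU := by
  refine ⟨Real.exp 2, Real.one_le_exp (by norm_num), ?_⟩
  intro J a l s t W Γ E K hJ hJ0 hs hsl ht hW hΓ hE hEΓ hK h1 h2
  set N : V3 → ℝ := NN s J a (3 * l) with hN
  have hN0 : ∀ x, 0 ≤ N x := NN_nonneg s hJ0 a _
  have hD : ∀ x, 0 < Γ + W * N x := fun x => add_pos_of_pos_of_nonneg hΓ (mul_nonneg hW.le (hN0 x))
  have hNs : ContDiff ℝ 1 N := NN_smooth hs hJ hJ0 a _
  have hsm : ContDiff ℝ 1 fun x => Γ / (Γ + W * N x) :=
    contDiff_const.div (contDiff_const.add (contDiff_const.mul hNs)) fun x => (hD x).ne'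
  have hτ0 : ∀ x, 0 < Γ / (Γ + W * N x) ∧ Γ / (Γ + W * N x) ≤ 1 := fun x =>
    ⟨div_pos hΓ (hD x), (div_le_one (hD x)).2 (by nlinarith [mul_nonneg hW.le (hN0 x)])⟩
  have he : (1 : ℝ) ≤ Real.exp 2 := Real.one_le_exp (by norm_num)
  refine ⟨fun x => Γ / (Γ + W * N x), hsm, hτ0, fun x _ => ?_, fun x hx => ?_, fun x _ => ?_⟩
  · have hd : HasFDerivAt N (fderiv ℝ N x) x := (hNs.differentiable (by simp) x).hasFDerivAt
    have hg : HasDerivAt (fun u : ℝ => Γ / (Γ + W * u)) (-(Γ * W) / (Γ + W * N x) ^ 2) (N x) := by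
      have := (hasDerivAt_const (N x) Γ).div (((hasDerivAt_id (N x)).const_mul W).const_add Γ)
        (hD x).ne'
      refine HasDerivAt.congr_deriv this ?_
      simp
    have h3 : HasFDerivAt (fun x => Γ / (Γ + W * N x))
        ((-(Γ * W) / (Γ + W * N x) ^ 2) • fderiv ℝ N x) x := hg.comp_hasFDerivAt x hd
    rw [h3.fderiv, norm_smul, Real.norm_eq_abs, neg_div, abs_neg, abs_of_nonneg (by positivity)]
    have h4 : ‖fderiv ℝ N x‖ ≤ 1 / s * N x := NN_fderiv hs hJ hJ0 a _ x
    have h5 : W * N x / (Γ + W * N x) ≤ 1 := (div_le_one (hD x)).2 (by linarith)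
    have h6 := hD x
    calc _ ≤ Γ * W / (Γ + W * N x) ^ 2 * (1 / s * N x) :=
          mul_le_mul_of_nonneg_left h4 (by positivity)
      _ = 1 / s * (Γ / (Γ + W * N x)) * (W * N x / (Γ + W * N x)) := by field_simp
      _ ≤ _ := mul_le_of_le_one_right (mul_nonneg (by positivity) (hτ0 x).1.le) h5
  · have hsub : ball x s ⊆ ball a (3 * l) :=
      ball_subset_ball' (by rw [mem_ball] at hx; linarith)
    have h3 : ∫ y in ball x s, J y ≤ Real.exp 2 * N x := NN_near hs hJ hJ0 hsub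
    have h4 : J x ≤ K * (W * (Real.exp 2 * N x)) + Γ := by
      have := mul_le_mul_of_nonneg_left (mul_le_mul_of_nonneg_left h3 hW.le) hK
      linarith [h1 x hx]
    have h5 : J x ≤ Real.exp 2 * (K + 1) * (Γ + W * N x) := by
      have a1 : 0 ≤ W * N x := mul_nonneg hW.le (hN0 x)
      have a2 : 0 ≤ Real.exp 2 * K * Γ := by positivity
      have a3 : 0 ≤ Real.exp 2 * (W * N x) := by positivity
      have a4 : Γ ≤ Real.exp 2 * Γ := le_mul_of_one_le_left hΓ.le he
      nlinarith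
    show Γ / (Γ + W * N x) * J x ≤ _
    rw [div_mul_eq_mul_div, div_le_iff₀ (hD x)]
    nlinarith [mul_le_mul_of_nonneg_left h5 hΓ.le]
  · have hl : 3 * l ≤ 4 * l := by linarith
    have h3 := NN_split (t := t) (τ := fun x => Γ / (Γ + W * N x)) hs hJ hJ0 hsm.continuous hτ0 a
      hl x (fun y => by
        have b1 : w0 s (x - y) * N y ≤ N x := NN_shift hs hJ hJ0 a _ x y
        have b2 : w0 s (x - y) * Γ ≤ Γ := mul_le_of_le_one_left hΓ.le (w0_le_one s _)
        have b3 : w0 s (x - y) * (Γ + W * N y) ≤ Γ + W * N x := by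
          nlinarith [mul_le_mul_of_nonneg_left b1 hW.le]
        rw [← mul_div_assoc, div_le_div_iff₀ (hD x) (hD y)]
        nlinarith [mul_le_mul_of_nonneg_left b3 hΓ.le])
    have h4 : Γ * (1 - Γ / (Γ + W * N x)) = W * (Γ / (Γ + W * N x) * N x) := by
      have := (hD x).ne'
      field_simp
      ring
    have h5 : 0 ≤ ∫ y in ball x (t * s), Γ / (Γ + W * N y) * J y :=
      integral_nonneg fun y => mul_nonneg (hτ0 y).1.le (hJ0 y)
    have h6 := mul_le_mul_of_nonneg_left h3 hW.le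
    have h7 := le_mul_of_one_le_left (mul_nonneg hW.le h5) he
    show Γ * (1 - Γ / (Γ + W * N x)) ≤
      Real.exp 2 * W * (∫ y in ball x (t * s), Γ / (Γ + W * N y) * J y) + E
    rw [h4]
    nlinarith

end Pool.Agent.Lib.LS
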