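import Pool.Agent.Lib.LS.Base

set_option autoImplicit false

open MeasureTheory Filter Topology Metric
open scoped ComplexConjugate InnerProductSpace ContDiff

namespace Pool.Agent.Lib.LS

open Pool.Agent.Lib.MP_791321_mp

namespace T8

/-- the matrix of the orthogonal projection onto a span -/
theorem proj {I G : Type} [Fintype I] [DecidableEq I] [Fintype G] (g : G → I → ℝ) :
    ∃ Pr : Matrix I I ℝ, Pr.transpose = Pr ∧ Pr * Pr = Pr ∧ ∑ m, Pr m m ≤ Fintype.card G ∧
      ∀ (t : I → ℝ) (a : G → ℝ),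
        ∑ m', (∑ m, (1 - Pr) m' m * t m) ^ 2 ≤ ∑ m, (t m - ∑ γ, a γ * g γ m) ^ 2 := by
  let g' : G → EuclideanSpace ℝ I := fun γ => WithLp.toLp 2 (g γ)
  let U : Submodule ℝ (EuclideanSpace ℝ I) := Submodule.span ℝ (Set.range g')
  let b := stdOrthonormalBasis ℝ U
  let Pr : Matrix I I ℝ := fun m m' => ∑ r, (b r).1 m * (b r).1 m'
  have hP : ∀ (t : EuclideanSpace ℝ I) (m' : I),
      U.starProjection t m' = ∑ m, Pr m' m * t m := fun t m' => by
    rw [b.starProjection_eq_sum_rankOne]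
    simp only [Pr, Finset.sum_mul]
    rw [Finset.sum_comm]
    simp [PiLp.inner_apply, Finset.mul_sum, mul_comm, mul_left_comm]
  refine ⟨Pr, ?_, ?_, ?_, fun t a => ?_⟩
  · ext m m'
    simp only [Pr, Matrix.transpose_apply, mul_comm]
  · ext m m'
    have h1 : ∀ l, U.starProjection (EuclideanSpace.single m' 1) l = Pr l m' := fun l => by
      simp [hP]
    rw [Matrix.mul_apply, ← h1 m]
    simp only [← h1]
    rw [← Submodule.starProjection_eq_self_iff.mpr
      (U.starProjection_apply_mem (EuclideanSpace.single m' 1)), hP]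
    simp only [h1, Submodule.starProjection_eq_self_iff.mpr
      (U.starProjection_apply_mem (EuclideanSpace.single m' 1))]
  · have h1 : ∀ r, ∑ m, (b r).1 m * (b r).1 m = 1 := fun r => by
      have h2 : ‖(b r).1‖ = 1 := b.orthonormal.1 r
      have h3 := EuclideanSpace.real_norm_sq_eq (b r).1
      rw [h2] at h3
      simpa [sq] using h3.symm
    simp only [Pr]
    rw [Finset.sum_comm]
    simp only [h1, Finset.sum_const, Finset.card_univ, Fintype.card_fin, nsmul_eq_mul, mul_one]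
    exact_mod_cast finrank_range_le_card (R := ℝ) g'
  · let t' : EuclideanSpace ℝ I := WithLp.toLp 2 t
    have hu : ∑ γ, a γ • g' γ ∈ U :=
      U.sum_mem fun γ _ => U.smul_mem _ (Submodule.subset_span ⟨γ, rfl⟩)
    have h1 : ‖t' - U.starProjection t'‖ ≤ ‖t' - ∑ γ, a γ • g' γ‖ := by
      rw [Submodule.starProjection_minimal]
      exact ciInf_le ⟨0, by rintro _ ⟨x, rfl⟩; exact norm_nonneg _⟩ (⟨_, hu⟩ : U)
    have h2 := pow_le_pow_left₀ (norm_nonneg _) h1 2
    rw [EuclideanSpace.real_norm_sq_eq, EuclideanSpace.real_norm_sq_eq] at h2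
    simpa [hP, t', g', sub_mul, Matrix.one_apply] using h2

/-- Taylor expansion of the real mode function -/
theorem taylor {M : ℕ} (hM : 1 ≤ M) (θ φ δ : ℝ) (h : |φ| ≤ δ) (h1 : δ ≤ 1) :
    (Real.cos (θ + φ) + Real.sin (θ + φ) - ∑ j : Fin M, φ ^ (j : ℕ) *
      ((1 - Complex.I) * Complex.exp (θ * Complex.I) * Complex.I ^ (j : ℕ) /
        (j : ℕ).factorial).re) ^ 2 ≤ 16 * δ ^ (2 * M) := by
  have hx : ‖(φ * Complex.I : ℂ)‖ = |φ| := by simp
  have hb := Complex.exp_bound (hx.le.trans (h.trans h1)) hM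
  have hM' : (1 : ℝ) ≤ M := by exact_mod_cast hM
  have hf : (1 : ℝ) ≤ M.factorial := by exact_mod_cast M.factorial_pos
  have h2 : (M.succ : ℝ) * (M.factorial * M : ℝ)⁻¹ ≤ 2 := by
    rw [← div_eq_mul_inv, div_le_iff₀ (by positivity)]
    push_cast
    nlinarith
  have h3 : ‖(1 - Complex.I : ℂ)‖ ≤ 2 := (norm_sub_le _ _).trans (by norm_num)
  have e : Real.cos (θ + φ) + Real.sin (θ + φ) - ∑ j : Fin M, φ ^ (j : ℕ) *
      ((1 - Complex.I) * Complex.exp (θ * Complex.I) * Complex.I ^ (j : ℕ) /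
        (j : ℕ).factorial).re = ((1 - Complex.I) * Complex.exp (θ * Complex.I) *
      (Complex.exp (φ * Complex.I) - ∑ m ∈ Finset.range M, (φ * Complex.I) ^ m / m.factorial)).re := by
    rw [mul_sub, Complex.sub_re, mul_assoc, ← Complex.exp_add, ← add_mul, ← Complex.ofReal_add,
      Finset.mul_sum, Complex.re_sum, Finset.sum_range]
    congr 1
    · rw [Complex.exp_mul_I, ← Complex.ofReal_cos, ← Complex.ofReal_sin]
      simp only [Complex.mul_re, Complex.mul_im, Complex.sub_re, Complex.sub_im, Complex.add_re,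
        Complex.add_im, Complex.one_re, Complex.one_im, Complex.I_re, Complex.I_im,
        Complex.ofReal_re, Complex.ofReal_im]
      ring
    · refine Finset.sum_congr rfl fun j _ => ?_
      rw [← Complex.re_ofReal_mul]
      congr 1
      push_cast
      ring
  have h4 : |φ| ^ M ≤ δ ^ M := pow_le_pow_left₀ (abs_nonneg _) h M
  have h5 : 0 ≤ δ ^ M := (pow_nonneg (abs_nonneg _) M).trans h4
  rw [e, ← sq_abs, show 16 * δ ^ (2 * M) = (2 * (δ ^ M * 2)) ^ 2 by ring]
  refine pow_le_pow_left₀ (abs_nonneg _) ((Complex.abs_re_le_norm _).trans ?_) 2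
  rw [norm_mul, norm_mul, Complex.norm_exp_ofReal_mul_I, mul_one]
  refine mul_le_mul h3 (hb.trans ?_) (norm_nonneg _) zero_le_two
  rw [hx]
  exact mul_le_mul h4 h2 (by positivity) h5

end T8

open T8

theorem st_TAY (hCELL : St_CELL) (hLAT : St_LAT) : St_TAY := by
  intro M hM
  let W := (j : Fin M) × (Fin j → Fin 3)
  refine ⟨1536 * Fintype.card W + 16, by positivity, fun L Λ l δ ε a hL hΛ hε hδ hδ1 hδl => ?_⟩
  have hs : 0 < δ / (2 * Λ) := by positivity
  have hs2 : 2 * (δ / (2 * Λ)) = δ / Λ := by field_simp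
  have hl : 0 < l := pos_of_mul_pos_left (hδ.trans_le (hδl.trans_eq (mul_comm _ _))) hΛ.le
  obtain ⟨n, c, hc⟩ := hCELL a l _ hs (by rw [hs2, div_le_iff₀ hΛ]; linarith)
  have hne : ∀ i, (c i).Nonempty := fun i => nonempty_of_measure_ne_zero (μ := volume) (by
    rw [hc.vol]
    exact (ENNReal.ofReal_pos.mpr (by positivity)).ne')
  choose p hp using hne
  let g : Fin n × Fin 3 × W → Mode L Λ → ℝ := fun γ m =>
    ε (kk m) m.2 γ.2.1 / √(L ^ 3) / √(om m) * ((∏ t, kk m (γ.2.2.2 t)) *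
      ((1 - Complex.I) * Complex.exp ((inner ℝ (kk m) (p γ.1) : ℝ) * Complex.I) *
        Complex.I ^ (γ.2.2.1 : ℕ) / (γ.2.2.1 : ℕ).factorial).re)
  obtain ⟨Pr, p1, p2, p3, p4⟩ := proj g
  refine ⟨Pr, p1, p2, p3.trans ?_, fun x hx => ?_⟩
  · have h1 : (n : ℝ) ≤ 512 * (l * Λ / δ) ^ 3 := by
      have := hc.card
      rw [← le_div_iff₀ (by positivity)] at this
      refine this.trans_eq ?_
      field_simp
      norm_num
    simp only [Fintype.card_prod, Fintype.card_fin]
    push_cast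
    have h2 : (0 : ℝ) ≤ Fintype.card W := by positivity
    have h3 : 0 ≤ (l * Λ / δ) ^ 3 := by positivity
    nlinarith
  · obtain ⟨i₀, hi⟩ := Set.mem_iUnion.mp (hc.cover hx)
    have hy : ‖x - p i₀‖ ≤ δ / Λ := hs2 ▸ hc.diam i₀ x hi _ (hp i₀)
    have key : ∀ i, ∑ m', (∑ m, (1 - Pr) m' m / √(om m) * tA ε i m x) ^ 2 ≤
        ∑ m : Mode L Λ, ε (kk m) m.2 i ^ 2 * (1 / om m / L ^ 3 * (16 * δ ^ (2 * M))) := fun i => by
      have h := p4 (fun m => tA ε i m x / √(om m))
        fun γ => if γ.1 = i₀ ∧ γ.2.1 = i then ∏ t, (x - p i₀) (γ.2.2.2 t) else 0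
      refine le_trans (le_of_eq ?_) (h.trans (Finset.sum_le_sum fun m _ => ?_))
      · simp only [div_mul_eq_mul_div, mul_div_assoc]
      have hφ : |inner ℝ (kk m) (x - p i₀)| ≤ δ := (abs_real_inner_le_norm _ _).trans (by
        refine (mul_le_mul (kk_lt m).le hy (norm_nonneg _) hΛ.le).trans_eq ?_
        field_simp)
      have ht := taylor hM (inner ℝ (kk m) (p i₀)) _ δ hφ hδ1
      rw [← inner_add_right, add_sub_cancel] at ht
      have e : ∑ γ : Fin n × Fin 3 × W,
          (if γ.1 = i₀ ∧ γ.2.1 = i then ∏ t, (x - p i₀) (γ.2.2.2 t) else 0) * g γ m =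
          ε (kk m) m.2 i / √(L ^ 3) / √(om m) * ∑ j : Fin M, inner ℝ (kk m) (x - p i₀) ^ (j : ℕ) *
            ((1 - Complex.I) * Complex.exp ((inner ℝ (kk m) (p i₀) : ℝ) * Complex.I) *
              Complex.I ^ (j : ℕ) / (j : ℕ).factorial).re := by
        simp only [Fintype.sum_prod_type, ite_and, ite_mul, zero_mul, Finset.sum_ite_irrel,
          Finset.sum_const_zero, Finset.sum_ite_eq', Finset.mem_univ, if_true, W,
          Fintype.sum_sigma, g, V3_inner (kk m) (x - p i₀), Fintype.sum_pow, Finset.mul_sum,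
          Finset.sum_mul, Finset.prod_mul_distrib]
        exact Finset.sum_congr rfl fun j _ => Finset.sum_congr rfl fun w _ => by ring
      have hV : √(L ^ 3) ^ 2 = L ^ 3 := Real.sq_sqrt (by positivity)
      have ho : √(om m) ^ 2 = om m := Real.sq_sqrt (om_pos m).le
      rw [e, tA, mul_div_right_comm, mul_div_right_comm, ← mul_sub, mul_pow, div_pow, div_pow,
        hV, ho]
      have := om_pos m
      refine (mul_le_mul_of_nonneg_left ht (by positivity)).trans_eq ?_
      ring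
    refine (Finset.sum_le_sum fun i _ => key i).trans ?_
    rw [Finset.sum_comm]
    simp only [← Finset.sum_mul, pol_sq hε (kk_ne _), one_mul, ← Finset.sum_div]
    have h1 := hLAT.2.2.1 L Λ Λ hL hΛ.le
    simp only [om_lt, if_true] at h1
    have h2 : (0 : ℝ) ≤ Fintype.card W := by positivity
    have h3 : 0 ≤ δ ^ (2 * M) := by positivity
    have h4 : 0 ≤ Fintype.card W * δ ^ (2 * M) * Λ ^ 2 := by positivity
    nlinarith [mul_le_mul_of_nonneg_right h1 h3]

end Pool.Agent.Lib.LS
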