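import Pool.Agent.Lib.LS.Base

set_option autoImplicit false

namespace Pool.Agent.Lib.LS

open Pool.Agent.Lib.MP_791321_mp

theorem st_TR : St_TR := by
  intro L Λ ε hL hε g x
  have h3 : 0 < L ^ 3 := by positivity
  have h1 : ∀ m : Mode L Λ, g (om m) * ∑ i, tA ε i m x ^ 2 =
      g (om m) / L ^ 3 + g (om m) / L ^ 3 *
        (2 * Real.sin (inner ℝ (kk m) x) * Real.cos (inner ℝ (kk m) x)) := by
    intro m
    have h2 : ∀ i, tA ε i m x ^ 2 = ε (kk m) m.2 i ^ 2 *
        ((1 + 2 * Real.sin (inner ℝ (kk m) x) * Real.cos (inner ℝ (kk m) x)) / L ^ 3) := by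
      intro i
      rw [tA, div_pow, Real.sq_sqrt h3.le, mul_pow, mul_div_assoc]
      congr 2
      linear_combination Real.sin_sq_add_cos_sq (inner ℝ (kk m) x)
    simp only [h2, ← Finset.sum_mul, pol_sq hε (kk_ne m), one_mul]
    ring
  have h4 : ∑ m : Mode L Λ, g (om m) / L ^ 3 *
      (2 * Real.sin (inner ℝ (kk m) x) * Real.cos (inner ℝ (kk m) x)) = 0 := by
    rw [Fintype.sum_prod_type, Finset.sum_comm]
    refine Finset.sum_eq_zero fun μ _ => ?_
    have h5 : ∑ z : Kset L Λ, g ‖mom L z‖ / L ^ 3 *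
        (2 * Real.sin (inner ℝ (mom L z) x) * Real.cos (inner ℝ (mom L z) x)) =
        -∑ z : Kset L Λ, g ‖mom L z‖ / L ^ 3 *
        (2 * Real.sin (inner ℝ (mom L z) x) * Real.cos (inner ℝ (mom L z) x)) := by
      conv_lhs => rw [sum_flip (fun _ => -1) (fun _ => by simp)]
      simp only [mom_neg, norm_neg, inner_neg_left, Real.sin_neg, Real.cos_neg,
        ← Finset.sum_neg_distrib]
      exact Finset.sum_congr rfl fun _ _ => by ring
    show ∑ z : Kset L Λ, g ‖mom L z‖ / L ^ 3 *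
        (2 * Real.sin (inner ℝ (mom L z) x) * Real.cos (inner ℝ (mom L z) x)) = 0
    linarith
  simp only [h1, Finset.sum_add_distrib, h4, add_zero, Finset.sum_div]

end Pool.Agent.Lib.LS
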