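import Pool.Agent.Lib.LS.Blue

set_option autoImplicit false

open MeasureTheory Filter Topology Metric

namespace Pool.Agent.Lib.LS

open Pool.Agent.Lib.MP_791321_mp

namespace T28

/-- The errors are of lower order. -/
theorem arith {N b c P T A α δ p x : ℝ} (hN : 0 ≤ N) (hb : 0 < b) (hc : 0 < c) (hP : 0 < P)
    (hT : 0 ≤ T) (hα : 0 ≤ α) (hp : 0 < p) (hx : 2 ≤ x)
    (hK : c * b ^ 2 * P ^ 3 + α * N * b ^ 4 * (c + 1 + 12 / p + T) < δ * b ^ 4 * x) :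
    1 / 2 * (N * (T / (1 / (b * x ^ 84)) ^ 4)) +
      p * b * ((b ^ 2 * x ^ 196) ^ 3 / p) * (A * (1 / (b * x ^ 84)) ^ 3) +
      x ^ 40 * (b ^ 2 * x ^ 196) *
        (c * ((1 / (b * x ^ 84)) ^ 2 * P * (b ^ 2 * x ^ 196) / (1 / x)) ^ 3) +
      α * N * (c * (1 / x) ^ (2 * 29) * (b ^ 2 * x ^ 196) ^ 2) +
      α * (N * ((1 / x ^ 18) ^ 2 * (b ^ 2 * x ^ 196) ^ 2 +
          4 * ((b ^ 2 * x ^ 196) ^ 3 / p - ((1 - 1 / x ^ 18) * (b ^ 2 * x ^ 196)) ^ 3 / p) /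
            (b ^ 2 * x ^ 196)) +
        N * (T / (1 / (b * x ^ 84)) ^ 4) / (1 / x ^ 18) ^ 2) / x ^ 40 <
    (N * (1 / 2 * T) + A + δ) * (b ^ 4 * x ^ 336) := by
  have x0 : 0 < x := by linarith
  have x1 : 1 ≤ x := by linarith
  have pw : ∀ k : ℕ, k ≤ 335 → x ^ k ≤ x ^ 335 := fun k hk => pow_le_pow_right₀ x1 hk
  have e1 : 1 / 2 * (N * (T / (1 / (b * x ^ 84)) ^ 4)) = N * (1 / 2 * T) * (b ^ 4 * x ^ 336) := by
    field_simp
  have e2 : p * b * ((b ^ 2 * x ^ 196) ^ 3 / p) * (A * (1 / (b * x ^ 84)) ^ 3) =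
      A * (b ^ 4 * x ^ 336) := by
    field_simp
  have e3 : x ^ 40 * (b ^ 2 * x ^ 196) *
      (c * ((1 / (b * x ^ 84)) ^ 2 * P * (b ^ 2 * x ^ 196) / (1 / x)) ^ 3) =
      c * b ^ 2 * P ^ 3 * x ^ 323 := by
    field_simp
  have e4 : α * N * (c * (1 / x) ^ (2 * 29) * (b ^ 2 * x ^ 196) ^ 2) =
      α * N * b ^ 4 * (c * x ^ 334) := by
    rw [show 2 * 29 = 58 from rfl]
    field_simp
  obtain ⟨θ, hθ⟩ : ∃ θ, θ = 1 / x ^ 18 := ⟨_, rfl⟩
  have θ0 : 0 < θ := by rw [hθ]; positivity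
  have θ1 : θ ≤ 1 := by rw [hθ, div_le_one (by positivity)]; exact one_le_pow₀ x1
  have e5 : α * (N * ((1 / x ^ 18) ^ 2 * (b ^ 2 * x ^ 196) ^ 2 +
          4 * ((b ^ 2 * x ^ 196) ^ 3 / p - ((1 - 1 / x ^ 18) * (b ^ 2 * x ^ 196)) ^ 3 / p) /
            (b ^ 2 * x ^ 196)) +
        N * (T / (1 / (b * x ^ 84)) ^ 4) / (1 / x ^ 18) ^ 2) / x ^ 40 =
      α * N * b ^ 4 * (x ^ 316 + 4 / p * (3 - 3 * θ + θ ^ 2) * x ^ 334 + T * x ^ 332) := by
    rw [hθ]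
    field_simp
    ring
  have b3 := mul_le_mul_of_nonneg_left (pw 323 (by norm_num))
    (show 0 ≤ c * b ^ 2 * P ^ 3 by positivity)
  have b4 := mul_le_mul_of_nonneg_left (pw 334 (by norm_num)) hc.le
  have b5 := pw 316 (by norm_num)
  have b6 : 4 / p * (3 - 3 * θ + θ ^ 2) * x ^ 334 ≤ 12 / p * x ^ 335 := by
    refine mul_le_mul ?_ (pw 334 (by norm_num)) (by positivity) (by positivity)
    rw [show 12 / p = 4 / p * 3 by ring]
    exact mul_le_mul_of_nonneg_left (by nlinarith) (by positivity)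
  have b7 := mul_le_mul_of_nonneg_left (pw 332 (by norm_num)) hT
  have b8 : α * N * b ^ 4 * (c * x ^ 334 + (x ^ 316 + 4 / p * (3 - 3 * θ + θ ^ 2) * x ^ 334 +
      T * x ^ 332)) ≤ α * N * b ^ 4 * ((c + 1 + 12 / p + T) * x ^ 335) :=
    mul_le_mul_of_nonneg_left (by linarith) (by positivity)
  have b9 := mul_lt_mul_of_pos_right hK (pow_pos x0 335)
  rw [e1, e2, e3, e4, e5]
  have e6 : δ * b ^ 4 * x * x ^ 335 = δ * (b ^ 4 * x ^ 336) := by ring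
  rw [e6] at b9
  linarith

end T28

open T28 in
theorem st_UP (h0 : St_UP0) (hS : St_SL2) (hC : St_SCAL) (hL : St_LAT) : St_UP := by
  intro N u b δ hu hu2 hb hδ
  obtain ⟨c, hc, h0⟩ := h0 29 (by norm_num)
  obtain ⟨R, hR, hR'⟩ := hu.2.1.isCompact.isBounded.exists_pos_norm_lt
  have hπ := Real.pi_pos
  have hP : 0 < (2 * N + 1) * R := by positivity
  have hT : 0 ≤ ∫ x, ‖fderiv ℝ u x‖ ^ 2 := integral_nonneg fun x => sq_nonneg _
  filter_upwards [eventually_ge_atTop 2, eventually_ge_atTop (1 / ((2 * N + 1) * R)),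
    eventually_gt_atTop ((c * b ^ 2 * ((2 * N + 1) * R) ^ 3 + (6 * Real.pi ^ 2 * b) ^ 2 * N * b ^ 4 *
      (c + 1 + 12 / (6 * Real.pi ^ 2) + ∫ x, ‖fderiv ℝ u x‖ ^ 2)) / (δ * b ^ 4))] with x h2 h3 h4
  rw [div_lt_iff₀' (by positivity)] at h4
  have x0 : 0 < x := by linarith
  have x1 : 1 ≤ x := by linarith
  have hΛ : 0 < b ^ 2 * x ^ 196 := by positivity
  have hθ : 1 / x ^ 18 ≤ 1 / 2 :=
    one_div_le_one_div_of_le two_pos (h2.trans (le_self_pow₀ x1 (by norm_num)))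
  obtain ⟨v, v1, v2, v3, v4, v5⟩ := hC.1 u (1 / (b * x ^ 84)) R hu (by positivity) hR'
  obtain ⟨φ, g, g1, g2, g3, g4, g5, g6⟩ := hS N v _ v1 (v3.trans hu2) (by positivity) v2
  have a := arith (A := (√2 * ((N / 2 : ℕ) : ℝ) + ((N % 2 : ℕ) : ℝ)) * ∫ x, u x) N.cast_nonneg hb hc
    hP hT (sq_nonneg _) (by positivity) h2 h4
  have t1 := hL.1 _ hΛ
  have t2 := hL.1 ((1 - 1 / x ^ 18) * (b ^ 2 * x ^ 196)) (mul_pos (by linarith) hΛ)
  have t3 := (((((t1.const_mul (6 * Real.pi ^ 2 * b)).mul_const _).const_add _).add_const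
    _).add_const _).add ((((((((t1.sub t2).const_mul 4).div_const _).const_add _).const_mul
      _).add_const _).const_mul _).div_const _) |>.eventually (gt_mem_nhds a)
  filter_upwards [t3, eventually_gt_atTop 0, eventually_gt_atTop
    (2 * ((2 * N + 1) * ((1 / (b * x ^ 84)) ^ 2 * R)))] with L l1 l2 l3 ε hε
  refine (h0 N L _ _ _ _ (1 / x) (1 / x ^ 18) (x ^ 40) ε φ g l2 hΛ (sq_nonneg _) hε g1 g2 g3
    (by linarith) (by positivity) ((div_le_one x0).2 x1) ?_ (by positivity) hθ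
    (by positivity)).trans (EReal.coe_le_coe_iff.2 (le_of_eq_of_le ?_ l1.le))
  · rw [show b ^ 2 * x ^ 196 * ((2 * N + 1) * ((1 / (b * x ^ 84)) ^ 2 * R)) =
      (2 * N + 1) * R * x ^ 28 by field_simp, div_le_iff₀ x0, mul_assoc, ← pow_succ]
    rw [div_le_iff₀' hP] at h3
    exact h3.trans (mul_le_mul_of_nonneg_left (le_self_pow₀ x1 (by norm_num)) hP.le)
  · rw [g4, g5, g6, v4, v5, Real.sqrt_sq (by positivity)]
    ring

end Pool.Agent.Lib.LS
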