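import Pool.Agent.Lib.LS.Base

set_option autoImplicit false

open MeasureTheory Filter Topology Metric
open scoped ComplexConjugate InnerProductSpace ContDiff

namespace Pool.Agent.Lib.LS

open Pool.Agent.Lib.MP_791321_mp

namespace T23

variable {L Λ : ℝ}

theorem Am_mul (ε : V3 → Fin 2 → V3) (c : ℝ) (f : V3 → ℝ) (m m' : Mode L Λ) :
    Am ε (fun x => c * f x) m m' = c * Am ε f m m' := by
  simp only [Am, mul_assoc, integral_const_mul]

theorem cont_tt (ε : V3 → Fin 2 → V3) (v w : Mode L Λ → ℝ) :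
    Continuous fun x => ∑ i, (∑ m, v m * tA ε i m x) * ∑ m, w m * tA ε i m x :=
  continuous_finsetSum _ fun i _ =>
    (continuous_finsetSum _ fun m _ => continuous_const.mul (tA_cont ε i m)).mul
      (continuous_finsetSum _ fun m _ => continuous_const.mul (tA_cont ε i m))

theorem supp_sq {g : V3 → ℝ} (hc : HasCompactSupport g) : HasCompactSupport fun x => g x ^ 2 := by
  simp only [sq]
  exact hc.mul_left

theorem sq_le (hB : St_BES) {ε : V3 → Fin 2 → V3} {g : V3 → ℝ} {l : ℝ} (hL : 0 < L)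
    (hε : IsPolarisation ε) (hg : Continuous g) (hc : HasCompactSupport g)
    (hs : ∀ x, g x ≠ 0 → x ∈ ball (0 : V3) l) (hl : l < L / 2) (v : Mode L Λ → ℝ) :
    ∑ m, (∑ m', Am ε g m m' * v m') ^ 2 ≤ bf (Am ε fun x => g x ^ 2) v v := by
  set w : Mode L Λ → ℝ := fun m => ∑ m', Am ε g m m' * v m' with hw
  have h1 : ∑ m, w m ^ 2 = bf (Am ε g) w v := by
    refine Finset.sum_congr rfl fun m _ => ?_
    rw [sq]
    nth_rewrite 2 [hw]
    simp only [Finset.mul_sum, mul_assoc]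
  have h2 := (hB L Λ 0 (ball 0 l) hL measurableSet_ball (ball_subset_ball hl.le)).1 ε hε w
  have i1 : IntegrableOn (fun x => ∑ i, (∑ m, w m * tA ε i m x) ^ 2) (ball (0 : V3) l) := by
    simp only [sq]
    exact ((cont_tt ε w w).continuousOn.integrableOn_compact
      (isCompact_closedBall 0 l)).mono_set ball_subset_closedBall
  have i2 : Integrable fun x => g x ^ 2 *
      ∑ i, (∑ m, v m * tA ε i m x) * ∑ m, v m * tA ε i m x :=
    ((hg.pow 2).mul (cont_tt ε v v)).integrable_of_hasCompactSupport (supp_sq hc).mul_right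
  have i3 : Integrable fun x => g x * ∑ i, (∑ m, w m * tA ε i m x) * ∑ m, v m * tA ε i m x :=
    (hg.mul (cont_tt ε w v)).integrable_of_hasCompactSupport hc.mul_right
  have i4 := (integrable_indicator_iff measurableSet_ball).2 i1
  have h3 := integral_mono (i3.const_mul 2) (i4.add i2) fun x => by
    by_cases hx : g x = 0
    · simp only [hx, Pi.add_apply, zero_mul, mul_zero, ne_eq, OfNat.ofNat_ne_zero,
        not_false_eq_true, zero_pow, add_zero]
      exact Set.indicator_nonneg (fun y _ => Finset.sum_nonneg fun i _ => sq_nonneg _) x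
    · simp only [Pi.add_apply, Set.indicator_of_mem (hs x hx)]
      rw [Finset.mul_sum, Finset.mul_sum, Finset.mul_sum, ← Finset.sum_add_distrib]
      refine Finset.sum_le_sum fun i _ => ?_
      nlinarith [sq_nonneg (∑ m, w m * tA ε i m x - g x * ∑ m, v m * tA ε i m x)]
  rw [integral_const_mul, integral_add' i4 i2, integral_indicator measurableSet_ball,
    ← bf_Am ε hg hc, ← bf_Am ε (g := fun x => g x ^ 2) (hg.pow 2) (supp_sq hc)] at h3
  linarith

theorem trace (hT : St_TR) {ε : V3 → Fin 2 → V3} {g : V3 → ℝ} (hL : 0 < L)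
    (hε : IsPolarisation ε) (hg : Continuous g) (hc : HasCompactSupport g) :
    ∑ m : Mode L Λ, Am ε g m m = 2 * rho L Λ * ∫ x, g x := by
  have i1 : ∀ m : Mode L Λ, Integrable fun x => g x * ∑ i, tA ε i m x * tA ε i m x := fun m =>
    (hg.mul (continuous_finsetSum _ fun i _ =>
      (tA_cont ε i m).mul (tA_cont ε i m))).integrable_of_hasCompactSupport hc.mul_right
  simp only [Am]
  rw [← integral_finsetSum _ fun m _ => i1 m, ← integral_const_mul]
  congr 1
  ext x
  have := hT L Λ ε hL hε (fun _ => 1) x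
  rw [sum_one_mode] at this
  simp only [one_mul, sq] at this
  rw [← Finset.mul_sum, this, mul_comm]

theorem tail {ε : V3 → Fin 2 → V3} {g : V3 → ℝ} {l B : ℝ} (hg : Continuous g)
    (hc : HasCompactSupport g) (h0 : ∀ x, 0 ≤ g x) (hs : ∀ x, g x ≠ 0 → x ∈ ball (0 : V3) l)
    (u : Mode L Λ → Mode L Λ → ℝ)
    (hu : ∀ x ∈ ball (0 : V3) l, ∑ i, ∑ m', (∑ m, u m' m * tA ε i m x) ^ 2 ≤ B) :
    ∑ m', bf (Am ε g) (u m') (u m') ≤ (∫ x, g x) * B := by
  have i1 : ∀ m', Integrable fun x =>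
      g x * ∑ i, (∑ m, u m' m * tA ε i m x) * ∑ m, u m' m * tA ε i m x := fun m' =>
    (hg.mul (cont_tt ε _ _)).integrable_of_hasCompactSupport hc.mul_right
  simp only [bf_Am ε hg hc]
  rw [← integral_finsetSum _ fun m' _ => i1 m', ← integral_mul_const]
  refine integral_mono (integrable_finsetSum _ fun m' _ => i1 m')
    ((hg.integrable_of_hasCompactSupport hc).mul_const _) fun x => ?_
  by_cases hx : g x = 0
  · simp [hx]
  · have := hu x (hs x hx)
    simp only [sq] at this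
    simp only [← Finset.mul_sum]
    rw [Finset.sum_comm]
    exact mul_le_mul_of_nonneg_left this (h0 x)

end T23
open T23

theorem st_UP0 (hSQ : St_SQ) (hMAT : St_MAT) (hTAY : St_TAY) (hLEAK : St_LEAK) (hBES : St_BES)
    (hTR : St_TR) (hLAT : St_LAT) : St_UP0 := by
  intro M hM
  obtain ⟨c, hc, hT⟩ := hTAY M hM
  refine ⟨c, hc, ?_⟩
  intro N L Λ α T l δ θ η ε φ g hL hΛ hα hε hg hs hφ hl hδ hδ1 hδl hθ hθ1 hη
  obtain ⟨Pr, p1, p2, p3, p4⟩ := hT L Λ l δ ε 0 hL hΛ hε hδ hδ1 hδl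
  have gc : Continuous g := hg.1.continuous
  have g1 : Continuous fun x => √α * g x := continuous_const.mul gc
  have s1 : HasCompactSupport fun x => √α * g x := hg.2.1.mul_left
  have g2 : Continuous fun x => α * g x ^ 2 := continuous_const.mul (gc.pow 2)
  have s2 : HasCompactSupport fun x => α * g x ^ 2 := (supp_sq hg.2.1).mul_left
  have n2 : ∀ x, 0 ≤ α * g x ^ 2 := fun x => by positivity
  have e2 : (fun x => (√α * g x) ^ 2) = fun x => α * g x ^ 2 :=
    funext fun x => by rw [mul_pow, Real.sq_sqrt hα]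
  obtain ⟨v, σ, v1, v2, v3⟩ := hMAT (Mode L Λ) om Λ η (Am ε fun x => √α * g x)
    (Am ε fun x => α * g x ^ 2) Pr (fun m => ⟨om_pos m, (om_lt m).le⟩) hη
    (PSD_Am ε g1 s1 fun x => mul_nonneg (Real.sqrt_nonneg _) (hg.2.2 x)) (PSD_Am ε g2 s2 n2)
    (fun v => e2 ▸ sq_le hBES hL hε g1 s1 (fun x hx => hs x (right_ne_zero_of_mul hx)) hl v) p1 p2
  refine (hSQ N L Λ α T ε φ _ v σ hL hα hε hφ (gc.pow 2) (supp_sq hg.2.1)
    (fun x => sq_nonneg _) v1 v2).trans (EReal.coe_le_coe_iff.2 ?_)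
  have a1 := trace (Λ := Λ) hTR hL hε g1 s1
  rw [integral_const_mul] at a1
  have a2 := mul_le_mul_of_nonneg_left p3 (mul_pos hη hΛ).le
  have a3 := tail g2 s2 n2 (fun x hx => hs x fun h => hx (by simp [h]))
    (fun l m => (1 - Pr) l m / √(om m)) p4
  rw [integral_const_mul] at a3
  have a4 := hLEAK L Λ l θ ε 0 g hL hΛ hε hl (hg.1.of_le (by simp)) hs hθ hθ1
  have a5 : ∑ m : Mode L Λ, (Am ε (fun x => α * g x ^ 2) m m -
      ∑ m', Am ε (fun x => √α * g x) m m' * Am ε (fun x => √α * g x) m' m) / om m =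
      α * ∑ m : Mode L Λ,
        (Am ε (fun x => g x ^ 2) m m - ∑ m', Am ε g m m' * Am ε g m' m) / om m := by
    rw [Finset.mul_sum]
    refine Finset.sum_congr rfl fun m _ => ?_
    rw [← mul_div_assoc, mul_sub, Finset.mul_sum, Am_mul]
    congr 2
    refine Finset.sum_congr rfl fun m' _ => ?_
    rw [Am_mul, Am_mul, mul_mul_mul_comm, Real.mul_self_sqrt hα]
  have a6 : rho L ((1 - θ) * Λ) ≤ rho L Λ := by
    have b1 := hLAT.2.2.2 L Λ ((1 - θ) * Λ) hL (by nlinarith)
    have b2 := sum_one_mode (L := L) (Λ := Λ)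
    have b3 : (∑ m : Mode L Λ, if om m < (1 - θ) * Λ then (1 : ℝ) else 0) / L ^ 3 ≤
        (∑ _m : Mode L Λ, (1 : ℝ)) / L ^ 3 := by
      gcongr with m
      split_ifs <;> norm_num
    linarith
  have hl0 : 0 < l := by nlinarith
  have q1 : 0 ≤ ∫ x, g x ^ 2 := integral_nonneg fun x => sq_nonneg _
  have q2 : 0 ≤ ∫ x, ‖fderiv ℝ g x‖ ^ 2 := integral_nonneg fun x => sq_nonneg _
  have q3 := sub_nonneg.2 a6
  have a7 := div_le_div_of_nonneg_right (mul_le_mul_of_nonneg_left a4 hα) hη.le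
  rw [a1, a5] at v3
  have r1 : 0 ≤ η * Λ * (c * (l * Λ / δ) ^ 3) := by positivity
  have r2 : 0 ≤ α * (∫ x, g x ^ 2) * (c * δ ^ (2 * M) * Λ ^ 2) := by positivity
  have r3 : 0 ≤ α * ((∫ x, g x ^ 2) *
      (θ ^ 2 * Λ ^ 2 + 4 * (rho L Λ - rho L ((1 - θ) * Λ)) / Λ) +
        (∫ x, ‖fderiv ℝ g x‖ ^ 2) / θ ^ 2) / η := by positivity
  linarith

end Pool.Agent.Lib.LS
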