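import Pool.Agent.Lib.LS.Base
import Pool.Agent.Lib.LL.B_EA

set_option autoImplicit false

open MeasureTheory Filter Topology Metric
open scoped ComplexConjugate InnerProductSpace ContDiff

namespace Pool.Agent.Lib.LS

open Pool.Agent.Lib.MP_791321_mp

namespace E30

theorem amgm {a x y : ℝ} (hx : 0 ≤ x) (hy : 0 ≤ y) (h : a ^ 2 ≤ x * y) : 2 * |a| ≤ x + y := by
  refine (sq_le_sq₀ (by positivity) (by positivity)).mp ?_
  rw [mul_pow, sq_abs]
  nlinarith [sq_nonneg (x - y)]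

theorem cs2 (C : Fin 3 → Fin 3 → ℝ) (W : Fin 3 → Fin 3 → ℝ) :
    (∑ a, ∑ b, C a b * W a b) ^ 2 ≤ (∑ a, ∑ b, C a b ^ 2) * ∑ a, ∑ b, W a b ^ 2 := by
  have := Finset.sum_mul_sq_le_sq_mul_sq Finset.univ (fun z : Fin 3 × Fin 3 => C z.1 z.2)
    (fun z => W z.1 z.2)
  simpa only [Fintype.sum_prod_type] using this

theorem alg {ν e γ p s τ g : ℝ} {X Y t D : Fin 3 → ℝ} {C : Fin 3 → Fin 3 → ℝ}
    (hν : 0 < ν) (he : 0 < e) (he1 : e ≤ 1) (h0 : 0 ≤ τ) (h1 : τ ≤ 1) (hγ : γ ^ 2 ≤ e ^ 2 * ν)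
    (ht : ∑ a, t a ^ 2 ≤ (γ * τ) ^ 2) (hC : τ * ∑ a, ∑ b, C a b ^ 2 ≤ e ^ 2 / 16)
    (hg : 4 * (p ^ 2 + s ^ 2) * g ≤ ∑ a, (2 * (p * X a + s * Y a)) ^ 2)
    (hg0 : p = 0 → s = 0 → g = 0) :
    g + (1 - 3 * e) * ((p ^ 2 + s ^ 2) * (τ * (∑ b, D b ^ 2 + ν * ∑ a, ∑ b, C a b ^ 2))) +
      (2 * ∑ b, (τ * D b - ∑ a, t a * C a b) * (p * Y b - s * X b) +
        2 * (p ^ 2 + s ^ 2) * ∑ b, (∑ a, t a * C a b) * D b -
        2 * τ * (p ^ 2 + s ^ 2) * ∑ b, D b ^ 2 +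
        2 * τ * ∑ a, ∑ b, C a b * (2 * (p * X a + s * Y a) * D b) -
        2 * τ * ∑ a, ∑ b, C a b * (X a * Y b - Y a * X b) -
        τ * (p ^ 2 + s ^ 2) * ν * ∑ a, ∑ b, C a b ^ 2) ≤
      (1 + e) * ∑ a, (X a ^ 2 + Y a ^ 2) := by
  set ρ := p ^ 2 + s ^ 2 with hρ
  set k := ∑ a, (X a ^ 2 + Y a ^ 2) with hk
  set cc := ∑ a, ∑ b, C a b ^ 2 with hcc
  set dd := ∑ b, D b ^ 2 with hdd
  set w : Fin 3 → ℝ := fun b => ∑ a, t a * C a b with hw
  have ρ0 : 0 ≤ ρ := by positivity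
  have k0 : 0 ≤ k := Finset.sum_nonneg fun a _ => by positivity
  have c0 : 0 ≤ cc := Finset.sum_nonneg fun a _ => Finset.sum_nonneg fun b _ => sq_nonneg _
  have d0 : 0 ≤ dd := Finset.sum_nonneg fun a _ => sq_nonneg _
  have hww : ∑ b, w b ^ 2 ≤ e ^ 2 * ν * τ ^ 2 * cc := by
    calc _ ≤ ∑ b, (∑ a, t a ^ 2) * ∑ a, C a b ^ 2 :=
          Finset.sum_le_sum fun b _ => Finset.sum_mul_sq_le_sq_mul_sq _ _ _
      _ = (∑ a, t a ^ 2) * cc := by rw [← Finset.mul_sum, hcc, Finset.sum_comm]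
      _ ≤ (γ * τ) ^ 2 * cc := by gcongr
      _ = γ ^ 2 * τ ^ 2 * cc := by ring
      _ ≤ _ := by gcongr
  have hwD : 2 * |∑ b, w b * D b| ≤ e * τ * dd + e * τ * ν * cc := by
    refine amgm (by positivity) (by positivity) ?_
    calc _ ≤ (∑ b, w b ^ 2) * dd := Finset.sum_mul_sq_le_sq_mul_sq _ _ _
      _ ≤ e ^ 2 * ν * τ ^ 2 * cc * dd := by gcongr
      _ = _ := by ring
  have hid : ρ * k = (∑ a, (2 * (p * X a + s * Y a)) ^ 2) / 4 + ∑ b, (p * Y b - s * X b) ^ 2 := by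
    simp only [hρ, hk, Fin.sum_univ_three]; ring
  have hr : ∑ a, (2 * (p * X a + s * Y a)) ^ 2 ≤ 4 * ρ * k := by
    have : 0 ≤ ∑ b, (p * Y b - s * X b) ^ 2 := Finset.sum_nonneg fun a _ => sq_nonneg _
    linarith
  have hA : 2 * |τ * ∑ a, ∑ b, C a b * (2 * (p * X a + s * Y a) * D b)| ≤
      e * τ * ρ * dd + e / 4 * k := by
    refine amgm (by positivity) (by positivity) ?_
    have e1 : ∑ a, ∑ b, (2 * (p * X a + s * Y a) * D b) ^ 2 =
        (∑ a, (2 * (p * X a + s * Y a)) ^ 2) * dd := by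
      simp only [mul_pow _ (D _), ← Finset.mul_sum, ← Finset.sum_mul, hdd]
    have e2 := cs2 C fun a b => 2 * (p * X a + s * Y a) * D b
    rw [e1] at e2
    calc _ = τ ^ 2 * (∑ a, ∑ b, C a b * (2 * (p * X a + s * Y a) * D b)) ^ 2 := by ring
      _ ≤ τ ^ 2 * (cc * (4 * ρ * k * dd)) := by
          gcongr
          exact e2.trans (by gcongr)
      _ = τ * cc * (τ * (4 * ρ * k * dd)) := by ring
      _ ≤ e ^ 2 / 16 * (τ * (4 * ρ * k * dd)) := by gcongr
      _ = _ := by ring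
  have hB : 2 * |τ * ∑ a, ∑ b, C a b * (X a * Y b - Y a * X b)| ≤ e / 4 * k + e / 4 * k := by
    refine amgm (by positivity) (by positivity) ?_
    have e1 : ∑ a, ∑ b, (X a * Y b - Y a * X b) ^ 2 ≤ k ^ 2 := by
      simp only [hk, Fin.sum_univ_three]
      nlinarith only [sq_nonneg (X 0 * Y 0 + X 1 * Y 1 + X 2 * Y 2),
        sq_nonneg (X 0 ^ 2 + X 1 ^ 2 + X 2 ^ 2 - (Y 0 ^ 2 + Y 1 ^ 2 + Y 2 ^ 2)),
        mul_nonneg (show 0 ≤ X 0 ^ 2 + X 1 ^ 2 + X 2 ^ 2 by positivity)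
          (show 0 ≤ Y 0 ^ 2 + Y 1 ^ 2 + Y 2 ^ 2 by positivity)]
    have e2 := cs2 C fun a b => X a * Y b - Y a * X b
    calc _ = τ ^ 2 * (∑ a, ∑ b, C a b * (X a * Y b - Y a * X b)) ^ 2 := by ring
      _ ≤ τ ^ 2 * (cc * k ^ 2) := by
          gcongr
          exact e2.trans (by gcongr)
      _ = τ * (τ * cc) * k ^ 2 := by ring
      _ ≤ 1 * (e ^ 2 / 16) * k ^ 2 := by gcongr
      _ = _ := by ring
  have hz : ∑ b, (τ * D b - w b) ^ 2 = τ ^ 2 * dd - 2 * τ * ∑ b, w b * D b + ∑ b, w b ^ 2 := by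
    simp only [hdd, Fin.sum_univ_three]; ring
  have hzz : ∑ b, (τ * D b - w b) ^ 2 ≤ τ * dd + (e * τ * dd + e * τ * ν * cc) + e * τ * ν * cc := by
    rw [hz]
    have a1 : τ ^ 2 * dd ≤ τ * dd := by gcongr; nlinarith only [h0, h1]
    have a2 : -(2 * τ * ∑ b, w b * D b) ≤ e * τ * dd + e * τ * ν * cc := by
      have x1 := mul_le_mul_of_nonneg_left (neg_abs_le (∑ b, w b * D b)) h0
      have x2 := mul_le_mul_of_nonneg_right h1 (abs_nonneg (∑ b, w b * D b))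
      linarith only [x1, x2, hwD]
    have a3 : e ^ 2 * ν * τ ^ 2 * cc ≤ e * τ * ν * cc := by
      have : e * τ ≤ 1 := mul_le_one₀ he1 h0 h1
      calc _ = e * τ * (e * τ * ν * cc) := by ring
        _ ≤ 1 * (e * τ * ν * cc) := by gcongr
        _ = _ := one_mul _
    linarith
  have hm : g + 2 * ∑ b, (τ * D b - w b) * (p * Y b - s * X b) -
      ρ * ∑ b, (τ * D b - w b) ^ 2 ≤ k := by
    rcases eq_or_lt_of_le ρ0 with h | h
    · have h' : p ^ 2 + s ^ 2 = 0 := h.symm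
      have hp : p = 0 := pow_eq_zero_iff two_ne_zero |>.mp
        (le_antisymm (by linarith only [h', sq_nonneg s]) (sq_nonneg p))
      have hs : s = 0 := pow_eq_zero_iff two_ne_zero |>.mp
        (le_antisymm (by linarith only [h', sq_nonneg p]) (sq_nonneg s))
      rw [hg0 hp hs, ← h, hp, hs]
      simpa using k0
    · refine le_of_mul_le_mul_left ?_ h
      have e1 : 0 ≤ ∑ b, (ρ * (τ * D b - w b) - (p * Y b - s * X b)) ^ 2 :=
        Finset.sum_nonneg fun a _ => sq_nonneg _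
      have e2 : ∑ b, (ρ * (τ * D b - w b) - (p * Y b - s * X b)) ^ 2 =
          ρ ^ 2 * ∑ b, (τ * D b - w b) ^ 2 - 2 * ρ * ∑ b, (τ * D b - w b) * (p * Y b - s * X b) +
            ∑ b, (p * Y b - s * X b) ^ 2 := by
        simp only [Fin.sum_univ_three]; ring
      linarith only [e1, e2, hid, hg]
  have b1 := mul_le_mul_of_nonneg_left ((mul_le_mul_of_nonneg_left
    (le_abs_self (∑ b, w b * D b)) zero_le_two).trans hwD) ρ0
  have b2 := mul_le_mul_of_nonneg_left hzz ρ0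
  have b3 := le_abs_self (τ * ∑ a, ∑ b, C a b * (2 * (p * X a + s * Y a) * D b))
  have b4 := neg_abs_le (τ * ∑ a, ∑ b, C a b * (X a * Y b - Y a * X b))
  have b5 : 0 ≤ e * k := by positivity
  linarith only [b1, b2, b3, b4, b5, hm, hA, hB]

theorem div_alg {ν p s τ : ℝ} {X Y t D : Fin 3 → ℝ} {C dC dD dj : Fin 3 → Fin 3 → ℝ}
    (an : ∀ i b, C i b = -C b i) (dv : ∀ b, D b = -∑ i, dC i b)
    (cu : ∀ i b, dj i b - dj b i = 2 * (X i * Y b - Y i * X b) +
      (p ^ 2 + s ^ 2) * (dD i b - dD b i + ν * C i b)) :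
    2 * ∑ i, ∑ b, (t i * (C i b * ((p ^ 2 + s ^ 2) * D b - (p * Y b - s * X b))) +
      τ * (dC i b * ((p ^ 2 + s ^ 2) * D b - (p * Y b - s * X b)) + C i b *
        (2 * (p * X i + s * Y i) * D b + (p ^ 2 + s ^ 2) * dD i b - dj i b))) =
      2 * ∑ b, (τ * D b - ∑ a, t a * C a b) * (p * Y b - s * X b) +
        2 * (p ^ 2 + s ^ 2) * ∑ b, (∑ a, t a * C a b) * D b -
        2 * τ * (p ^ 2 + s ^ 2) * ∑ b, D b ^ 2 +
        2 * τ * ∑ a, ∑ b, C a b * (2 * (p * X a + s * Y a) * D b) -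
        2 * τ * ∑ a, ∑ b, C a b * (X a * Y b - Y a * X b) -
        τ * (p ^ 2 + s ^ 2) * ν * ∑ a, ∑ b, C a b ^ 2 := by
  have z : ∀ i, C i i = 0 := fun i => by have := an i i; linarith
  have c01 := cu 0 1
  have c02 := cu 0 2
  have c12 := cu 1 2
  have d0 := dv 0
  have d1 := dv 1
  have d2 := dv 2
  simp only [Fin.sum_univ_three, z, an 1 0, an 2 0, an 2 1] at d0 d1 d2 ⊢
  linear_combination
    2 * τ * ((p ^ 2 + s ^ 2) * D 0 - (p * Y 0 - s * X 0)) * d0 +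
    2 * τ * ((p ^ 2 + s ^ 2) * D 1 - (p * Y 1 - s * X 1)) * d1 +
    2 * τ * ((p ^ 2 + s ^ 2) * D 2 - (p * Y 2 - s * X 2)) * d2 -
    2 * τ * C 0 1 * c01 - 2 * τ * C 0 2 * c02 - 2 * τ * C 1 2 * c12

/-- the current -/
noncomputable def cur (p s : V3 → ℝ) (a : Fin 3 → V3 → ℝ) (b : Fin 3) (y : V3) : ℝ :=
  p y * (LL.pd b s y + a b y * p y) + s y * (-LL.pd b p y + a b y * s y)

/-- the flux -/
noncomputable def flx (p s τ : V3 → ℝ) (a D : Fin 3 → V3 → ℝ) (C : Fin 3 → Fin 3 → V3 → ℝ)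
    (i b : Fin 3) (y : V3) : ℝ := τ y * (C i b y * ((p y ^ 2 + s y ^ 2) * D b y - cur p s a b y))

variable {ν : ℝ} {p s τ : V3 → ℝ} {a D : Fin 3 → V3 → ℝ} {C : Fin 3 → Fin 3 → V3 → ℝ}

theorem cur_sm (sp : ContDiff ℝ ∞ p) (ss : ContDiff ℝ ∞ s) (hF : Flds ν a D C) (b : Fin 3) :
    ContDiff ℝ ∞ (cur p s a b) :=
  (sp.mul ((LL.smooth_pd ss b).add ((hF.sa b).mul sp))).add
    (ss.mul ((LL.smooth_pd sp b).neg.add ((hF.sa b).mul ss)))

theorem flx_sm (sp : ContDiff ℝ ∞ p) (ss : ContDiff ℝ ∞ s) (hF : Flds ν a D C)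
    (hτ : ContDiff ℝ 1 τ) (i b : Fin 3) : ContDiff ℝ 1 (flx p s τ a D C i b) :=
  hτ.mul (((hF.sC i b).mul ((((sp.pow 2).add (ss.pow 2)).mul (hF.sD b)).sub
    (cur_sm sp ss hF b))).of_le (by simp))

theorem pd_rho (sp : ContDiff ℝ ∞ p) (ss : ContDiff ℝ ∞ s) (a : Fin 3 → V3 → ℝ) (i : Fin 3)
    (x : V3) : LL.pd i (fun y => p y ^ 2 + s y ^ 2) x =
      2 * (p x * (LL.pd i p x - a i x * s x) + s x * (LL.pd i s x + a i x * p x)) := by
  have d : ∀ {f : V3 → ℝ}, ContDiff ℝ ∞ f → DifferentiableAt ℝ f x := fun hf =>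
    hf.differentiable (by simp) _
  rw [LL.pd_add (d (sp.pow 2)) (d (ss.pow 2)), LL.pd_pow 2 (d sp), LL.pd_pow 2 (d ss)]
  simp; ring

theorem div_flx (sp : ContDiff ℝ ∞ p) (ss : ContDiff ℝ ∞ s) (hF : Flds ν a D C)
    (hτ : ContDiff ℝ 1 τ) (x : V3) :
    2 * ∑ i, ∑ b, LL.pd i (flx p s τ a D C i b) x =
      2 * ∑ b, (τ x * D b x - ∑ i, LL.pd i τ x * C i b x) *
        (p x * (LL.pd b s x + a b x * p x) - s x * (LL.pd b p x - a b x * s x)) +
      2 * (p x ^ 2 + s x ^ 2) * ∑ b, (∑ i, LL.pd i τ x * C i b x) * D b x -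
      2 * τ x * (p x ^ 2 + s x ^ 2) * ∑ b, D b x ^ 2 +
      2 * τ x * ∑ i, ∑ b, C i b x * (2 * (p x * (LL.pd i p x - a i x * s x) +
        s x * (LL.pd i s x + a i x * p x)) * D b x) -
      2 * τ x * ∑ i, ∑ b, C i b x *
        ((LL.pd i p x - a i x * s x) * (LL.pd b s x + a b x * p x) -
          (LL.pd i s x + a i x * p x) * (LL.pd b p x - a b x * s x)) -
      τ x * (p x ^ 2 + s x ^ 2) * ν * ∑ i, ∑ b, C i b x ^ 2 := by
  have d : ∀ {f : V3 → ℝ}, ContDiff ℝ ∞ f → DifferentiableAt ℝ f x := fun hf =>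
    hf.differentiable (by simp) _
  have sρ : ContDiff ℝ ∞ fun y => p y ^ 2 + s y ^ 2 := (sp.pow 2).add (ss.pow 2)
  rw [← div_alg (X := fun i => LL.pd i p x - a i x * s x)
    (Y := fun i => LL.pd i s x + a i x * p x) (t := fun i => LL.pd i τ x)
    (D := fun b => D b x) (C := fun i b => C i b x) (dC := fun i b => LL.pd i (C i b) x)
    (dD := fun i b => LL.pd i (D b) x) (dj := fun i b => LL.pd i (cur p s a b) x)
    (fun i b => hF.anti i b x) (fun b => hF.div b x) ?_]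
  · congr 1
    refine Finset.sum_congr rfl fun i _ => Finset.sum_congr rfl fun b _ => ?_
    have sj := cur_sm sp ss hF b
    have e : flx p s τ a D C i b = fun y =>
      τ y * (C i b y * ((p y ^ 2 + s y ^ 2) * D b y - cur p s a b y)) := rfl
    rw [e, LL.pd_mul (hτ.differentiable one_ne_zero x)
        (d ((hF.sC i b).mul ((sρ.mul (hF.sD b)).sub sj))),
      LL.pd_mul (d (hF.sC i b)) (d ((sρ.mul (hF.sD b)).sub sj)),
      LL.pd_sub (d (sρ.mul (hF.sD b))) (d sj), LL.pd_mul (d sρ) (d (hF.sD b)),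
      pd_rho sp ss a, cur]
    ring
  · intro i b
    have h1 : LL.pd i (cur p s a b) x - LL.pd b (cur p s a i) x = _ :=
      LL.T90.curl_cur sp ss (hF.sa i) (hF.sa b) i b x
    have h2 : LL.pd i (a b) x - LL.pd b (a i) x =
      LL.pd i (D b) x - LL.pd b (D i) x + ν * C i b x := hF.curl i b x
    rw [h1, h2]
    ring

theorem int_flx (sp : ContDiff ℝ ∞ p) (ss : ContDiff ℝ ∞ s) (cp : HasCompactSupport p)
    (cs : HasCompactSupport s) (hF : Flds ν a D C) (hτ : ContDiff ℝ 1 τ) :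
    Integrable (fun x => ∑ i, ∑ b, LL.pd i (flx p s τ a D C i b) x) ∧
      ∫ x, ∑ i, ∑ b, LL.pd i (flx p s τ a D C i b) x = 0 := by
  have cV : ∀ i b, HasCompactSupport (flx p s τ a D C i b) := fun i b => by
    refine HasCompactSupport.intro (cp.isCompact.union cs.isCompact) fun x hx => ?_
    have h1 : p x = 0 := image_eq_zero_of_notMem_tsupport fun h => hx (Or.inl h)
    have h2 : s x = 0 := image_eq_zero_of_notMem_tsupport fun h => hx (Or.inr h)
    simp [flx, cur, h1, h2]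
  have i3 : ∀ i b, Integrable (LL.pd i (flx p s τ a D C i b)) := fun i b =>
    (LL.cont_pd (flx_sm sp ss hF hτ i b) i).integrable_of_hasCompactSupport (LL.cpt_pd (cV i b) i)
  refine ⟨integrable_finsetSum _ fun i _ => integrable_finsetSum _ fun b _ => i3 i b, ?_⟩
  rw [integral_finsetSum _ fun i _ => integrable_finsetSum _ fun b _ => i3 i b]
  refine Finset.sum_eq_zero fun i _ => ?_
  rw [integral_finsetSum _ fun b _ => i3 i b]
  exact Finset.sum_eq_zero fun b _ => LL.integral_pd (flx_sm sp ss hF hτ i b) (cV i b) i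

theorem kd_eq {φ : V3 → ℂ} (hφ : ContDiff ℝ ∞ φ) (a : Fin 3 → V3 → ℝ) (x : V3) :
    kd a φ x = ∑ i, ((LL.pd i (fun y => (φ y).re) x - a i x * (φ x).im) ^ 2 +
      (LL.pd i (fun y => (φ y).im) x + a i x * (φ x).re) ^ 2) := by
  have dφ : DifferentiableAt ℝ φ x := hφ.differentiable (by simp) x
  refine Finset.sum_congr rfl fun i _ => ?_
  have e : pd i φ x = LL.pd i φ x := rfl
  rw [Complex.sq_norm, Complex.normSq_apply, LL.pd_re dφ, LL.pd_im dφ, e]
  simp only [Complex.add_re, Complex.add_im, Complex.mul_re, Complex.mul_im, Complex.I_re,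
    Complex.I_im, Complex.ofReal_re, Complex.ofReal_im]
  ring

theorem sq_int {f : V3 → ℝ} (hf : Continuous f) (hc : HasCompactSupport f) :
    Integrable fun x => f x ^ 2 := by
  simp only [sq]
  exact (hf.mul hf).integrable_of_hasCompactSupport hc.mul_right

end E30

open E30

theorem st_ELEC30 : St_ELEC := by
  intro ν e γ a D C τ φ hν he he1 hF hφ hc hτ hτ1 hγ0 hγ ht hC u hu hg hg0
  have sp : ContDiff ℝ ∞ fun x => (φ x).re := Complex.reCLM.contDiff.comp hφ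
  have ss : ContDiff ℝ ∞ fun x => (φ x).im := Complex.imCLM.contDiff.comp hφ
  have cp : HasCompactSupport fun x => (φ x).re := hc.comp_left (g := Complex.re) rfl
  have cs : HasCompactSupport fun x => (φ x).im := hc.comp_left (g := Complex.im) rfl
  have dφ : ∀ x, DifferentiableAt ℝ φ x := hφ.differentiable (by simp)
  have nρ : ∀ x, ‖φ x‖ ^ 2 = (φ x).re ^ 2 + (φ x).im ^ 2 := fun x => by
    rw [Complex.sq_norm, Complex.normSq_apply]; ring
  obtain ⟨i4, i6⟩ := int_flx sp ss cp cs hF hτ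
  have key : ∀ x, ‖fderiv ℝ u x‖ ^ 2 + (1 - 3 * e) * (‖φ x‖ ^ 2 * (τ x * inten ν D C x)) +
      2 * ∑ i, ∑ b, LL.pd i (flx (fun x => (φ x).re) (fun x => (φ x).im) τ a D C i b) x ≤
        (1 + e) * kd a φ x := by
    intro x
    rw [div_flx sp ss hF hτ, kd_eq hφ]
    by_cases hx : x ∈ tsupport φ
    · rw [nρ, inten]
      refine alg (X := fun i => LL.pd i (fun y => (φ y).re) x - a i x * (φ x).im)
        (Y := fun i => LL.pd i (fun y => (φ y).im) x + a i x * (φ x).re)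
        (t := fun i => LL.pd i τ x) (D := fun b => D b x) (C := fun i b => C i b x)
        hν he he1 (hτ1 x).1 (hτ1 x).2 hγ ?_ (hC x hx) ?_ ?_
      · have := norm_fderiv_sq τ x
        exact this.symm.le.trans (pow_le_pow_left₀ (norm_nonneg _) (ht x hx) 2)
      · have h1 := hg x
        rw [nρ, funext nρ, norm_fderiv_sq (fun y => (φ y).re ^ 2 + (φ y).im ^ 2) x] at h1
        refine h1.trans (le_of_eq (Finset.sum_congr rfl fun i _ => ?_))
        rw [← pd_rho sp ss a]; rfl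
      · intro h1 h2
        rw [hg0 x (Complex.ext h1 h2)]; simp
    · have h0 : φ x = 0 := image_eq_zero_of_notMem_tsupport hx
      have h1 : fderiv ℝ φ x = 0 := by
        by_contra h
        exact hx (support_fderiv_subset ℝ h)
      have h2 : ∀ i, LL.pd i (fun y => (φ y).re) x = 0 := fun i => by
        rw [LL.pd_re (dφ x), LL.pd, h1]; simp
      have h3 : ∀ i, LL.pd i (fun y => (φ y).im) x = 0 := fun i => by
        rw [LL.pd_im (dφ x), LL.pd, h1]; simp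
      rw [hg0 x h0]
      simp only [h0, h2, h3]
      simp
  have i1 : Integrable fun x => ‖fderiv ℝ u x‖ ^ 2 :=
    sq_int (hu.1.continuous_fderiv (by simp)).norm (hu.2.1.fderiv (𝕜 := ℝ)).norm
  have cI : Continuous (inten ν D C) :=
    (continuous_finsetSum _ fun b _ => (hF.sD b).continuous.pow 2).add (continuous_const.mul
      (continuous_finsetSum _ fun i _ => continuous_finsetSum _ fun b _ =>
        (hF.sC i b).continuous.pow 2))
  have i2 : Integrable fun x => ‖φ x‖ ^ 2 * (τ x * inten ν D C x) := by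
    have h1 : HasCompactSupport fun x => ‖φ x‖ ^ 2 := by
      simp only [sq]; exact hc.norm.mul_right
    exact ((hφ.continuous.norm.pow 2).mul (hτ.continuous.mul cI)).integrable_of_hasCompactSupport
      h1.mul_right
  have i5 : Integrable (kd a φ) := by
    rw [funext (kd_eq hφ a)]
    refine integrable_finsetSum _ fun i _ => Integrable.add ?_ ?_
    · exact sq_int ((LL.smooth_pd sp i).sub ((hF.sa i).mul ss)).continuous
        ((LL.cpt_pd cp i).sub cs.mul_left)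
    · exact sq_int ((LL.smooth_pd ss i).add ((hF.sa i).mul sp)).continuous
        ((LL.cpt_pd cs i).add cp.mul_left)
  have j1 : Integrable fun x => ‖fderiv ℝ u x‖ ^ 2 +
      (1 - 3 * e) * (‖φ x‖ ^ 2 * (τ x * inten ν D C x)) := i1.add (i2.const_mul _)
  have h := integral_mono (f := fun x => ‖fderiv ℝ u x‖ ^ 2 +
      (1 - 3 * e) * (‖φ x‖ ^ 2 * (τ x * inten ν D C x)) +
      2 * ∑ i, ∑ b, LL.pd i (flx (fun x => (φ x).re) (fun x => (φ x).im) τ a D C i b) x)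
    (j1.add (i4.const_mul 2)) (i5.const_mul _) key
  rw [integral_add j1 (i4.const_mul 2), integral_add i1 (i2.const_mul _),
    integral_const_mul, integral_const_mul, integral_const_mul, i6] at h
  linarith

end Pool.Agent.Lib.LS
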