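import Pool.Agent.Lib.LS.Base

set_option autoImplicit false

open MeasureTheory Filter Topology
open scoped Pointwise

namespace Pool.Agent.Lib.LS

open Pool.Agent.Lib.MP_791321_mp

namespace T90

theorem rho_lim {Λ : ℝ} (hΛ : 0 < Λ) :
    Tendsto (fun L => rho L Λ) atTop (𝓝 (Λ ^ 3 / (6 * Real.pi ^ 2))) := by
  have hpi := Real.pi_pos
  let e : (Fin 3 → ℝ) ≃L[ℝ] V3 := (EuclideanSpace.equiv (Fin 3) ℝ).symm
  let s : Set (Fin 3 → ℝ) := e ⁻¹' Metric.ball 0 (Λ / (2 * Real.pi))
  have hmem : ∀ x, x ∈ s ↔ ‖e x‖ < Λ / (2 * Real.pi) := fun x => by simp [s]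
  have hopen : IsOpen s := Metric.isOpen_ball.preimage e.continuous
  have hconv : Convex ℝ s := (convex_ball _ _).linear_preimage e.toLinearEquiv.toLinearMap
  have h0 : (0 : Fin 3 → ℝ) ∈ s := by rw [hmem]; simp; positivity
  have hbdd : Bornology.IsBounded s := by
    refine (Metric.isBounded_closedBall (x := 0) (r := Λ / (2 * Real.pi))).subset fun x hx => ?_
    rw [mem_closedBall_zero_iff, pi_norm_le_iff_of_nonneg (by positivity)]
    intro i
    exact (PiLp.norm_apply_le (e x) i).trans ((hmem x).mp hx).le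
  have ht := tendsto_card_div_pow_atTop_volume' s hbdd hopen.measurableSet
    (hconv.addHaar_frontier volume)
    (fun x y hx hxy => by
      rintro _ ⟨w, hw, rfl⟩
      have hy : 0 < y := hx.trans_le hxy
      refine ⟨(x / y) • w, ?_, ?_⟩
      · exact hconv.smul_mem_of_zero_mem h0 hw ⟨by positivity, (div_le_one hy).mpr hxy⟩
      · simp only [smul_smul]; congr 1; field_simp)
  have hvol : volume.real s = Λ ^ 3 / (6 * Real.pi ^ 2) := by
    have h := (PiLp.volume_preserving_toLp (Fin 3)).measure_preimage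
      (s := Metric.ball (0 : V3) (Λ / (2 * Real.pi))) measurableSet_ball.nullMeasurableSet
    rw [Measure.real, show volume s = _ from h, EuclideanSpace.volume_ball_fin_three,
      ENNReal.toReal_mul, ENNReal.toReal_pow, ENNReal.toReal_ofReal (by positivity),
      ENNReal.toReal_ofReal (by positivity)]
    field_simp; ring
  rw [← hvol]
  have h1 : Tendsto (fun L : ℝ => 1 / L ^ 3) atTop (𝓝 0) :=
    tendsto_const_nhds.div_atTop (tendsto_pow_atTop (by norm_num))
  have h2 := ht.sub h1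
  rw [sub_zero] at h2
  refine h2.congr' ?_
  filter_upwards [eventually_gt_atTop 0] with L hL
  let g : (Fin 3 → ℤ) → (Fin 3 → ℝ) := fun z i => L⁻¹ * z i
  have hg : Function.Injective g := by
    intro z z' h
    funext i
    have := congrFun h i
    simp only [g] at this
    exact_mod_cast mul_left_cancel₀ (inv_pos.mpr hL).ne' this
  have hm : ∀ z, mom L z = (2 * Real.pi) • e (g z) := by
    intro z; ext i; simp [mom, e, g]; ring
  have hn : ∀ z, ‖mom L z‖ < Λ ↔ g z ∈ s := by
    intro z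
    rw [hm, hmem, norm_smul, Real.norm_of_nonneg (by positivity), lt_div_iff₀ (by positivity),
      mul_comm]
  have hz : ∀ z, mom L z = 0 ↔ z = 0 := by
    intro z
    constructor
    · intro h
      funext i
      have := congrArg (fun v : V3 => v i) h
      simp only [mom, PiLp.zero_apply, mul_eq_zero] at this
      rcases this with h | h
      · exact absurd h (by positivity)
      · exact_mod_cast h
    · rintro rfl; ext i; simp [mom]
  have hset : s ∩ L⁻¹ • ((Submodule.span ℤ (Set.range (Pi.basisFun ℝ (Fin 3))) :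
      Submodule ℤ (Fin 3 → ℝ)) : Set (Fin 3 → ℝ)) =
      g '' insert 0 (Kset L Λ) := by
    ext x
    simp only [Set.mem_inter_iff, Set.mem_image, Set.mem_insert_iff, Set.mem_smul_set,
      SetLike.mem_coe]
    constructor
    · rintro ⟨hx, y, hy, rfl⟩
      rw [Module.Basis.mem_span_iff_repr_mem] at hy
      choose z hz' using hy
      have hgz : g z = L⁻¹ • y := by
        funext i
        have := hz' i
        simp only [Pi.basisFun_repr, algebraMap_int_eq, eq_intCast] at this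
        simp [g, this]
      refine ⟨z, ?_, hgz⟩
      by_cases h : z = 0
      · exact Or.inl h
      · exact Or.inr ⟨fun h' => h ((hz z).mp h'), (hn z).mpr (hgz ▸ hx)⟩
    · rintro ⟨z, hz', rfl⟩
      refine ⟨?_, fun i => z i, ?_, ?_⟩
      · rcases hz' with rfl | h
        · rw [← hn, (hz 0).mpr rfl]; simpa using hΛ
        · exact (hn z).mp h.2
      · rw [Module.Basis.mem_span_iff_repr_mem]
        intro i
        exact ⟨z i, by simp⟩
      · funext i; simp [g]
  have hnot : (0 : Fin 3 → ℤ) ∉ Kset L Λ := fun h => h.1 ((hz 0).mpr rfl)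
  rw [hset, Nat.card_coe_set_eq, Set.ncard_image_of_injective _ hg,
    Set.ncard_insert_of_notMem hnot (Kset_finite L Λ), rho, ← Nat.card_coe_set_eq,
    Nat.card_eq_fintype_card]
  simp only [Fintype.card_fin]
  push_cast
  ring

variable {L Λ r : ℝ}

theorem coord_le (hL : 0 < L) (z : Fin 3 → ℤ) (i : Fin 3) :
    2 * Real.pi / L * |(z i : ℝ)| ≤ ‖mom L z‖ := by
  have h1 : ‖mom L z i‖ ≤ ‖mom L z‖ := PiLp.norm_apply_le _ _
  have hpi := Real.pi_pos
  rwa [show ‖mom L z i‖ = |2 * Real.pi / L * (z i : ℝ)| from rfl, abs_mul,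
    abs_of_pos (by positivity)] at h1

theorem om_ge (hL : 0 < L) (m : Mode L Λ) : 2 * Real.pi / L ≤ om m := by
  obtain ⟨i, hi⟩ : ∃ i, m.1.1 i ≠ 0 := by
    by_contra h
    exact m.1.2.1 (by ext i; simp [mom, not_not.1 (not_exists.1 h i)])
  have h1 : (1 : ℝ) ≤ |(m.1.1 i : ℝ)| := by exact_mod_cast Int.one_le_abs hi
  have hpi := Real.pi_pos
  exact le_trans (le_mul_of_one_le_right (by positivity) h1) (coord_le hL _ i)

theorem cnt_eq (L Λ r : ℝ) : (∑ m : Mode L Λ, if om m < r then (1 : ℝ) else 0) =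
    2 * ((Finset.univ.filter fun z : Kset L Λ => ‖mom L z‖ < r).card : ℝ) := by
  rw [Fintype.sum_prod_type, Finset.card_filter]
  push_cast
  rw [Finset.mul_sum]
  refine Finset.sum_congr rfl fun z _ => ?_
  rw [Fin.sum_univ_two, two_mul]
  rfl

theorem cnt_le (hL : 0 < L) (hr : 0 ≤ r) :
    (∑ m : Mode L Λ, if om m < r then (1 : ℝ) else 0) ≤ r ^ 3 / 4 * L ^ 3 := by
  have hpi := Real.pi_gt_d2
  rcases le_or_gt r (2 * Real.pi / L) with h | h
  · rw [Finset.sum_eq_zero fun m _ => if_neg (not_lt.2 (h.trans (om_ge hL m)))]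
    positivity
  obtain ⟨t, ht⟩ : ∃ t, t = r / (2 * Real.pi / L) := ⟨_, rfl⟩
  have h1 : 1 ≤ t := by rw [ht, le_div_iff₀ (by positivity)]; linarith
  have h2 : (Finset.univ.filter fun z : Kset L Λ => ‖mom L z‖ < r).card ≤
      (Fintype.piFinset fun _ : Fin 3 => Finset.Icc (-(⌊t⌋₊ : ℤ)) ⌊t⌋₊).card := by
    refine Finset.card_le_card_of_injOn (fun z => z.1) (fun z hz => ?_)
      fun _ _ _ _ h => Subtype.ext h
    have h3 : ‖mom L z‖ < r := by simpa using hz
    refine Finset.mem_coe.2 (Fintype.mem_piFinset.2 fun i => Finset.mem_Icc.2 (abs_le.1 ?_))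
    have h4 : ((z.1 i).natAbs : ℝ) ≤ t := by
      rw [ht, le_div_iff₀ (by positivity), Nat.cast_natAbs, Int.cast_abs]
      linarith [coord_le hL z.1 i]
    rw [← Int.natCast_natAbs]
    exact_mod_cast Nat.le_floor h4
  rw [Fintype.card_piFinset_const, Int.card_Icc,
    show ((⌊t⌋₊ : ℤ) + 1 - -(⌊t⌋₊ : ℤ)).toNat = 2 * ⌊t⌋₊ + 1 by omega] at h2
  have h5 : ((2 * ⌊t⌋₊ + 1 : ℕ) : ℝ) ≤ 3 * t := by
    push_cast; linarith [Nat.floor_le (zero_le_one.trans h1)]
  have h6 : r * L = 2 * Real.pi * t := by rw [ht]; field_simp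
  have h7 : (6 * t) ^ 3 ≤ (r * L) ^ 3 := by rw [h6]; gcongr; linarith
  have h8 : (((2 * ⌊t⌋₊ + 1) ^ 3 : ℕ) : ℝ) ≤ (3 * t) ^ 3 := by rw [Nat.cast_pow]; gcongr
  have h9 := (Nat.cast_le (α := ℝ)).2 h2
  rw [cnt_eq]
  nlinarith

theorem inv_le (hL : 0 < L) (n : ℕ) : ∀ r : ℝ, 0 ≤ r → r ≤ 2 ^ n * (2 * Real.pi / L) →
    (∑ m : Mode L Λ, if om m < r then 1 / om m else 0) ≤ r ^ 2 * L ^ 3 := by
  induction n with
  | zero =>
    intro r hr h
    rw [pow_zero, one_mul] at h
    rw [Finset.sum_eq_zero fun m _ => if_neg (not_lt.2 (h.trans (om_ge hL m)))]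
    positivity
  | succ n ih =>
    intro r hr h
    rcases hr.eq_or_lt with rfl | h0
    · rw [Finset.sum_eq_zero fun m _ => if_neg (not_lt.2 (om_pos m).le)]
      positivity
    have h1 := ih (r / 2) (by positivity) (by rw [pow_succ] at h; linarith)
    have h2 := mul_le_mul_of_nonneg_left (cnt_le (Λ := Λ) hL hr) (show 0 ≤ 2 / r by positivity)
    rw [Finset.mul_sum, show 2 / r * (r ^ 3 / 4 * L ^ 3) = r ^ 2 / 2 * L ^ 3 by field_simp; ring]
      at h2
    have h3 : 0 ≤ r ^ 2 * L ^ 3 := by positivity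
    refine le_trans ?_ ((add_le_add h1 h2).trans (by linarith))
    rw [← Finset.sum_add_distrib]
    refine Finset.sum_le_sum fun m _ => ?_
    have h4 := om_pos m
    by_cases a : om m < r / 2
    · rw [if_pos a, if_pos (by linarith : om m < r), if_pos (by linarith : om m < r)]
      exact le_add_of_nonneg_right (by positivity)
    · rw [if_neg a, zero_add]
      split_ifs
      · rw [mul_one, div_le_div_iff₀ h4 h0]; linarith
      · simp

end T90

open T90

theorem st_LAT90 : St_LAT := by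
  refine ⟨fun Λ hΛ => rho_lim hΛ, fun L Λ r hL hr => ?_, fun L Λ r hL hr => ?_,
    fun L Λ r hL hr => ?_⟩
  · rw [div_le_iff₀ (by positivity)]
    have : 0 ≤ r ^ 3 * L ^ 3 := by positivity
    linarith [cnt_le (Λ := Λ) hL hr]
  · have hpi := Real.pi_pos
    obtain ⟨n, hn⟩ := pow_unbounded_of_one_lt (r / (2 * Real.pi / L)) (one_lt_two (α := ℝ))
    rw [div_le_iff₀ (by positivity)]
    exact inv_le hL n r hr ((div_le_iff₀ (by positivity)).1 hn.le)
  · rw [cnt_eq, rho, mul_div_assoc]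
    congr 3
    refine Finset.card_bij (fun z hz => ⟨z.1, z.2.1, by simpa using hz⟩)
      (fun _ _ => Finset.mem_univ _) (fun _ _ _ _ h => Subtype.ext (Subtype.mk.inj h))
      fun z _ => ⟨⟨z.1, z.2.1, z.2.2.trans_le hr⟩, by simpa using z.2.2, rfl⟩

end Pool.Agent.Lib.LS
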