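import Pool.Agent.Lib.LL.B_RM
import Pool.Agent.Lib.LL.B_RED
import Pool.Agent.Lib.LL.B_IMS
import Pool.Agent.Lib.LL.B_REP
import Pool.Agent.Lib.LL.B_NEAR
import Pool.Agent.Lib.LL.B_BMP
import Pool.Agent.Lib.LL.B_CUB
import Pool.Agent.Lib.LL.B_DEN
import Pool.Agent.Lib.LL.B_KAP
import Pool.Agent.Lib.LL.B_SCH
import Pool.Agent.Lib.LL.B_SOB
import Pool.Agent.Lib.LS.B_ADP
import Pool.Agent.Lib.LS.B_TR
import Pool.Agent.Lib.LS.B_COMM
import Pool.Agent.Lib.LS.B_FLOOR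
import Pool.Agent.Lib.LS.B_SOFT
import Pool.Agent.Lib.LS.B_BES
import Pool.Agent.Lib.LS.B_REP
import Pool.Agent.Lib.LS.B_SUPF
import Pool.Agent.Lib.LS.B_FLD1
import Pool.Agent.Lib.LS.B_FLD2
import Pool.Agent.Lib.LS.B_MOD
import Pool.Agent.Lib.LS.Elec30
import Pool.Agent.Lib.LS.B_TAU
import Pool.Agent.Lib.LS.B_POI1
import Pool.Agent.Lib.LS.B_POI2
import Pool.Agent.Lib.LS.B_CELL
import Pool.Agent.Lib.LS.B_NET
import Pool.Agent.Lib.LS.B_NASH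
import Pool.Agent.Lib.LS.B_SCAL
import Pool.Agent.Lib.LS.B_CLASS
import Pool.Agent.Lib.LS.B_LOC
import Pool.Agent.Lib.LS.Lat90
import Pool.Agent.Lib.LS.B_LOW
import Pool.Agent.Lib.LS.B_MAT
import Pool.Agent.Lib.LS.B_PARS
import Pool.Agent.Lib.LS.B_LEAK
import Pool.Agent.Lib.LS.B_TAY
import Pool.Agent.Lib.LS.B_SQ
import Pool.Agent.Lib.LS.B_SL1
import Pool.Agent.Lib.LS.B_SL2
import Pool.Agent.Lib.LS.B_UP0
import Pool.Agent.Lib.LS.B_UP
import Pool.Agent.Lib.LS.B_MAIN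

set_option autoImplicit false

namespace Pool.Agent.Lib.LS

theorem near : LL.St_NEAR :=
  LL.st_NEAR LL.st_RM LL.st_RED (LL.st_IMS LL.st_BMP LL.st_CUB) LL.st_REP

theorem low : St_LOW :=
  st_LOW (st_ADP near LL.st_DEN LL.st_KAP)
    (st_LOC (st_SOFT st_COMM) st_BES st_TR st_FLD1
      (st_FLD2 st_BES st_REP st_SUPF (st_FLOOR st_COMM)) st_CELL
      (st_CLASS st_ELEC30 st_MOD st_TAU (st_NET st_POI1 st_POI2) st_SCAL))
    st_LAT90

theorem up : St_UP :=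
  st_UP (st_UP0 (st_SQ LL.st_RM) st_MAT (st_TAY st_CELL st_LAT90)
    (st_LEAK st_PARS st_TR st_LAT90) st_BES st_TR st_LAT90) (st_SL2 st_SL1) st_SCAL st_LAT90

theorem sharp : St_A := st_A low up (st_NASH LL.st_SOB) st_SCAL

theorem bind : St_B := st_B low up (st_NASH LL.st_SOB) st_SCAL

end Pool.Agent.Lib.LS
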