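import Pool.Agent.Lib.LS.Base

set_option autoImplicit false

open Finset

namespace Pool.Agent.Lib.LS

theorem st_FLOOR (hC : St_COMM) : St_FLOOR := by
  intro I _ _ κ μ h hκ hp G hG hle
  have p0 : ∀ i j, PG1 fun q : I → ℝ => -(1 / 2) * G i j * q j := fun i j =>
    (PG1.const _).mul (PG1.coord j)
  have e1 : ∀ q v : I → ℝ, ∑ i, v i * ∑ j, -(1 / 2) * G i j * q j = -(1 / 2) * bf G v q :=
    fun q v => by
      simp only [bf, mul_sum]
      exact sum_congr rfl fun i _ => sum_congr rfl fun j _ => by ring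
  have e2 : ∀ i (q : I → ℝ), dq i (fun q : I → ℝ => ∑ j, -(1 / 2) * G i j * q j) q =
      -(1 / 2) * G i i := fun i q => by
    rw [dq_sum i univ fun j _ => (p0 i j).1 q]
    simp only [fun j => dq_mul i (differentiableAt_const (-(1 / 2) * G i j))
      ((PG1.coord j).1 q), dq_const, dq_coord, zero_mul, zero_add, mul_ite, mul_one, mul_zero,
      sum_ite_eq', mem_univ, if_true]
  have k := hC I κ μ h hκ hp (fun i q => ∑ j, -(1 / 2) * G i j * q j) (fun q => 1 / 4 * bf G q q)
    (fun i => PG1.sum fun j _ => p0 i j) ((PG.const _).mul (PG_bf' G))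
    (fun q => mul_nonneg (by norm_num) (hG.2 q)) fun q v => by
      simp only [mul_comm _ (v _), e1]
      have a1 := bf_sq_le hG v q
      have a2 := mul_le_mul_of_nonneg_right (hle v) (hG.2 q)
      nlinarith
  refine le_of_eq_of_le (congrArg gE (funext fun q => ?_)) k
  simp only [e1, e2, ← mul_sum]
  ring

end Pool.Agent.Lib.LS
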