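import Pool.Agent.Lib.LS.Blue

set_option autoImplicit false

open MeasureTheory Filter Topology

namespace Pool.Agent.Lib.LS

open Pool.Agent.Lib.MP_791321_mp

namespace T90

/-- The change of parameters. -/
theorem par {α : ℝ} (hα : 0 < α) : ∃ b : ℝ, 0 < b ∧ (6 * Real.pi ^ 2 * b) ^ 2 = α ∧
    ∀ p : ℝ → Prop, (∀ᶠ x in atTop, p x) → ∃ Λ₀ : ℝ, ∀ Λ, Λ₀ ≤ Λ → ∃ x : ℝ, 0 < x ∧ p x ∧
      b ^ 2 * x ^ 196 = Λ ∧
      b ^ 4 * x ^ 336 = (√α * Λ ^ 3 / (6 * Real.pi ^ 2)) ^ (4 / 7 : ℝ) := by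
  have hπ := Real.pi_pos
  have hs := Real.sqrt_pos.2 hα
  obtain ⟨b, hb⟩ : ∃ b : ℝ, b = √α / (6 * Real.pi ^ 2) := ⟨_, rfl⟩
  have hb0 : 0 < b := by rw [hb]; positivity
  refine ⟨b, hb0, ?_, fun p hp => ?_⟩
  · rw [hb, mul_div_cancel₀ _ (by positivity), Real.sq_sqrt hα.le]
  have ht : Tendsto (fun Λ : ℝ => (Λ / b ^ 2) ^ ((196 : ℕ) : ℝ)⁻¹) atTop atTop :=
    (tendsto_rpow_atTop (by positivity)).comp (tendsto_id.atTop_div_const (by positivity))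
  obtain ⟨Λ₀, h⟩ := eventually_atTop.1 ((ht.eventually hp).and (eventually_gt_atTop 0))
  refine ⟨Λ₀, fun Λ hΛ => ?_⟩
  obtain ⟨h1, h2⟩ := h Λ hΛ
  have h0 : 0 < Λ / b ^ 2 := by positivity
  have h3 := Real.rpow_inv_natCast_pow h0.le (n := 196) (by norm_num)
  have h4 := Real.rpow_pos_of_pos h0 ((196 : ℕ) : ℝ)⁻¹
  generalize (Λ / b ^ 2) ^ ((196 : ℕ) : ℝ)⁻¹ = x at h1 h3 h4
  have h5 : b ^ 2 * x ^ 196 = Λ := by rw [h3]; field_simp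
  refine ⟨x, h4, h1, h5, ?_⟩
  have h6 : √α * Λ ^ 3 / (6 * Real.pi ^ 2) = (b * x ^ 84) ^ 7 := by
    rw [mul_div_right_comm, ← hb, ← h5]; ring
  rw [h6, ← Real.rpow_natCast _ 7, ← Real.rpow_mul (by positivity),
    show ((7 : ℕ) : ℝ) * (4 / 7) = ((4 : ℕ) : ℝ) by norm_num, Real.rpow_natCast]
  ring

end T90

open T90

theorem st_A (hL : St_LOW) (hU : St_UP) (hN : St_NASH) (hS : St_SCAL) : St_A := by
  have hF : 0 < F1 := hN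
  refine ⟨hF, fun α δ hα hδ => ?_⟩
  obtain ⟨b, hb, e, hp⟩ := par hα
  have hd : 0 < δ * F1 / 2 := by positivity
  obtain ⟨u, u1, u2, u3⟩ := hS.2.2 _ hd
  obtain ⟨Λ₀, h⟩ := hp _ ((hL b _ hb hd).and (hU 1 u b _ u1 u2 hb hd))
  refine ⟨Λ₀, fun Λ hΛ ε hε => ?_⟩
  obtain ⟨x, hx, ⟨h1, h2⟩, h3, h4⟩ := h Λ hΛ
  rw [e, h3] at h1 h2
  have hE : 0 < b ^ 4 * x ^ 336 := by positivity
  rw [← h4]
  refine ⟨le_liminf_of_le (h := h1.mono fun L hL => le_trans ?_ (hL _ (hε L))),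
    limsup_le_of_le (h := h2.mono fun L hL => (hL _ (hε L)).trans ?_)⟩
  · exact EReal.coe_le_coe_iff.2 (mul_le_mul_of_nonneg_right (by linarith) hE.le)
  · refine EReal.coe_le_coe_iff.2 (mul_le_mul_of_nonneg_right ?_ hE.le)
    norm_num
    linarith

theorem st_B (hL : St_LOW) (hU : St_UP) (hN : St_NASH) (hS : St_SCAL) : St_B := by
  have hF : 0 < F1 := hN
  intro N hN2 α hα
  obtain ⟨b, hb, e, hp⟩ := par hα
  have hd : 0 < F1 / 1000 := by positivity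
  obtain ⟨u, u1, u2, u3⟩ := hS.2.2 _ hd
  obtain ⟨Λ₀, h⟩ := hp _ ((hL b _ hb hd).and (hU N u b _ u1 u2 hb hd))
  refine ⟨Λ₀, fun Λ hΛ ε hε => ?_⟩
  obtain ⟨x, hx, ⟨h1, h2⟩, h3, -⟩ := h Λ hΛ
  rw [e, h3] at h1 h2
  have hE : 0 < b ^ 4 * x ^ 336 := by positivity
  have a1 := hS.2.1 u (1 / 2) u1 (by norm_num)
  rw [u2, Real.sqrt_one] at a1
  have a2 : √2 ≤ 3 / 2 := by
    rw [Real.sqrt_le_left (by norm_num)]; norm_num
  have a3 : (N : ℝ) = 2 * ((N / 2 : ℕ) : ℝ) + ((N % 2 : ℕ) : ℝ) := by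
    exact_mod_cast (Nat.div_add_mod N 2).symm
  have a4 : (1 : ℝ) ≤ ((N / 2 : ℕ) : ℝ) := by exact_mod_cast (by omega : 1 ≤ N / 2)
  have a5 : ((N % 2 : ℕ) : ℝ) ≤ 1 := by exact_mod_cast (by omega : N % 2 ≤ 1)
  have a6 : (0 : ℝ) ≤ ((N % 2 : ℕ) : ℝ) := Nat.cast_nonneg _
  generalize b ^ 4 * x ^ 336 = E at h1 h2 hE
  generalize ((N / 2 : ℕ) : ℝ) = m at h2 a3 a4
  generalize ((N % 2 : ℕ) : ℝ) = o at h2 a3 a5 a6
  generalize ∫ x, ‖fderiv ℝ u x‖ ^ 2 = T at h2 u3 a1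
  generalize ∫ x, u x = I at h2 u3 a1
  have a7 : F1 / 10 ≤ I := by norm_num at a1; linarith
  have key : N * (1 / 2 * T) + (√2 * m + o) * I + F1 / 1000 < N * (F1 - F1 / 1000) := by
    have b1 : N * (1 / 2 * T + I) ≤ N * (F1 + F1 / 1000) := by gcongr
    have b2 : √2 * (m * I) ≤ 3 / 2 * (m * I) := by
      have : 0 ≤ m * I := mul_nonneg (by linarith) (by linarith)
      gcongr
    have b3 : m * (F1 / 10) ≤ m * I := by gcongr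
    have b4 : 1 * F1 ≤ m * F1 := by gcongr
    have b5 : o * F1 ≤ 1 * F1 := by gcongr
    rw [a3] at b1 ⊢
    nlinarith
  calc _ ≤ _ := limsup_le_of_le (h := h2.mono fun L hL => hL _ (hε L))
    _ < ((N * ((F1 - F1 / 1000) * E) : ℝ) : EReal) := by
      rw [EReal.coe_lt_coe_iff, ← mul_assoc (N : ℝ) (F1 - _)]
      exact mul_lt_mul_of_pos_right key hE
    _ = (N : EReal) * (((F1 - F1 / 1000) * E : ℝ) : EReal) := by rw [EReal.coe_mul]; rfl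
    _ ≤ _ := mul_le_mul_of_nonneg_left (le_liminf_of_le (h := h1.mono fun L hL => hL _ (hε L)))
      (Nat.cast_nonneg' N)

end Pool.Agent.Lib.LS
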