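import Pool.Agent.Lib.LS.Base

set_option autoImplicit false

open MeasureTheory
open scoped ContDiff

namespace Pool.Agent.Lib.LS

open Pool.Agent.Lib.MP_791321_mp

namespace T31

lemma adm_exists : ∃ u : V3 → ℝ, Adm u ∧ ∫ x, u x ^ 2 = 1 := by
  let f : ContDiffBump (0 : V3) := ⟨1, 2, one_pos, one_lt_two⟩
  have h1 : 0 < ∫ x, f x ^ 2 :=
    Continuous.integral_pos_of_hasCompactSupport_nonneg_nonzero (x := 0) (f.continuous.pow 2)
      (f.hasCompactSupport.comp_left (g := fun z : ℝ => z ^ 2) (by simp)) (fun x => sq_nonneg _)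
      (by rw [f.one_of_mem_closedBall (Metric.mem_closedBall_self f.rIn_pos.le)]; norm_num)
  refine ⟨fun x => (√(∫ x, f x ^ 2))⁻¹ * f x,
    ⟨contDiff_const.mul f.contDiff, f.hasCompactSupport.mul_left,
      fun x => mul_nonneg (by positivity) f.nonneg⟩, ?_⟩
  simp only [mul_pow]
  rw [integral_const_mul, inv_pow, Real.sq_sqrt h1.le, inv_mul_cancel₀ h1.ne']

lemma sq_le_add_six {t : ℝ} (ht : 0 ≤ t) : t ^ 2 ≤ t + t ^ 6 := by
  rcases le_total t 1 with h | h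
  · nlinarith [pow_nonneg ht 6]
  · have := pow_le_pow_right₀ h (show 2 ≤ 6 by norm_num)
    linarith

lemma arith {C G U V : ℝ} (hC : 0 < C) (p1 : 0 ≤ U) (p2 : 0 ≤ G) (h1 : V ≤ (C * G) ^ 3)
    (h3 : 1 ≤ U + V) : min (1 / 2) (1 / (4 * C)) ≤ 1 / 2 * G + U := by
  by_contra hlt
  rw [not_le, lt_min_iff, lt_div_iff₀ (by positivity : 0 < 4 * C)] at hlt
  have h4 : C * G ≤ 1 / 2 := by nlinarith [mul_nonneg hC.le p1, hlt.2]
  have h5 : (C * G) ^ 3 ≤ (1 / 2) ^ 3 := by gcongr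
  linarith [hlt.1]

end T31

theorem st_NASH (hS : LL.St_SOB) : St_NASH := by
  obtain ⟨C, hC, h, -⟩ := hS
  obtain ⟨u0, hu0, hn0⟩ := T31.adm_exists
  unfold St_NASH F1
  refine lt_of_lt_of_le (show (0 : ℝ) < min (1 / 2) (1 / (4 * C)) by positivity)
    (le_csInf ⟨_, u0, hu0, hn0, rfl⟩ ?_)
  rintro e ⟨u, ⟨hu, hc, h0⟩, hn, rfl⟩
  have h1 := h u (hu.of_le (by simp)) hc
  have h2 : ∫ x, LL.gr2 u x = ∫ x, ‖fderiv ℝ u x‖ ^ 2 :=
    integral_congr_ae (.of_forall fun x => by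
      simp only [norm_fderiv_sq]
      rfl)
  have i1 : Integrable u := hu.continuous.integrable_of_hasCompactSupport hc
  have i6 : Integrable fun x => u x ^ 6 :=
    Continuous.integrable_of_hasCompactSupport (hu.continuous.pow 6)
      (hc.comp_left (g := fun z : ℝ => z ^ 6) (by simp))
  have h3 : ∫ x, u x ^ 2 ≤ ∫ x, (u x + u x ^ 6) :=
    integral_mono_of_nonneg (.of_forall fun x => sq_nonneg _) (i1.add i6)
      (.of_forall fun x => T31.sq_le_add_six (h0 x))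
  replace h3 := hn.symm.le.trans (h3.trans (integral_add i1 i6).le)
  replace h1 := h1.trans_eq (congrArg (fun t => (C * t) ^ 3) h2)
  have p1 : 0 ≤ ∫ x, u x := integral_nonneg h0
  have p2 : 0 ≤ ∫ x, ‖fderiv ℝ u x‖ ^ 2 := integral_nonneg fun x => sq_nonneg _
  exact T31.arith hC p1 p2 h1 h3

end Pool.Agent.Lib.LS
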