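import Pool.Agent.Lib.LS.Blue

set_option autoImplicit false

open MeasureTheory Filter Topology Metric
open scoped ComplexConjugate InnerProductSpace ContDiff

namespace Pool.Agent.Lib.LS

open Pool.Agent.Lib.MP_791321_mp

section gauss

variable {I : Type} [Fintype I]

namespace PG

theorem integrable {f : (I → ℝ) → ℝ} (h : PG f) : Integrable f (LL39.gam I) :=
  h.2.integrable h.1.aestronglyMeasurable

theorem const (c : ℝ) : PG fun _ : I → ℝ => c := ⟨continuous_const, LL39.PG.const c⟩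

theorem coord (l : I) : PG fun q : I → ℝ => q l := ⟨continuous_apply l, LL39.PG.coord l⟩

theorem add {f g : (I → ℝ) → ℝ} (hf : PG f) (hg : PG g) : PG fun q => f q + g q :=
  ⟨hf.1.add hg.1, hf.2.add hg.2⟩

theorem neg {f : (I → ℝ) → ℝ} (hf : PG f) : PG fun q => -f q := ⟨hf.1.neg, hf.2.neg⟩

theorem sub {f g : (I → ℝ) → ℝ} (hf : PG f) (hg : PG g) : PG fun q => f q - g q :=
  ⟨hf.1.sub hg.1, hf.2.sub hg.2⟩

theorem mul {f g : (I → ℝ) → ℝ} (hf : PG f) (hg : PG g) : PG fun q => f q * g q :=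
  ⟨hf.1.mul hg.1, hf.2.mul hg.2⟩

theorem pow {f : (I → ℝ) → ℝ} (hf : PG f) (k : ℕ) : PG fun q => f q ^ k :=
  ⟨hf.1.pow k, hf.2.pow k⟩

theorem sum {ι : Type} {s : Finset ι} {f : ι → (I → ℝ) → ℝ} (h : ∀ i ∈ s, PG (f i)) :
    PG fun q => ∑ i ∈ s, f i q :=
  ⟨continuous_finsetSum s fun i hi => (h i hi).1, LL39.PG.sum fun i hi => (h i hi).2⟩

theorem of_bound {f : (I → ℝ) → ℝ} {C : ℝ} (hc : Continuous f) (h : ∀ q, |f q| ≤ C) : PG f :=
  ⟨hc, LL39.PG.of_bound h⟩

theorem of_le {f g : (I → ℝ) → ℝ} (hc : Continuous f) (hg : PG g) (h : ∀ q, |f q| ≤ |g q|) :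
    PG f := ⟨hc, hg.2.of_le h⟩

end PG

theorem PG_bf (P : Matrix I I ℝ) (l l' : I → ℝ) :
    PG fun q : I → ℝ => bf P (fun i => l i * q i) (fun i => l' i * q i) :=
  PG.sum fun m _ => PG.sum fun m' _ =>
    (((PG.const _).mul (PG.coord m)).mul (PG.const _)).mul ((PG.const _).mul (PG.coord m'))

theorem PG_bf' (P : Matrix I I ℝ) : PG fun q : I → ℝ => bf P q q := by
  simpa using PG_bf P (fun _ => 1) fun _ => 1

theorem gE_add {f g : (I → ℝ) → ℝ} (hf : PG f) (hg : PG g) :
    gE (fun q => f q + g q) = gE f + gE g := integral_add hf.integrable hg.integrable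

theorem gE_sub {f g : (I → ℝ) → ℝ} (hf : PG f) (hg : PG g) :
    gE (fun q => f q - g q) = gE f - gE g := integral_sub hf.integrable hg.integrable

theorem gE_mul (c : ℝ) (f : (I → ℝ) → ℝ) : gE (fun q => c * f q) = c * gE f :=
  integral_const_mul c f

theorem gE_neg (f : (I → ℝ) → ℝ) : gE (fun q => -f q) = -gE f := integral_neg f

theorem gE_sum {ι : Type} (s : Finset ι) {f : ι → (I → ℝ) → ℝ} (h : ∀ i ∈ s, PG (f i)) :
    gE (fun q => ∑ i ∈ s, f i q) = ∑ i ∈ s, gE (f i) :=
  integral_finsetSum s fun i hi => (h i hi).integrable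

theorem gE_mono {f g : (I → ℝ) → ℝ} (hf : PG f) (hg : PG g) (h : ∀ q, f q ≤ g q) :
    gE f ≤ gE g := integral_mono hf.integrable hg.integrable h

variable [DecidableEq I]

/-- Gaussian integration by parts -/
theorem gE_ibp {f : (I → ℝ) → ℝ} (h : PG1 f) (m : I) : gE (dq m f) = gE fun q => q m * f q :=
  LL39.ibp m (fun q => (h.1 q).hasFDerivAt.hasLineDerivAt _) h.2.1.1 (h.2.2 m).1 h.2.1.2
    (h.2.2 m).2

omit [Fintype I] in
theorem dq_const (m : I) (c : ℝ) (q : I → ℝ) : dq m (fun _ => c) q = 0 := by simp [dq]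

omit [Fintype I] in
theorem dq_coord (m l : I) (q : I → ℝ) :
    dq m (fun q : I → ℝ => q l) q = if l = m then 1 else 0 := by
  have h : HasFDerivAt (fun q : I → ℝ => q l)
      (ContinuousLinearMap.proj (R := ℝ) (φ := fun _ : I => ℝ) l) q := hasFDerivAt_apply l q
  rw [dq, h.fderiv]
  simp [Pi.single_apply]

theorem dq_add (m : I) {f g : (I → ℝ) → ℝ} {q : I → ℝ} (hf : DifferentiableAt ℝ f q)
    (hg : DifferentiableAt ℝ g q) : dq m (fun q => f q + g q) q = dq m f q + dq m g q := by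
  simp only [dq]; rw [fderiv_fun_add hf hg]; rfl

theorem dq_sub (m : I) {f g : (I → ℝ) → ℝ} {q : I → ℝ} (hf : DifferentiableAt ℝ f q)
    (hg : DifferentiableAt ℝ g q) : dq m (fun q => f q - g q) q = dq m f q - dq m g q := by
  simp only [dq]; rw [fderiv_fun_sub hf hg]; rfl

theorem dq_mul (m : I) {f g : (I → ℝ) → ℝ} {q : I → ℝ} (hf : DifferentiableAt ℝ f q)
    (hg : DifferentiableAt ℝ g q) :
    dq m (fun q => f q * g q) q = dq m f q * g q + f q * dq m g q := by
  simp only [dq]; rw [fderiv_fun_mul hf hg]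
  simp only [add_apply, smul_apply, smul_eq_mul]; ring

theorem dq_sum (m : I) {ι : Type} (s : Finset ι) {f : ι → (I → ℝ) → ℝ} {q : I → ℝ}
    (h : ∀ i ∈ s, DifferentiableAt ℝ (f i) q) :
    dq m (fun q => ∑ i ∈ s, f i q) q = ∑ i ∈ s, dq m (f i) q := by
  simp only [dq]; rw [fderiv_fun_sum h]; simp

namespace PG1

theorem const (c : ℝ) : PG1 fun _ : I → ℝ => c :=
  ⟨differentiable_const c, PG.const c, fun m => by
    rw [funext (dq_const m c)]; exact PG.const 0⟩

theorem coord (l : I) : PG1 fun q : I → ℝ => q l :=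
  ⟨differentiable_apply l, PG.coord l, fun m => by
    rw [funext (dq_coord m l)]; exact PG.const _⟩

theorem add {f g : (I → ℝ) → ℝ} (hf : PG1 f) (hg : PG1 g) : PG1 fun q => f q + g q :=
  ⟨hf.1.add hg.1, hf.2.1.add hg.2.1, fun m => by
    rw [show dq m (fun q => f q + g q) = _ from funext fun q => dq_add m (hf.1 q) (hg.1 q)]
    exact (hf.2.2 m).add (hg.2.2 m)⟩

theorem sub {f g : (I → ℝ) → ℝ} (hf : PG1 f) (hg : PG1 g) : PG1 fun q => f q - g q :=
  ⟨hf.1.sub hg.1, hf.2.1.sub hg.2.1, fun m => by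
    rw [show dq m (fun q => f q - g q) = _ from funext fun q => dq_sub m (hf.1 q) (hg.1 q)]
    exact (hf.2.2 m).sub (hg.2.2 m)⟩

theorem mul {f g : (I → ℝ) → ℝ} (hf : PG1 f) (hg : PG1 g) : PG1 fun q => f q * g q :=
  ⟨hf.1.mul hg.1, hf.2.1.mul hg.2.1, fun m => by
    rw [show dq m (fun q => f q * g q) = _ from funext fun q => dq_mul m (hf.1 q) (hg.1 q)]
    exact ((hf.2.2 m).mul hg.2.1).add (hf.2.1.mul (hg.2.2 m))⟩

theorem sum {ι : Type} {s : Finset ι} {f : ι → (I → ℝ) → ℝ} (h : ∀ i ∈ s, PG1 (f i)) :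
    PG1 fun q => ∑ i ∈ s, f i q :=
  ⟨fun q => DifferentiableAt.fun_sum fun i hi => (h i hi).1 q, PG.sum fun i hi => (h i hi).2.1,
    fun m => by
      rw [show dq m (fun q => ∑ i ∈ s, f i q) = _ from
        funext fun q => dq_sum m s fun i hi => (h i hi).1 q]
      exact PG.sum fun i hi => (h i hi).2.2 m⟩

end PG1

end gauss

section forms

variable {I : Type} [Fintype I]

theorem bf_symm {P : Matrix I I ℝ} (h : PSD P) (v w : I → ℝ) : bf P v w = bf P w v := by
  rw [bf, bf, Finset.sum_comm]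
  exact Finset.sum_congr rfl fun m _ => Finset.sum_congr rfl fun m' _ => by rw [h.1 m' m]; ring

theorem bf_lin (P : Matrix I I ℝ) (v w : I → ℝ) (t : ℝ) :
    bf P (fun i => t * v i + w i) (fun i => t * v i + w i) =
      bf P v v * (t * t) + (bf P v w + bf P w v) * t + bf P w w := by
  simp only [bf, Finset.sum_mul, ← Finset.sum_add_distrib, add_mul]
  exact Finset.sum_congr rfl fun m _ => Finset.sum_congr rfl fun m' _ => by ring

/-- Cauchy-Schwarz for a non-negative form -/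
theorem bf_sq_le {P : Matrix I I ℝ} (h : PSD P) (v w : I → ℝ) :
    bf P v w ^ 2 ≤ bf P v v * bf P w w := by
  have h1 : ∀ t : ℝ, 0 ≤ bf P v v * (t * t) + (2 * bf P v w) * t + bf P w w := fun t => by
    have := h.2 fun i => t * v i + w i
    rw [bf_lin, bf_symm h w v] at this
    linarith
  have h2 := discrim_le_zero h1
  rw [discrim] at h2
  nlinarith

theorem fld_smooth (k : I → V3) (c : I → ℂ) : ContDiff ℝ ∞ (fld k c) := by
  refine Complex.reCLM.contDiff.comp (ContDiff.sum fun m _ => contDiff_const.mul ?_)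
  exact (contDiff_const.mul (Complex.ofRealCLM.contDiff.comp (innerSL ℝ (k m)).contDiff)).cexp

theorem fld_cont (k : I → V3) (c : I → ℂ) : Continuous (fld k c) := (fld_smooth k c).continuous

theorem pd_fld (k : I → V3) (c : I → ℂ) (i : Fin 3) (x : V3) :
    pd i (fld k c) x = fld k (fun m => c m * (Complex.I * (k m i : ℝ))) x := by
  have h : ∀ m, HasFDerivAt
      (fun x : V3 => c m * Complex.exp (Complex.I * (inner ℝ (k m) x : ℝ)))
      (c m • Complex.exp (Complex.I * (inner ℝ (k m) x : ℝ)) •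
        (Complex.I • Complex.ofRealCLM.comp (innerSL ℝ (k m)))) x := fun m =>
    (((Complex.ofRealCLM.comp (innerSL ℝ (k m))).hasFDerivAt.const_mul Complex.I).cexp).const_mul
      (c m)
  have h2 := Complex.reCLM.hasFDerivAt.comp x (HasFDerivAt.fun_sum fun m (_ : m ∈ Finset.univ) => h m)
  have h3 : fderiv ℝ (fld k c) x = _ := h2.fderiv
  rw [pd, h3, fld]
  simp only [ContinuousLinearMap.comp_apply, sum_apply,
    smul_apply, Complex.reCLM_apply, smul_eq_mul, innerSL_apply_apply,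
    Complex.ofRealCLM_apply, EuclideanSpace.inner_single_right]
  congr 1
  exact Finset.sum_congr rfl fun m _ => by simp; ring

end forms

theorem norm_fderiv_sq (f : V3 → ℝ) (x : V3) : ‖fderiv ℝ f x‖ ^ 2 = ∑ i, pd i f x ^ 2 := by
  have h := (EuclideanSpace.basisFun (Fin 3) ℝ).sum_sq_norm_inner_right
    ((InnerProductSpace.toDual ℝ V3).symm (fderiv ℝ f x))
  rw [LinearIsometryEquiv.norm_map] at h
  rw [← h]
  refine Finset.sum_congr rfl fun i _ => ?_
  rw [real_inner_comm, InnerProductSpace.toDual_symm_apply, Real.norm_eq_abs, sq_abs, pd]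
  simp

theorem F1_nonneg : 0 ≤ F1 := by
  refine Real.sInf_nonneg ?_
  rintro e ⟨u, hu, -, rfl⟩
  have h1 : 0 ≤ ∫ x, ‖fderiv ℝ u x‖ ^ 2 := integral_nonneg fun x => sq_nonneg _
  have h2 : 0 ≤ ∫ x, u x := integral_nonneg hu.2.2
  positivity

variable {L Λ : ℝ}

theorem om_pos (m : Mode L Λ) : 0 < om m := kk_pos m

theorem om_lt (m : Mode L Λ) : om m < Λ := kk_lt m

theorem tA_smooth (ε : V3 → Fin 2 → V3) (i : Fin 3) (m : Mode L Λ) : ContDiff ℝ ∞ (tA ε i m) :=
  (contDiff_const.mul (((innerSL ℝ (kk m)).contDiff.cos).add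
    ((innerSL ℝ (kk m)).contDiff.sin))).div_const _

theorem tA_cont (ε : V3 → Fin 2 → V3) (i : Fin 3) (m : Mode L Λ) : Continuous (tA ε i m) :=
  (tA_smooth ε i m).continuous

/-- real mode sums as trigonometric polynomials -/
theorem sum_tA (ε : V3 → Fin 2 → V3) (i : Fin 3) (v : Mode L Λ → ℝ) (x : V3) :
    ∑ m, v m * tA ε i m x =
      fld kk (fun m => (1 - Complex.I) * ((v m * ε (kk m) m.2 i / √(L ^ 3) : ℝ) : ℂ)) x := by
  rw [fld, Complex.re_sum]
  refine Finset.sum_congr rfl fun m _ => ?_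
  rw [mul_comm Complex.I, Complex.exp_mul_I, ← Complex.ofReal_cos, ← Complex.ofReal_sin, tA]
  simp only [Complex.mul_re, Complex.mul_im, Complex.sub_re, Complex.sub_im, Complex.add_re,
    Complex.add_im, Complex.one_re, Complex.one_im, Complex.I_re, Complex.I_im,
    Complex.ofReal_re, Complex.ofReal_im]
  ring

theorem sum_one_mode : (∑ _m : Mode L Λ, (1 : ℝ)) / L ^ 3 = 2 * rho L Λ := by
  simp only [Finset.sum_const, Finset.card_univ, Fintype.card_prod, Fintype.card_fin, rho,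
    nsmul_eq_mul]
  push_cast
  ring

theorem gA_eq (α : ℝ) (ε : V3 → Fin 2 → V3) (l : Mode L Λ) (i : Fin 3) (x : V3) :
    LL.gA α ε l i x = √α / √(2 * om l) * tA ε i l x := by
  have h1 : √(2 * L ^ 3 * ‖kk l‖) = √(2 * om l) * √(L ^ 3) := by
    rw [← Real.sqrt_mul (by have := om_pos l; positivity), om]; congr 1; ring
  simp only [LL.gA, LL.GG, wt, tA, h1]
  ring

theorem bf_Pm (ε : V3 → Fin 2 → V3) {Q : Set V3} (hQ : Bornology.IsBounded Q)
    (v w : Mode L Λ → ℝ) : bf (Pm ε Q) v w =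
      ∫ x in Q, ∑ i, (∑ m, v m * tA ε i m x) * ∑ m, w m * tA ε i m x := by
  have hi : ∀ m m' : Mode L Λ,
      IntegrableOn (fun x => v m * (∑ i, tA ε i m x * tA ε i m' x) * w m') Q := fun m m' =>
    (((continuous_const.mul (continuous_finsetSum _ fun i _ =>
      (tA_cont ε i m).mul (tA_cont ε i m'))).mul continuous_const).continuousOn.integrableOn_compact
        hQ.isCompact_closure).mono_set subset_closure
  simp only [bf, Pm, ← integral_const_mul, ← integral_mul_const]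
  have h2 : ∀ m, ∑ m', ∫ x in Q, v m * (∑ i, tA ε i m x * tA ε i m' x) * w m' =
      ∫ x in Q, ∑ m', v m * (∑ i, tA ε i m x * tA ε i m' x) * w m' := fun m =>
    (integral_finsetSum _ fun m' _ => hi m m').symm
  simp only [h2]
  rw [← integral_finsetSum _ fun m _ => integrable_finsetSum _ fun m' _ => hi m m']
  congr 1
  ext x
  simp only [Finset.sum_mul_sum]
  simp only [Finset.mul_sum, Finset.sum_mul]
  conv_rhs => rw [Finset.sum_comm]
  refine Finset.sum_congr rfl fun m _ => ?_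
  rw [Finset.sum_comm]
  exact Finset.sum_congr rfl fun i _ => Finset.sum_congr rfl fun m' _ => by ring

theorem bf_Am (ε : V3 → Fin 2 → V3) {g : V3 → ℝ} (hg : Continuous g) (hc : HasCompactSupport g)
    (v w : Mode L Λ → ℝ) : bf (Am ε g) v w =
      ∫ x, g x * ∑ i, (∑ m, v m * tA ε i m x) * ∑ m, w m * tA ε i m x := by
  have hi : ∀ m m' : Mode L Λ,
      Integrable (fun x => v m * (g x * ∑ i, tA ε i m x * tA ε i m' x) * w m') := fun m m' =>
    (((hg.mul (continuous_finsetSum _ fun i _ =>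
      (tA_cont ε i m).mul (tA_cont ε i m'))).integrable_of_hasCompactSupport
        hc.mul_right).const_mul _).mul_const _
  simp only [bf, Am, ← integral_const_mul, ← integral_mul_const]
  have h2 : ∀ m, ∑ m', ∫ x, v m * (g x * ∑ i, tA ε i m x * tA ε i m' x) * w m' =
      ∫ x, ∑ m', v m * (g x * ∑ i, tA ε i m x * tA ε i m' x) * w m' := fun m =>
    (integral_finsetSum _ fun m' _ => hi m m').symm
  simp only [h2]
  rw [← integral_finsetSum _ fun m _ => integrable_finsetSum _ fun m' _ => hi m m']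
  congr 1
  ext x
  simp only [Finset.sum_mul_sum]
  simp only [Finset.mul_sum, Finset.sum_mul]
  conv_rhs => rw [Finset.sum_comm]
  refine Finset.sum_congr rfl fun m _ => ?_
  rw [Finset.sum_comm]
  exact Finset.sum_congr rfl fun i _ => Finset.sum_congr rfl fun m' _ => by ring

theorem PSD_Pm (ε : V3 → Fin 2 → V3) {Q : Set V3} (hQ : Bornology.IsBounded Q) :
    PSD (Pm ε Q : Matrix (Mode L Λ) (Mode L Λ) ℝ) :=
  ⟨fun m m' => by simp only [Pm, mul_comm], fun v => by
    rw [bf_Pm ε hQ]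
    exact integral_nonneg fun x => Finset.sum_nonneg fun i _ => mul_self_nonneg _⟩

theorem PSD_Am (ε : V3 → Fin 2 → V3) {g : V3 → ℝ} (hg : Continuous g) (hc : HasCompactSupport g)
    (h0 : ∀ x, 0 ≤ g x) : PSD (Am ε g : Matrix (Mode L Λ) (Mode L Λ) ℝ) :=
  ⟨fun m m' => by simp only [Am, mul_comm (tA ε _ m _)], fun v => by
    rw [bf_Am ε hg hc]
    exact integral_nonneg fun x =>
      mul_nonneg (h0 x) (Finset.sum_nonneg fun i _ => mul_self_nonneg _)⟩

end Pool.Agent.Lib.LS
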