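import Pool.Agent.Lib.LS.Defs

set_option autoImplicit false

open MeasureTheory Filter Topology Metric
open scoped ComplexConjugate InnerProductSpace ContDiff

namespace Pool.Agent.Lib.LS

open Pool.Agent.Lib.MP_791321_mp

/-! ### Fock space and Gaussian integrals -/

/-- traces with radial weights -/
def St_TR : Prop :=
  ∀ (L Λ : ℝ) (ε : V3 → Fin 2 → V3), 0 < L → IsPolarisation ε → ∀ (g : ℝ → ℝ) (x : V3),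
    ∑ m : Mode L Λ, g (om m) * ∑ i, tA ε i m x ^ 2 = (∑ m : Mode L Λ, g (om m)) / L ^ 3

/-- a localised near minimiser in the classical picture -/
def St_ADP : Prop :=
  ∃ c : ℝ, 0 < c ∧ ∀ (L Λ α E l : ℝ) (ε : V3 → Fin 2 → V3), 0 < L → 0 < l → IsPolarisation ε →
    E0 1 α Λ L ε < (E : EReal) →
    ∃ (a : V3) (φ : (Mode L Λ → ℝ) → V3 → ℂ) (μ h k : (Mode L Λ → ℝ) → ℝ),
      Pic α ε a l φ μ h k ∧ 0 < gE μ ∧ gE h + 1 / 2 * gE k < (E + c / l ^ 2) * gE μ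

/-- the commutator inequality for a vector field -/
def St_COMM : Prop :=
  ∀ (I : Type) [Fintype I] [DecidableEq I] (κ : I → ℝ) (μ h : (I → ℝ) → ℝ), (∀ i, 0 ≤ κ i) →
    Pair κ μ h → ∀ (W : I → (I → ℝ) → ℝ) (S : (I → ℝ) → ℝ), (∀ i, PG1 (W i)) → PG S →
    (∀ q, 0 ≤ S q) → (∀ q v : I → ℝ, (∑ i, W i q * v i) ^ 2 ≤ S q * ∑ i, κ i * v i ^ 2) →
    gE (fun q => (∑ i, dq i (W i) q - ∑ i, q i * W i q - S q) * μ q) ≤ gE h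

/-- quadratic forms below the field energy -/
def St_FLOOR : Prop :=
  ∀ (I : Type) [Fintype I] [DecidableEq I] (κ : I → ℝ) (μ h : (I → ℝ) → ℝ), (∀ i, 0 ≤ κ i) →
    Pair κ μ h → ∀ G : Matrix I I ℝ, PSD G → (∀ v, bf G v v ≤ ∑ i, κ i * v i ^ 2) →
    gE (fun q => (1 / 4 * bf G q q - 1 / 2 * ∑ i, G i i) * μ q) ≤ gE h

/-- the soft minimum over a finite family of frequency profiles -/
def St_SOFT : Prop :=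
  ∀ (I : Type) [Fintype I] [DecidableEq I] (κ l : I → ℝ) (n : ℕ) (P : Fin n → Matrix I I ℝ)
    (ι : Type) [Fintype ι] [Nonempty ι] (w : ι → Fin n → ℝ) (Ω D e : ℝ),
    (∀ i, 0 ≤ κ i) → (∀ i, |√(2 * κ i) * l i| ≤ D) → 0 < D → 0 < Ω → 0 < e →
    (∀ c, PSD (P c)) → (∀ v, ∑ c, bf (P c) v v ≤ ∑ i, v i ^ 2) →
    (∀ j c, 0 ≤ w j c ∧ w j c ≤ Ω) →
    ∃ U : (I → ℝ) → ℝ, PG U ∧
      (∀ q j, U q ≤ (1 + e) * (1 / 2 * ∑ c, w j c ^ 2 *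
            bf (P c) (fun i => l i * q i) (fun i => l i * q i)) -
          1 / 2 * ∑ c, w j c * ∑ i, √(2 * κ i) * l i * P c i i +
          Real.log (Fintype.card ι) * ((1 + e) * Ω * D / e)) ∧
      ∀ μ h, Pair κ μ h →
        -gE (fun q => (U q + 1 / 2 * ∑ c, ∑ i, κ i * P c i i) * μ q) ≤ gE h

/-! ### Trigonometric polynomials -/

/-- Bessel inequalities on the torus -/
def St_BES : Prop :=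
  ∀ (L Λ : ℝ) (a : V3) (Q : Set V3), 0 < L → MeasurableSet Q → Q ⊆ ball a (L / 2) →
    (∀ ε : V3 → Fin 2 → V3, IsPolarisation ε → ∀ v : Mode L Λ → ℝ,
      ∫ x in Q, ∑ i, (∑ m, v m * tA ε i m x) ^ 2 ≤ ∑ m, v m ^ 2) ∧
    ∀ c : Mode L Λ → ℂ, ∫ x in Q, fld kk c x ^ 2 ≤ 2 * L ^ 3 * ∑ m, ‖c m‖ ^ 2

/-- local reproduction up to a small multiplier -/
def St_REP : Prop :=
  ∀ (M : ℕ) (r : ℝ), 0 < r → ∃ β : V3 → ℂ, (∀ k, ‖β k‖ ≤ (‖k‖ * r) ^ M) ∧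
    ∀ (I : Type) [Fintype I] (k : I → V3) (c : I → ℂ) (x : V3),
      (fld k c x - fld k (fun m => c m * β (k m)) x) ^ 2 ≤
        4 ^ M / r ^ 3 * ∫ y in ball x (M * r), fld k c y ^ 2

/-- pointwise bound by mixed first derivatives -/
def St_SUPF : Prop :=
  ∀ (I : Type) [Fintype I] (k : I → V3) (c : I → ℂ) (x : V3) (r : ℝ), 0 < r →
    fld k c x ^ 2 ≤ 8 / r ^ 3 * ∑ b : Finset (Fin 3), ∫ y in ball x (2 * r),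
      fld k (fun m => c m * ∏ i ∈ b, (Complex.I * ((r * k m i : ℝ) : ℂ))) y ^ 2

/-- the identities of the filtered fields -/
def St_FLD1 : Prop :=
  ∀ (L Λ α ν : ℝ) (ε : V3 → Fin 2 → V3), 0 < ν → IsPolarisation ε → ∀ q : Mode L Λ → ℝ,
    Flds ν (aF α ε q) (DF α ν ε q) (CF α ν ε q)

/-- the floor: a quadratic form below the field energy which controls the non-local part -/
def St_FLD2 : Prop :=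
  ∃ c : ℝ, 0 < c ∧ ∀ (L Λ α ν : ℝ) (ε : V3 → Fin 2 → V3) (a : V3) (l s r : ℝ) (M : ℕ),
    0 < L → 0 < Λ → 0 < α → 0 < ν → IsPolarisation ε → 0 < r → Λ * r ≤ 1 → M * r ≤ s →
    2 ≤ Λ * l → 8 * l ≤ L →
    ∃ Φ : (Mode L Λ → ℝ) → ℝ, PG Φ ∧ (∀ q, 0 ≤ Φ q) ∧
      (∀ μ h, Pair om μ h →
        gE (fun q => (Φ q - 512 * l ^ 3 * Λ * rho L Λ) * μ q) ≤ gE h) ∧
      (∀ q, ∀ x ∈ ball a (2 * l), inten ν (DF α ν ε q) (CF α ν ε q) x ≤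
        2 * 4 ^ M * (1 / r ^ 3 * ∫ y in ball x s, inten ν (DF α ν ε q) (CF α ν ε q) y) +
          c * α * Λ ^ 3 * (Λ * r) ^ (2 * M) / ν * Φ q) ∧
      ∀ q, ∫ y in ball a (4 * l), inten ν (DF α ν ε q) (CF α ν ε q) y ≤ c * α / ν * Φ q

/-! ### The electron in a classical field -/

/-- the London inequality -/
def St_ELEC : Prop :=
  ∀ (ν e γ : ℝ) (a D : Fin 3 → V3 → ℝ) (C : Fin 3 → Fin 3 → V3 → ℝ) (τ : V3 → ℝ) (φ : V3 → ℂ),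
    0 < ν → 0 < e → e ≤ 1 → Flds ν a D C → ContDiff ℝ ∞ φ → HasCompactSupport φ →
    ContDiff ℝ 1 τ → (∀ x, 0 ≤ τ x ∧ τ x ≤ 1) → 0 ≤ γ → γ ^ 2 ≤ e ^ 2 * ν →
    (∀ x ∈ tsupport φ, ‖fderiv ℝ τ x‖ ≤ γ * τ x) →
    (∀ x ∈ tsupport φ, τ x * ∑ i, ∑ j, C i j x ^ 2 ≤ e ^ 2 / 16) →
    ∀ u : V3 → ℝ, Adm u →
      (∀ x, 4 * ‖φ x‖ ^ 2 * ‖fderiv ℝ u x‖ ^ 2 ≤ ‖fderiv ℝ (fun y => ‖φ y‖ ^ 2) x‖ ^ 2) →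
      (∀ x, φ x = 0 → fderiv ℝ u x = 0) →
      (∫ x, ‖fderiv ℝ u x‖ ^ 2) + (1 - 3 * e) * ∫ x, ‖φ x‖ ^ 2 * (τ x * inten ν D C x) ≤
        (1 + e) * ∫ x, kd a φ x

/-- the regularised modulus -/
def St_MOD : Prop :=
  ∀ (φ : V3 → ℂ), ContDiff ℝ ∞ φ → HasCompactSupport φ →
    (∀ (a : Fin 3 → V3 → ℝ) (x : V3),
      ‖fderiv ℝ (fun y => ‖φ y‖ ^ 2) x‖ ^ 2 ≤ 4 * ‖φ x‖ ^ 2 * kd a φ x) ∧
    ∀ e : ℝ, 0 < e → ∃ u : V3 → ℝ, Adm u ∧ (∀ x, u x ≤ ‖φ x‖) ∧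
      (∫ x, ‖φ x‖ ^ 2) - e ≤ ∫ x, u x ^ 2 ∧
      (∀ x, 4 * ‖φ x‖ ^ 2 * ‖fderiv ℝ u x‖ ^ 2 ≤ ‖fderiv ℝ (fun y => ‖φ y‖ ^ 2) x‖ ^ 2) ∧
      ∀ x, φ x = 0 → fderiv ℝ u x = 0

/-- the cut-off of large intensities -/
def St_TAU : Prop :=
  ∃ c : ℝ, 1 ≤ c ∧ ∀ (J : V3 → ℝ) (a : V3) (l s t W Γ E K : ℝ), Continuous J → (∀ x, 0 ≤ J x) →
    0 < s → s ≤ l → 1 ≤ t → 0 < W → 0 < Γ → 0 ≤ E → E ≤ Γ → 0 ≤ K →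
    (∀ x ∈ ball a (2 * l), J x ≤ K * (W * ∫ y in ball x s, J y) + E) →
    Real.exp (-t) * W * ∫ y in ball a (4 * l), J y ≤ E →
    ∃ τ : V3 → ℝ, ContDiff ℝ 1 τ ∧ (∀ x, 0 < τ x ∧ τ x ≤ 1) ∧
      (∀ x ∈ ball a (2 * l), ‖fderiv ℝ τ x‖ ≤ 1 / s * τ x) ∧
      (∀ x ∈ ball a (2 * l), τ x * J x ≤ c * (K + 1) * Γ) ∧
      ∀ x ∈ ball a (2 * l), Γ * (1 - τ x) ≤ c * W * (∫ y in ball x (t * s), τ y * J y) + E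

/-- translation Poincare inequality, ball form -/
def St_POI1 : Prop :=
  ∀ (ρ g : V3 → ℝ) (a : V3) (l r M : ℝ), ContDiff ℝ 1 ρ → HasCompactSupport ρ → (∀ x, 0 ≤ ρ x) →
    (∀ x, ρ x ≠ 0 → x ∈ ball a l) → Continuous g → (∀ x, 0 ≤ g x) → 0 < r → 0 ≤ M →
    (∀ y ∈ ball a (l + r), g y ≤ M) →
    Continuous (fun x => ∫ y in ball x r, g y) ∧
    ∫ x, ρ x * ∫ y in ball x r, g y ≤
      (2 * r) ^ 3 * ((∫ x, ρ x * g x) + M * r * ∫ x, ‖fderiv ℝ ρ x‖)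

/-- translation Poincare inequality, cell form -/
def St_POI2 : Prop :=
  ∀ (ρ g : V3 → ℝ) (a : V3) (l s M : ℝ) (n : ℕ) (c : Fin n → Set V3), 0 < s → Cells a l s n c →
    ContDiff ℝ 1 ρ → HasCompactSupport ρ → (∀ x, 0 ≤ ρ x) → Continuous g → (∀ x, 0 ≤ g x) →
    0 ≤ M → (∀ y ∈ ball a (2 * l), g y ≤ M) →
    ∑ i, ((∫ x in c i, ρ x) / s ^ 3) * ∫ y in c i, g y ≤
      (∫ x, ρ x * g x) + 128 * M * s * ∫ x, ‖fderiv ℝ ρ x‖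

/-- existence of cells -/
def St_CELL : Prop :=
  ∀ (a : V3) (l s : ℝ), 0 < s → 2 * s ≤ l → ∃ (n : ℕ) (c : Fin n → Set V3), Cells a l s n c

/-- choice of the frequency profile on the net -/
def St_NET : Prop :=
  ∀ (ρ u τ J₀ J : V3 → ℝ) (a : V3) (l s r B W Γ E θ h : ℝ) (K n : ℕ) (c : Fin n → Set V3),
    0 < s → Cells a l s n c → ContDiff ℝ 1 ρ → HasCompactSupport ρ →
    (∀ x, ρ x ≠ 0 → x ∈ ball a l) → ∫ x, ρ x = 1 → Continuous u → (∀ x, 0 ≤ u x) →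
    (∀ x, u x ^ 2 ≤ ρ x) → Continuous τ → (∀ x, 0 < τ x ∧ τ x ≤ 1) → Continuous J₀ →
    Continuous J → (∀ x, 0 ≤ J₀ x ∧ J₀ x ≤ J x) → 0 < r → r + 2 * s ≤ l → 0 ≤ B → 0 ≤ W →
    0 < Γ → 0 ≤ E → 0 ≤ θ → θ ≤ 1 → 0 < h → 0 < K →
    (∀ x ∈ ball a (2 * l), τ x * J x ≤ B) →
    (∀ x ∈ ball a (2 * l), Γ * (1 - τ x) ≤ W * (∫ y in ball x r, τ y * J y) + E) →
    ∃ j : Fin n → Fin (K + 1),
      ∑ i, (h * (j i : ℕ)) ^ 2 * ∫ y in c i, J₀ y ≤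
        θ ^ 2 * ((∫ x, ρ x * (τ x * J x)) + 128 * B * s * ∫ x, ‖fderiv ℝ ρ x‖) ∧
      θ * (∫ x, u x) - 1 / (h * K) - 64 * l ^ 3 * h -
        √(64 * l ^ 3 * (((2 * (r + 2 * s)) ^ 3 * W * ((∫ x, ρ x * (τ x * J x)) +
          B * (r + 2 * s) * ∫ x, ‖fderiv ℝ ρ x‖) + E) / Γ)) ≤ s ^ 3 * ∑ i, h * (j i : ℕ)

/-- `F₁` is positive -/
def St_NASH : Prop := 0 < F1

/-- dilations, scaling, near minimisers -/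
def St_SCAL : Prop :=
  (∀ (u : V3 → ℝ) (r R : ℝ), Adm u → 0 < r → (∀ x ∈ tsupport u, ‖x‖ < R) →
    ∃ v : V3 → ℝ, Adm v ∧ (∀ x ∈ tsupport v, ‖x‖ < r ^ 2 * R) ∧ ∫ x, v x ^ 2 = ∫ x, u x ^ 2 ∧
      ∫ x, ‖fderiv ℝ v x‖ ^ 2 = (∫ x, ‖fderiv ℝ u x‖ ^ 2) / r ^ 4 ∧
      ∫ x, v x = r ^ 3 * ∫ x, u x) ∧
  (∀ (u : V3 → ℝ) (r : ℝ), Adm u → 0 < r → F1 / r ^ 4 * ∫ x, u x ^ 2 ≤
    1 / 2 * (∫ x, ‖fderiv ℝ u x‖ ^ 2) + √(∫ x, u x ^ 2) * (∫ x, u x) / r ^ 7) ∧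
  ∀ δ : ℝ, 0 < δ → ∃ u : V3 → ℝ, Adm u ∧ ∫ x, u x ^ 2 = 1 ∧
    1 / 2 * (∫ x, ‖fderiv ℝ u x‖ ^ 2) + ∫ x, u x ≤ F1 + δ

/-- the classical lower bound -/
def St_CLASS : Prop :=
  ∃ c₀ : ℝ, 1 ≤ c₀ ∧ ∀ (ν e r κ' l s t W Γ K₂ h : ℝ) (K n : ℕ) (c : Fin n → Set V3) (a₀ : V3)
    (a D : Fin 3 → V3 → ℝ) (C : Fin 3 → Fin 3 → V3 → ℝ) (φ : V3 → ℂ),
    0 < ν → 0 < e → e ≤ 1 / 10 → 0 < r → 0 < s → 1 ≤ t → 0 < W → 0 ≤ K₂ → 0 < h → 0 < K →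
    Cells a₀ l s n c → Flds ν a D C → ContDiff ℝ ∞ φ → HasCompactSupport φ →
    (∀ x, φ x ≠ 0 → x ∈ ball a₀ l) →
    (1 - e) / r ^ 7 ≤ κ' → κ' ≤ 2 / r ^ 7 → 1 / r ^ 4 ≤ Γ → (t + 2) * s ≤ l →
    1 ≤ e ^ 2 * ν * s ^ 2 → 16 * (c₀ * (K₂ + 1) * Γ) ≤ e ^ 2 * ν →
    1 ≤ W * s ^ 3 → 130 * (c₀ * (K₂ + 1) * Γ) * ((t + 2) * s) * r ^ 2 ≤ e →
    2 ≤ e * r ^ 3 * (h * K) → 128 * l ^ 3 * h ≤ e * r ^ 3 →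
    128 * l ^ 3 * ((2 * ((t + 2) * s)) ^ 3 * (c₀ * W)) ≤ e ^ 2 * Γ * r ^ 10 →
    (∀ x ∈ ball a₀ (2 * l),
      inten ν D C x ≤ K₂ * (W * ∫ y in ball x s, inten ν D C y) + 1 / r ^ 4) →
    Real.exp (-t) * W * ∫ y in ball a₀ (4 * l), inten ν D C y ≤ 1 / r ^ 4 →
    ∃ j : Fin n → Fin (K + 1),
      ((1 - 9 * e) * F1 - 4 * e) / r ^ 4 * ∫ x, ‖φ x‖ ^ 2 ≤
        1 / 2 * (∫ x, kd a φ x) - (1 - e) *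
          ((1 + e) * (1 / 2 * ∑ i, (h * (j i : ℕ)) ^ 2 * ∫ y in c i, ∑ b, D b y ^ 2) -
            κ' * (s ^ 3 * ∑ i, h * (j i : ℕ))) * ∫ x, ‖φ x‖ ^ 2

/-- the lower bound for localised states -/
def St_LOC : Prop :=
  ∃ c₀ : ℝ, 1 ≤ c₀ ∧ ∀ (L Λ α ν e r l s t r₀ Γ h : ℝ) (K M : ℕ) (ε : V3 → Fin 2 → V3),
    0 < L → 0 < Λ → 0 < α → 0 < ν → 0 < e → e ≤ 1 / 10 → 0 < r → 0 < s → 1 ≤ t → 0 < r₀ →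
    0 < h → 0 < K → IsPolarisation ε →
    Λ * r₀ ≤ 1 → M * r₀ ≤ s → r₀ ≤ s → 2 ≤ Λ * l → 8 * l ≤ L →
    (1 - e) / r ^ 7 ≤ 1 / 2 * (∑ m : Mode L Λ, √(2 * om m) * lD α ν m) / L ^ 3 →
    √α * rho L Λ ≤ 2 / r ^ 7 → 1 / r ^ 4 ≤ Γ → (t + 2) * s ≤ l →
    1 ≤ e ^ 2 * ν * s ^ 2 → 16 * (c₀ * 4 ^ M * Γ) ≤ e ^ 2 * ν →
    130 * (c₀ * 4 ^ M * Γ) * ((t + 2) * s) * r ^ 2 ≤ e →
    2 ≤ e * r ^ 3 * (h * K) → 128 * l ^ 3 * h ≤ e * r ^ 3 →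
    128 * l ^ 3 * ((2 * ((t + 2) * s)) ^ 3 * (c₀ / r₀ ^ 3)) ≤ e ^ 2 * Γ * r ^ 10 →
    c₀ * α * Λ ^ 3 * (Λ * r₀) ^ (2 * M) ≤ e * ν →
    c₀ * α * Real.exp (-t) ≤ e * ν * r₀ ^ 3 →
    600 * l ^ 3 * Λ * rho L Λ * r ^ 4 ≤ e →
    128 * l ^ 3 * K ^ 2 * h * √α * r ^ 4 ≤ e ^ 2 * s ^ 3 →
    ∀ (a : V3) (φ : (Mode L Λ → ℝ) → V3 → ℂ) (μ f k : (Mode L Λ → ℝ) → ℝ),
      Pic α ε a l φ μ f k →
      ((1 - 9 * e) * F1 - 6 * e) / r ^ 4 * gE μ ≤ gE f + 1 / 2 * gE k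

/-- lattice sums -/
def St_LAT : Prop :=
  (∀ Λ : ℝ, 0 < Λ → Tendsto (fun L => rho L Λ) atTop (𝓝 (Λ ^ 3 / (6 * Real.pi ^ 2)))) ∧
  (∀ L Λ r : ℝ, 0 < L → 0 ≤ r →
    (∑ m : Mode L Λ, if om m < r then (1 : ℝ) else 0) / L ^ 3 ≤ r ^ 3) ∧
  (∀ L Λ r : ℝ, 0 < L → 0 ≤ r →
    (∑ m : Mode L Λ, if om m < r then 1 / om m else 0) / L ^ 3 ≤ r ^ 2) ∧
  ∀ L Λ r : ℝ, 0 < L → r ≤ Λ →
    (∑ m : Mode L Λ, if om m < r then (1 : ℝ) else 0) / L ^ 3 = 2 * rho L r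

/-- the sharp lower bound -/
def St_LOW : Prop :=
  ∀ b δ : ℝ, 0 < b → 0 < δ → ∀ᶠ x : ℝ in atTop, ∀ᶠ L : ℝ in atTop,
    ∀ ε : V3 → Fin 2 → V3, IsPolarisation ε →
      (((F1 - δ) * (b ^ 4 * x ^ 336) : ℝ) : EReal) ≤
        E0 1 ((6 * Real.pi ^ 2 * b) ^ 2) (b ^ 2 * x ^ 196) L ε

/-! ### The upper bound -/

/-- the matrix lemma -/
def St_MAT : Prop :=
  ∀ (I : Type) [Fintype I] [DecidableEq I] (κ : I → ℝ) (Λ η : ℝ) (A₁ A₂ Pr : Matrix I I ℝ),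
    (∀ i, 0 < κ i ∧ κ i ≤ Λ) → 0 < η → PSD A₁ → PSD A₂ →
    (∀ v : I → ℝ, ∑ m, (∑ m', A₁ m m' * v m') ^ 2 ≤ bf A₂ v v) →
    Pr.transpose = Pr → Pr * Pr = Pr →
    ∃ (v : I → I → ℝ) (σ : I → ℝ), (∀ r r', ∑ m, v r m * v r' m = if r = r' then 1 else 0) ∧
      (∀ r, 1 ≤ σ r) ∧
      ∑ r, (σ r - 1) * ∑ m, κ m * v r m ^ 2 +
        ∑ r, bf A₂ (fun m => v r m / √(κ m)) (fun m => v r m / √(κ m)) / σ r ≤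
      2 * ∑ m, A₁ m m + η * Λ * ∑ m, Pr m m +
        ∑ l, bf A₂ (fun m => (1 - Pr) l m / √(κ m)) (fun m => (1 - Pr) l m / √(κ m)) +
        (∑ m, (A₂ m m - ∑ m', A₁ m m' * A₁ m' m) / κ m) / η

/-- Parseval on the torus -/
def St_PARS : Prop :=
  ∀ (L r : ℝ) (a : V3) (g : V3 → ℝ), 0 < L → r < L / 2 → Continuous g →
    (∀ x, g x ≠ 0 → x ∈ ball a r) →
    HasSum (fun z : Fin 3 → ℤ =>
      ‖∫ x, (g x : ℂ) * Complex.exp (Complex.I * (inner ℝ (mom L z) x : ℝ))‖ ^ 2)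
      (L ^ 3 * ∫ x, g x ^ 2)

/-- the part of `g · mode` outside the cut-off transverse fields -/
def St_LEAK : Prop :=
  ∀ (L Λ r θ : ℝ) (ε : V3 → Fin 2 → V3) (a : V3) (g : V3 → ℝ), 0 < L → 0 < Λ →
    IsPolarisation ε → r < L / 2 → ContDiff ℝ 1 g → (∀ x, g x ≠ 0 → x ∈ ball a r) →
    0 < θ → θ ≤ 1 / 2 →
    ∑ m : Mode L Λ, (Am ε (fun x => g x ^ 2) m m - ∑ m', Am ε g m m' * Am ε g m' m) / om m ≤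
      (∫ x, g x ^ 2) * (θ ^ 2 * Λ ^ 2 + 4 * (rho L Λ - rho L ((1 - θ) * Λ)) / Λ) +
        (∫ x, ‖fderiv ℝ g x‖ ^ 2) / θ ^ 2

/-- Taylor jets -/
def St_TAY : Prop :=
  ∀ M : ℕ, 1 ≤ M → ∃ c : ℝ, 0 < c ∧ ∀ (L Λ l δ : ℝ) (ε : V3 → Fin 2 → V3) (a : V3),
    0 < L → 0 < Λ → IsPolarisation ε → 0 < δ → δ ≤ 1 → δ ≤ Λ * l →
    ∃ Pr : Matrix (Mode L Λ) (Mode L Λ) ℝ, Pr.transpose = Pr ∧ Pr * Pr = Pr ∧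
      ∑ m, Pr m m ≤ c * (l * Λ / δ) ^ 3 ∧
      ∀ x ∈ ball a l, ∑ i, ∑ m', (∑ m, (1 - Pr) m' m / √(om m) * tA ε i m x) ^ 2 ≤
        c * δ ^ (2 * M) * Λ ^ 2

/-- energy of a squeezed product state -/
def St_SQ : Prop :=
  ∀ (N : ℕ) (L Λ α T : ℝ) (ε : V3 → Fin 2 → V3) (φ : Tst N) (ρ : V3 → ℝ)
    (v : Mode L Λ → Mode L Λ → ℝ) (σ : Mode L Λ → ℝ),
    0 < L → 0 ≤ α → IsPolarisation ε → Trial φ T ρ → Continuous ρ → HasCompactSupport ρ →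
    (∀ x, 0 ≤ ρ x) → (∀ r r', ∑ m, v r m * v r' m = if r = r' then 1 else 0) → (∀ r, 1 ≤ σ r) →
    E0 N α Λ L ε ≤ ((1 / 2 * T + 1 / 4 * (∑ r, (σ r - 1) * ∑ m, om m * v r m ^ 2 +
      ∑ r, bf (Am ε fun x => α * ρ x) (fun m => v r m / √(om m)) (fun m => v r m / √(om m)) /
        σ r) : ℝ) : EReal)

/-- Slater determinant of orbitals with disjoint supports -/
def St_SL1 : Prop :=
  ∀ (N : ℕ) (ψ : Fin N → V3 → ℝ) (s : Fin N → Fin 2), (∀ j, ContDiff ℝ ∞ (ψ j)) →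
    (∀ j, HasCompactSupport (ψ j)) → (∀ j, ∫ x, ψ j x ^ 2 = 1) →
    (∀ j j', j ≠ j' → s j = s j' → Disjoint (tsupport (ψ j)) (tsupport (ψ j'))) →
    ∃ φ : Tst N, Trial φ (∑ j, ∫ x, ‖fderiv ℝ (ψ j) x‖ ^ 2) fun x => ∑ j, ψ j x ^ 2

/-- singlet blobs -/
def St_SL2 : Prop :=
  ∀ (N : ℕ) (u : V3 → ℝ) (R : ℝ), Adm u → ∫ x, u x ^ 2 = 1 → 0 < R →
    (∀ x ∈ tsupport u, ‖x‖ < R) →
    ∃ (φ : Tst N) (g : V3 → ℝ), Adm g ∧ (∀ x, g x ≠ 0 → x ∈ ball (0 : V3) ((2 * N + 1) * R)) ∧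
      Trial φ (N * ∫ x, ‖fderiv ℝ u x‖ ^ 2) (fun x => g x ^ 2) ∧ ∫ x, g x ^ 2 = N ∧
      ∫ x, ‖fderiv ℝ g x‖ ^ 2 = N * ∫ x, ‖fderiv ℝ u x‖ ^ 2 ∧
      ∫ x, g x = (√2 * ((N / 2 : ℕ) : ℝ) + ((N % 2 : ℕ) : ℝ)) * ∫ x, u x

/-- the upper bound with explicit errors -/
def St_UP0 : Prop :=
  ∀ M : ℕ, 1 ≤ M → ∃ c : ℝ, 0 < c ∧ ∀ (N : ℕ) (L Λ α T l δ θ η : ℝ) (ε : V3 → Fin 2 → V3)
    (φ : Tst N) (g : V3 → ℝ), 0 < L → 0 < Λ → 0 ≤ α → IsPolarisation ε → Adm g →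
    (∀ x, g x ≠ 0 → x ∈ ball (0 : V3) l) → Trial φ T (fun x => g x ^ 2) → l < L / 2 →
    0 < δ → δ ≤ 1 → δ ≤ Λ * l → 0 < θ → θ ≤ 1 / 2 → 0 < η →
    E0 N α Λ L ε ≤ ((1 / 2 * T + √α * rho L Λ * (∫ x, g x) +
      η * Λ * (c * (l * Λ / δ) ^ 3) + α * (∫ x, g x ^ 2) * (c * δ ^ (2 * M) * Λ ^ 2) +
      α * ((∫ x, g x ^ 2) * (θ ^ 2 * Λ ^ 2 + 4 * (rho L Λ - rho L ((1 - θ) * Λ)) / Λ) +
        (∫ x, ‖fderiv ℝ g x‖ ^ 2) / θ ^ 2) / η : ℝ) : EReal)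

/-- the sharp upper bound for blobs -/
def St_UP : Prop :=
  ∀ (N : ℕ) (u : V3 → ℝ) (b δ : ℝ), Adm u → ∫ x, u x ^ 2 = 1 → 0 < b → 0 < δ →
    ∀ᶠ x : ℝ in atTop, ∀ᶠ L : ℝ in atTop, ∀ ε : V3 → Fin 2 → V3, IsPolarisation ε →
      E0 N ((6 * Real.pi ^ 2 * b) ^ 2) (b ^ 2 * x ^ 196) L ε ≤
        (((N * (1 / 2 * ∫ x, ‖fderiv ℝ u x‖ ^ 2) +
          (√2 * ((N / 2 : ℕ) : ℝ) + ((N % 2 : ℕ) : ℝ)) * (∫ x, u x) + δ) *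
            (b ^ 4 * x ^ 336) : ℝ) : EReal)

/-! ### The two results -/

/-- sharp asymptotics of the one-particle energy -/
def St_A : Prop :=
  0 < F1 ∧ ∀ α δ : ℝ, 0 < α → 0 < δ → ∃ Λ₀ : ℝ, ∀ Λ : ℝ, Λ₀ ≤ Λ →
    ∀ ε : ℝ → V3 → Fin 2 → V3, (∀ L, IsPolarisation (ε L)) →
      ((((1 - δ) * F1 * (√α * Λ ^ 3 / (6 * Real.pi ^ 2)) ^ (4 / 7 : ℝ) : ℝ) : EReal) ≤
        liminf (fun L : ℝ => E0 1 α Λ L (ε L)) atTop) ∧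
      limsup (fun L : ℝ => E0 1 α Λ L (ε L)) atTop ≤
        (((1 + δ) * F1 * (√α * Λ ^ 3 / (6 * Real.pi ^ 2)) ^ (4 / 7 : ℝ) : ℝ) : EReal)

/-- binding at every coupling for large cut-off -/
def St_B : Prop :=
  ∀ (N : ℕ), 2 ≤ N → ∀ α : ℝ, 0 < α → ∃ Λ₀ : ℝ, ∀ Λ : ℝ, Λ₀ ≤ Λ →
    ∀ ε : ℝ → V3 → Fin 2 → V3, (∀ L, IsPolarisation (ε L)) →
      limsup (fun L : ℝ => E0 N α Λ L (ε L)) atTop <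
        (N : EReal) * liminf (fun L : ℝ => E0 1 α Λ L (ε L)) atTop

end Pool.Agent.Lib.LS
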