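import Pool.Agent.Lib.MP_791321_mp.Defs

set_option autoImplicit false

open MeasureTheory
open scoped ContDiff

namespace Pool.Agent.Lib.LS

open Pool.Agent.Lib.MP_791321_mp

/-- Admissible profiles: smooth, compactly supported, non-negative. -/
def Adm (u : V3 → ℝ) : Prop := ContDiff ℝ ∞ u ∧ HasCompactSupport u ∧ ∀ x, 0 ≤ u x

/-- The constant `F₁ = inf { (1/2)∫|∇u|² + ∫u : u admissible, ∫u² = 1 }`. -/
noncomputable def F1 : ℝ :=
  sInf {e | ∃ u : V3 → ℝ, Adm u ∧ ∫ x, u x ^ 2 = 1 ∧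
    e = 1 / 2 * (∫ x, ‖fderiv ℝ u x‖ ^ 2) + ∫ x, u x}

end Pool.Agent.Lib.LS
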