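import Pool.Agent.Lib.MP_791321_mp.Main
import Pool.Agent.Lib.LS.SDefs
import Pool.Agent.Lib.LL39.Rep
import Pool.Agent.Lib.LL.Blue

set_option autoImplicit false

open MeasureTheory Filter Topology
open scoped ComplexConjugate InnerProductSpace ContDiff

namespace Pool.Agent.Lib.LS

open Pool.Agent.Lib.MP_791321_mp

/-! ### Gaussian side -/

section gauss

variable {I : Type} [Fintype I]

/-- expectation for the standard Gaussian measure -/
noncomputable def gE (f : (I → ℝ) → ℝ) : ℝ := ∫ q, f q ∂(LL39.gam I)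

/-- continuous of polynomial growth -/
def PG (f : (I → ℝ) → ℝ) : Prop := Continuous f ∧ LL39.PG f

/-- derivative in the coordinate `m` -/
noncomputable def dq [DecidableEq I] (m : I) (f : (I → ℝ) → ℝ) (q : I → ℝ) : ℝ :=
  fderiv ℝ f q (Pi.single m 1)

/-- differentiable, with the function and its first derivatives of polynomial growth -/
def PG1 [DecidableEq I] (f : (I → ℝ) → ℝ) : Prop :=
  Differentiable ℝ f ∧ PG f ∧ ∀ m, PG (dq m f)

/-- a density `μ` and a field energy density `h` -/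
structure Pair [DecidableEq I] (κ : I → ℝ) (μ h : (I → ℝ) → ℝ) : Prop where
  pm : PG1 μ
  ph : PG h
  m0 : ∀ q, 0 ≤ μ q
  h0 : ∀ q, 0 ≤ h q
  grad : ∀ q, ∑ i, κ i * dq i μ q ^ 2 ≤ 4 * μ q * h q

/-- the bilinear form of a matrix -/
def bf (P : Matrix I I ℝ) (v w : I → ℝ) : ℝ := ∑ m, ∑ m', v m * P m m' * w m'

/-- symmetric and non-negative -/
def PSD (P : Matrix I I ℝ) : Prop := (∀ m m', P m m' = P m' m) ∧ ∀ v, 0 ≤ bf P v v

/-- a real trigonometric polynomial -/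
noncomputable def fld (k : I → V3) (c : I → ℂ) (x : V3) : ℝ :=
  (∑ m, c m * Complex.exp (Complex.I * (inner ℝ (k m) x : ℝ))).re

end gauss

/-! ### Classical side -/

/-- derivative along the axis `i` -/
noncomputable def pd {E : Type} [NormedAddCommGroup E] [NormedSpace ℝ E] (i : Fin 3)
    (f : V3 → E) (x : V3) : E := fderiv ℝ f x (EuclideanSpace.single i 1)

/-- kinetic energy density `|(∇ + i a) φ|²` -/
noncomputable def kd (a : Fin 3 → V3 → ℝ) (φ : V3 → ℂ) (x : V3) : ℝ :=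
  ∑ i, ‖pd i φ x + Complex.I * (a i x : ℝ) * φ x‖ ^ 2

/-- the potential `a` and the filtered fields `C`, `D` -/
structure Flds (ν : ℝ) (a D : Fin 3 → V3 → ℝ) (C : Fin 3 → Fin 3 → V3 → ℝ) : Prop where
  sa : ∀ i, ContDiff ℝ ∞ (a i)
  sD : ∀ i, ContDiff ℝ ∞ (D i)
  sC : ∀ i j, ContDiff ℝ ∞ (C i j)
  anti : ∀ i j x, C i j x = -C j i x
  div : ∀ j x, D j x = -∑ i, pd i (C i j) x
  curl : ∀ i j x, pd i (a j) x - pd j (a i) x = pd i (D j) x - pd j (D i) x + ν * C i j x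

/-- intensity `|D|² + ν |C|²` -/
def inten (ν : ℝ) (D : Fin 3 → V3 → ℝ) (C : Fin 3 → Fin 3 → V3 → ℝ) (x : V3) : ℝ :=
  ∑ j, D j x ^ 2 + ν * ∑ i, ∑ j, C i j x ^ 2

/-- cells of volume `s³` covering the ball `B(a,l)` -/
structure Cells (a : V3) (l s : ℝ) (n : ℕ) (c : Fin n → Set V3) : Prop where
  meas : ∀ i, MeasurableSet (c i)
  disj : Pairwise fun i j => Disjoint (c i) (c j)
  vol : ∀ i, volume (c i) = ENNReal.ofReal (s ^ 3)
  diam : ∀ i, ∀ x ∈ c i, ∀ y ∈ c i, ‖x - y‖ ≤ 2 * s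
  sub : ∀ i, c i ⊆ Metric.ball a (2 * l)
  cover : Metric.ball a l ⊆ ⋃ i, c i
  card : (n : ℝ) * s ^ 3 ≤ 64 * l ^ 3

/-! ### The real modes -/

section modes

variable {L Λ : ℝ}

/-- photon energy -/
noncomputable def om (m : Mode L Λ) : ℝ := ‖kk m‖

/-- real mode functions `ε_i(k,μ) cas(k·x)/√V` -/
noncomputable def tA (ε : V3 → Fin 2 → V3) (i : Fin 3) (m : Mode L Λ) (x : V3) : ℝ :=
  ε (kk m) m.2 i * (Real.cos (inner ℝ (kk m) x) + Real.sin (inner ℝ (kk m) x)) / √(L ^ 3)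

/-- the classical potential `√α A` -/
noncomputable def aF (α : ℝ) (ε : V3 → Fin 2 → V3) (q : Mode L Λ → ℝ) (i : Fin 3) (x : V3) : ℝ :=
  ∑ m, √α / √(2 * om m) * q m * tA ε i m x

/-- the diagonal `√α d(k)/√(2|k|)`, `d = k²/(k²+ν)` -/
noncomputable def lD (α ν : ℝ) (m : Mode L Λ) : ℝ :=
  √α / √(2 * om m) * (om m ^ 2 / (om m ^ 2 + ν))

/-- the filtered potential `D` -/
noncomputable def DF (α ν : ℝ) (ε : V3 → Fin 2 → V3) (q : Mode L Λ → ℝ) (i : Fin 3) (x : V3) : ℝ :=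
  ∑ m, lD α ν m * q m * tA ε i m x

/-- coefficients of the filtered field strength `C` -/
noncomputable def cC (α ν : ℝ) (ε : V3 → Fin 2 → V3) (i j : Fin 3) (m : Mode L Λ) : ℂ :=
  (1 + Complex.I) * ((√α / √(2 * om m) / √(L ^ 3) / (om m ^ 2 + ν) *
    (kk m i * ε (kk m) m.2 j - kk m j * ε (kk m) m.2 i) : ℝ) : ℂ)

/-- the filtered field strength `C = (k²+ν)⁻¹ curl a` -/
noncomputable def CF (α ν : ℝ) (ε : V3 → Fin 2 → V3) (q : Mode L Λ → ℝ) (i j : Fin 3) (x : V3) :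
    ℝ := fld kk (fun m => cC α ν ε i j m * (q m : ℝ)) x

/-- the matrix `∫_Q ∑_i t_i t_iᵀ` -/
noncomputable def Pm (ε : V3 → Fin 2 → V3) (Q : Set V3) : Matrix (Mode L Λ) (Mode L Λ) ℝ :=
  fun m m' => ∫ x in Q, ∑ i, tA ε i m x * tA ε i m' x

/-- the matrix `∫ g ∑_i t_i t_iᵀ` -/
noncomputable def Am (ε : V3 → Fin 2 → V3) (g : V3 → ℝ) : Matrix (Mode L Λ) (Mode L Λ) ℝ :=
  fun m m' => ∫ x, g x * ∑ i, tA ε i m x * tA ε i m' x

/-- the classical picture of a one-electron state localised in `B(a,l)` -/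
structure Pic (α : ℝ) (ε : V3 → Fin 2 → V3) (a : V3) (l : ℝ) (φ : (Mode L Λ → ℝ) → V3 → ℂ)
    (μ h k : (Mode L Λ → ℝ) → ℝ) : Prop where
  sm : ∀ q, ContDiff ℝ ∞ (φ q)
  cpt : ∀ q, HasCompactSupport (φ q)
  supp : ∀ q x, φ q x ≠ 0 → x ∈ Metric.ball a l
  mu : ∀ q, μ q = ∫ x, ‖φ q x‖ ^ 2
  kin : ∀ q, k q = ∫ x, kd (aF α ε q) (φ q) x
  pair : Pair om μ h
  pk : PG k

end modes

/-- data of a real antisymmetric trial function with kinetic energy `T` and density `ρ` -/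
structure Trial {N : ℕ} (φ : Tst N) (T : ℝ) (ρ : V3 → ℝ) : Prop where
  anti : Anti φ
  real : ∀ σ x, (φ.val σ x).im = 0
  pos : 0 < ‖φ‖
  kin : ∑ j, ∑ i, ‖Tst.p (dir j i) φ‖ ^ 2 = T * ‖φ‖ ^ 2
  dens : ∀ F : V3 → ℝ, Continuous F →
    ∑ j, ∑ σ, ∫ x, ‖φ.val σ x‖ ^ 2 * F (x j) = ‖φ‖ ^ 2 * ∫ y, ρ y * F y

end Pool.Agent.Lib.LS
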